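import Pool.Agent.Lib_MP_b9fedf_sq.AbsZ
import Pool.Agent.Lib_MP_b9fedf_ag.Green

/-! Entire curves in projective space strongly tangent to many hypersurfaces. -/

set_option autoImplicit false

namespace Pool.Agent.SQ
open MvPolynomial

theorem zero_case {n : ℕ} (D : Finset (MvPolynomial (Fin (n + 1)) ℂ))
    (hD : ∀ P ∈ D, P.IsHomogeneous 0 ∧ Squarefree P)
    (hD' : ∀ P ∈ D, ∀ P' ∈ D, ∀ c : ℂ, P' = C c * P → P' = P) : D.card ≤ 1 := by
  rw [Finset.card_le_one]
  intro P hP P' hP'
  have h1 : ∀ Q ∈ D, Q = C (coeff 0 Q) := by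
    intro Q hQ
    exact totalDegree_eq_zero_iff_eq_C.mp (Nat.le_zero.mp (hD Q hQ).1.totalDegree_le)
  have h2 : coeff 0 P ≠ 0 := by
    intro h0
    apply (hD P hP).2.ne_zero
    rw [h1 P hP, h0, map_zero]
  symm
  apply hD' P hP P' hP' (coeff 0 P' / coeff 0 P)
  calc P' = C (coeff 0 P') := h1 P' hP'
    _ = C (coeff 0 P' / coeff 0 P) * C (coeff 0 P) := by rw [← map_mul, div_mul_cancel₀ _ h2]
    _ = C (coeff 0 P' / coeff 0 P) * P := by rw [← h1 P hP]

theorem exists_basis (n e : ℕ) : ∃ (m : ℕ), Nonempty (Module.Basis (Fin (m + 1)) ℂ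
    (homogeneousSubmodule (Fin (n + 1)) ℂ e)) := by
  have hfin : Module.Finite ℂ (homogeneousSubmodule (Fin (n + 1)) ℂ e) := hom_finite e
  have h0 : 0 < Module.finrank ℂ (homogeneousSubmodule (Fin (n + 1)) ℂ e) := by
    have : Nontrivial (homogeneousSubmodule (Fin (n + 1)) ℂ e) := by
      refine ⟨⟨⟨X 0 ^ e, ?_⟩, 0, ?_⟩⟩
      · rw [mem_homogeneousSubmodule]
        have := (isHomogeneous_X ℂ (0 : Fin (n + 1))).pow e
        rwa [one_mul] at this
      · intro h
        have h1 := congrArg Subtype.val h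
        exact pow_ne_zero e (X_ne_zero (0 : Fin (n + 1))) h1
    exact Module.finrank_pos
  refine ⟨Module.finrank ℂ (homogeneousSubmodule (Fin (n + 1)) ℂ e) - 1, ⟨?_⟩⟩
  exact Module.finBasisOfFinrankEq ℂ _ (by omega)

theorem curve_many (n e M : ℕ) : ∃ N₀ : ℕ, ∀ D : Finset (MvPolynomial (Fin (n + 1)) ℂ),
    (∀ P ∈ D, P.IsHomogeneous e ∧ Squarefree P) →
    (∀ P ∈ D, ∀ P' ∈ D, ∀ c : ℂ, P' = C c * P → P' = P) → N₀ < D.card →
    ∃ (d : ℕ) (Z : MvPolynomial (Fin (n + 1)) ℂ), Z ≠ 0 ∧ Z.IsHomogeneous d ∧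
    ∀ f : Fin (n + 1) → ℂ → ℂ, (∀ k, Differentiable ℂ (f k)) →
    (∀ P ∈ D, ∀ P' ∈ D, ∀ (z : ℂ) (a : ℕ),
      analyticOrderAt (fun ζ => eval (fun k => f k ζ) P') z = a →
      analyticOrderAt (fun ζ => eval (fun k => f k ζ) P) z = ((a + 1 : ℕ) : ℕ∞) →
      ∀ A ⊆ D, (∀ Q ∈ A, (a : ℕ∞) ≤ analyticOrderAt (fun ζ => eval (fun k => f k ζ) Q) z) →
        A.card ≤ M) →
    (∀ z, eval (fun k => f k z) Z = 0) ∨
      ∃ R : MvPolynomial (Fin (n + 1)) ℂ, R ≠ 0 ∧ R.IsHomogeneous e ∧
        ∀ z, eval (fun k => f k z) R = 0 := by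
  classical
  rcases Nat.eq_zero_or_pos e with rfl | he
  · refine ⟨1, fun D hD hD' hcard => ?_⟩
    exact absurd (zero_case D hD hD') (by omega)
  obtain ⟨m, ⟨b⟩⟩ := exists_basis n e
  set P : Fin (m + 1) → MvPolynomial (Fin (n + 1)) ℂ := fun i => (b i : _) with hP
  have hPh : ∀ i, (P i).IsHomogeneous e := fun i =>
    (mem_homogeneousSubmodule _ _).mp (b i).2
  -- coordinates
  set κ : MvPolynomial (Fin (n + 1)) ℂ → (Fin (m + 1) → ℂ) := fun Q =>
    if h : Q.IsHomogeneous e then b.equivFun ⟨Q, (mem_homogeneousSubmodule _ _).mpr h⟩ else 0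
    with hκ
  have hsum : ∀ v : Fin (m + 1) → ℂ, ∑ i, C (v i) * P i = ((b.equivFun.symm v : _) :
      MvPolynomial (Fin (n + 1)) ℂ) := by
    intro v
    rw [b.equivFun_symm_apply, AddSubmonoidClass.coe_finsetSum]
    apply Finset.sum_congr rfl
    intro i _
    rw [Submodule.coe_smul, smul_eq_C_mul]
  have hκ1 : ∀ Q : MvPolynomial (Fin (n + 1)) ℂ, Q.IsHomogeneous e →
      ∑ i, C (κ Q i) * P i = Q := by
    intro Q hQ
    rw [hsum, hκ]
    simp only [dif_pos hQ, LinearEquiv.symm_apply_apply]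
  obtain ⟨N₀, hN₀⟩ := abs_manyZ n e M m he
  refine ⟨N₀, fun D hD hD' hcard => ?_⟩
  have hinj : Set.InjOn κ D := by
    intro Q hQ Q' hQ' h
    rw [← hκ1 Q (hD Q hQ).1, ← hκ1 Q' (hD Q' hQ').1, h]
  have hPW : PW (D.image κ) := by
    intro a ha
    obtain ⟨Q, hQ, rfl⟩ := Finset.mem_image.mp ha
    refine ⟨?_, ?_⟩
    · intro h0
      apply (hD Q hQ).2.ne_zero
      rw [← hκ1 Q (hD Q hQ).1, h0]
      simp
    · intro b' hb' hab
      obtain ⟨Q', hQ', rfl⟩ := Finset.mem_image.mp hb'
      rw [LinearIndependent.pair_iff]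
      intro α β h
      have h1 : C α * Q + C β * Q' = 0 := by
        have h2 : ∑ i, C (α * κ Q i + β * κ Q' i) * P i = 0 := by
          apply Finset.sum_eq_zero
          intro i _
          have h3 := congrFun h i
          rw [Pi.add_apply, Pi.smul_apply, Pi.smul_apply, smul_eq_mul, smul_eq_mul,
            Pi.zero_apply] at h3
          rw [h3, map_zero, zero_mul]
        rw [← h2]
        conv_lhs => rw [← hκ1 Q (hD Q hQ).1, ← hκ1 Q' (hD Q' hQ').1]
        rw [Finset.mul_sum, Finset.mul_sum, ← Finset.sum_add_distrib]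
        apply Finset.sum_congr rfl
        intro i _
        rw [map_add, map_mul, map_mul]
        ring
      have hβ : β = 0 := by
        by_contra hβ
        apply hab
        have h4 : Q' = C (-α / β) * Q := by
          have h5 : C β * Q' = - (C α * Q) := by linear_combination h1
          have h6 : Q' = C (β⁻¹) * (C β * Q') := by
            rw [← mul_assoc, ← map_mul, inv_mul_cancel₀ hβ, map_one, one_mul]
          rw [h6, h5, neg_div, map_neg, div_eq_mul_inv, map_mul]
          ring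
        rw [hD' Q hQ Q' hQ' _ h4]
      refine ⟨?_, hβ⟩
      rw [hβ, map_zero, zero_mul, add_zero] at h1
      have h7 := (mul_eq_zero.mp h1).resolve_right (hD Q hQ).2.ne_zero
      exact (map_eq_zero_iff C (C_injective _ _)).mp h7
  have hcard' : N₀ < (D.image κ).card := by
    rw [Finset.card_image_of_injOn hinj]
    exact hcard
  obtain ⟨dZ, Z, hZ0, hZh, hZ⟩ := hN₀ P hPh (D.image κ) hPW hcard' (by
    intro a ha
    obtain ⟨Q, hQ, rfl⟩ := Finset.mem_image.mp ha
    rw [hκ1 Q (hD Q hQ).1]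
    exact (hD Q hQ).2)
  refine ⟨dZ, Z, hZ0, hZh, ?_⟩
  intro f hf htan
  set g : Fin (n + 1) → Ent := fun k => ⟨fun z => f k (Complex.exp z),
    (hf k).comp Complex.differentiable_exp⟩ with hg
  have hgv : ∀ k z, (g k).1 z = f k (Complex.exp z) := fun k z => rfl
  -- zeros of forms
  have hzero : ∀ R : MvPolynomial (Fin (n + 1)) ℂ, aeval g R = 0 →
      ∀ z, eval (fun k => f k z) R = 0 := by
    intro R hR
    have h1 : (fun w => eval (fun k => f k w) R) = fun _ => 0 := by
      apply GGL.eq_of_comp_exp _ continuous_const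
      · intro z
        have h2 := ent_aeval g R z
        rw [hR] at h2
        exact h2.symm
      · simp_rw [MvPolynomial.eval_eq']
        exact continuous_finsetSum _ fun a _ => continuous_const.mul
          (continuous_finsetProd _ fun k _ => (hf k).continuous.pow _)
    exact fun z => congrFun h1 z
  have hord : ∀ (u : ℂ → ℂ) (z : ℂ), analyticOrderAt (fun ζ => u (Complex.exp ζ)) z =
      analyticOrderAt u (Complex.exp z) := by
    intro u z
    exact analyticOrderAt_comp_of_deriv_ne_zero (f := u) (g := Complex.exp) (z₀ := z)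
      (by fun_prop) (by rw [Complex.deriv_exp]; exact Complex.exp_ne_zero z)
  by_cases hli : LinearIndependent ℂ (fun i => aeval g (P i))
  · left
    apply hzero
    apply hZ g hli
    · intro k z
      rw [hgv, hgv, Complex.exp_add, Complex.exp_two_pi_mul_I, mul_one]
    · have e1 : ∀ Q ∈ D, ∀ z, analyticOrderAt (fun ζ => ∑ k, κ Q k * (aeval g (P k)).1 ζ) z =
          analyticOrderAt (fun ζ => eval (fun k => f k ζ) Q) (Complex.exp z) := by
        intro Q hQ z
        rw [← hord]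
        congr 1
        funext ζ
        simp only [ent_aeval]
        conv_rhs => rw [← hκ1 Q (hD Q hQ).1]
        rw [map_sum]
        exact Finset.sum_congr rfl fun i _ => by rw [map_mul, eval_C]
      intro a ha b' hb' z c hb hc A' hA' hA'c
      obtain ⟨Q, hQ, rfl⟩ := Finset.mem_image.mp ha
      obtain ⟨Q', hQ', rfl⟩ := Finset.mem_image.mp hb'
      rw [e1 Q' hQ'] at hb
      rw [e1 Q hQ] at hc
      have h1 := htan Q hQ Q' hQ' (Complex.exp z) c hb hc (D.filter (fun Q => κ Q ∈ A'))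
        (Finset.filter_subset _ _) (by
        intro Q₁ hQ₁
        rw [← e1 Q₁ (Finset.mem_filter.mp hQ₁).1]
        exact hA'c _ (Finset.mem_filter.mp hQ₁).2)
      have h2 : (D.filter (fun Q => κ Q ∈ A')).image κ = A' := by
        ext x
        rw [Finset.mem_image]
        constructor
        · rintro ⟨Q₁, hQ₁, rfl⟩
          exact (Finset.mem_filter.mp hQ₁).2
        · intro hx
          obtain ⟨Q₁, hQ₁, rfl⟩ := Finset.mem_image.mp (hA' hx)
          exact ⟨Q₁, Finset.mem_filter.mpr ⟨hQ₁, hx⟩, rfl⟩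
      rw [← h2]
      exact Finset.card_image_le.trans h1
  · right
    rw [Fintype.linearIndependent_iff] at hli
    push Not at hli
    obtain ⟨c, hc, i, hi⟩ := hli
    refine ⟨∑ i, C (c i) * P i, ?_, ?_, ?_⟩
    · rw [hsum]
      intro h0
      have h1 : b.equivFun.symm c = 0 := Subtype.ext h0
      have h2 := (LinearEquiv.map_eq_zero_iff _).mp h1
      exact hi (congrFun h2 i)
    · rw [hsum]
      exact (mem_homogeneousSubmodule _ _).mp (b.equivFun.symm c).2
    · apply hzero
      rw [← hc, map_sum]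
      apply Finset.sum_congr rfl
      intro i _
      rw [map_mul, Algebra.smul_def]
      congr 1
      exact algHom_C _ _

end Pool.Agent.SQ
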