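import Mathlib

/-!
Piece HOMFAC of squad MP_b9fedf: a factor of a nonzero homogeneous polynomial is homogeneous.
-/

set_option autoImplicit false

namespace Pool.Agent.SQ

open MvPolynomial

/-- The ring hom `g ↦ g(t X)`. -/
private noncomputable def psiHomFac (σ K : Type) [Field K] :
    MvPolynomial σ K →+* Polynomial (MvPolynomial σ K) :=
  eval₂Hom (Polynomial.C.comp C) (fun i => Polynomial.C (X i) * Polynomial.X)

private theorem psiHomFac_monomial {σ K : Type} [Field K] (s : σ →₀ ℕ) (a : K) :
    psiHomFac σ K (monomial s a) = Polynomial.monomial s.degree (monomial s a) := by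
  unfold psiHomFac
  rw [coe_eval₂Hom, eval₂_monomial]
  have h1 : (s.prod fun i k => (Polynomial.C (X i) * Polynomial.X : Polynomial (MvPolynomial σ K)) ^ k)
      = Polynomial.C (s.prod fun i k => (X i : MvPolynomial σ K) ^ k) * Polynomial.X ^ s.degree := by
    unfold Finsupp.prod Finsupp.degree
    simp only [mul_pow, Finset.prod_mul_distrib, map_prod, map_pow, Finset.prod_pow_eq_pow_sum]
    rfl
  rw [h1, monomial_eq, ← Polynomial.C_mul_X_pow_eq_monomial]
  simp only [RingHom.comp_apply, map_mul]
  ring

private theorem psiHomFac_coeff {σ K : Type} [Field K] (g : MvPolynomial σ K) (n : ℕ) :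
    (psiHomFac σ K g).coeff n = homogeneousComponent n g := by
  classical
  induction g using MvPolynomial.induction_on' with
  | monomial s a =>
    rw [psiHomFac_monomial, Polynomial.coeff_monomial]
    ext m
    rw [coeff_homogeneousComponent]
    split_ifs with h1 h2 h2
    · rfl
    · rw [coeff_monomial]
      rw [if_neg]
      rintro rfl
      exact h2 h1
    · rw [coeff_monomial, if_neg, coeff_zero]
      rintro rfl
      exact h1 h2
    · exact coeff_zero _
  | add p q hp hq =>
    rw [map_add, Polynomial.coeff_add, hp, hq, map_add]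

private theorem homFac_of_eq {σ K : Type} [Field K] (g : MvPolynomial σ K)
    (h : (psiHomFac σ K g).natTrailingDegree = (psiHomFac σ K g).natDegree) :
    g.IsHomogeneous (psiHomFac σ K g).natDegree := by
  intro m hm
  by_contra hne
  have h1 : homogeneousComponent (Finsupp.degree m) g ≠ 0 := by
    intro h0
    have := congrArg (coeff m) h0
    rw [coeff_homogeneousComponent, if_pos rfl, coeff_zero] at this
    exact hm this
  rw [← psiHomFac_coeff] at h1
  have h2 := Polynomial.le_natDegree_of_ne_zero h1
  have h3 := Polynomial.natTrailingDegree_le_of_ne_zero h1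
  apply hne
  have h4 : Finsupp.degree m = (psiHomFac σ K g).natDegree := by omega
  rw [← h4, Finsupp.degree_eq_weight_one]
  rfl

/-- PIECE HOMFAC -/
theorem homogeneous_of_mul {σ : Type} {K : Type} [Field K] {d : ℕ} {g h : MvPolynomial σ K}
    (hgh : (g * h).IsHomogeneous d) (h0 : g * h ≠ 0) :
    ∃ d₁ d₂, d₁ + d₂ = d ∧ g.IsHomogeneous d₁ ∧ h.IsHomogeneous d₂ := by
  classical
  have key : psiHomFac σ K (g * h) = Polynomial.monomial d (g * h) := by
    ext1 n
    rw [psiHomFac_coeff, Polynomial.coeff_monomial]
    split_ifs with h1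
    · subst h1
      exact homogeneousComponent_of_mem hgh |>.trans (if_pos rfl)
    · exact (homogeneousComponent_of_mem hgh).trans (if_neg (fun h => h1 h.symm))
  rw [map_mul] at key
  have hne : psiHomFac σ K g * psiHomFac σ K h ≠ 0 := by
    rw [key]
    simpa using h0
  have hg0 : psiHomFac σ K g ≠ 0 := left_ne_zero_of_mul hne
  have hh0 : psiHomFac σ K h ≠ 0 := right_ne_zero_of_mul hne
  have e1 := Polynomial.natDegree_mul hg0 hh0
  have e2 := Polynomial.natTrailingDegree_mul hg0 hh0
  rw [key, Polynomial.natDegree_monomial, if_neg h0] at e1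
  rw [key, Polynomial.natTrailingDegree_monomial h0] at e2
  have e3 := Polynomial.natTrailingDegree_le_natDegree (psiHomFac σ K g)
  have e4 := Polynomial.natTrailingDegree_le_natDegree (psiHomFac σ K h)
  exact ⟨_, _, e1.symm, homFac_of_eq g (by omega), homFac_of_eq h (by omega)⟩

end Pool.Agent.SQ
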