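import Mathlib

/-! Definitions for the theorem on entire curves tangent to many hypersurfaces in any position. -/

set_option autoImplicit false

namespace Pool.Agent.SQ
open MvPolynomial

/-- polynomials in `k + 1` variables `u` and `j` further variables `r` -/
abbrev Sp (k j : ℕ) : Type := MvPolynomial (Fin (k + 1) ⊕ Fin j) ℂ

/-- polynomials in the variables `u` -/
abbrev Pp (k : ℕ) : Type := MvPolynomial (Fin (k + 1)) ℂ

/-- the inclusion of the polynomials in `u` -/
noncomputable def inc {k j : ℕ} : Pp k →ₐ[ℂ] Sp k j := rename Sum.inl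

/-- the linear form with coefficient vector `h` -/
noncomputable def lin {τ : Type} [Fintype τ] (h : τ → ℂ) : MvPolynomial τ ℂ :=
  ∑ i, C (h i) * X i

/-- the pairing `∑ a_i h_i` -/
def dt {τ : Type} [Fintype τ] (a h : τ → ℂ) : ℂ := ∑ i, a i * h i

/-- `(p·h')(y·h) - (p·h)(y·h')` -/
def wdt {τ : Type} [Fintype τ] (h h' y p : τ → ℂ) : ℂ :=
  dt p h' * dt y h - dt p h * dt y h'

/-- `g` vanishes on the set `A` -/
def Van {τ : Type} (A : Set (τ → ℂ)) (g : MvPolynomial τ ℂ) : Prop := ∀ a ∈ A, eval a g = 0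

/-- `A` is irreducible up to degree `D` -/
def Irr {τ : Type} (D : ℕ) (A : Set (τ → ℂ)) : Prop :=
  ∀ (d d' : ℕ) (g g' : MvPolynomial τ ℂ), g.IsHomogeneous d → g'.IsHomogeneous d' →
    d + d' ≤ D → Van A (g * g') → Van A g ∨ Van A g'

/-- no nonzero form of degree at most `D` in the variables `u` vanishes on `A` -/
def PDense {k j : ℕ} (D : ℕ) (A : Set (Fin (k + 1) ⊕ Fin j → ℂ)) : Prop :=
  ∀ d ≤ D, ∀ p : Pp k, p.IsHomogeneous d → Van A (inc p) → p = 0

/-- `I` is a homogeneous radical ideal, the quotient by `I` is a free module over the polynomials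
in `u` with homogeneous basis `b`. -/
structure CI {k j : ℕ} (I : Ideal (Sp k j)) (r : ℕ) (b : Fin r → Sp k j) (db : Fin r → ℕ) :
    Prop where
  hom : ∀ s ∈ I, ∀ d, homogeneousComponent d s ∈ I
  rad : ∀ s, s ^ 2 ∈ I → s ∈ I
  hb : ∀ i, (b i).IsHomogeneous (db i)
  span : ∀ d s, s.IsHomogeneous d → ∃ p : Fin r → Pp k,
    (∀ i, (p i).IsHomogeneous (d - db i) ∧ (d < db i → p i = 0)) ∧ s - ∑ i, inc (p i) * b i ∈ I
  indep : ∀ p : Fin r → Pp k, ∑ i, inc (p i) * b i ∈ I → p = 0

/-- the polynomials which kill (modulo `I`) all forms of degree at most `D` vanishing on `A` -/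
def VD {k j : ℕ} (I : Ideal (Sp k j)) (A : Set (Fin (k + 1) ⊕ Fin j → ℂ)) (D : ℕ) :
    Ideal (Sp k j) where
  carrier := {τ | ∀ d ≤ D, ∀ g : Sp k j, g.IsHomogeneous d → Van A g → τ * g ∈ I}
  add_mem' := by
    intro a b ha hb d hd g hg hv
    rw [add_mul]
    exact I.add_mem (ha d hd g hg hv) (hb d hd g hg hv)
  zero_mem' := by
    intro d _ g _ _
    rw [zero_mul]
    exact I.zero_mem
  smul_mem' := by
    intro c x hx d hd g hg hv
    rw [smul_eq_mul, mul_assoc]
    exact I.mul_mem_left c (hx d hd g hg hv)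

/-- the annihilator of `V` modulo `I` -/
def annI {k j : ℕ} (I V : Ideal (Sp k j)) : Ideal (Sp k j) where
  carrier := {ν | ∀ τ ∈ V, ν * τ ∈ I}
  add_mem' := by
    intro a b ha hb τ hτ
    rw [add_mul]
    exact I.add_mem (ha τ hτ) (hb τ hτ)
  zero_mem' := by
    intro τ _
    rw [zero_mul]
    exact I.zero_mem
  smul_mem' := by
    intro c x hx τ hτ
    rw [smul_eq_mul, mul_assoc]
    exact I.mul_mem_left c (hx τ hτ)

/-- the degree `d` part of `V` modulo `I` -/
noncomputable def vpart {k j : ℕ} (I V : Ideal (Sp k j)) (d : ℕ) : Submodule ℂ (Sp k j ⧸ I) :=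
  ((homogeneousSubmodule (Fin (k + 1) ⊕ Fin j) ℂ d) ⊓ (V.restrictScalars ℂ)).map
    (Ideal.Quotient.mkₐ ℂ I).toLinearMap

/-- its dimension -/
noncomputable def vdim {k j : ℕ} (I V : Ideal (Sp k j)) (d : ℕ) : ℕ :=
  Module.finrank ℂ (vpart I V d)

/-- The pair of linear forms `h`, `h'` is generic along the plane spanned by `e`, `e'`. -/
def GenAt {k j : ℕ} (N : Ideal (Sp k j)) (e e' : Fin (k + 1) → ℂ)
    (h h' : Fin (k + 1) ⊕ Fin j → ℂ) : Prop :=
  ∀ p : Fin (k + 1) ⊕ Fin j → ℂ, (∀ g ∈ N, eval p g = 0) →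
    (∃ α β : ℂ, ∀ i, p (Sum.inl i) = α * e i + β * e' i) → p ≠ 0 → dt p h = 0 → dt p h' ≠ 0

/-- `y` is a root of `G` in the variable `r_i` -/
def Rt {k j : ℕ} (G : Polynomial (Pp k)) (i : Fin j) (y : Fin (k + 1) ⊕ Fin j → ℂ) : Prop :=
  Polynomial.eval (y (Sum.inr i)) (G.map (eval fun l => y (Sum.inl l))) = 0

/-- homogeneous polynomials in `u` and one further variable -/
def HomP {k : ℕ} (G : Polynomial (Pp k)) : Prop :=
  ∀ l, (G.coeff l).IsHomogeneous (G.natDegree - l)

/-- generically separable polynomials -/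
def Sepa {k : ℕ} (G : Polynomial (Pp k)) : Prop :=
  ∃ δ : Pp k, δ ≠ 0 ∧ ∀ u : Fin (k + 1) → ℂ, eval u δ ≠ 0 → (G.map (eval u)).Separable

/-- the ideal of the polynomials vanishing at the common zeros of the `G i` -/
def YI {k j : ℕ} (G : Fin j → Polynomial (Pp k)) : Ideal (Sp k j) where
  carrier := {s | ∀ y, (∀ i, Rt (G i) i y) → eval y s = 0}
  add_mem' := by
    intro a b ha hb y hy
    rw [map_add, ha y hy, hb y hy, add_zero]
  zero_mem' := by
    intro y _
    rw [map_zero]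
  smul_mem' := by
    intro c x hx y hy
    rw [smul_eq_mul, map_mul, hx y hy, mul_zero]

/-- After a linear change of coordinates all but `k + 1` coordinates of the points of `A` are
roots of monic homogeneous polynomials of degree at most `E`. -/
def St (m k j E : ℕ) (A : Finset (Fin (m + 1) → ℂ)) : Prop :=
  ∃ Ψ : (Fin (m + 1) → ℂ) ≃ₗ[ℂ] (Fin (k + 1) ⊕ Fin j → ℂ), ∀ i : Fin j,
    ∃ G : Polynomial (Pp k), G.Monic ∧ G.natDegree ≤ E ∧ HomP G ∧ ∀ a ∈ A, Rt G i (Ψ a)

/-- pairwise non-proportional nonzero vectors -/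
def PW {τ : Type} (A : Finset (τ → ℂ)) : Prop :=
  ∀ a ∈ A, a ≠ 0 ∧ ∀ b ∈ A, a ≠ b → LinearIndependent ℂ ![a, b]

/-- the ring of entire functions -/
def Ent : Subalgebra ℂ (ℂ → ℂ) where
  carrier := {f | Differentiable ℂ f}
  mul_mem' := fun ha hb => Differentiable.mul ha hb
  add_mem' := fun ha hb => Differentiable.add ha hb
  algebraMap_mem' := fun r => differentiable_const r

/-- the derivative of an entire function -/
noncomputable def dE (f : Ent) : Ent :=
  ⟨deriv f.1, (show Differentiable ℂ f.1 from f.2).deriv⟩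

end Pool.Agent.SQ
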