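import Mathlib
import Pool.Agent.Lib_MP_b9fedf_sq.Defs

/-! PIECE DISC: the discriminant form of a linear system. -/

set_option autoImplicit false

namespace Pool.Agent.SQ
open MvPolynomial

/-- restriction of a polynomial to the line `x + T y` -/
private noncomputable def lineDisc {n : ℕ} {K : Type} [CommRing K] (x y : Fin (n + 1) → K) :
    MvPolynomial (Fin (n + 1)) K →+* Polynomial K :=
  MvPolynomial.eval₂Hom Polynomial.C
    (fun i => Polynomial.C (x i) + Polynomial.C (y i) * Polynomial.X)

private theorem lineDisc_C {n : ℕ} {K : Type} [CommRing K] (x y : Fin (n + 1) → K) (c : K) :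
    lineDisc x y (C c) = Polynomial.C c := by
  simp [lineDisc]

private theorem lineDisc_X {n : ℕ} {K : Type} [CommRing K] (x y : Fin (n + 1) → K)
    (i : Fin (n + 1)) :
    lineDisc x y (X i) = Polynomial.C (x i) + Polynomial.C (y i) * Polynomial.X := by
  simp [lineDisc]

private theorem lineDisc_map {n : ℕ} {K L : Type} [CommRing K] [CommRing L] (φ : K →+* L)
    (x y : Fin (n + 1) → K) (Q : MvPolynomial (Fin (n + 1)) K) :
    (lineDisc x y Q).map φ = lineDisc (fun i => φ (x i)) (fun i => φ (y i))
      (MvPolynomial.map φ Q) := by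
  have h : (Polynomial.mapRingHom φ).comp (lineDisc x y) =
      (lineDisc (fun i => φ (x i)) (fun i => φ (y i))).comp (MvPolynomial.map φ) := by
    apply MvPolynomial.ringHom_ext
    · intro c
      simp [lineDisc_C]
    · intro i
      simp [lineDisc_X]
  exact congrArg (fun f => f Q) h

private theorem mono_disc {n : ℕ} {K : Type} [CommRing K] (x y : Fin (n + 1) → K)
    (d : Fin (n + 1) → ℕ) (s : Finset (Fin (n + 1))) :
    (∏ i ∈ s, (Polynomial.C (x i) + Polynomial.C (y i) * Polynomial.X) ^ d i).natDegree
      ≤ ∑ i ∈ s, d i ∧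
    (∏ i ∈ s, (Polynomial.C (x i) + Polynomial.C (y i) * Polynomial.X) ^ d i).coeff
      (∑ i ∈ s, d i) = ∏ i ∈ s, y i ^ d i := by
  classical
  have h1 : ∀ i, (Polynomial.C (x i) + Polynomial.C (y i) * Polynomial.X).natDegree ≤ 1 := by
    intro i
    rw [add_comm]
    exact Polynomial.natDegree_linear_le
  induction s using Finset.induction_on with
  | empty => simp
  | insert i s hi ih =>
    rw [Finset.prod_insert hi, Finset.sum_insert hi, Finset.prod_insert hi]
    have h2 : ((Polynomial.C (x i) + Polynomial.C (y i) * Polynomial.X) ^ d i).natDegree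
        ≤ d i := by
      have := Polynomial.natDegree_pow_le_of_le (d i) (h1 i)
      simpa using this
    constructor
    · exact Polynomial.natDegree_mul_le_of_le h2 ih.1
    · rw [Polynomial.coeff_mul_add_eq_of_natDegree_le h2 ih.1, ih.2]
      congr 1
      have := Polynomial.coeff_pow_of_natDegree_le (m := d i) (h1 i)
      rw [mul_one] at this
      rw [this]
      simp

private theorem lineDisc_natDegree {n : ℕ} {K : Type} [CommRing K] (x y : Fin (n + 1) → K)
    (Q : MvPolynomial (Fin (n + 1)) K) : (lineDisc x y Q).natDegree ≤ Q.totalDegree := by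
  rw [lineDisc, MvPolynomial.coe_eval₂Hom, MvPolynomial.eval₂_eq']
  apply Polynomial.natDegree_sum_le_of_forall_le
  intro d hd
  refine (Polynomial.natDegree_C_mul_le _ _).trans ((mono_disc x y d Finset.univ).1.trans ?_)
  have := MvPolynomial.le_totalDegree hd
  rw [Finsupp.sum_fintype _ _ (fun _ => rfl)] at this
  exact this

private theorem lineDisc_coeff {n e : ℕ} {K : Type} [CommRing K] (x y : Fin (n + 1) → K)
    (Q : MvPolynomial (Fin (n + 1)) K) (hQ : Q.IsHomogeneous e) :
    (lineDisc x y Q).coeff e = eval y Q := by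
  rw [lineDisc, MvPolynomial.coe_eval₂Hom, MvPolynomial.eval₂_eq', MvPolynomial.eval_eq',
    Polynomial.finsetSum_coeff]
  apply Finset.sum_congr rfl
  intro d hd
  have h1 : ∑ i, d i = e := by
    have := hQ.degree_eq_sum_deg_support hd
    rw [this, ← Finsupp.degree_eq_sum, Finsupp.degree_apply]
  have := (mono_disc x y d Finset.univ).2
  rw [h1] at this
  rw [Polynomial.coeff_C_mul, this]


/-- the substitution `x ↦ x + T y` on `ℂ[x][T]` -/
private noncomputable def shDisc {n : ℕ} (y : Fin (n + 1) → ℂ) :
    Polynomial (MvPolynomial (Fin (n + 1)) ℂ) →+* Polynomial (MvPolynomial (Fin (n + 1)) ℂ) :=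
  Polynomial.eval₂RingHom
    (MvPolynomial.eval₂Hom (Polynomial.C.comp MvPolynomial.C)
      (fun i => Polynomial.C (X i) + Polynomial.C (C (y i)) * Polynomial.X)) Polynomial.X

private theorem shDisc_C {n : ℕ} (y : Fin (n + 1) → ℂ) (Q : MvPolynomial (Fin (n + 1)) ℂ) :
    shDisc y (Polynomial.C Q) =
      lineDisc (fun i => X i) (fun i => C (y i)) (MvPolynomial.map C Q) := by
  have h : (shDisc y).comp (Polynomial.C) =
      (lineDisc (fun i => X i) (fun i => C (y i))).comp (MvPolynomial.map C) := by
    apply MvPolynomial.ringHom_ext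
    · intro c
      simp [lineDisc_C, shDisc]
    · intro i
      simp [lineDisc_X, shDisc]
  exact congrArg (fun f => f Q) h

private theorem shDisc_comp {n : ℕ} (y : Fin (n + 1) → ℂ)
    (g : Polynomial (MvPolynomial (Fin (n + 1)) ℂ)) :
    shDisc y (shDisc (fun i => - y i) g) = g := by
  have h : (shDisc y).comp (shDisc (fun i => - y i)) = RingHom.id _ := by
    apply Polynomial.ringHom_ext'
    · apply MvPolynomial.ringHom_ext
      · intro c
        simp [shDisc]
      · intro i
        simp only [shDisc, map_neg, RingHom.coe_comp, Function.comp_apply,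
          Polynomial.coe_eval₂RingHom, Polynomial.eval₂_C, MvPolynomial.coe_eval₂Hom,
          MvPolynomial.eval₂_X, Polynomial.eval₂_add, Polynomial.eval₂_mul, Polynomial.eval₂_neg,
          MvPolynomial.eval₂_C, Polynomial.eval₂_X, RingHom.id_apply]
        ring
    · simp [shDisc]
  exact congrArg (fun f => f g) h

private theorem sqf_disc {n : ℕ} (y : Fin (n + 1) → ℂ) (Q : MvPolynomial (Fin (n + 1)) ℂ)
    (hQ : Squarefree Q) :
    Squarefree (lineDisc (fun i => X i) (fun i => C (y i)) (MvPolynomial.map C Q)) := by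
  intro g hg
  rw [← shDisc_C] at hg
  have h1 : shDisc (fun i => - y i) (shDisc y (Polynomial.C Q)) = Polynomial.C Q := by
    have := shDisc_comp (fun i => - y i) (Polynomial.C Q)
    simpa using this
  have h2 := map_dvd (shDisc (fun i => - y i)) hg
  rw [h1, map_mul] at h2
  have hQ0 : Q ≠ 0 := hQ.ne_zero
  have h3 : (shDisc (fun i => - y i) g).natDegree = 0 := by
    have h4 : (shDisc (fun i => - y i) g) ∣ Polynomial.C Q := (dvd_mul_right _ _).trans h2
    have h5 := Polynomial.natDegree_le_of_dvd h4 (by simpa using hQ0)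
    simpa using h5
  obtain ⟨g0, hg0⟩ := Polynomial.natDegree_eq_zero.mp h3
  rw [← hg0, ← Polynomial.C_mul, Polynomial.C_dvd_iff_dvd_coeff] at h2
  have h6 := h2 0
  rw [Polynomial.coeff_C_zero] at h6
  have h7 : IsUnit g0 := hQ g0 h6
  have h8 : IsUnit (shDisc (fun i => - y i) g) := by
    rw [← hg0]
    exact h7.map Polynomial.C
  have h9 := h8.map (shDisc y)
  rwa [shDisc_comp] at h9

private theorem gauss_disc {R : Type} [CommRing R] [IsDomain R] [UniqueFactorizationMonoid R]
    (q : Polynomial R) (hq : Squarefree q) :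
    Squarefree (q.map (algebraMap R (FractionRing R))) := by
  classical
  let : NormalizedGCDMonoid R := Nonempty.some inferInstance
  intro g hg
  have hq0 : q.map (algebraMap R (FractionRing R)) ≠ 0 := by
    rw [Polynomial.map_ne_zero_iff (IsFractionRing.injective R (FractionRing R))]
    exact hq.ne_zero
  have hg0 : g ≠ 0 := by
    rintro rfl
    rw [mul_zero, zero_dvd_iff] at hg
    exact hq0 hg
  set g1 := (IsLocalization.integerNormalization (nonZeroDivisors R) g).primPart with hg1
  have hprim : g1.IsPrimitive := Polynomial.isPrimitive_primPart _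
  obtain ⟨b, hb, hb2⟩ := IsLocalization.integerNormalization_spec (nonZeroDivisors R) g
  have h1 : (g1.map (algebraMap R (FractionRing R))) ∣ g := by
    have h2 : g1 ∣ IsLocalization.integerNormalization (nonZeroDivisors R) g := by
      exact Polynomial.primPart_dvd _
    have h3 := Polynomial.map_dvd (algebraMap R (FractionRing R)) h2
    rw [hb2] at h3
    have hb0 : (algebraMap R (FractionRing R)) b ≠ 0 := by
      intro h
      have := (injective_iff_map_eq_zero _).1 (IsFractionRing.injective R (FractionRing R)) b h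
      exact nonZeroDivisors.ne_zero hb this
    have h4 : g = Polynomial.C ((algebraMap R (FractionRing R)) b)⁻¹ * (b • g) := by
      rw [Algebra.smul_def, Polynomial.algebraMap_apply, ← mul_assoc, ← Polynomial.C_mul,
        inv_mul_cancel₀ hb0, Polynomial.C_1, one_mul]
    rw [h4]
    exact Dvd.dvd.mul_left h3 _
  have h5 : ((g1 * g1).map (algebraMap R (FractionRing R))) ∣
      q.map (algebraMap R (FractionRing R)) := by
    rw [Polynomial.map_mul]
    exact (mul_dvd_mul h1 h1).trans hg
  have h6 : g1 * g1 ∣ q :=
    (hprim.mul hprim).dvd_of_fraction_map_dvd_fraction_map h5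
  exact Polynomial.isUnit_or_eq_zero_of_isUnit_integerNormalization_primPart hg0 (hq g1 h6)


private theorem res_disc {n e : ℕ} (Q : MvPolynomial (Fin (n + 1)) ℂ) (hQ : Squarefree Q)
    (hh : Q.IsHomogeneous e) :
    ∃ x y : Fin (n + 1) → ℂ, Polynomial.resultant (lineDisc x y Q)
      (Polynomial.derivative (lineDisc x y Q)) e (e - 1) ≠ 0 := by
  have hQ0 : Q ≠ 0 := hQ.ne_zero
  obtain ⟨y, hy⟩ : ∃ y, eval y Q ≠ 0 := by
    by_contra hcon
    push Not at hcon
    exact hQ0 (MvPolynomial.funext fun y => by simpa using hcon y)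
  set q := lineDisc (fun i => X i) (fun i => C (y i)) (MvPolynomial.map C Q) with hq
  have hsq : Squarefree q := sqf_disc y Q hQ
  have hcoef : q.coeff e = C (eval y Q) := by
    rw [hq, lineDisc_coeff _ _ _ (hh.map C), MvPolynomial.eval_map]
    have := (MvPolynomial.eval₂_comp_left (C : ℂ →+* MvPolynomial (Fin (n + 1)) ℂ)
      (RingHom.id ℂ) y Q)
    rw [MvPolynomial.eval, MvPolynomial.coe_eval₂Hom, this]
    rfl
  have hdeg : q.natDegree ≤ e := by
    refine (lineDisc_natDegree _ _ _).trans ?_
    exact (hh.map C).totalDegree_le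
  set F := FractionRing (MvPolynomial (Fin (n + 1)) ℂ)
  set κ := algebraMap (MvPolynomial (Fin (n + 1)) ℂ) F with hκ
  have hinj : Function.Injective κ := IsFractionRing.injective _ _
  have hsep : (q.map κ).Separable := by
    rw [PerfectField.separable_iff_squarefree]
    exact gauss_disc q hsq
  have hlc : (q.map κ).coeff e ≠ 0 := by
    rw [Polynomial.coeff_map, hcoef]
    intro h
    have h2 := (injective_iff_map_eq_zero κ).1 hinj _ h
    rw [MvPolynomial.C_eq_zero] at h2
    exact hy h2
  have hnd : (q.map κ).natDegree = e :=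
    le_antisymm (Polynomial.natDegree_map_le.trans hdeg) (Polynomial.le_natDegree_of_ne_zero hlc)
  have hnd' : (Polynomial.derivative (q.map κ)).natDegree = e - 1 := by
    rw [Polynomial.natDegree_derivative, hnd]
  have hres : Polynomial.resultant (q.map κ) (Polynomial.derivative (q.map κ)) e (e - 1) ≠ 0 := by
    have := Polynomial.resultant_ne_zero (q.map κ) (Polynomial.derivative (q.map κ)) hsep
    rwa [hnd, hnd'] at this
  rw [Polynomial.derivative_map, Polynomial.resultant_map_map] at hres
  have hres2 : Polynomial.resultant q (Polynomial.derivative q) e (e - 1) ≠ 0 := by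
    intro h
    rw [h, map_zero] at hres
    exact hres rfl
  obtain ⟨x, hx⟩ : ∃ x, eval x (Polynomial.resultant q (Polynomial.derivative q) e (e - 1)) ≠ 0 := by
    by_contra hcon
    push Not at hcon
    exact hres2 (MvPolynomial.funext fun y => by simpa using hcon y)
  refine ⟨x, y, ?_⟩
  have hx2 := hx
  rw [← Polynomial.resultant_map_map, ← Polynomial.derivative_map] at hx2
  have hqx : q.map (eval x) = lineDisc x y Q := by
    have hid : (eval x).comp (C : ℂ →+* MvPolynomial (Fin (n + 1)) ℂ) = RingHom.id ℂ := by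
      ext c
      simp
    rw [hq, lineDisc_map, MvPolynomial.map_map, hid, MvPolynomial.map_id]
    simp
  rwa [hqx] at hx2


private theorem vanish_disc {n e : ℕ} {Ω : Type} [Field Ω] (he : 1 ≤ e)
    (Q : MvPolynomial (Fin (n + 1)) Ω) (hQ : Q.IsHomogeneous e) (x y : Fin (n + 1) → Ω)
    (h : Q = 0 ∨ ∃ H : MvPolynomial (Fin (n + 1)) Ω, ¬ IsUnit H ∧ H * H ∣ Q) :
    Polynomial.resultant (lineDisc x y Q) (Polynomial.derivative (lineDisc x y Q)) e (e - 1)
      = 0 := by
  by_cases hQ0 : Q = 0
  · rw [hQ0, map_zero, Polynomial.derivative_zero, Polynomial.resultant_zero_zero]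
    exact zero_pow (by omega)
  rcases h with h | ⟨H, hH, G, hG⟩
  · exact absurd h hQ0
  have hH0 : H ≠ 0 := by
    rintro rfl
    apply hQ0
    rw [hG]
    ring
  have hG0 : G ≠ 0 := by
    rintro rfl
    apply hQ0
    rw [hG]
    ring
  have hHd : 1 ≤ H.totalDegree := by
    by_contra hcon
    have h0 : H.totalDegree = 0 := by omega
    rw [MvPolynomial.totalDegree_eq_zero_iff_eq_C] at h0
    apply hH
    rw [h0]
    apply IsUnit.map
    rw [isUnit_iff_ne_zero]
    intro h1
    apply hH0
    rw [h0, h1, map_zero]
  have htot : e = H.totalDegree + H.totalDegree + G.totalDegree := by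
    rw [← hQ.totalDegree hQ0, hG, MvPolynomial.totalDegree_mul_of_isDomain (mul_ne_zero hH0 hH0) hG0,
      MvPolynomial.totalDegree_mul_of_isDomain hH0 hH0]
  set f := lineDisc x y Q with hf
  set u := lineDisc x y H with hu
  set v := lineDisc x y G with hv
  have hfuv : f = u * u * v := by
    rw [hf, hG, map_mul, map_mul]
  have hfd : f.natDegree ≤ e := by
    have := lineDisc_natDegree x y Q
    rwa [hQ.totalDegree hQ0] at this
  have hfd' : (Polynomial.derivative f).natDegree ≤ e - 1 :=
    (Polynomial.natDegree_derivative_le f).trans (by omega)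
  by_cases hu0 : u.natDegree = 0
  · have h1 : f.natDegree ≤ G.totalDegree := by
      rw [hfuv]
      refine Polynomial.natDegree_mul_le.trans ?_
      have h2 : (u * u).natDegree = 0 := by
        have := Polynomial.natDegree_mul_le (p := u) (q := u)
        omega
      rw [h2, zero_add]
      exact lineDisc_natDegree x y G
    apply Polynomial.resultant_eq_zero_of_lt_lt
    · omega
    · have := Polynomial.natDegree_derivative_le f
      omega
  · obtain ⟨A, B, -, -, hAB⟩ := Polynomial.exists_mul_add_mul_eq_C_resultant f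
      (Polynomial.derivative f) hfd hfd' (Or.inl (by omega))
    by_contra hne
    have hdv : u ∣ Polynomial.C (f.resultant (Polynomial.derivative f) e (e - 1)) := by
      rw [← hAB]
      apply dvd_add
      · rw [hfuv]
        exact ⟨u * v * A, by ring⟩
      · rw [hfuv, Polynomial.derivative_mul, Polynomial.derivative_mul]
        exact ⟨((Polynomial.derivative u + Polynomial.derivative u) * v +
          u * Polynomial.derivative v) * B, by ring⟩
    have hun : IsUnit (Polynomial.C (f.resultant (Polynomial.derivative f) e (e - 1))) := by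
      rw [Polynomial.isUnit_C, isUnit_iff_ne_zero]
      exact hne
    have huu := isUnit_of_dvd_unit hdv hun
    exact hu0 (Polynomial.natDegree_eq_zero_of_isUnit huu)

/-- PIECE DISC -/
theorem disc_form {n m e : ℕ} (he : 1 ≤ e) (P : Fin (m + 1) → MvPolynomial (Fin (n + 1)) ℂ)
    (hP : ∀ i, (P i).IsHomogeneous e) (a : Fin (m + 1) → ℂ)
    (ha : Squarefree (∑ i, C (a i) * P i)) :
    ∃ s : MvPolynomial (Fin (m + 1)) ℂ, s.IsHomogeneous (2 * e - 1) ∧ eval a s ≠ 0 ∧
      ∀ (Ω : Type) [Field Ω] (φ : ℂ →+* Ω) (p : Fin (m + 1) → Ω),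
        ((∑ i, C (p i) * MvPolynomial.map φ (P i) = 0) ∨ ∃ H : MvPolynomial (Fin (n + 1)) Ω,
          ¬ IsUnit H ∧ H * H ∣ ∑ i, C (p i) * MvPolynomial.map φ (P i)) →
        s.eval₂ φ p = 0 := by
  have hhom : ∀ (K : Type) [CommRing K] (φ : ℂ →+* K) (p : Fin (m + 1) → K),
      (∑ i, C (p i) * MvPolynomial.map φ (P i)).IsHomogeneous e := by
    intro K _ φ p
    apply MvPolynomial.IsHomogeneous.sum
    intro i _
    exact ((hP i).map φ).C_mul (p i)
  have ha' : (∑ i, C (a i) * P i).IsHomogeneous e := by
    apply MvPolynomial.IsHomogeneous.sum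
    intro i _
    exact (hP i).C_mul (a i)
  obtain ⟨x, y, hxy⟩ := res_disc _ ha ha'
  set q : Polynomial (MvPolynomial (Fin (m + 1)) ℂ) :=
    ∑ i, Polynomial.C (X i) * (lineDisc x y (P i)).map C with hq
  have hmap : ∀ (K : Type) [CommRing K] (φ : ℂ →+* K) (p : Fin (m + 1) → K),
      q.map (MvPolynomial.eval₂Hom φ p) = lineDisc (fun i => φ (x i)) (fun i => φ (y i))
        (∑ i, C (p i) * MvPolynomial.map φ (P i)) := by
    intro K _ φ p
    rw [hq, Polynomial.map_sum, map_sum]
    apply Finset.sum_congr rfl
    intro i _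
    rw [Polynomial.map_mul, Polynomial.map_C, MvPolynomial.coe_eval₂Hom, MvPolynomial.eval₂_X,
      map_mul, lineDisc_C, Polynomial.map_map, ← lineDisc_map]
    congr 2
    ext c
    simp
  have hcoef : ∀ k, (q.coeff k).IsHomogeneous 1 := by
    intro k
    rw [hq, Polynomial.finsetSum_coeff]
    apply MvPolynomial.IsHomogeneous.sum
    intro i _
    rw [Polynomial.coeff_C_mul, Polynomial.coeff_map, mul_comm]
    exact (MvPolynomial.isHomogeneous_X ℂ i).C_mul _
  have hcoef' : ∀ k, ((Polynomial.derivative q).coeff k).IsHomogeneous 1 := by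
    intro k
    rw [Polynomial.coeff_derivative, mul_comm]
    have := (hcoef (k + 1)).C_mul ((k : ℂ) + 1)
    simpa using this
  refine ⟨q.resultant (Polynomial.derivative q) e (e - 1), ?_, ?_, ?_⟩
  · rw [Polynomial.resultant, Matrix.det_apply]
    apply MvPolynomial.IsHomogeneous.sum
    intro σ _
    have hprod : (∏ i, (q.sylvester (Polynomial.derivative q) e (e - 1)) (σ i) i).IsHomogeneous
        (2 * e - 1) := by
      have h1 := MvPolynomial.IsHomogeneous.prod (R := ℂ) (σ := Fin (m + 1))
        (Finset.univ : Finset (Fin (e + (e - 1))))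
        (fun i => (q.sylvester (Polynomial.derivative q) e (e - 1)) (σ i) i) (fun _ => 1) (by
          intro i _
          simp only [Polynomial.sylvester, Matrix.of_apply]
          induction i using Fin.addCases with
          | left j =>
            simp only [Fin.addCases_left]
            split_ifs
            · exact hcoef' _
            · exact MvPolynomial.isHomogeneous_zero _ _ _
          | right j =>
            simp only [Fin.addCases_right]
            split_ifs
            · exact hcoef _
            · exact MvPolynomial.isHomogeneous_zero _ _ _)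
      have h2 : ∑ _i : Fin (e + (e - 1)), 1 = 2 * e - 1 := by
        simp
        omega
      rwa [h2] at h1
    have := hprod.C_mul (((Equiv.Perm.sign σ : ℤ) : ℂ))
    rw [Units.smul_def, zsmul_eq_mul]
    simpa using this
  · have h1 := hmap ℂ (RingHom.id ℂ) a
    have h2 : (MvPolynomial.eval₂Hom (RingHom.id ℂ) a) = eval a := rfl
    have h3 : (∑ i, C (a i) * MvPolynomial.map (RingHom.id ℂ) (P i)) = ∑ i, C (a i) * P i := by
      apply Finset.sum_congr rfl
      intro i _
      rw [MvPolynomial.map_id]
    rw [h2, h3] at h1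
    have h4 : (fun i => (RingHom.id ℂ) (x i)) = x := rfl
    have h5 : (fun i => (RingHom.id ℂ) (y i)) = y := rfl
    rw [h4, h5] at h1
    rw [← Polynomial.resultant_map_map, ← Polynomial.derivative_map, h1]
    exact hxy
  · intro Ω _ φ p h
    have h1 := hmap Ω φ p
    have h2 : ∀ w : MvPolynomial (Fin (m + 1)) ℂ,
        w.eval₂ φ p = (MvPolynomial.eval₂Hom φ p) w := fun w => rfl
    rw [h2, ← Polynomial.resultant_map_map, ← Polynomial.derivative_map, h1]
    exact vanish_disc he _ (hhom Ω φ p) _ _ h

end Pool.Agent.SQ
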