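import Pool.Agent.Lib_MP_b9fedf_sq.EntDom

/-! Piece DER: the derivation of entire functions extends to algebraic extensions. -/

set_option autoImplicit false

namespace Pool.Agent.SQ
open MvPolynomial
open scoped TensorProduct

/-- a meromorphic function with derivative zero is constant -/
private theorem const_of_wronskian (a b : Ent) (hb : b ≠ 0) (h : dE a * b = a * dE b) :
    ∃ c : ℂ, a = algebraMap ℂ Ent c * b := by
  obtain ⟨z₀, hz₀⟩ := (Ent.ne_zero_iff b).mp hb
  refine ⟨a.1 z₀ / b.1 z₀, ?_⟩
  set c := a.1 z₀ / b.1 z₀ with hc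
  have hopen : IsOpen {z | b.1 z ≠ 0} := isOpen_ne_fun (Ent.diff b).continuous continuous_const
  obtain ⟨r, hr, hball⟩ := Metric.isOpen_iff.1 hopen z₀ hz₀
  have hw : ∀ z, deriv a.1 z * b.1 z = a.1 z * deriv b.1 z := fun z =>
    congrFun (congrArg Subtype.val h) z
  have hq : ∀ z ∈ Metric.ball z₀ r, HasDerivAt (fun z => a.1 z / b.1 z) 0 z := by
    intro z hz
    have h1 := ((Ent.diff a).differentiableAt (x := z)).hasDerivAt.div
      ((Ent.diff b).differentiableAt (x := z)).hasDerivAt (hball hz)
    have h2 : (deriv a.1 z * b.1 z - a.1 z * deriv b.1 z) / b.1 z ^ 2 = 0 := by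
      rw [hw z, sub_self, zero_div]
    rw [h2] at h1
    exact h1
  have hcon : ∀ z ∈ Metric.ball z₀ r, a.1 z / b.1 z = c := by
    intro z hz
    have h1 : (fun z => a.1 z / b.1 z) z = (fun z => a.1 z / b.1 z) z₀ :=
      Metric.isOpen_ball.is_const_of_deriv_eq_zero
        (convex_ball z₀ r).isPreconnected
        (fun z hz => (hq z hz).differentiableAt.differentiableWithinAt)
        (fun z hz => (hq z hz).deriv) hz (Metric.mem_ball_self hr)
    exact h1
  have h5 : AnalyticOnNhd ℂ a.1 Set.univ := (Ent.diff a).differentiableOn.analyticOnNhd isOpen_univ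
  have h6 : AnalyticOnNhd ℂ (algebraMap ℂ Ent c * b).1 Set.univ :=
    (Ent.diff _).differentiableOn.analyticOnNhd isOpen_univ
  have h7 : a.1 =ᶠ[nhds z₀] (algebraMap ℂ Ent c * b).1 := by
    filter_upwards [Metric.ball_mem_nhds z₀ hr] with z hz
    show a.1 z = c * b.1 z
    have hbz : b.1 z ≠ 0 := hball hz
    rw [← hcon z hz, div_mul_cancel₀ _ hbz]
  exact Subtype.ext (h5.eq_of_eventuallyEq h6 h7)

/-- constants among the elements which are algebraic over a field on whose elements the constants
are known -/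
private theorem const_alg {K Ω : Type} [Field K] [Field Ω] [Algebra K Ω] [CharZero K]
    (D : Derivation ℤ Ω Ω) (hK : ∀ k : K, ∃ k' : K, D (algebraMap K Ω k) = algebraMap K Ω k')
    (j : ℂ →+* Ω) (hc : ∀ k : K, D (algebraMap K Ω k) = 0 → ∃ c : ℂ, algebraMap K Ω k = j c)
    (x : Ω) (hx : IsIntegral K x) (hDx : D x = 0) : ∃ c : ℂ, x = j c := by
  choose d hd using hK
  set p := minpoly K x with hp
  have hmon : p.Monic := minpoly.monic hx
  have h1 : ∑ i ∈ Finset.range p.natDegree, algebraMap K Ω (d (p.coeff i)) * x ^ i = 0 := by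
    have h2 : Polynomial.aeval x p = 0 := minpoly.aeval K x
    rw [Polynomial.aeval_eq_sum_range, Finset.sum_range_succ] at h2
    have h3 := congrArg D h2
    rw [map_add, map_sum, map_zero] at h3
    have h4 : ∀ (k : K) (i : ℕ), D (k • x ^ i) = algebraMap K Ω (d k) * x ^ i := by
      intro k i
      rw [Algebra.smul_def, Derivation.leibniz, Derivation.leibniz_pow, hDx, smul_zero, smul_zero,
        smul_zero, zero_add, hd, smul_eq_mul, mul_comm]
    simp only [h4] at h3
    have h5 : algebraMap K Ω (d (p.coeff p.natDegree)) = 0 := by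
      rw [← hd]
      have h6 : p.coeff p.natDegree = 1 := hmon
      rw [h6, map_one, Derivation.map_one_eq_zero]
    rw [h5, zero_mul, add_zero] at h3
    exact h3
  set q : Polynomial K := ∑ i ∈ Finset.range p.natDegree, Polynomial.C (d (p.coeff i)) *
    Polynomial.X ^ i with hq
  have hqx : Polynomial.aeval x q = 0 := by
    rw [hq, map_sum, ← h1]
    apply Finset.sum_congr rfl
    intro i _
    rw [map_mul, map_pow, Polynomial.aeval_X, Polynomial.aeval_C]
  have hqd : q.degree < p.degree := by
    rw [Polynomial.degree_eq_natDegree hmon.ne_zero]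
    refine (Polynomial.degree_sum_le _ _).trans_lt ?_
    rw [Finset.sup_lt_iff (WithBot.bot_lt_coe _)]
    intro i hi
    refine (Polynomial.degree_C_mul_X_pow_le i _).trans_lt ?_
    exact_mod_cast Finset.mem_range.1 hi
  have hq0 : q = 0 := Polynomial.eq_zero_of_dvd_of_degree_lt (minpoly.dvd K x hqx) hqd
  have h2 : ∀ i, D (algebraMap K Ω (p.coeff i)) = 0 := by
    intro i
    rcases lt_trichotomy i p.natDegree with hi | hi | hi
    · have h3 : q.coeff i = d (p.coeff i) := by
        rw [hq, Polynomial.finsetSum_coeff, Finset.sum_eq_single i]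
        · rw [Polynomial.coeff_C_mul_X_pow, if_pos rfl]
        · intro b _ hb
          rw [Polynomial.coeff_C_mul_X_pow, if_neg (Ne.symm hb)]
        · intro h
          exact absurd (Finset.mem_range.2 hi) h
      rw [hd, ← h3, hq0, Polynomial.coeff_zero, map_zero]
    · have h6 : p.coeff i = 1 := by
        rw [hi]
        exact hmon
      rw [h6, map_one, Derivation.map_one_eq_zero]
    · rw [Polynomial.coeff_eq_zero_of_natDegree_lt hi, map_zero, map_zero]
  choose c hcc using fun i => hc (p.coeff i) (h2 i)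
  let _ : Algebra ℂ Ω := j.toAlgebra
  have hint : IsAlgebraic ℂ x := by
    refine ⟨∑ i ∈ Finset.range (p.natDegree + 1), Polynomial.C (c i) * Polynomial.X ^ i, ?_, ?_⟩
    · intro h
      have h3 := congrArg (fun P => Polynomial.coeff P p.natDegree) h
      simp only [Polynomial.finsetSum_coeff, Polynomial.coeff_C_mul_X_pow,
        Polynomial.coeff_zero] at h3
      rw [Finset.sum_eq_single p.natDegree] at h3
      · rw [if_pos rfl] at h3
        have h4 := hcc p.natDegree
        rw [h3, map_zero, hmon.coeff_natDegree, map_one] at h4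
        exact one_ne_zero h4
      · intro b _ hb
        rw [if_neg (Ne.symm hb)]
      · intro h
        exact absurd (Finset.mem_range.2 (Nat.lt_succ_self _)) h
    · rw [map_sum]
      have h3 : Polynomial.aeval x p = 0 := minpoly.aeval K x
      rw [Polynomial.aeval_eq_sum_range] at h3
      rw [← h3]
      apply Finset.sum_congr rfl
      intro i _
      rw [map_mul, map_pow, Polynomial.aeval_X, Polynomial.aeval_C, Algebra.smul_def, hcc]
      rfl
  have h5 := minpoly.mem_range_of_degree_eq_one ℂ x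
    (IsAlgClosed.degree_eq_one_of_irreducible ℂ (minpoly.irreducible hint.isIntegral))
  obtain ⟨c', hc'⟩ := h5
  exact ⟨c', hc'.symm⟩

theorem der_ext [IsDomain Ent] (Ω : Type) [Field Ω] (ψ : Ent →+* Ω)
    (hψ : Function.Injective ψ)
    (halg : ∀ x : Ω, ∃ P : Polynomial Ent, P ≠ 0 ∧ P.eval₂ ψ x = 0) :
    ∃ D : Derivation ℤ Ω Ω, (∀ f : Ent, D (ψ f) = ψ (dE f)) ∧
      ∀ x : Ω, D x = 0 → ∃ c : ℂ, x = ψ (algebraMap ℂ Ent c) := by
  let _ : Algebra Ent Ω := ψ.toAlgebra
  have : FaithfulSMul Ent Ω := (faithfulSMul_iff_algebraMap_injective Ent Ω).2 hψ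
  let _ : Algebra (FractionRing Ent) Ω := FractionRing.liftAlgebra Ent Ω
  have : IsScalarTower Ent (FractionRing Ent) Ω := FractionRing.isScalarTower_liftAlgebra Ent Ω
  have : Algebra.IsAlgebraic Ent Ω := ⟨fun x => by
    obtain ⟨P, hP, h⟩ := halg x
    exact ⟨P, hP, h⟩⟩
  have : Algebra.IsAlgebraic (FractionRing Ent) Ω :=
    Algebra.IsAlgebraic.extendScalars (R := Ent) (IsFractionRing.injective Ent (FractionRing Ent))
  have : CharZero (FractionRing Ent) :=
    charZero_of_injective_algebraMap (IsFractionRing.injective Ent (FractionRing Ent))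
  have : Algebra.FormallyEtale Ent (FractionRing Ent) :=
    Algebra.FormallyEtale.of_isLocalization (nonZeroDivisors Ent)
  have : Algebra.FormallyEtale (FractionRing Ent) Ω :=
    Algebra.FormallyEtale.of_isSeparable (FractionRing Ent) Ω
  have : Algebra.FormallyEtale Ent Ω := Algebra.FormallyEtale.comp Ent (FractionRing Ent) Ω
  let d0 : Derivation ℤ Ent Ω := (Algebra.linearMap Ent Ω).compDer (derE.restrictScalars ℤ)
  let e := KaehlerDifferential.tensorKaehlerEquivOfFormallyEtale ℤ Ent Ω
  let g : (Ω ⊗[Ent] KaehlerDifferential ℤ Ent) →ₗ[Ω] Ω :=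
    LinearMap.liftBaseChange Ω d0.liftKaehlerDifferential
  let D : Derivation ℤ Ω Ω := (g.comp e.symm.toLinearMap).compDer (KaehlerDifferential.D ℤ Ω)
  have hD : ∀ f : Ent, D (ψ f) = ψ (dE f) := by
    intro f
    show g (e.symm (KaehlerDifferential.D ℤ Ω (algebraMap Ent Ω f))) = _
    rw [KaehlerDifferential.tensorKaehlerEquivOfFormallyEtale_symm_D_algebraMap]
    show LinearMap.liftBaseChange Ω d0.liftKaehlerDifferential (1 ⊗ₜ _) = _
    rw [LinearMap.liftBaseChange_tmul, one_smul, Derivation.liftKaehlerDifferential_comp_D]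
    rfl
  refine ⟨D, hD, ?_⟩
  intro x hx
  have hfrac : ∀ k : FractionRing Ent, ∃ a b : Ent, b ≠ 0 ∧
      algebraMap (FractionRing Ent) Ω k = ψ a / ψ b := by
    intro k
    obtain ⟨a, b, hb, rfl⟩ := IsFractionRing.div_surjective (A := Ent) k
    refine ⟨a, b, nonZeroDivisors.ne_zero hb, ?_⟩
    rw [map_div₀, ← IsScalarTower.algebraMap_apply, ← IsScalarTower.algebraMap_apply]
    rfl
  have hDfrac : ∀ a b : Ent, b ≠ 0 → D (ψ a / ψ b) = ψ (dE a * b - a * dE b) / ψ (b * b) := by
    intro a b hb
    have hb' : ψ b ≠ 0 := fun h => hb (hψ (by rw [h, map_zero]))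
    rw [Derivation.leibniz_div, hD, hD]
    simp only [smul_eq_mul, map_sub, map_mul]
    field_simp
  apply const_alg (K := FractionRing Ent) D ?_ (ψ.comp (algebraMap ℂ Ent)) ?_ x
    (Algebra.IsAlgebraic.isAlgebraic x).isIntegral hx
  · intro k
    obtain ⟨a, b, hb, h⟩ := hfrac k
    refine ⟨algebraMap Ent (FractionRing Ent) (dE a * b - a * dE b) /
      algebraMap Ent (FractionRing Ent) (b * b), ?_⟩
    rw [h, hDfrac a b hb, map_div₀, ← IsScalarTower.algebraMap_apply,
      ← IsScalarTower.algebraMap_apply]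
    rfl
  · intro k hk
    obtain ⟨a, b, hb, h⟩ := hfrac k
    have hb' : ψ b ≠ 0 := fun h => hb (hψ (by rw [h, map_zero]))
    rw [h, hDfrac a b hb] at hk
    rw [div_eq_zero_iff, map_mul, mul_self_eq_zero] at hk
    have h1 : dE a * b - a * dE b = 0 := hψ (by rw [hk.resolve_right hb', map_zero])
    obtain ⟨c, hc⟩ := const_of_wronskian a b hb (sub_eq_zero.1 h1)
    refine ⟨c, ?_⟩
    rw [h, hc, map_mul, mul_div_assoc, div_self hb', mul_one]
    rfl

end Pool.Agent.SQ
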