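import Pool.Agent.Lib_MP_b9fedf_sq.Defs2

/-! The ring of entire functions is a domain. -/

set_option autoImplicit false

namespace Pool.Agent.SQ
open MvPolynomial

theorem Ent.diff (f : Ent) : Differentiable ℂ f.1 := f.2

theorem Ent.ext' {f g : Ent} (h : ∀ z, f.1 z = g.1 z) : f = g := Subtype.ext (funext h)

theorem Ent.ne_zero_iff (f : Ent) : f ≠ 0 ↔ ∃ z, f.1 z ≠ 0 := by
  constructor
  · intro h
    by_contra hcon
    push Not at hcon
    exact h (Ent.ext' (fun z => by rw [hcon z]; rfl))
  · rintro ⟨z, hz⟩ rfl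
    exact hz rfl

theorem ent_mul_eq_zero {f g : Ent} (h : f * g = 0) : f = 0 ∨ g = 0 := by
  by_cases hf : f = 0
  · exact Or.inl hf
  right
  obtain ⟨z₀, hz₀⟩ := (Ent.ne_zero_iff f).mp hf
  have h1 : ∀ z, f.1 z * g.1 z = 0 := fun z => congrFun (congrArg Subtype.val h) z
  have h2 : ∀ᶠ z in nhds z₀, g.1 z = 0 := by
    have h3 : ∀ᶠ z in nhds z₀, f.1 z ≠ 0 :=
      (Ent.diff f).continuous.continuousAt.eventually_ne hz₀
    filter_upwards [h3] with z hz
    exact (mul_eq_zero.mp (h1 z)).resolve_left hz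
  have h4 : g.1 = 0 := by
    have h5 : AnalyticOnNhd ℂ g.1 Set.univ := (Ent.diff g).differentiableOn.analyticOnNhd isOpen_univ
    have h6 : AnalyticOnNhd ℂ (0 : ℂ → ℂ) Set.univ := analyticOnNhd_const
    exact h5.eq_of_eventuallyEq h6 h2
  exact Subtype.ext h4

instance : Nontrivial Ent := ⟨⟨0, 1, fun h => by
  have := congrFun (congrArg Subtype.val h) (0 : ℂ)
  have h2 : (0 : ℂ) = 1 := this
  exact zero_ne_one h2⟩⟩

instance : IsDomain Ent :=
  have : NoZeroDivisors Ent := ⟨fun h => ent_mul_eq_zero h⟩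
  NoZeroDivisors.to_isDomain Ent

instance : CharZero Ent := by
  refine ⟨fun a b h => ?_⟩
  have h1 : ((a : Ent)).1 0 = ((b : Ent)).1 0 := by rw [h]
  have h2 : ∀ n : ℕ, ((n : Ent)).1 0 = (n : ℂ) := by
    intro n
    induction n with
    | zero => simp
    | succ n ih =>
      rw [Nat.cast_succ, Nat.cast_succ]
      show ((n : Ent)).1 0 + (1 : Ent).1 0 = _
      rw [ih]
      rfl
  rw [h2, h2] at h1
  exact_mod_cast h1

theorem dE_add (f g : Ent) : dE (f + g) = dE f + dE g := by
  apply Ent.ext'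
  intro z
  show deriv (f.1 + g.1) z = deriv f.1 z + deriv g.1 z
  rw [deriv_add (Ent.diff f z) (Ent.diff g z)]

theorem dE_mul (f g : Ent) : dE (f * g) = dE f * g + f * dE g := by
  apply Ent.ext'
  intro z
  show deriv (f.1 * g.1) z = deriv f.1 z * g.1 z + f.1 z * deriv g.1 z
  rw [deriv_mul (Ent.diff f z) (Ent.diff g z)]

theorem dE_algebraMap (c : ℂ) : dE (algebraMap ℂ Ent c) = 0 := by
  apply Ent.ext'
  intro z
  show deriv (fun _ => c) z = 0
  rw [deriv_const]

theorem dE_smul (c : ℂ) (f : Ent) : dE (c • f) = c • dE f := by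
  rw [Algebra.smul_def, Algebra.smul_def, dE_mul, dE_algebraMap, zero_mul, zero_add]

theorem dE_sum {ι : Type} (s : Finset ι) (f : ι → Ent) : dE (∑ i ∈ s, f i) = ∑ i ∈ s, dE (f i) := by
  classical
  induction s using Finset.induction_on with
  | empty =>
    rw [Finset.sum_empty, Finset.sum_empty]
    have := dE_algebraMap 0
    rwa [map_zero] at this
  | insert a s ha ih => rw [Finset.sum_insert ha, Finset.sum_insert ha, dE_add, ih]

/-- the derivation of the ring of entire functions -/
noncomputable def derE : Derivation ℂ Ent Ent where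
  toFun := dE
  map_add' := dE_add
  map_smul' := dE_smul
  map_one_eq_zero' := by
    have := dE_algebraMap 1
    rwa [map_one] at this
  leibniz' := by
    intro a b
    show dE (a * b) = a * dE b + b * dE a
    rw [dE_mul]
    ring

/-- an entire function with zero derivative is constant -/
theorem dE_eq_zero {f : Ent} (h : dE f = 0) : ∃ c : ℂ, f = algebraMap ℂ Ent c := by
  refine ⟨f.1 0, ?_⟩
  apply Ent.ext'
  intro z
  have h1 : ∀ w, deriv f.1 w = 0 := fun w => congrFun (congrArg Subtype.val h) w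
  exact is_const_of_deriv_eq_zero (Ent.diff f) h1 z 0

end Pool.Agent.SQ
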