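import Pool.Agent.Lib_MP_b9fedf_sq.Defs

/-! The nondegeneracy condition used for entire curves. -/

set_option autoImplicit false

namespace Pool.Agent.SQ
open MvPolynomial

/-- Nondegeneracy of the entire curve `F` outside the zeros of `s`: in every algebraic extension
`Ω` of the ring of entire functions, every vector `p` which is algebraic over `ℂ(t)`, with `t`
transcendental, and orthogonal to `F` and to its derivative is a zero of `s`. -/
def ND {τ : Type} [Fintype τ] (F : τ → Ent) (s : MvPolynomial τ ℂ) : Prop :=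
  ∀ (Ω : Type) [Field Ω] (ψ : Ent →+* Ω), Function.Injective ψ →
    (∀ x : Ω, ∃ P : Polynomial Ent, P ≠ 0 ∧ P.eval₂ ψ x = 0) →
    ∀ (t : Ω) (p : τ → Ω),
      (∀ P : Polynomial ℂ, P ≠ 0 → P.eval₂ (ψ.comp (algebraMap ℂ Ent)) t ≠ 0) →
      (∀ i, ∃ R : Polynomial (Polynomial ℂ), R ≠ 0 ∧
        R.eval₂ (Polynomial.eval₂RingHom (ψ.comp (algebraMap ℂ Ent)) t) (p i) = 0) →
      p ≠ 0 → ∑ i, p i * ψ (F i) = 0 → ∑ i, p i * ψ (dE (F i)) = 0 →
      s.eval₂ (ψ.comp (algebraMap ℂ Ent)) p = 0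

end Pool.Agent.SQ
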