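import Mathlib
import Pool.Agent.Lib_MP_b9fedf_sq.Defs2

/-! Piece CLAIMA: forms over an algebraic extension of `ℂ(t)` vanishing at an algebraically
nondegenerate point are multiples of one irreducible form. -/

set_option autoImplicit false

namespace Pool.Agent.SQ
open MvPolynomial

private theorem claimA_ev {n : ℕ} {E A : Type} [Field E] [CommRing A] [Algebra E A]
    (y : Fin (n + 1) → A) (p : MvPolynomial (Fin (n + 1)) E) :
    Polynomial.eval₂ ((aeval fun j : Fin n => y j.succ : MvPolynomial (Fin n) E →ₐ[E] A) :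
      MvPolynomial (Fin n) E →+* A) (y 0) (finSuccEquiv E n p) = aeval y p := by
  induction p using MvPolynomial.induction_on with
  | C a =>
    have h : finSuccEquiv E n (C a) = Polynomial.C (C a) := (finSuccEquiv E n).commutes a
    rw [h, Polynomial.eval₂_C, aeval_C]
    exact aeval_C _ a
  | add p q hp hq => rw [map_add, Polynomial.eval₂_add, hp, hq, map_add]
  | mul_X p i hp =>
    rw [map_mul, Polynomial.eval₂_mul, hp, map_mul, aeval_X]
    congr 1
    refine Fin.cases ?_ (fun j => ?_) i
    · rw [finSuccEquiv_X_zero, Polynomial.eval₂_X]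
    · rw [finSuccEquiv_X_succ, Polynomial.eval₂_C]
      simp

private theorem claimA_zero {n : ℕ} {E A : Type} [Field E] [CommRing A] [IsDomain A]
    [Algebra E A] (y : Fin (n + 1) → A)
    (hy : AlgebraicIndependent E (fun j : Fin n => y j.succ))
    (π g : MvPolynomial (Fin (n + 1)) E) (hπ : Irreducible π) (h1 : aeval y π = 0)
    (h2 : aeval y g = 0) : π ∣ g := by
  let B := MvPolynomial (Fin n) E
  let φ : B →+* A :=
    ((aeval fun j : Fin n => y j.succ : MvPolynomial (Fin n) E →ₐ[E] A) : B →+* A)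
  have hφ : Function.Injective φ := hy
  let K := FractionRing B
  let L := FractionRing A
  let θ : K →+* L := IsFractionRing.map hφ
  have hθ : ∀ b : B, θ (algebraMap B K b) = algebraMap A L (φ b) := fun b =>
    IsLocalization.map_eq _ b
  have hev : ∀ p : MvPolynomial (Fin (n + 1)) E, aeval y p = 0 →
      Polynomial.eval₂ θ (algebraMap A L (y 0))
        ((finSuccEquiv E n p).map (algebraMap B K)) = 0 := by
    intro p hp
    rw [Polynomial.eval₂_map]
    have h3 : θ.comp (algebraMap B K) = (algebraMap A L).comp φ := RingHom.ext hθ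
    rw [h3, ← Polynomial.hom_eval₂, claimA_ev, hp, map_zero]
  have hπ' : Irreducible (finSuccEquiv E n π) :=
    (MulEquiv.irreducible_iff (finSuccEquiv E n)).2 hπ
  have hdeg : (finSuccEquiv E n π).natDegree ≠ 0 := by
    intro h0
    rw [Polynomial.natDegree_eq_zero] at h0
    obtain ⟨b, hb⟩ := h0
    have h3 := claimA_ev y π
    rw [← hb, Polynomial.eval₂_C, h1] at h3
    have hb0 : b = 0 := hφ (h3.trans (map_zero φ).symm)
    rw [hb0, map_zero] at hb
    exact hπ'.ne_zero hb.symm
  have hprim := hπ'.isPrimitive hdeg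
  have hirr := (hprim.irreducible_iff_irreducible_map_fraction_map (K := K)).1 hπ'
  have hdvd : (finSuccEquiv E n π).map (algebraMap B K) ∣
      (finSuccEquiv E n g).map (algebraMap B K) := by
    by_contra hnd
    obtain ⟨a, b, hab⟩ := (hirr.coprime_iff_not_dvd).2 hnd
    have h3 := congrArg (Polynomial.eval₂ θ (algebraMap A L (y 0))) hab
    rw [Polynomial.eval₂_add, Polynomial.eval₂_mul, Polynomial.eval₂_mul, hev π h1, hev g h2,
      Polynomial.eval₂_one] at h3
    simp at h3
  have h4 := hprim.dvd_of_fraction_map_dvd_fraction_map hdvd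
  exact (map_dvd_iff (finSuccEquiv E n)).1 h4

private theorem claimA_gen {n : ℕ} {E A : Type} [Field E] [CommRing A] [IsDomain A]
    [Algebra E A] (y : Fin (n + 1) → A) (i : Fin (n + 1))
    (hy : AlgebraicIndependent E (fun j : Fin n => y (i.succAbove j)))
    (π g : MvPolynomial (Fin (n + 1)) E) (hπ : Irreducible π) (h1 : aeval y π = 0)
    (h2 : aeval y g = 0) : π ∣ g := by
  let e : Fin (n + 1) ≃ Fin (n + 1) := (finSuccEquiv' 0).trans (finSuccEquiv' i).symm
  have he : ∀ j : Fin n, e j.succ = i.succAbove j := by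
    intro j
    have h := finSuccEquiv'_succAbove (0 : Fin (n + 1)) j
    rw [Fin.succAbove_zero] at h
    show (finSuccEquiv' i).symm (finSuccEquiv' 0 j.succ) = _
    rw [h, finSuccEquiv'_symm_some]
  have hr : ∀ p : MvPolynomial (Fin (n + 1)) E,
      aeval (y ∘ e) (rename e.symm p) = aeval y p := by
    intro p
    rw [aeval_rename, Function.comp_assoc, Equiv.self_comp_symm, Function.comp_id]
  have h3 : rename e.symm π ∣ rename e.symm g := by
    refine claimA_zero (y ∘ e) ?_ _ _ ?_ ?_ ?_
    · simpa only [Function.comp, he] using hy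
    · exact (MulEquiv.irreducible_iff (renameEquiv E e.symm)).2 hπ
    · rw [hr, h1]
    · rw [hr, h2]
  exact (map_dvd_iff (renameEquiv E e.symm)).1 h3

private theorem claimA_hom {n : ℕ} {k Ω : Type} [Field k] [Field Ω] [Algebra k Ω]
    (f : Fin (n + 1) → Ω) (q : MvPolynomial (Fin (n + 1)) k) (d : ℕ) (hq : q.IsHomogeneous d) :
    aeval (fun i => (Polynomial.C (f i) * Polynomial.X : Polynomial Ω)) q =
      Polynomial.C (aeval f q) * Polynomial.X ^ d := by
  rw [aeval_def, aeval_def, eval₂_eq', eval₂_eq', map_sum, Finset.sum_mul]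
  refine Finset.sum_congr rfl fun s hs => ?_
  have h1 : ∑ i, s i = d := by
    have h2 := hq (mem_support_iff.1 hs)
    rw [← h2, Finsupp.weight_apply, Finsupp.sum_fintype _ _ (by simp)]
    simp
  rw [map_mul, map_prod]
  simp only [mul_pow, Finset.prod_mul_distrib, map_pow]
  rw [Finset.prod_pow_eq_pow_sum, h1, mul_assoc]
  rfl

private theorem claimA_ind {n : ℕ} {k Ω : Type} [Field k] [Field Ω] [Algebra k Ω]
    (f : Fin (n + 1) → Ω)
    (hnd : ∀ (d : ℕ) (Q : MvPolynomial (Fin (n + 1)) k), Q.IsHomogeneous d →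
      aeval f Q = 0 → Q = 0) :
    AlgebraicIndependent k (fun i => (Polynomial.C (f i) * Polynomial.X : Polynomial Ω)) := by
  rw [algebraicIndependent_iff]
  intro p hp
  have h1 : ∀ i ∈ Finset.range (p.totalDegree + 1), homogeneousComponent i p = 0 := by
    intro i hi
    refine hnd i _ (homogeneousComponent_isHomogeneous i p) ?_
    have h2 := hp
    rw [← sum_homogeneousComponent p, map_sum] at h2
    have h3 := congrArg (fun q : Polynomial Ω => q.coeff i) h2
    simp only [Polynomial.finsetSum_coeff, Polynomial.coeff_zero] at h3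
    rw [Finset.sum_eq_single i] at h3
    · rw [claimA_hom f _ i (homogeneousComponent_isHomogeneous i p),
        Polynomial.coeff_C_mul_X_pow, if_pos rfl] at h3
      exact h3
    · intro l _ hl
      rw [claimA_hom f _ l (homogeneousComponent_isHomogeneous l p),
        Polynomial.coeff_C_mul_X_pow, if_neg hl.symm]
    · intro h4
      exact absurd hi h4
  rw [← sum_homogeneousComponent p]
  exact Finset.sum_eq_zero h1

private theorem claimA_main {n : ℕ} {k E A : Type} [Field k] [Field E] [CommRing A] [IsDomain A]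
    [Algebra E A] [Algebra k E] [Algebra k A] [IsScalarTower k E A] (t : E)
    (halg : ∀ x : E, IsAlgebraic (Algebra.adjoin k {t}) x) (y : Fin (n + 1) → A)
    (hy : AlgebraicIndependent k y) :
    ∃ i : Fin (n + 1), AlgebraicIndependent E (fun j : Fin n => y (i.succAbove j)) := by
  classical
  let S : Subalgebra E A := Algebra.adjoin E (Set.range y)
  let y' : Fin (n + 1) → S := fun i => ⟨y i, Algebra.subset_adjoin ⟨i, rfl⟩⟩
  have hy' : AlgebraicIndependent k y' :=
    AlgebraicIndependent.of_comp (S.val.restrictScalars k) hy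
  have h1 : Algebra.trdeg k E ≤ 1 := by
    have : Algebra.IsAlgebraic (Algebra.adjoin k ({t} : Set E)) E := ⟨halg⟩
    have h2 := Algebra.IsAlgebraic.trdeg_le_cardinalMk k ({t} : Set E) (A := E)
    rwa [Cardinal.mk_singleton] at h2
  have h3 : (n : Cardinal) ≤ Algebra.trdeg E S := by
    by_contra hlt
    rw [not_le] at hlt
    obtain ⟨m, hm⟩ := Cardinal.lt_aleph0.1 (hlt.trans (Cardinal.natCast_lt_aleph0))
    have h4 := hy'.cardinalMk_le_trdeg
    rw [← trdeg_add_eq k E (A := S), hm, Cardinal.mk_fin] at h4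
    have h5 := h4.trans (add_le_add_left h1 _)
    rw [hm] at hlt
    norm_cast at h5 hlt
    omega
  have hrange : Set.range y' = ((↑) : S → A) ⁻¹' (Set.range y) := by
    ext x
    constructor
    · rintro ⟨i, rfl⟩
      exact ⟨i, rfl⟩
    · rintro ⟨i, hi⟩
      exact ⟨i, Subtype.ext hi⟩
  have : Algebra.IsAlgebraic (Algebra.adjoin E (Set.range y')) S := by
    refine ⟨fun x => ?_⟩
    have hx : x ∈ Algebra.adjoin E (Set.range y') := by
      rw [hrange, Algebra.adjoin_adjoin_coe_preimage]
      trivial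
    exact isAlgebraic_algebraMap (⟨x, hx⟩ : Algebra.adjoin E (Set.range y'))
  obtain ⟨T, hT, hTb⟩ := exists_isTranscendenceBasis_subset (R := E) (A := S) (Set.range y')
  have hinj : Function.Injective y' := hy'.injective
  have hcard : n ≤ (Finset.univ.filter fun i => y' i ∈ T).card := by
    have h4 : (n : Cardinal) ≤ Cardinal.mk T := by rw [hTb.cardinalMk_eq_trdeg]; exact h3
    choose c hc using fun x : T => hT x.2
    have h5 : Cardinal.mk T ≤ Cardinal.mk (Finset.univ.filter fun i => y' i ∈ T) := by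
      refine Cardinal.mk_le_of_injective (f := fun x => ⟨c x, ?_⟩) ?_
      · simp only [Finset.mem_filter, Finset.mem_univ, true_and]
        rw [hc]
        exact x.2
      · intro x x' hxx
        have h6 : c x = c x' := congrArg Subtype.val hxx
        have h7 := hc x
        rw [h6, hc x'] at h7
        exact (Subtype.ext h7).symm
    rw [Cardinal.mk_coe_finset] at h5
    exact_mod_cast h4.trans h5
  obtain ⟨i, hi⟩ : ∃ i : Fin (n + 1), ∀ l, l ≠ i → y' l ∈ T := by
    have h4 : (Finset.univ.filter fun i => ¬ y' i ∈ T).card ≤ 1 := by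
      have h5 := Finset.card_filter_add_card_filter_not (s := (Finset.univ : Finset (Fin (n + 1))))
        (fun i => y' i ∈ T)
      rw [Finset.card_univ, Fintype.card_fin] at h5
      omega
    obtain ⟨i, hi⟩ := Finset.card_le_one_iff_subset_singleton.1 h4
    refine ⟨i, fun l hl => ?_⟩
    by_contra hn
    exact hl (Finset.mem_singleton.1 (hi (Finset.mem_filter.2 ⟨Finset.mem_univ _, hn⟩)))
  refine ⟨i, ?_⟩
  have h6 : AlgebraicIndependent E (fun j : Fin n => y' (i.succAbove j)) := by
    have h7 := hTb.1.comp (fun j : Fin n => (⟨y' (i.succAbove j), hi _ (Fin.succAbove_ne i j)⟩ : T))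
      (fun j j' hjj => Fin.succAbove_right_injective (hinj (congrArg Subtype.val hjj)))
    exact h7
  exact h6.map' (f := S.val) Subtype.val_injective

private theorem claimA_ex {n : ℕ} {k E Ω : Type} [Field k] [Field E] [Field Ω] [Algebra E Ω]
    [Algebra k E] [Algebra k Ω] [IsScalarTower k E Ω] (t : E)
    (halg : ∀ x : E, IsAlgebraic (Algebra.adjoin k {t}) x)
    (f : Fin (n + 1) → Ω)
    (h1 : AlgebraicIndependent k
      (fun i => (Polynomial.C (f i) * Polynomial.X : Polynomial Ω))) :
    ∃ i : Fin (n + 1), AlgebraicIndependent E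
      (fun j : Fin n => (Polynomial.C (f (i.succAbove j)) * Polynomial.X : Polynomial Ω)) := by
  have h2 := claimA_main (A := Polynomial Ω) t halg _ h1
  exact h2

private theorem claimA_core {n : ℕ} {k E Ω : Type} [Field k] [Field E] [Field Ω] [Algebra E Ω]
    [Algebra k E] [Algebra k Ω] [IsScalarTower k E Ω] (t : E)
    (halg : ∀ x : E, IsAlgebraic (Algebra.adjoin k {t}) x)
    (f : Fin (n + 1) → Ω)
    (hnd : ∀ (d : ℕ) (Q : MvPolynomial (Fin (n + 1)) k), Q.IsHomogeneous d →
      aeval f Q = 0 → Q = 0)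
    (π g : MvPolynomial (Fin (n + 1)) E) (hπ : Irreducible π) (dπ dg : ℕ)
    (hπh : π.IsHomogeneous dπ) (hgh : g.IsHomogeneous dg) (hπf : aeval f π = 0)
    (hgf : aeval f g = 0) : π ∣ g := by
  have h1 := claimA_ind (k := k) f hnd
  have h0 : IsScalarTower k E (Polynomial Ω) := inferInstance
  obtain ⟨i, hi⟩ : ∃ i : Fin (n + 1), AlgebraicIndependent E
      (fun j : Fin n => (Polynomial.C (f (i.succAbove j)) * Polynomial.X : Polynomial Ω)) :=
    claimA_ex t halg f h1
  refine claimA_gen (A := Polynomial Ω)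
    (fun i => (Polynomial.C (f i) * Polynomial.X : Polynomial Ω)) i hi π g hπ ?_ ?_
  · rw [claimA_hom f π dπ hπh, hπf, map_zero, zero_mul]
  · rw [claimA_hom f g dg hgh, hgf, map_zero, zero_mul]

/-- PIECE CLAIMA -/
theorem claimA {n : ℕ} {E Ω : Type} [Field E] [Field Ω] [Algebra E Ω] [Algebra ℂ E] (t : E)
    (ht : Transcendental ℂ t) (halg : ∀ x : E, IsAlgebraic (Algebra.adjoin ℂ {t}) x)
    (f : Fin (n + 1) → Ω)
    (hnd : ∀ (d : ℕ) (Q : MvPolynomial (Fin (n + 1)) ℂ), Q.IsHomogeneous d →
      Q.eval₂ ((algebraMap E Ω).comp (algebraMap ℂ E)) f = 0 → Q = 0)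
    (π g : MvPolynomial (Fin (n + 1)) E) (hπ : Irreducible π) (dπ dg : ℕ)
    (hπh : π.IsHomogeneous dπ) (hgh : g.IsHomogeneous dg) (hπf : aeval f π = 0)
    (hgf : aeval f g = 0) : π ∣ g := by
  letI : Algebra ℂ Ω := ((algebraMap E Ω).comp (algebraMap ℂ E)).toAlgebra
  have : IsScalarTower ℂ E Ω := IsScalarTower.of_algebraMap_eq fun _ => rfl
  refine claimA_core (k := ℂ) t halg f (fun d Q hQ h => hnd d Q hQ ?_) π g hπ dπ dg hπh hgh
    hπf hgf
  rw [aeval_def] at h
  exact h

end Pool.Agent.SQ
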