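import Pool.Agent.Lib_MP_b9fedf_sq.Defs2
import Pool.Agent.Lib_MP_b9fedf_sq.EntDom
import Pool.Agent.Lib_MP_b9fedf_sq.ClaimA
import Pool.Agent.Lib_MP_b9fedf_sq.HomFac

/-! Piece ZONE: a form with constant coefficients vanishing at the common zeros of a squarefree
form and of its derivative with respect to the coefficients. -/

set_option autoImplicit false

namespace Pool.Agent.SQ
open MvPolynomial

/-- the derivation acting on the coefficients -/
private noncomputable def excD {τ : Type} {E : Type} [Field E] [Algebra ℂ E]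
    (D : Derivation ℂ E E) (P : MvPolynomial τ E) : MvPolynomial τ E :=
  ∑ m ∈ P.support, monomial m (D (coeff m P))

private theorem excD_coeff {τ : Type} {E : Type} [Field E] [Algebra ℂ E]
    (D : Derivation ℂ E E) (P : MvPolynomial τ E) (m : τ →₀ ℕ) :
    coeff m (excD D P) = D (coeff m P) := by
  classical
  unfold excD
  rw [coeff_sum]
  simp only [coeff_monomial]
  rw [Finset.sum_ite_eq']
  split_ifs with h
  · rfl
  · rw [notMem_support_iff.1 h, map_zero]

private theorem excD_mul {τ : Type} {E : Type} [Field E] [Algebra ℂ E]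
    (D : Derivation ℂ E E) (P Q : MvPolynomial τ E) :
    excD D (P * Q) = excD D P * Q + P * excD D Q := by
  classical
  ext m
  rw [excD_coeff, coeff_add, coeff_mul, coeff_mul, coeff_mul, map_sum, ← Finset.sum_add_distrib]
  refine Finset.sum_congr rfl fun x _ => ?_
  rw [Derivation.leibniz, excD_coeff, excD_coeff, smul_eq_mul, smul_eq_mul]
  ring

private theorem excD_hom {τ : Type} {E : Type} [Field E] [Algebra ℂ E]
    (D : Derivation ℂ E E) (P : MvPolynomial τ E) (d : ℕ) (hP : P.IsHomogeneous d) :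
    (excD D P).IsHomogeneous d := by
  intro m hm
  rw [excD_coeff] at hm
  refine hP ?_
  intro h0
  rw [h0, map_zero] at hm
  exact hm rfl

private theorem excD_sum {n : ℕ} {τ : Type} [Fintype τ] {E : Type} [Field E] [Algebra ℂ E]
    (D : Derivation ℂ E E) (R : τ → MvPolynomial (Fin (n + 1)) ℂ) (p : τ → E) :
    excD D (∑ x, C (p x) * MvPolynomial.map (algebraMap ℂ E) (R x)) =
      ∑ x, C (D (p x)) * MvPolynomial.map (algebraMap ℂ E) (R x) := by
  ext m
  rw [excD_coeff, coeff_sum, coeff_sum, map_sum]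
  refine Finset.sum_congr rfl fun x _ => ?_
  rw [coeff_C_mul, coeff_C_mul, coeff_map, Derivation.leibniz, Derivation.map_algebraMap,
    smul_zero, zero_add, smul_eq_mul, mul_comm]

/-- first case: `π` does not divide `g` -/
private theorem exc_case_one {n : ℕ} {E : Type} [Field E] [Algebra ℂ E] (t : E)
    (ht : Transcendental ℂ t) (halg : ∀ x : E, IsAlgebraic (Algebra.adjoin ℂ {t}) x)
    (π g : MvPolynomial (Fin (n + 1)) E) (hπ : Irreducible π) (dπ dg : ℕ)
    (hπh : π.IsHomogeneous dπ) (hgh : g.IsHomogeneous dg) (hnd : ¬ π ∣ g) :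
    ∃ (dZ : ℕ) (Z : MvPolynomial (Fin (n + 1)) ℂ), Z ≠ 0 ∧ Z.IsHomogeneous dZ ∧
      ∀ (Ω : Type) [Field Ω] (σ : E →+* Ω) (f : Fin (n + 1) → Ω),
        π.eval₂ σ f = 0 → g.eval₂ σ f = 0 → Z.eval₂ (σ.comp (algebraMap ℂ E)) f = 0 := by
  classical
  let S : Submonoid (MvPolynomial (Fin (n + 1)) E) :=
    { carrier := {P | ∃ (d : ℕ) (Z : MvPolynomial (Fin (n + 1)) ℂ), Z ≠ 0 ∧ Z.IsHomogeneous d ∧
        P = MvPolynomial.map (algebraMap ℂ E) Z}
      mul_mem' := by
        rintro a b ⟨d, Z, h1, h2, h3⟩ ⟨d', Z', h1', h2', h3'⟩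
        exact ⟨d + d', Z * Z', mul_ne_zero h1 h1', h2.mul h2', by rw [h3, h3', map_mul]⟩
      one_mem' := ⟨0, 1, one_ne_zero, isHomogeneous_one _ _, by rw [map_one]⟩ }
  let J : Ideal (MvPolynomial (Fin (n + 1)) E) := Ideal.span {π, g}
  by_cases hdis : Disjoint (J : Set (MvPolynomial (Fin (n + 1)) E)) (S : Set _)
  · exfalso
    obtain ⟨P, hP, hJP, hPS⟩ := Ideal.exists_le_prime_disjoint J S hdis
    refine hnd ?_
    let B := MvPolynomial (Fin (n + 1)) E ⧸ P
    let Ω := FractionRing B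
    have hcomp : (algebraMap E Ω) = ((algebraMap B Ω).comp (Ideal.Quotient.mk P)).comp C := by
      ext x
      rfl
    let f : Fin (n + 1) → Ω := fun i => algebraMap B Ω (Ideal.Quotient.mk P (X i))
    have hev : ∀ q : MvPolynomial (Fin (n + 1)) E,
        q.eval₂ (algebraMap E Ω) f = algebraMap B Ω (Ideal.Quotient.mk P q) := by
      intro q
      have h1 : eval₂Hom (algebraMap E Ω) f = (algebraMap B Ω).comp (Ideal.Quotient.mk P) := by
        refine MvPolynomial.ringHom_ext ?_ ?_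
        · intro r
          rw [coe_eval₂Hom, eval₂_C, hcomp]
          rfl
        · intro i
          rw [coe_eval₂Hom, eval₂_X]
          rfl
      have h2 := congrArg (fun φ => φ q) h1
      simpa using h2
    have hz : ∀ q : MvPolynomial (Fin (n + 1)) E, q.eval₂ (algebraMap E Ω) f = 0 ↔ q ∈ P := by
      intro q
      rw [hev, ← Ideal.Quotient.eq_zero_iff_mem]
      constructor
      · intro h
        exact IsFractionRing.injective B Ω (h.trans (map_zero _).symm)
      · intro h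
        rw [h, map_zero]
    refine claimA (Ω := Ω) t ht halg f ?_ π g hπ dπ dg hπh hgh ?_ ?_
    · intro d Q hQ hQf
      by_contra hne
      rw [← MvPolynomial.eval₂_map, hz] at hQf
      exact Set.disjoint_left.1 hPS hQf ⟨d, Q, hne, hQ, rfl⟩
    · rw [aeval_def, hz]
      exact hJP (Ideal.subset_span (by simp))
    · rw [aeval_def, hz]
      exact hJP (Ideal.subset_span (by simp))
  · rw [Set.not_disjoint_iff] at hdis
    obtain ⟨P, hPJ, dZ, Z, hZ, hZh, hPZ⟩ := hdis
    refine ⟨dZ, Z, hZ, hZh, ?_⟩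
    intro Ω _ σ f h1 h2
    rw [← MvPolynomial.eval₂_map, ← hPZ]
    obtain ⟨a, b, hab⟩ := Ideal.mem_span_pair.1 hPJ
    rw [← hab, eval₂_add, eval₂_mul, eval₂_mul, h1, h2, mul_zero, mul_zero, add_zero]

/-- second case: `π` divides its derivative -/
private theorem exc_case_two {n : ℕ} {E : Type} [Field E] [Algebra ℂ E]
    (D : Derivation ℂ E E) (hD : ∀ x, D x = 0 → ∃ c : ℂ, x = algebraMap ℂ E c)
    (π : MvPolynomial (Fin (n + 1)) E) (hπ : π ≠ 0) (dπ : ℕ)
    (hπh : π.IsHomogeneous dπ) (hdvd : π ∣ excD D π) :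
    ∃ (dZ : ℕ) (Z : MvPolynomial (Fin (n + 1)) ℂ), Z ≠ 0 ∧ Z.IsHomogeneous dZ ∧
      ∀ (Ω : Type) [Field Ω] (σ : E →+* Ω) (f : Fin (n + 1) → Ω),
        π.eval₂ σ f = 0 → Z.eval₂ (σ.comp (algebraMap ℂ E)) f = 0 := by
  classical
  have hlam : ∃ l : E, ∀ m, D (coeff m π) = l * coeff m π := by
    obtain ⟨c, hc⟩ := hdvd
    by_cases h0 : excD D π = 0
    · refine ⟨0, fun m => ?_⟩
      rw [← excD_coeff, h0, coeff_zero, zero_mul]
    · have h1 : (π * c).IsHomogeneous dπ := by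
        rw [← hc]
        exact excD_hom D π dπ hπh
      rw [hc] at h0
      obtain ⟨d₁, d₂, hd, h3, h4⟩ := homogeneous_of_mul h1 h0
      have h5 : dπ = d₁ := hπh.inj_right h3 hπ
      have h6 : d₂ = 0 := by omega
      rw [h6] at h4
      have h7 : c = C (coeff 0 c) := by
        have := (totalDegree_eq_zero_iff_eq_C (p := c)).1 (Nat.le_zero.1 (h4.totalDegree_le))
        exact this
      refine ⟨coeff 0 c, fun m => ?_⟩
      rw [← excD_coeff, hc, h7, mul_comm, coeff_C_mul]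
      simp
  obtain ⟨l, hl⟩ := hlam
  obtain ⟨m₀, hm₀⟩ := MvPolynomial.ne_zero_iff.1 hπ
  have hq : ∀ m, ∃ c : ℂ, coeff m π / coeff m₀ π = algebraMap ℂ E c := by
    intro m
    refine hD _ ?_
    rw [Derivation.leibniz_div, hl, hl]
    simp only [smul_eq_mul]
    ring
  choose z hz using hq
  let Z : MvPolynomial (Fin (n + 1)) ℂ := ∑ m ∈ π.support, monomial m (z m)
  have hinj : Function.Injective (algebraMap ℂ E) := (algebraMap ℂ E).injective
  have hZc : ∀ m, algebraMap ℂ E (coeff m Z) = coeff m π / coeff m₀ π := by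
    intro m
    show algebraMap ℂ E (coeff m (∑ m ∈ π.support, monomial m (z m))) = _
    rw [coeff_sum]
    simp only [coeff_monomial]
    rw [Finset.sum_ite_eq']
    split_ifs with h
    · exact (hz m).symm
    · rw [notMem_support_iff.1 h, map_zero, zero_div]
  have hZm : MvPolynomial.map (algebraMap ℂ E) Z = C (coeff m₀ π)⁻¹ * π := by
    ext m
    rw [coeff_map, hZc, coeff_C_mul, div_eq_mul_inv, mul_comm]
  refine ⟨dπ, Z, ?_, ?_, ?_⟩
  · intro h0
    rw [h0, map_zero] at hZm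
    have h1 : (C (coeff m₀ π)⁻¹ : MvPolynomial (Fin (n + 1)) E) ≠ 0 := by
      rw [Ne, MvPolynomial.C_eq_zero]
      exact inv_ne_zero hm₀
    exact (mul_ne_zero h1 hπ) hZm.symm
  · intro m hm
    refine hπh ?_
    intro h0
    apply hm
    have h1 := hZc m
    rw [h0, zero_div] at h1
    exact hinj (h1.trans (map_zero _).symm)
  · intro Ω _ σ f h1
    rw [← MvPolynomial.eval₂_map, hZm, eval₂_mul, h1, mul_zero]

/-- PIECE ZONE -/
theorem exc_one {n e : ℕ} {τ : Type} [Fintype τ] {E : Type} [Field E] [Algebra ℂ E] (t : E)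
    (ht : Transcendental ℂ t) (halg : ∀ x : E, IsAlgebraic (Algebra.adjoin ℂ {t}) x)
    (D : Derivation ℂ E E) (hD : ∀ x, D x = 0 → ∃ c : ℂ, x = algebraMap ℂ E c)
    (R : τ → MvPolynomial (Fin (n + 1)) ℂ) (hR : ∀ x, (R x).IsHomogeneous e) (p : τ → E)
    (hp : ∑ x, C (p x) * MvPolynomial.map (algebraMap ℂ E) (R x) ≠ 0)
    (hsq : ∀ H : MvPolynomial (Fin (n + 1)) E,
      H * H ∣ ∑ x, C (p x) * MvPolynomial.map (algebraMap ℂ E) (R x) → IsUnit H) :
    ∃ (dZ : ℕ) (Z : MvPolynomial (Fin (n + 1)) ℂ), Z ≠ 0 ∧ Z.IsHomogeneous dZ ∧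
      ∀ (Ω : Type) [Field Ω] (σ : E →+* Ω) (f : Fin (n + 1) → Ω),
        ∑ x, σ (p x) * (R x).eval₂ (σ.comp (algebraMap ℂ E)) f = 0 →
        ∑ x, σ (D (p x)) * (R x).eval₂ (σ.comp (algebraMap ℂ E)) f = 0 →
        Z.eval₂ (σ.comp (algebraMap ℂ E)) f = 0 := by
  classical
  have hhom : ∀ q : τ → E,
      (∑ x, C (q x) * MvPolynomial.map (algebraMap ℂ E) (R x)).IsHomogeneous e := by
    intro q
    refine IsHomogeneous.sum _ _ _ fun x _ => ?_
    have h1 := (isHomogeneous_C (Fin (n + 1)) (q x)).mul ((hR x).map (algebraMap ℂ E))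
    rwa [zero_add] at h1
  have hev : ∀ (q : τ → E) (Ω : Type) [Field Ω] (σ : E →+* Ω) (f : Fin (n + 1) → Ω),
      (∑ x, C (q x) * MvPolynomial.map (algebraMap ℂ E) (R x)).eval₂ σ f =
        ∑ x, σ (q x) * (R x).eval₂ (σ.comp (algebraMap ℂ E)) f := by
    intro q Ω _ σ f
    rw [eval₂_sum]
    refine Finset.sum_congr rfl fun x _ => ?_
    rw [eval₂_mul, eval₂_C, MvPolynomial.eval₂_map]
  have hDg := excD_sum D R p
  set Q := ∑ x, C (p x) * MvPolynomial.map (algebraMap ℂ E) (R x) with hQ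
  set g := ∑ x, C (D (p x)) * MvPolynomial.map (algebraMap ℂ E) (R x) with hg
  have hQh : Q.IsHomogeneous e := hhom p
  have hgh : g.IsHomogeneous e := hhom fun x => D (p x)
  -- the irreducible factors
  have hirr : ∀ π : MvPolynomial (Fin (n + 1)) E, Irreducible π → π ∣ Q →
      ∃ (dZ : ℕ) (Z : MvPolynomial (Fin (n + 1)) ℂ), Z ≠ 0 ∧ Z.IsHomogeneous dZ ∧
      ∀ (Ω : Type) [Field Ω] (σ : E →+* Ω) (f : Fin (n + 1) → Ω),
        π.eval₂ σ f = 0 → g.eval₂ σ f = 0 → Z.eval₂ (σ.comp (algebraMap ℂ E)) f = 0 := by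
    intro π hπ hπQ
    obtain ⟨h, hh⟩ := hπQ
    have h1 : (π * h).IsHomogeneous e := by rw [← hh]; exact hQh
    have h2 : π * h ≠ 0 := by rw [← hh]; exact hp
    obtain ⟨d₁, d₂, _, h3, _⟩ := homogeneous_of_mul h1 h2
    by_cases hd : π ∣ g
    · have h5 : π ∣ excD D π := by
        have h6 : π ∣ excD D π * h := by
          have h7 : excD D π * h = g - π * excD D h := by
            rw [← hDg, hh, excD_mul]
            ring
          rw [h7]
          exact dvd_sub hd (dvd_mul_right _ _)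
        rcases (UniqueFactorizationMonoid.irreducible_iff_prime.1 hπ).dvd_or_dvd h6 with h8 | h8
        · exact h8
        · exfalso
          refine hπ.not_isUnit (hsq π ?_)
          rw [hh]
          exact mul_dvd_mul_left π h8
      obtain ⟨dZ, Z, hZ, hZh, hZe⟩ := exc_case_two D hD π hπ.ne_zero d₁ h3 h5
      exact ⟨dZ, Z, hZ, hZh, fun Ω _ σ f a _ => hZe Ω σ f a⟩
    · exact exc_case_one t ht halg π g hπ d₁ e h3 hgh hd
  have hall : ∀ P : MvPolynomial (Fin (n + 1)) E, P ≠ 0 → P ∣ Q →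
      ∃ (dZ : ℕ) (Z : MvPolynomial (Fin (n + 1)) ℂ), Z ≠ 0 ∧ Z.IsHomogeneous dZ ∧
      ∀ (Ω : Type) [Field Ω] (σ : E →+* Ω) (f : Fin (n + 1) → Ω),
        P.eval₂ σ f = 0 → g.eval₂ σ f = 0 → Z.eval₂ (σ.comp (algebraMap ℂ E)) f = 0 := by
    intro P
    induction P using WfDvdMonoid.induction_on_irreducible with
    | zero => intro h; exact absurd rfl h
    | unit u hu =>
      intro _ _
      refine ⟨0, 1, one_ne_zero, isHomogeneous_one _ _, ?_⟩
      intro Ω _ σ f h
      exact absurd h (hu.map (eval₂Hom σ f)).ne_zero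
    | mul a i ha hi ih =>
      intro _ hdvd
      obtain ⟨d₁, Z₁, h1, h2, h3⟩ := ih ha ((dvd_mul_left a i).trans hdvd)
      obtain ⟨d₂, Z₂, h4, h5, h6⟩ := hirr i hi ((dvd_mul_right i a).trans hdvd)
      refine ⟨d₂ + d₁, Z₂ * Z₁, mul_ne_zero h4 h1, h5.mul h2, ?_⟩
      intro Ω _ σ f h7 h8
      rw [eval₂_mul] at h7
      rw [eval₂_mul]
      rcases mul_eq_zero.1 h7 with h9 | h9
      · rw [h6 Ω σ f h9 h8, zero_mul]
      · rw [h3 Ω σ f h9 h8, mul_zero]
  obtain ⟨dZ, Z, hZ, hZh, hZe⟩ := hall Q hp dvd_rfl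
  refine ⟨dZ, Z, hZ, hZh, ?_⟩
  intro Ω _ σ f h1 h2
  refine hZe Ω σ f ?_ ?_
  · rw [hQ, hev]
    exact h1
  · rw [hg, hev]
    exact h2

end Pool.Agent.SQ
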