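import Mathlib
import Pool.Agent.Lib_MP_b9fedf_sq.Defs2

/-! Weak Nullstellensatz over the ring of entire functions. -/

set_option autoImplicit false

namespace Pool.Agent.SQ
open MvPolynomial

attribute [local instance] MvPolynomial.algebraMvPolynomial

/-- PIECE NULL (`IsDomain Ent` comes from the file `EntDom.lean` of helper17) -/
theorem null_ent [IsDomain Ent] {τ : Type} [Fintype τ] (J : Ideal (MvPolynomial τ Ent))
    (h : ∀ (Ω : Type) [Field Ω] (ψ : Ent →+* Ω), Function.Injective ψ →
      (∀ x : Ω, ∃ P : Polynomial Ent, P ≠ 0 ∧ P.eval₂ ψ x = 0) →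
      ∀ x : τ → Ω, ∃ g ∈ J, g.eval₂ ψ x ≠ 0) :
    ∃ d : Ent, d ≠ 0 ∧ MvPolynomial.C d ∈ J := by
  classical
  by_cases htop : J.map (algebraMap (MvPolynomial τ Ent) (MvPolynomial τ (FractionRing Ent))) = ⊤
  · have h1 : (1 : MvPolynomial τ (FractionRing Ent)) ∈
        J.map (algebraMap (MvPolynomial τ Ent) (MvPolynomial τ (FractionRing Ent))) := by
      rw [htop]
      exact Submodule.mem_top
    have := MvPolynomial.isLocalization (σ := τ) (nonZeroDivisors Ent) (FractionRing Ent)
    rw [IsLocalization.mem_map_algebraMap_iff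
      ((nonZeroDivisors Ent).map (C (σ := τ) : Ent →+* MvPolynomial τ Ent))] at h1
    obtain ⟨⟨⟨g, hg⟩, ⟨s, hs⟩⟩, he⟩ := h1
    rw [one_mul] at he
    have hinj : Function.Injective
        (algebraMap (MvPolynomial τ Ent) (MvPolynomial τ (FractionRing Ent))) := by
      rw [MvPolynomial.algebraMap_def]
      exact MvPolynomial.map_injective _ (IsFractionRing.injective Ent (FractionRing Ent))
    have he' : s = g := hinj he
    obtain ⟨d, hd, hds⟩ := hs
    refine ⟨d, nonZeroDivisors.ne_zero hd, ?_⟩
    have h2 : (C d : MvPolynomial τ Ent) = s := hds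
    rw [h2, he']
    exact hg
  · exfalso
    obtain ⟨m, hm, hJm⟩ := Ideal.exists_le_maximal _ htop
    let : Field (MvPolynomial τ (FractionRing Ent) ⧸ m) := Ideal.Quotient.field m
    have : Module.Finite (FractionRing Ent) (MvPolynomial τ (FractionRing Ent) ⧸ m) :=
      finite_of_finite_type_of_isJacobsonRing _ _
    have : Algebra.IsAlgebraic (FractionRing Ent) (MvPolynomial τ (FractionRing Ent) ⧸ m) :=
      Algebra.IsAlgebraic.of_finite _ _
    have hinj : Function.Injective
        (algebraMap Ent (MvPolynomial τ (FractionRing Ent) ⧸ m)) := by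
      rw [IsScalarTower.algebraMap_eq Ent (FractionRing Ent)
        (MvPolynomial τ (FractionRing Ent) ⧸ m)]
      rw [RingHom.coe_comp]
      exact (algebraMap (FractionRing Ent) (MvPolynomial τ (FractionRing Ent) ⧸ m)).injective.comp
        (IsFractionRing.injective Ent (FractionRing Ent))
    obtain ⟨g, hg, hne⟩ := h (MvPolynomial τ (FractionRing Ent) ⧸ m)
      (algebraMap Ent (MvPolynomial τ (FractionRing Ent) ⧸ m)) hinj (fun x => by
        have hx : IsAlgebraic (FractionRing Ent) x := Algebra.IsAlgebraic.isAlgebraic x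
        have hx' : IsAlgebraic Ent x := (IsFractionRing.isAlgebraic_iff Ent (FractionRing Ent)
          (MvPolynomial τ (FractionRing Ent) ⧸ m)).mpr hx
        obtain ⟨P, hP, hP0⟩ := hx'
        exact ⟨P, hP, hP0⟩) (fun i => Ideal.Quotient.mk m (X i))
    apply hne
    have hhom : (eval₂Hom (algebraMap Ent (MvPolynomial τ (FractionRing Ent) ⧸ m))
        fun i => Ideal.Quotient.mk m (X i)) =
        (Ideal.Quotient.mk m).comp
          (algebraMap (MvPolynomial τ Ent) (MvPolynomial τ (FractionRing Ent))) := by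
      apply MvPolynomial.ringHom_ext
      · intro r
        rw [eval₂Hom_C, RingHom.comp_apply, MvPolynomial.algebraMap_def, map_C]
        rfl
      · intro i
        rw [eval₂Hom_X', RingHom.comp_apply, MvPolynomial.algebraMap_def, map_X]
    have h3 := congrArg (fun f : MvPolynomial τ Ent →+* (MvPolynomial τ (FractionRing Ent) ⧸ m) =>
      f g) hhom
    simp only [RingHom.comp_apply, coe_eval₂Hom] at h3
    rw [h3, Ideal.Quotient.eq_zero_iff_mem]
    exact hJm (Ideal.mem_map_of_mem _ hg)

end Pool.Agent.SQ
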