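import Mathlib
import Pool.Agent.Lib_MP_b9fedf_sq.Defs2
import Pool.Agent.Lib_MP_b9fedf_sq.EntDom
import Pool.Agent.Lib_MP_b9fedf_sq.Null

/-! Piece GEN: genericity of an entire curve and its derivative along a plane. -/

set_option autoImplicit false

namespace Pool.Agent.SQ
open MvPolynomial

private theorem ci_span_gen {k j r : ℕ} {I : Ideal (Sp k j)} {b : Fin r → Sp k j}
    {db : Fin r → ℕ} (hI : CI I r b db) (s : Sp k j) :
    ∃ p : Fin r → Pp k, s - ∑ i, inc (p i) * b i ∈ I := by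
  have h : ∀ d, ∃ p : Fin r → Pp k,
      homogeneousComponent d s - ∑ i, inc (p i) * b i ∈ I := by
    intro d
    obtain ⟨p, _, hp⟩ := hI.span d _ (homogeneousComponent_isHomogeneous d s)
    exact ⟨p, hp⟩
  choose p hp using h
  refine ⟨fun i => ∑ d ∈ Finset.range (s.totalDegree + 1), p d i, ?_⟩
  have h1 : s - ∑ i, inc (∑ d ∈ Finset.range (s.totalDegree + 1), p d i) * b i =
      ∑ d ∈ Finset.range (s.totalDegree + 1),
        (homogeneousComponent d s - ∑ i, inc (p d i) * b i) := by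
    rw [Finset.sum_sub_distrib, sum_homogeneousComponent, Finset.sum_comm]
    congr 1
    refine Finset.sum_congr rfl fun i _ => ?_
    rw [map_sum, Finset.sum_mul]
  rw [h1]
  exact I.sum_mem fun d _ => hp d

/-- every element is integral over the polynomials in `u` modulo `I` -/
private theorem int_gen {k j r : ℕ} {I : Ideal (Sp k j)} {b : Fin r → Sp k j}
    {db : Fin r → ℕ} (hI : CI I r b db) (s : Sp k j) :
    ∃ G : Polynomial (Pp k), G.Monic ∧
      G.eval₂ ((inc : Pp k →ₐ[ℂ] Sp k j) : Pp k →+* Sp k j) s ∈ I := by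
  let f : Pp k →+* (Sp k j ⧸ I) :=
    (Ideal.Quotient.mk I).comp ((inc : Pp k →ₐ[ℂ] Sp k j) : Pp k →+* Sp k j)
  have hfin : f.Finite := by
    let : Algebra (Pp k) (Sp k j ⧸ I) := f.toAlgebra
    show Module.Finite (Pp k) (Sp k j ⧸ I)
    classical
    refine ⟨⟨Finset.univ.image fun i => Ideal.Quotient.mk I (b i), ?_⟩⟩
    rw [eq_top_iff]
    rintro x -
    obtain ⟨s, rfl⟩ := Ideal.Quotient.mk_surjective x
    obtain ⟨p, hp⟩ := ci_span_gen hI s
    have h1 : Ideal.Quotient.mk I s = ∑ i, p i • Ideal.Quotient.mk I (b i) := by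
      rw [← sub_eq_zero]
      have h2 := Ideal.Quotient.eq_zero_iff_mem.2 hp
      rw [map_sub, map_sum] at h2
      rw [← h2]
      congr 1
    rw [h1]
    refine Submodule.sum_mem _ fun i _ => Submodule.smul_mem _ _ (Submodule.subset_span ?_)
    simp
  obtain ⟨G, hG, hG0⟩ := hfin.to_isIntegral (Ideal.Quotient.mk I s)
  refine ⟨G, hG, ?_⟩
  rw [← Ideal.Quotient.eq_zero_iff_mem, Polynomial.hom_eval₂]
  exact hG0

/-- the value of the variable `r_i` is a root of a monic polynomial -/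
private theorem root_gen {k j : ℕ} {Ω : Type} [CommRing Ω] (φ : ℂ →+* Ω)
    (p : Fin (k + 1) ⊕ Fin j → Ω) (G : Polynomial (Pp k)) (i : Fin j)
    (h : (G.eval₂ ((inc : Pp k →ₐ[ℂ] Sp k j) : Pp k →+* Sp k j) (X (Sum.inr i))).eval₂ φ p = 0) :
    G.eval₂ (eval₂Hom φ fun l => p (Sum.inl l)) (p (Sum.inr i)) = 0 := by
  have h1 : eval₂Hom φ p
      (G.eval₂ ((inc : Pp k →ₐ[ℂ] Sp k j) : Pp k →+* Sp k j) (X (Sum.inr i))) = 0 := h
  rw [Polynomial.hom_eval₂, eval₂Hom_X'] at h1
  have h2 : (eval₂Hom φ p).comp ((inc : Pp k →ₐ[ℂ] Sp k j) : Pp k →+* Sp k j) =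
      eval₂Hom φ fun l => p (Sum.inl l) := by
    apply MvPolynomial.ringHom_ext
    · intro c
      rw [RingHom.comp_apply, eval₂Hom_C]
      show eval₂Hom φ p (rename Sum.inl (C c)) = φ c
      rw [rename_C, eval₂Hom_C]
    · intro l
      rw [RingHom.comp_apply, eval₂Hom_X']
      show eval₂Hom φ p (rename Sum.inl (X l)) = _
      rw [rename_X, eval₂Hom_X']
  rwa [h2] at h1

/-- roots of complex polynomials in a field extension are complex -/
private theorem cplx_gen {Ω : Type} [Field Ω] (φ : ℂ →+* Ω) (P : Polynomial ℂ) (hP : P ≠ 0)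
    (x : Ω) (h : P.eval₂ φ x = 0) : ∃ c : ℂ, x = φ c := by
  have hs := (IsAlgClosed.splits P).eq_prod_roots
  rw [hs, Polynomial.eval₂_mul, Polynomial.eval₂_C, mul_eq_zero] at h
  rcases h with h | h
  · exact absurd ((map_eq_zero φ).1 h) (Polynomial.leadingCoeff_ne_zero.2 hP)
  · rw [Polynomial.eval₂_multiset_prod, Multiset.prod_eq_zero_iff, Multiset.map_map,
      Multiset.mem_map] at h
    obtain ⟨a, -, ha⟩ := h
    refine ⟨a, ?_⟩
    simp only [Function.comp_apply, Polynomial.eval₂_sub, Polynomial.eval₂_X,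
      Polynomial.eval₂_C] at ha
    exact sub_eq_zero.1 ha

/-- the fibres of the zero set are finite -/
private theorem fin_gen {k j r : ℕ} {I : Ideal (Sp k j)} {b : Fin r → Sp k j}
    {db : Fin r → ℕ} (hI : CI I r b db) (u : Fin (k + 1) → ℂ) :
    {y : Fin (k + 1) ⊕ Fin j → ℂ | (∀ l, y (Sum.inl l) = u l) ∧ ∀ g ∈ I, eval y g = 0}.Finite := by
  choose G hG hG0 using fun i : Fin j => int_gen hI (X (Sum.inr i))
  let S : Fin j → Finset ℂ := fun i => ((G i).map (eval u)).roots.toFinset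
  refine ((Fintype.piFinset S).finite_toSet.image fun z => Sum.elim u z).subset ?_
  rintro y ⟨hy, hyI⟩
  refine ⟨fun i => y (Sum.inr i), ?_, ?_⟩
  · rw [Finset.mem_coe, Fintype.mem_piFinset]
    intro i
    rw [Multiset.mem_toFinset, Polynomial.mem_roots ((hG i).map _).ne_zero,
      Polynomial.IsRoot.def, Polynomial.eval_map]
    have h1 := root_gen (RingHom.id ℂ) y (G i) i (hyI _ (hG0 i))
    have h2 : eval₂Hom (RingHom.id ℂ) (fun l => y (Sum.inl l)) = eval u := by
      have h3 : (fun l => y (Sum.inl l)) = u := funext hy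
      rw [h3]
      rfl
    rwa [h2] at h1
  · funext a
    rcases a with l | i
    · exact (hy l).symm
    · rfl

/-- the zero set of a homogeneous ideal is a cone -/
private theorem cone_gen {τ : Type} (N : Ideal (MvPolynomial τ ℂ))
    (hN : ∀ ν ∈ N, ∀ d, homogeneousComponent d ν ∈ N) (p : τ → ℂ)
    (hp : ∀ g ∈ N, eval p g = 0) (c : ℂ) : ∀ g ∈ N, eval (fun i => c * p i) g = 0 := by
  intro g hg
  have key : ∀ d, eval (fun i => c * p i) (homogeneousComponent d g) =
      c ^ d * eval p (homogeneousComponent d g) := by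
    intro d
    rw [eval_eq, eval_eq, Finset.mul_sum]
    refine Finset.sum_congr rfl fun m hm => ?_
    have hd : m.sum (fun _ e => e) = d := by
      have := homogeneousComponent_isHomogeneous d g (mem_support_iff.1 hm)
      rw [← this, Finsupp.weight_apply]
      simp
    have h1 : (∏ i ∈ m.support, (c * p i) ^ m i) = c ^ d * ∏ i ∈ m.support, p i ^ m i := by
      rw [← hd, Finsupp.sum, ← Finset.prod_pow_eq_pow_sum, ← Finset.prod_mul_distrib]
      exact Finset.prod_congr rfl fun i _ => mul_pow _ _ _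
    rw [h1]
    ring
  rw [← sum_homogeneousComponent g, map_sum]
  refine Finset.sum_eq_zero fun d _ => ?_
  rw [key, hp _ (hN g hg d), mul_zero]

/-- evaluation of entire functions -/
private noncomputable def evE (z : ℂ) : Ent →+* ℂ :=
  (Pi.evalRingHom (fun _ : ℂ => ℂ) z).comp (Ent.val : Ent →+* (ℂ → ℂ))

private theorem evE_apply (z : ℂ) (f : Ent) : evE z f = f.1 z := rfl

/-- the point of the plane with parameter `t` -/
private noncomputable def ptGen {k j : ℕ} (e e' : Fin (k + 1) → ℂ) :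
    Fin (k + 1) ⊕ Fin j → MvPolynomial (Option (Fin j)) Ent
  | Sum.inl l => C (algebraMap ℂ Ent (e l)) + X none * C (algebraMap ℂ Ent (e' l))
  | Sum.inr i => X (some i)

/-- the ideal of the bad points of the plane -/
private noncomputable def jGen {k j : ℕ} (N : Ideal (Sp k j)) (e e' : Fin (k + 1) → ℂ)
    (F : Fin (k + 1) ⊕ Fin j → Ent) : Ideal (MvPolynomial (Option (Fin j)) Ent) :=
  Ideal.span ({h | ∃ g ∈ N, h = g.eval₂ ((C : Ent →+* MvPolynomial (Option (Fin j)) Ent).comp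
      (algebraMap ℂ Ent)) (ptGen e e')} ∪
    {∑ i, ptGen e e' i * C (F i), ∑ i, ptGen e e' i * C (dE (F i))})

private theorem pt_eval_inl {k j : ℕ} (e e' : Fin (k + 1) → ℂ) {Ω : Type} [CommRing Ω]
    (ψ : Ent →+* Ω) (x : Option (Fin j) → Ω) (l : Fin (k + 1)) :
    (ptGen e e' (Sum.inl l)).eval₂ ψ x =
      ψ (algebraMap ℂ Ent (e l)) + x none * ψ (algebraMap ℂ Ent (e' l)) := by
  simp [ptGen, eval₂_add, eval₂_mul, eval₂_C, eval₂_X]

private theorem pt_eval_inr {k j : ℕ} (e e' : Fin (k + 1) → ℂ) {Ω : Type} [CommRing Ω]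
    (ψ : Ent →+* Ω) (x : Option (Fin j) → Ω) (i : Fin j) :
    (ptGen (k := k) e e' (Sum.inr i)).eval₂ ψ x = x (some i) := by
  simp [ptGen, eval₂_X]

private theorem pt_eval {k j : ℕ} (e e' : Fin (k + 1) → ℂ) {Ω : Type} [CommRing Ω]
    (ψ : Ent →+* Ω) (x : Option (Fin j) → Ω) (g : Sp k j) :
    (g.eval₂ ((C : Ent →+* MvPolynomial (Option (Fin j)) Ent).comp
      (algebraMap ℂ Ent)) (ptGen e e')).eval₂ ψ x =
    g.eval₂ (ψ.comp (algebraMap ℂ Ent)) fun i => (ptGen e e' i).eval₂ ψ x := by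
  have h := MvPolynomial.eval₂_comp_left (eval₂Hom ψ x)
    ((C : Ent →+* MvPolynomial (Option (Fin j)) Ent).comp (algebraMap ℂ Ent)) (ptGen e e') g
  have h1 : (eval₂Hom ψ x).comp
      ((C : Ent →+* MvPolynomial (Option (Fin j)) Ent).comp (algebraMap ℂ Ent)) =
      ψ.comp (algebraMap ℂ Ent) := by
    ext c
    simp
  rw [h1] at h
  exact h

private theorem pt_sum {k j : ℕ} (e e' : Fin (k + 1) → ℂ) {Ω : Type} [CommRing Ω]
    (ψ : Ent →+* Ω) (x : Option (Fin j) → Ω) (F : Fin (k + 1) ⊕ Fin j → Ent) :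
    (∑ i, ptGen e e' i * C (F i)).eval₂ ψ x =
      ∑ i, (ptGen e e' i).eval₂ ψ x * ψ (F i) := by
  have h : eval₂Hom ψ x (∑ i, ptGen e e' i * C (F i)) =
      ∑ i, eval₂Hom ψ x (ptGen e e' i) * ψ (F i) := by
    rw [map_sum]
    refine Finset.sum_congr rfl fun i _ => ?_
    rw [map_mul, eval₂Hom_C]
  exact h

/-- PIECE GEN, strong form -/
theorem gen_plane {k j r : ℕ} {I : Ideal (Sp k j)} {b : Fin r → Sp k j}
    {db : Fin r → ℕ} (hI : CI I r b db) (N : Ideal (Sp k j)) (hIN : I ≤ N)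
    (hN : ∀ ν ∈ N, ∀ d, homogeneousComponent d ν ∈ N) (e e' : Fin (k + 1) → ℂ)
    (he : LinearIndependent ℂ ![e, e']) (F : Fin (k + 1) ⊕ Fin j → Ent)
    (hli : LinearIndependent ℂ F)
    (h : ∀ (Ω : Type) [Field Ω] (ψ : Ent →+* Ω), Function.Injective ψ →
      (∀ x : Ω, ∃ P : Polynomial Ent, P ≠ 0 ∧ P.eval₂ ψ x = 0) →
      ∀ (t : Ω) (p : Fin (k + 1) ⊕ Fin j → Ω),
      (∀ P : Polynomial ℂ, P ≠ 0 → P.eval₂ (ψ.comp (algebraMap ℂ Ent)) t ≠ 0) →
      (∀ i, p (Sum.inl i) = ψ (algebraMap ℂ Ent (e i)) + t * ψ (algebraMap ℂ Ent (e' i))) →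
      (∀ g ∈ N, g.eval₂ (ψ.comp (algebraMap ℂ Ent)) p = 0) →
      ∑ i, p i * ψ (F i) = 0 → ∑ i, p i * ψ (dE (F i)) = 0 → False) :
    ∃ d : Ent, d ≠ 0 ∧ ∀ z : ℂ, d.1 z ≠ 0 →
      GenAt N e e' (fun i => (F i).1 z) (fun i => (dE (F i)).1 z) := by
  classical
  rw [LinearIndependent.pair_iff] at he
  have hcomb : ∀ q : Fin (k + 1) ⊕ Fin j → ℂ, q ≠ 0 →
      ∑ i, algebraMap ℂ Ent (q i) * F i ≠ 0 := by
    intro q hq hs
    apply hq
    funext i
    refine Fintype.linearIndependent_iff.1 hli q ?_ i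
    rw [← hs]
    refine Finset.sum_congr rfl fun i _ => ?_
    rw [Algebra.smul_def]
  -- part (A)
  obtain ⟨d₁, hd₁, hA⟩ : ∃ d₁ : Ent, d₁ ≠ 0 ∧ ∀ z : ℂ, d₁.1 z ≠ 0 →
      ∀ q : Fin (k + 1) ⊕ Fin j → ℂ, (∀ g ∈ N, eval q g = 0) → (∀ l, q (Sum.inl l) = e' l) →
      dt q (fun i => (F i).1 z) ≠ 0 := by
    have hfin := fin_gen hI e'
    refine ⟨∏ q ∈ hfin.toFinset, ∑ i, algebraMap ℂ Ent (q i) * F i, ?_, ?_⟩
    · rw [Finset.prod_ne_zero_iff]
      intro q hq
      apply hcomb
      rintro rfl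
      rw [Set.Finite.mem_toFinset] at hq
      have h0 := (he 0 1 (by
        funext l
        simp [← hq.1 l])).2
      exact one_ne_zero h0
    · intro z hz q hqN hqe hq0
      apply hz
      have hmem : q ∈ hfin.toFinset := by
        rw [Set.Finite.mem_toFinset]
        exact ⟨hqe, fun g hg => hqN g (hIN hg)⟩
      rw [← evE_apply, map_prod]
      refine Finset.prod_eq_zero hmem ?_
      rw [map_sum, ← hq0]
      refine Finset.sum_congr rfl fun i _ => ?_
      rw [map_mul]
      rfl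
  -- part (B)
  obtain ⟨d₂, hd₂, hB⟩ : ∃ d₂ : Ent, d₂ ≠ 0 ∧
      (C d₂ : MvPolynomial (Option (Fin j)) Ent) ∈ jGen N e e' F := by
    apply null_ent
    intro Ω _ ψ hψ halg x
    by_contra hcon
    push Not at hcon
    let p : Fin (k + 1) ⊕ Fin j → Ω := fun i => (ptGen e e' i).eval₂ ψ x
    have hpN : ∀ g ∈ N, g.eval₂ (ψ.comp (algebraMap ℂ Ent)) p = 0 := by
      intro g hg
      rw [← pt_eval]
      exact hcon _ (Ideal.subset_span (Or.inl ⟨g, hg, rfl⟩))
    have hp1 : ∑ i, p i * ψ (F i) = 0 := by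
      rw [← pt_sum]
      exact hcon _ (Ideal.subset_span (Or.inr (Or.inl rfl)))
    have hp2 : ∑ i, p i * ψ (dE (F i)) = 0 := by
      rw [← pt_sum e e' ψ x fun i => dE (F i)]
      exact hcon _ (Ideal.subset_span (Or.inr (Or.inr rfl)))
    have hpl : ∀ l, p (Sum.inl l) =
        ψ (algebraMap ℂ Ent (e l)) + x none * ψ (algebraMap ℂ Ent (e' l)) :=
      fun l => pt_eval_inl e e' ψ x l
    by_cases ht : ∀ P : Polynomial ℂ, P ≠ 0 → P.eval₂ (ψ.comp (algebraMap ℂ Ent)) (x none) ≠ 0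
    · exact h Ω ψ hψ halg (x none) p ht hpl hpN hp1 hp2
    · push Not at ht
      obtain ⟨P, hP, hP0⟩ := ht
      obtain ⟨c, hc⟩ := cplx_gen _ P hP _ hP0
      have hinl : ∀ l, p (Sum.inl l) = (ψ.comp (algebraMap ℂ Ent)) (e l + c * e' l) := by
        intro l
        rw [hpl, hc, map_add, map_mul]
        rfl
      have hall : ∀ i, ∃ w : ℂ, p i = (ψ.comp (algebraMap ℂ Ent)) w := by
        intro i
        rcases i with l | i
        · exact ⟨_, hinl l⟩
        · obtain ⟨G, hG, hG0⟩ := int_gen hI (X (Sum.inr i))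
          have h1 := root_gen (ψ.comp (algebraMap ℂ Ent)) p G i (hpN _ (hIN hG0))
          refine cplx_gen _ (G.map (eval fun l => e l + c * e' l)) (hG.map _).ne_zero _ ?_
          rw [Polynomial.eval₂_map]
          rw [← h1]
          congr 1
          apply MvPolynomial.ringHom_ext
          · intro a
            simp
          · intro l
            rw [RingHom.comp_apply, eval_X, eval₂Hom_X', hinl]
      choose q hq using hall
      have hq0 : q ≠ 0 := by
        rintro rfl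
        have h3 : (1 : ℂ) = 0 := (he 1 c (by
          funext l
          have h4 := (hinl l).symm.trans (hq (Sum.inl l))
          have h5 := (ψ.comp (algebraMap ℂ Ent)).injective h4
          simpa using h5)).1
        exact one_ne_zero h3
      apply hcomb q hq0
      apply hψ
      rw [map_zero, map_sum, ← hp1]
      refine Finset.sum_congr rfl fun i _ => ?_
      rw [map_mul, hq i]
      rfl
  refine ⟨d₁ * d₂, mul_ne_zero hd₁ hd₂, ?_⟩
  intro z hz
  have hz' : d₁.1 z * d₂.1 z ≠ 0 := hz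
  have hz1 : d₁.1 z ≠ 0 := left_ne_zero_of_mul hz'
  have hz2 : d₂.1 z ≠ 0 := right_ne_zero_of_mul hz'
  rintro p hpN ⟨α, β, hpl⟩ hp0 hdt hdt'
  by_cases hα : α = 0
  · subst hα
    by_cases hβ : β = 0
    · subst hβ
      have hfin := fin_gen hI (0 : Fin (k + 1) → ℂ)
      obtain ⟨a, ha⟩ : ∃ a, p a ≠ 0 := by
        by_contra hcon
        push Not at hcon
        exact hp0 (funext hcon)
      refine Set.infinite_of_injective_forall_mem (f := fun c : ℂ => fun i => c * p i) ?_ ?_ hfin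
      · intro c c' hcc
        have h1 : c * p a = c' * p a := congrFun hcc a
        exact mul_right_cancel₀ ha h1
      · intro c
        refine ⟨fun l => ?_, fun g hg => cone_gen N hN p hpN c g (hIN hg)⟩
        show c * p (Sum.inl l) = 0
        rw [hpl]
        ring
    · refine hA z hz1 (fun i => β⁻¹ * p i) (cone_gen N hN p hpN β⁻¹) ?_ ?_
      · intro l
        show β⁻¹ * p (Sum.inl l) = e' l
        rw [hpl, zero_mul, zero_add, ← mul_assoc, inv_mul_cancel₀ hβ, one_mul]
      · have h1 : dt (fun i => β⁻¹ * p i) (fun i => (F i).1 z) =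
            β⁻¹ * dt p (fun i => (F i).1 z) := by
          unfold dt
          rw [Finset.mul_sum]
          exact Finset.sum_congr rfl fun i _ => by ring
        rw [h1, hdt, mul_zero]
  · apply hz2
    let q : Fin (k + 1) ⊕ Fin j → ℂ := fun i => α⁻¹ * p i
    have hqN : ∀ g ∈ N, eval q g = 0 := cone_gen N hN p hpN α⁻¹
    let x : Option (Fin j) → ℂ := fun o => o.elim (α⁻¹ * β) fun i => q (Sum.inr i)
    have hx : (fun i => (ptGen e e' i).eval₂ (evE z) x) = q := by
      funext i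
      rcases i with l | i
      · rw [pt_eval_inl]
        show e l + α⁻¹ * β * e' l = α⁻¹ * p (Sum.inl l)
        rw [hpl]
        field_simp
      · rw [pt_eval_inr]
        rfl
    have hJ : jGen N e e' F ≤ RingHom.ker (eval₂Hom (evE z) x) := by
      unfold jGen
      rw [Ideal.span_le]
      rintro g (⟨g, hg, rfl⟩ | rfl | rfl)
      · rw [SetLike.mem_coe, RingHom.mem_ker]
        show (MvPolynomial.eval₂ ((C : Ent →+* MvPolynomial (Option (Fin j)) Ent).comp
          (algebraMap ℂ Ent)) (ptGen e e') g).eval₂ (evE z) x = 0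
        rw [pt_eval, hx]
        have h1 : (evE z).comp (algebraMap ℂ Ent) = RingHom.id ℂ := by
          ext c
          rfl
        rw [h1]
        exact hqN g hg
      · rw [SetLike.mem_coe, RingHom.mem_ker]
        show (∑ i, ptGen e e' i * C (F i)).eval₂ (evE z) x = 0
        rw [pt_sum]
        have h1 : ∑ i, (ptGen e e' i).eval₂ (evE z) x * evE z (F i) =
            α⁻¹ * dt p (fun i => (F i).1 z) := by
          unfold dt
          rw [Finset.mul_sum]
          refine Finset.sum_congr rfl fun i _ => ?_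
          have h2 : (ptGen e e' i).eval₂ (evE z) x = q i := congrFun hx i
          rw [h2, evE_apply]
          show α⁻¹ * p i * _ = _
          ring
        rw [h1, hdt, mul_zero]
      · rw [SetLike.mem_coe, RingHom.mem_ker]
        show (∑ i, ptGen e e' i * C (dE (F i))).eval₂ (evE z) x = 0
        rw [pt_sum e e' (evE z) x fun i => dE (F i)]
        have h1 : ∑ i, (ptGen e e' i).eval₂ (evE z) x * evE z (dE (F i)) =
            α⁻¹ * dt p (fun i => (dE (F i)).1 z) := by
          unfold dt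
          rw [Finset.mul_sum]
          refine Finset.sum_congr rfl fun i _ => ?_
          have h2 : (ptGen e e' i).eval₂ (evE z) x = q i := congrFun hx i
          rw [h2, evE_apply]
          show α⁻¹ * p i * _ = _
          ring
        rw [h1, hdt', mul_zero]
    have h1 := hJ hB
    rw [RingHom.mem_ker, eval₂Hom_C] at h1
    exact h1

/-- PIECE GEN -/
theorem gen {k j r : ℕ} (hk : 1 ≤ k) {I : Ideal (Sp k j)} {b : Fin r → Sp k j}
    {db : Fin r → ℕ} (hI : CI I r b db) (N : Ideal (Sp k j)) (hIN : I ≤ N)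
    (hN : ∀ ν ∈ N, ∀ d, homogeneousComponent d ν ∈ N) (s α : Sp k j) (p : Pp k) (hp : p ≠ 0)
    (hps : inc p - s * α ∈ N) (F : Fin (k + 1) ⊕ Fin j → Ent) (hli : LinearIndependent ℂ F)
    (hND : ND F s) :
    ∃ e e' : Fin (k + 1) → ℂ, LinearIndependent ℂ ![e, e'] ∧ ∃ d : Ent, d ≠ 0 ∧
      ∀ z : ℂ, d.1 z ≠ 0 →
        GenAt N e e' (fun i => (F i).1 z) (fun i => (dE (F i)).1 z) := by
  classical
  obtain ⟨e, he⟩ : ∃ e : Fin (k + 1) → ℂ, eval e (p * X 0) ≠ 0 := by
    by_contra hcon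
    push Not at hcon
    have h1 : p * X 0 = 0 := MvPolynomial.funext fun x => by rw [hcon x, map_zero]
    rcases mul_eq_zero.1 h1 with h2 | h2
    · exact hp h2
    · exact MvPolynomial.X_ne_zero 0 h2
  rw [map_mul, eval_X] at he
  have hep : eval e p ≠ 0 := left_ne_zero_of_mul he
  have he0 : e 0 ≠ 0 := right_ne_zero_of_mul he
  let i₁ : Fin (k + 1) := ⟨1, by omega⟩
  have hi₁ : (0 : Fin (k + 1)) ≠ i₁ := by
    intro h
    have := congrArg Fin.val h
    simp [i₁] at this
  let e' : Fin (k + 1) → ℂ := Pi.single i₁ 1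
  have hli2 : LinearIndependent ℂ ![e, e'] := by
    rw [LinearIndependent.pair_iff]
    intro a c hac
    have h0 := congrFun hac 0
    have h1 := congrFun hac i₁
    have h2 : e' 0 = 0 := Pi.single_eq_of_ne hi₁ 1
    have h3 : e' i₁ = 1 := Pi.single_eq_same i₁ 1
    simp only [Pi.add_apply, Pi.smul_apply, smul_eq_mul, Pi.zero_apply] at h0 h1
    rw [h2, mul_zero, add_zero] at h0
    have ha : a = 0 := (mul_eq_zero.1 h0).resolve_right he0
    rw [ha, h3, zero_mul, zero_add, mul_one] at h1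
    exact ⟨ha, h1⟩
  refine ⟨e, e', hli2, gen_plane hI N hIN hN e e' hli2 F hli ?_⟩
  intro Ω _ ψ hψ halg t q ht hqe hqN h1 h2
  let φ : ℂ →+* Ω := ψ.comp (algebraMap ℂ Ent)
  let T : Pp k →+* Polynomial ℂ :=
    eval₂Hom Polynomial.C fun l => Polynomial.C (e l) + Polynomial.X * Polynomial.C (e' l)
  have hT : (Polynomial.eval₂RingHom φ t).comp T = eval₂Hom φ fun l => q (Sum.inl l) := by
    apply MvPolynomial.ringHom_ext
    · intro c
      simp [T]
    · intro l
      rw [RingHom.comp_apply, eval₂Hom_X', eval₂Hom_X', hqe, map_add, map_mul]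
      simp only [Polynomial.coe_eval₂RingHom, Polynomial.eval₂_C, Polynomial.eval₂_X]
      rfl
  have hq0 : q ≠ 0 := by
    rintro rfl
    have h3 := hqe 0
    have h4 : e' 0 = 0 := Pi.single_eq_of_ne hi₁ 1
    rw [h4, map_zero, map_zero, mul_zero, add_zero] at h3
    have h5 : φ (e 0) = 0 := h3.symm
    exact he0 ((map_eq_zero φ).1 h5)
  have halgq : ∀ i, ∃ R : Polynomial (Polynomial ℂ), R ≠ 0 ∧
      R.eval₂ (Polynomial.eval₂RingHom (ψ.comp (algebraMap ℂ Ent)) t) (q i) = 0 := by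
    intro i
    rcases i with l | i
    · refine ⟨Polynomial.X - Polynomial.C (T (X l)), Polynomial.X_sub_C_ne_zero _, ?_⟩
      rw [Polynomial.eval₂_sub, Polynomial.eval₂_X, Polynomial.eval₂_C]
      have h3 := congrArg (fun f : Pp k →+* Ω => f (X l)) hT
      simp only [RingHom.comp_apply, eval₂Hom_X'] at h3
      rw [sub_eq_zero]
      exact h3.symm
    · obtain ⟨G, hG, hG0⟩ := int_gen hI (X (Sum.inr i))
      have h3 := root_gen φ q G i (hqN _ (hIN hG0))
      refine ⟨G.map T, (hG.map _).ne_zero, ?_⟩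
      rw [Polynomial.eval₂_map, ← h3, ← hT]
  have hs := hND Ω ψ hψ halg t q ht halgq hq0 h1 h2
  have h3 := hqN _ hps
  have h4 : eval₂Hom φ q (inc p - s * α) = 0 := h3
  have h5 : eval₂Hom φ q s = 0 := hs
  rw [map_sub, map_mul, h5, zero_mul, sub_zero] at h4
  have h6 : eval₂Hom φ q (inc p) = (T p).eval₂ φ t := by
    have h7 := congrArg (fun f : Pp k →+* Ω => f p) hT
    simp only [RingHom.comp_apply] at h7
    have h8 : (T p).eval₂ φ t = eval₂Hom φ (fun l => q (Sum.inl l)) p := h7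
    rw [h8]
    show eval₂Hom φ q (rename Sum.inl p) = _
    rw [eval₂Hom_rename]
    rfl
  rw [h6] at h4
  refine ht (T p) ?_ h4
  intro hTp
  apply hep
  have h9 : (Polynomial.evalRingHom (0 : ℂ)).comp T = eval e := by
    apply MvPolynomial.ringHom_ext
    · intro c
      simp [T]
    · intro l
      simp [T]
  rw [← h9, RingHom.comp_apply, hTp, map_zero]

end Pool.Agent.SQ
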