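import Pool.Agent.Lib_MP_b9fedf_sq.AbsLem
import Pool.Agent.Lib_MP_b9fedf_sq.Gen
import Pool.Agent.Lib_MP_b9fedf_sq.Disc
import Pool.Agent.Lib_MP_b9fedf_sq.ExcForm

/-! Entire curves strongly tangent to many hypersurfaces lie in a fixed hypersurface. -/

set_option autoImplicit false

namespace Pool.Agent.SQ
open MvPolynomial

theorem ent_aeval {n : ℕ} (f : Fin (n + 1) → Ent) (P : MvPolynomial (Fin (n + 1)) ℂ) (z : ℂ) :
    (aeval f P).1 z = eval (fun k => (f k).1 z) P := by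
  let φ : Ent →ₐ[ℂ] ℂ := (Pi.evalAlgHom ℂ (fun _ : ℂ => ℂ) z).comp Ent.val
  have h1 : φ (aeval f P) = aeval (fun k => φ (f k)) P := comp_aeval_apply _ _ _
  rw [← coe_aeval_eq_eval]
  exact h1

theorem exists_plane {k : ℕ} (hk : 1 ≤ k) (p₀ : Pp k) (hp₀ : p₀ ≠ 0) :
    ∃ e e' : Fin (k + 1) → ℂ, LinearIndependent ℂ ![e, e'] ∧ eval e p₀ ≠ 0 := by
  have h1 : p₀ * X 0 ≠ 0 := mul_ne_zero hp₀ (X_ne_zero _)
  obtain ⟨v, hv⟩ : ∃ v, eval v (p₀ * X 0) ≠ 0 := by
    by_contra hcon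
    push Not at hcon
    apply h1
    apply MvPolynomial.funext
    intro v
    rw [hcon v, map_zero]
  rw [map_mul, eval_X] at hv
  have hv1 := left_ne_zero_of_mul hv
  have hv2 := right_ne_zero_of_mul hv
  refine ⟨v, Pi.single ⟨1, by omega⟩ 1, ?_, hv1⟩
  rw [LinearIndependent.pair_iff]
  intro α β h
  have h2 := congrFun h 0
  have h3 : (0 : Fin (k + 1)) ≠ ⟨1, by omega⟩ := by
    intro h4
    have := congrArg Fin.val h4
    simp at this
  rw [Pi.add_apply, Pi.smul_apply, Pi.smul_apply, Pi.single_apply, if_neg h3, smul_zero, add_zero,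
    smul_eq_mul, Pi.zero_apply] at h2
  have hα : α = 0 := (mul_eq_zero.mp h2).resolve_right hv2
  refine ⟨hα, ?_⟩
  have h4 := congrFun h ⟨1, by omega⟩
  rw [Pi.add_apply, Pi.smul_apply, Pi.smul_apply, Pi.single_eq_same, hα, zero_smul, zero_add,
    smul_eq_mul, mul_one, Pi.zero_apply] at h4
  exact h4

/-- the polynomials `P` in the coordinates given by `T` -/
noncomputable def pullP {σ τ : Type} {n : ℕ} [Fintype τ] [DecidableEq σ]
    (T : (σ → ℂ) →ₗ[ℂ] (τ → ℂ)) (P : τ → MvPolynomial (Fin (n + 1)) ℂ) :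
    σ → MvPolynomial (Fin (n + 1)) ℂ := fun i => ∑ k, T (Pi.single i 1) k • P k

theorem aeval_pullP {σ τ : Type} {n : ℕ} [Fintype τ] [DecidableEq σ]
    (T : (σ → ℂ) →ₗ[ℂ] (τ → ℂ)) (P : τ → MvPolynomial (Fin (n + 1)) ℂ) (f : Fin (n + 1) → Ent)
    (i : σ) : aeval f (pullP T P i) = pull T (fun k => aeval f (P k)) i := by
  unfold pullP pull
  rw [map_sum]
  exact Finset.sum_congr rfl fun k _ => by rw [map_smul]

theorem li_pullP {σ τ : Type} {n : ℕ} [Fintype τ] [DecidableEq σ]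
    (T : (σ → ℂ) →ₗ[ℂ] (τ → ℂ)) (P : τ → MvPolynomial (Fin (n + 1)) ℂ) (f : Fin (n + 1) → Ent)
    (h : LinearIndependent ℂ (pull T (fun k => aeval f (P k)))) :
    LinearIndependent ℂ (fun i => aeval f (pullP T P i)) := by
  simp only [aeval_pullP]
  exact h

theorem pullP_hom {σ τ : Type} {n e : ℕ} [Fintype τ] [DecidableEq σ]
    (T : (σ → ℂ) →ₗ[ℂ] (τ → ℂ)) (P : τ → MvPolynomial (Fin (n + 1)) ℂ)
    (hP : ∀ k, (P k).IsHomogeneous e) (i : σ) : (pullP T P i).IsHomogeneous e := by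
  unfold pullP
  exact (homogeneousSubmodule (Fin (n + 1)) ℂ e).sum_mem fun k _ =>
    (homogeneousSubmodule (Fin (n + 1)) ℂ e).smul_mem _ ((mem_homogeneousSubmodule _ _).mpr (hP k))

theorem pullP_sum {σ τ : Type} {n : ℕ} [Fintype σ] [Fintype τ] [DecidableEq σ]
    (T : (σ → ℂ) →ₗ[ℂ] (τ → ℂ)) (P : τ → MvPolynomial (Fin (n + 1)) ℂ) (v : σ → ℂ) :
    ∑ i, C (v i) * pullP T P i = ∑ k, C (T v k) * P k := by
  have h1 : ∀ k, C (T v k) * P k = ∑ i, C (v i) * (T (Pi.single i 1) k • P k) := by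
    intro k
    rw [map_eq_sum T v k, map_sum, Finset.sum_mul]
    apply Finset.sum_congr rfl
    intro i _
    rw [smul_eq_C_mul, map_mul, mul_assoc]
  rw [Finset.sum_congr rfl fun k _ => h1 k, Finset.sum_comm]
  apply Finset.sum_congr rfl
  intro i _
  rw [← Finset.mul_sum]
  rfl

/-- the same over an extension -/
theorem pullP_map_sum {σ τ : Type} {n : ℕ} [Fintype σ] [Fintype τ] [DecidableEq σ]
    (T : (σ → ℂ) →ₗ[ℂ] (τ → ℂ)) (P : τ → MvPolynomial (Fin (n + 1)) ℂ) {Ω : Type} [Field Ω]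
    (φ : ℂ →+* Ω) (p : σ → Ω) :
    ∑ i, C (p i) * MvPolynomial.map φ (pullP T P i) =
      ∑ k, C (∑ i, p i * φ (T (Pi.single i 1) k)) * MvPolynomial.map φ (P k) := by
  have h1 : ∀ k, C (∑ i, p i * φ (T (Pi.single i 1) k)) * MvPolynomial.map φ (P k) =
      ∑ i, C (p i) * (C (φ (T (Pi.single i 1) k)) * MvPolynomial.map φ (P k)) := by
    intro k
    rw [map_sum, Finset.sum_mul]
    apply Finset.sum_congr rfl
    intro i _
    rw [map_mul, mul_assoc]
  rw [Finset.sum_congr rfl fun k _ => h1 k, Finset.sum_comm]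
  apply Finset.sum_congr rfl
  intro i _
  rw [← Finset.mul_sum]
  congr 1
  unfold pullP
  rw [map_sum]
  apply Finset.sum_congr rfl
  intro k _
  rw [smul_eq_C_mul, map_mul, map_C]

theorem eval₂_subs {σ τ : Type} [Fintype σ] [DecidableEq σ] (T : (σ → ℂ) →ₗ[ℂ] (τ → ℂ))
    (s : MvPolynomial τ ℂ) {Ω : Type} [Field Ω] (φ : ℂ →+* Ω) (p : σ → Ω) :
    (subs T s).eval₂ φ p = s.eval₂ φ (fun k => ∑ i, p i * φ (T (Pi.single i 1) k)) := by
  have h4 := eval₂Hom_bind₁ φ p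
    (fun k => ∑ i, C (T (Pi.single i 1) k) * X i : τ → MvPolynomial σ ℂ) s
  have h5 : (subs T s).eval₂ φ p = s.eval₂ φ (fun k => eval₂Hom φ p
      (∑ i, C (T (Pi.single i 1) k) * X i : MvPolynomial σ ℂ)) := h4
  rw [h5]
  congr 1
  funext k
  rw [map_sum]
  exact Finset.sum_congr rfl fun i _ => by
    rw [map_mul, eval₂Hom_C, eval₂Hom_X', mul_comm]

/-- the case where no hyperplane contains many points -/
theorem span_caseZ (n e m M₀ M : ℕ) (hen : 1 ≤ e) : ∃ N₀ : ℕ,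
    ∀ P : Fin (m + 1) → MvPolynomial (Fin (n + 1)) ℂ, (∀ i, (P i).IsHomogeneous e) →
    ∀ A : Finset (Fin (m + 1) → ℂ), PW A → N₀ < A.card →
    (∀ a ∈ A, Squarefree (∑ i, C (a i) * P i)) →
    (∀ h : Fin (m + 1) → ℂ, h ≠ 0 → ∀ A' ⊆ A, (∀ a ∈ A', dt a h = 0) → A'.card ≤ M₀) →
    ∃ (dZ : ℕ) (Z : MvPolynomial (Fin (n + 1)) ℂ), Z ≠ 0 ∧ Z.IsHomogeneous dZ ∧
    ∀ f : Fin (n + 1) → Ent, LinearIndependent ℂ (fun i => aeval f (P i)) →
    (∀ a z, (f a).1 (z + 2 * Real.pi * Complex.I) = (f a).1 z) →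
    (∀ a ∈ A, ∀ b ∈ A, ∀ (z : ℂ) (c : ℕ),
      analyticOrderAt (fun ζ => ∑ k, b k * (aeval f (P k)).1 ζ) z = c →
      analyticOrderAt (fun ζ => ∑ k, a k * (aeval f (P k)).1 ζ) z = ((c + 1 : ℕ) : ℕ∞) →
      ∀ A' ⊆ A, (∀ x ∈ A', (c : ℕ∞) ≤ analyticOrderAt
        (fun ζ => ∑ k, x k * (aeval f (P k)).1 ζ) z) → A'.card ≤ M) →
    aeval f Z = 0 := by
  classical
  choose Di Dp hD using exists_packAt (2 * e - 1)
  obtain ⟨N₀, hN₀⟩ := select m (max M₀ M) Di Dp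
  refine ⟨N₀, fun P hP A hA hcard hsq hM => ?_⟩
  obtain ⟨k, j, hk, hkj, A', hA', hA'card, Ψ, I, r, b, db, hCI, hzero, hirr, hpd⟩ :=
    hN₀ A hA hcard
  have hspan : ∀ h : Fin (m + 1) → ℂ, h ≠ 0 → ∃ a ∈ A', dt a h ≠ 0 := by
    intro h hh
    by_contra hcon
    push Not at hcon
    have := hM h hh A' hA' hcon
    have := le_max_left M₀ M
    omega
  set T : (Fin (k + 1) ⊕ Fin j → ℂ) →ₗ[ℂ] (Fin (m + 1) → ℂ) := Ψ.symm.toLinearMap with hT
  have hTΨ : ∀ a, T (Ψ a) = a := fun a => Ψ.symm_apply_apply a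
  have hTinj : Function.Injective T := Ψ.symm.injective
  set Ac : Finset (Fin (k + 1) ⊕ Fin j → ℂ) := A'.image Ψ with hAc
  have hAcc : (Ac : Set (Fin (k + 1) ⊕ Fin j → ℂ)) = Ψ '' (A' : Set (Fin (m + 1) → ℂ)) := by
    rw [hAc, Finset.coe_image]
  have hspan' : ∀ h : Fin (k + 1) ⊕ Fin j → ℂ, h ≠ 0 →
      ∃ a ∈ (Ac : Set (Fin (k + 1) ⊕ Fin j → ℂ)), dt a h ≠ 0 := by
    intro h hh
    have h1 : ∀ a, dt (Ψ a) h = dt a (fun i => ∑ x, Ψ (Pi.single i 1) x * h x) := by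
      intro a
      unfold dt
      have h2 : ∀ x, Ψ a x = ∑ i, a i * Ψ (Pi.single i 1) x := fun x =>
        map_eq_sum Ψ.toLinearMap a x
      simp only [h2, Finset.sum_mul, Finset.mul_sum]
      rw [Finset.sum_comm]
      exact Finset.sum_congr rfl fun i _ => Finset.sum_congr rfl fun x _ => by ring
    obtain ⟨a, ha, ha'⟩ := hspan (fun i => ∑ x, Ψ (Pi.single i 1) x * h x) (by
      intro h0
      apply hh
      funext x
      have h3 := h1 (Ψ.symm (Pi.single x 1))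
      rw [Ψ.apply_symm_apply, h0] at h3
      have h4 : dt (Pi.single x 1) h = h x := by
        unfold dt
        rw [Finset.sum_eq_single x]
        · rw [Pi.single_eq_same, one_mul]
        · intro y _ hy
          rw [Pi.single_apply, if_neg hy, zero_mul]
        · intro hx
          exact absurd (Finset.mem_univ _) hx
      rw [h4] at h3
      rw [h3]
      unfold dt
      simp)
    refine ⟨Ψ a, ?_, ?_⟩
    · rw [hAcc]
      exact ⟨a, ha, rfl⟩
    · rw [h1]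
      exact ha'
  obtain ⟨a₀, ha₀⟩ : A'.Nonempty := by
    rw [← Finset.card_pos]
    omega
  obtain ⟨s, hs1, hs2, hs3⟩ := disc_form hen P hP a₀ (hsq a₀ (hA' ha₀))
  obtain ⟨V, N, q, L, K, p, α, hIV, hann, hp0, hps, hq, hNK, hK1, hK2, hK3⟩ :=
    hD k j r hk I b db hCI Ac (by
      intro a ha t ht
      obtain ⟨a', ha', rfl⟩ := Finset.mem_image.mp ha
      exact hzero a' ha' t ht) (by rw [hAcc]; exact hirr) (by rw [hAcc]; exact hpd) (by
      intro h hh hv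
      obtain ⟨a, ha, ha'⟩ := hspan' h hh
      apply ha'
      rw [← eval_lin']
      exact hv a ha) (subs T s) (subs_hom T hs1) (by
      intro hv
      have h1 := hv (Ψ a₀) (by rw [hAcc]; exact ⟨a₀, ha₀, rfl⟩)
      rw [eval_subs, hTΨ] at h1
      exact hs2 h1)
  obtain ⟨e₁, e₂, he, he₁⟩ := exists_plane hk p hp0
  obtain ⟨dZ, Z, hZ0, hZh, hZ⟩ := exc_form hCI (annI I V) hIV (subs T s) α p hps e₁ e₂ he₁
    (pullP T P) (pullP_hom T P hP) (by
      intro Ω _ φ p' hp'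
      rw [eval₂_subs]
      apply hs3 Ω φ
      rw [pullP_map_sum] at hp'
      exact hp')
  refine ⟨dZ, Z, hZ0, hZh, fun f hli hper htan => ?_⟩
  by_contra hZf
  set F : Fin (m + 1) → Ent := fun i => aeval f (P i) with hF
  set G := pull T F with hG
  have hGR : ∀ x, aeval f (pullP T P x) = G x := fun x => aeval_pullP T P f x
  have hFper : ∀ a z, (F a).1 (z + 2 * Real.pi * Complex.I) = (F a).1 z := by
    intro a z
    show (aeval f (P a)).1 _ = (aeval f (P a)).1 _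
    rw [ent_aeval, ent_aeval]
    congr 2
    funext k
    exact hper k z
  have hGli : LinearIndependent ℂ G := pull_li T hTinj F hli
  obtain ⟨d, hd0, hgen⟩ := gen_plane hCI (annI I V) hIV hann e₁ e₂ he G hGli (by
    intro Ω _ ψ hψ halg t p' ht hp' hN' h1 h2
    refine hZ f hZf Ω ψ hψ halg t p' ht hp' hN' ?_ ?_
    · simp only [hGR]
      exact h1
    · simp only [hGR]
      exact h2)
  -- the point `z₀`
  have hqG : ∀ i, (∑ x, q i x • G x : Ent) ≠ 0 := by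
    intro i h0
    have h1 := (Fintype.linearIndependent_iff.mp hGli) (q i) h0
    obtain ⟨a', ha', hqa⟩ := Finset.mem_image.mp (hq i)
    apply (hA a' (hA' ha')).1
    apply Ψ.injective
    rw [map_zero, hqa]
    exact funext h1
  have hprod : d * ∏ i, (∑ x, q i x • G x : Ent) ≠ 0 :=
    mul_ne_zero hd0 (Finset.prod_ne_zero_iff.mpr fun i _ => hqG i)
  obtain ⟨z₀, hz₀⟩ := (Ent.ne_zero_iff _).mp hprod
  have hz₀' : d.1 z₀ * ∏ i, dt (q i) (fun x => (G x).1 z₀) ≠ 0 := by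
    intro h0
    apply hz₀
    rw [← h0]
    have h1 : (∏ i, (∑ x, q i x • G x : Ent)).1 z₀ = ∏ i, dt (q i) (fun x => (G x).1 z₀) := by
      rw [SubmonoidClass.coe_finsetProd, Finset.prod_apply]
      exact Finset.prod_congr rfl fun i _ => ent_sum_apply (q i) G z₀
    rw [← h1]
    rfl
  have hdz : d.1 z₀ ≠ 0 := left_ne_zero_of_mul hz₀'
  have hqz : ∀ i, dt (q i) (fun x => (G x).1 z₀) ≠ 0 := fun i =>
    Finset.prod_ne_zero_iff.mp (right_ne_zero_of_mul hz₀') i (Finset.mem_univ _)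
  have hcardτ : Fintype.card (Fin (k + 1) ⊕ Fin j) = k + 1 + j := by
    rw [Fintype.card_sum, Fintype.card_fin, Fintype.card_fin]
  refine pkg (τ := Fin (k + 1) ⊕ Fin j) (by rw [hcardτ]; omega) q
    {y | ∀ s ∈ I, eval y s = 0} L K ?_ hK1 hK2 G hGli (pull_per T F hFper) z₀ ?_ ?_
  · rw [hcardτ]
    have : k + 1 + j + 4 = k + j + 5 := by omega
    rw [this]
    exact hNK
  · intro γ hγ
    exact hK3 _ _ e₁ e₂ he (hgen z₀ hdz) hqz γ hγ
  · intro i z c hc hc' h5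
    obtain ⟨b', hb', hbord⟩ := exists_order_eq (Ac : Set (Fin (k + 1) ⊕ Fin j → ℂ)) hspan' G z c
      hc hc'
    obtain ⟨b₁, hb₁, rfl⟩ := Finset.mem_image.mp (Finset.mem_coe.mp hb')
    obtain ⟨a₁, ha₁, hqa⟩ := Finset.mem_image.mp (hq i)
    have e1 : ∀ a : Fin (m + 1) → ℂ, (fun ζ => ∑ x, Ψ a x * (G x).1 ζ) =
        (fun ζ => ∑ k, a k * (F k).1 ζ) := by
      intro a
      funext ζ
      rw [hG, pull_sum, hTΨ]
    rw [e1] at hbord
    rw [← hqa, e1] at h5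
    have h6 := htan a₁ (hA' ha₁) b₁ (hA' hb₁) z c hbord h5 A' hA' (by
      intro x _
      rw [← e1]
      exact GGL.order_linear (Ψ x) (fun k => (G k).1) z (fun k => (Ent.diff (G k)).analyticAt z)
        c hc)
    have := le_max_right M₀ M
    omega

theorem abs_manyZ (n e M m : ℕ) (hen : 1 ≤ e) : ∃ N₀ : ℕ,
    ∀ P : Fin (m + 1) → MvPolynomial (Fin (n + 1)) ℂ, (∀ i, (P i).IsHomogeneous e) →
    ∀ A : Finset (Fin (m + 1) → ℂ), PW A → N₀ < A.card →
    (∀ a ∈ A, Squarefree (∑ i, C (a i) * P i)) →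
    ∃ (dZ : ℕ) (Z : MvPolynomial (Fin (n + 1)) ℂ), Z ≠ 0 ∧ Z.IsHomogeneous dZ ∧
    ∀ f : Fin (n + 1) → Ent, LinearIndependent ℂ (fun i => aeval f (P i)) →
    (∀ a z, (f a).1 (z + 2 * Real.pi * Complex.I) = (f a).1 z) →
    (∀ a ∈ A, ∀ b ∈ A, ∀ (z : ℂ) (c : ℕ),
      analyticOrderAt (fun ζ => ∑ k, b k * (aeval f (P k)).1 ζ) z = c →
      analyticOrderAt (fun ζ => ∑ k, a k * (aeval f (P k)).1 ζ) z = ((c + 1 : ℕ) : ℕ∞) →
      ∀ A' ⊆ A, (∀ x ∈ A', (c : ℕ∞) ≤ analyticOrderAt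
        (fun ζ => ∑ k, x k * (aeval f (P k)).1 ζ) z) → A'.card ≤ M) →
    aeval f Z = 0 := by
  classical
  induction m with
  | zero =>
    refine ⟨1, fun P hP A hA hcard => ?_⟩
    exact absurd (pw_one hA) (by omega)
  | succ m ih =>
    obtain ⟨M₀, hM₀⟩ := ih
    obtain ⟨N₀, hN₀⟩ := span_caseZ n e (m + 1) M₀ M hen
    refine ⟨N₀, fun P hP A hA hcard hsq => ?_⟩
    by_cases hcase : ∀ h : Fin (m + 1 + 1) → ℂ, h ≠ 0 → ∀ A' ⊆ A, (∀ a ∈ A', dt a h = 0) →
        A'.card ≤ M₀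
    · exact hN₀ P hP A hA hcard hsq hcase
    push Not at hcase
    obtain ⟨h, hh, A₁, hA₁, hA₁h, hA₁card⟩ := hcase
    obtain ⟨T, hT, hTr⟩ := exists_hyper m h hh
    set A₂ : Finset (Fin (m + 1) → ℂ) := A₁.preimage T hT.injOn with hA₂
    have hA₂mem : ∀ v ∈ A₂, T v ∈ A₁ := fun v hv => Finset.mem_preimage.mp hv
    have himg : A₂.image T = A₁ := by
      rw [hA₂, Finset.image_preimage]
      apply Finset.filter_true_of_mem
      intro a ha
      exact hTr a (hA₁h a ha)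
    have hcard₂ : A₂.card = A₁.card := by
      rw [← himg, Finset.card_image_of_injective _ hT]
    have hPW : PW A₂ := by
      intro a ha
      have h1 := hA (T a) (hA₁ (hA₂mem a ha))
      refine ⟨?_, ?_⟩
      · rintro rfl
        exact h1.1 (map_zero T)
      · intro b hb hab
        have h2 := h1.2 (T b) (hA₁ (hA₂mem b hb)) (fun h3 => hab (hT h3))
        apply LinearIndependent.of_comp T
        convert h2 using 1
        funext i
        fin_cases i <;> rfl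
    obtain ⟨dZ, Z, hZ0, hZh, hZ⟩ := hM₀ (pullP T P) (pullP_hom T P hP) A₂ hPW (by omega) (by
      intro a ha
      rw [pullP_sum]
      exact hsq _ (hA₁ (hA₂mem a ha)))
    refine ⟨dZ, Z, hZ0, hZh, ?_⟩
    intro f hli hper htan
    refine hZ f ?_ hper ?_
    · exact li_pullP T P f (pull_li T hT _ hli)
    · intro a ha b hb z c
      have h1 := htan (T a) (hA₁ (hA₂mem a ha)) (T b) (hA₁ (hA₂mem b hb)) z c
      have e1 : ∀ a : Fin (m + 1) → ℂ, (fun ζ => ∑ k, a k * (aeval f (pullP T P k)).1 ζ) =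
          (fun ζ => ∑ k, T a k * (aeval f (P k)).1 ζ) := by
        intro a
        funext ζ
        simp only [aeval_pullP]
        rw [pull_sum]
      rw [e1, e1]
      intro h2 h3 A' hA' h4
      have h5 := h1 h2 h3 (A'.image T) (by
        intro x hx
        obtain ⟨y, hy, rfl⟩ := Finset.mem_image.mp hx
        exact hA₁ (hA₂mem y (hA' hy))) (by
        intro x hx
        obtain ⟨y, hy, rfl⟩ := Finset.mem_image.mp hx
        rw [← e1]
        exact h4 y hy)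
      rwa [Finset.card_image_of_injective _ hT] at h5

end Pool.Agent.SQ
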