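import Pool.Agent.Lib_MP_b9fedf_sq.AbsAll
import Pool.Agent.Lib_MP_b9fedf_sq.Fin

/-! All entire curves in projective space tangent to many hypersurfaces. -/

set_option autoImplicit false

namespace Pool.Agent.SQ
open MvPolynomial

theorem curve_all (n e M : ℕ) : ∃ N₀ : ℕ, ∀ D : Finset (MvPolynomial (Fin (n + 1)) ℂ),
    (∀ P ∈ D, P.IsHomogeneous e ∧ Squarefree P) →
    (∀ P ∈ D, ∀ P' ∈ D, ∀ c : ℂ, P' = C c * P → P' = P) → N₀ < D.card →
    ∃ (l : ℕ) (ψ : Fin (l + 1) → MvPolynomial (Fin (n + 1)) ℂ)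
      (D₁ : Finset (MvPolynomial (Fin (n + 1)) ℂ)) (d : ℕ) (Z : MvPolynomial (Fin (n + 1)) ℂ),
      1 ≤ l ∧ (∀ i, (ψ i).IsHomogeneous e) ∧ LinearIndependent ℂ ψ ∧ D₁ ⊆ D ∧ M < D₁.card ∧
      (∀ Q ∈ D₁, ∃ v : Fin (l + 1) → ℂ, Q = ∑ i, C (v i) * ψ i) ∧ Z ≠ 0 ∧ Z.IsHomogeneous d ∧
    ∀ f : Fin (n + 1) → ℂ → ℂ, (∀ k, Differentiable ℂ (f k)) →
    (∀ P ∈ D, ∀ P' ∈ D, ∀ (z : ℂ) (a : ℕ),
      analyticOrderAt (fun ζ => eval (fun k => f k ζ) P') z = a →
      analyticOrderAt (fun ζ => eval (fun k => f k ζ) P) z = ((a + 1 : ℕ) : ℕ∞) →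
      ∀ A ⊆ D, (∀ Q ∈ A, (a : ℕ∞) ≤ analyticOrderAt (fun ζ => eval (fun k => f k ζ) Q) z) →
        A.card ≤ M) →
    (∀ z, eval (fun k => f k z) Z = 0) ∨
      ∃ t : Fin (l + 1) → ℂ, t ≠ 0 ∧ ∀ z i i', t i * eval (fun k => f k z) (ψ i') =
        t i' * eval (fun k => f k z) (ψ i) := by
  classical
  rcases Nat.eq_zero_or_pos e with rfl | he
  · refine ⟨1, fun D hD hD' hcard => ?_⟩
    exact absurd (zero_case D hD hD') (by omega)
  obtain ⟨m, ⟨b⟩⟩ := exists_basis n e
  set P : Fin (m + 1) → MvPolynomial (Fin (n + 1)) ℂ := fun i => (b i : _) with hP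
  have hPh : ∀ i, (P i).IsHomogeneous e := fun i =>
    (mem_homogeneousSubmodule _ _).mp (b i).2
  -- coordinates
  set κ : MvPolynomial (Fin (n + 1)) ℂ → (Fin (m + 1) → ℂ) := fun Q =>
    if h : Q.IsHomogeneous e then b.equivFun ⟨Q, (mem_homogeneousSubmodule _ _).mpr h⟩ else 0
    with hκ
  have hsum : ∀ v : Fin (m + 1) → ℂ, ∑ i, C (v i) * P i = ((b.equivFun.symm v : _) :
      MvPolynomial (Fin (n + 1)) ℂ) := by
    intro v
    rw [b.equivFun_symm_apply, AddSubmonoidClass.coe_finsetSum]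
    apply Finset.sum_congr rfl
    intro i _
    rw [Submodule.coe_smul, smul_eq_C_mul]
  have hκ1 : ∀ Q : MvPolynomial (Fin (n + 1)) ℂ, Q.IsHomogeneous e →
      ∑ i, C (κ Q i) * P i = Q := by
    intro Q hQ
    rw [hsum, hκ]
    simp only [dif_pos hQ, LinearEquiv.symm_apply_apply]
  obtain ⟨N₀, hN₀⟩ := abs_all n e M m he
  refine ⟨N₀, fun D hD hD' hcard => ?_⟩
  have hinj : Set.InjOn κ D := by
    intro Q hQ Q' hQ' h
    rw [← hκ1 Q (hD Q hQ).1, ← hκ1 Q' (hD Q' hQ').1, h]
  have hPW : PW (D.image κ) := by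
    intro a ha
    obtain ⟨Q, hQ, rfl⟩ := Finset.mem_image.mp ha
    refine ⟨?_, ?_⟩
    · intro h0
      apply (hD Q hQ).2.ne_zero
      rw [← hκ1 Q (hD Q hQ).1, h0]
      simp
    · intro b' hb' hab
      obtain ⟨Q', hQ', rfl⟩ := Finset.mem_image.mp hb'
      rw [LinearIndependent.pair_iff]
      intro α β h
      have h1 : C α * Q + C β * Q' = 0 := by
        have h2 : ∑ i, C (α * κ Q i + β * κ Q' i) * P i = 0 := by
          apply Finset.sum_eq_zero
          intro i _
          have h3 := congrFun h i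
          rw [Pi.add_apply, Pi.smul_apply, Pi.smul_apply, smul_eq_mul, smul_eq_mul,
            Pi.zero_apply] at h3
          rw [h3, map_zero, zero_mul]
        rw [← h2]
        conv_lhs => rw [← hκ1 Q (hD Q hQ).1, ← hκ1 Q' (hD Q' hQ').1]
        rw [Finset.mul_sum, Finset.mul_sum, ← Finset.sum_add_distrib]
        apply Finset.sum_congr rfl
        intro i _
        rw [map_add, map_mul, map_mul]
        ring
      have hβ : β = 0 := by
        by_contra hβ
        apply hab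
        have h4 : Q' = C (-α / β) * Q := by
          have h5 : C β * Q' = - (C α * Q) := by linear_combination h1
          have h6 : Q' = C (β⁻¹) * (C β * Q') := by
            rw [← mul_assoc, ← map_mul, inv_mul_cancel₀ hβ, map_one, one_mul]
          rw [h6, h5, neg_div, map_neg, div_eq_mul_inv, map_mul]
          ring
        rw [hD' Q hQ Q' hQ' _ h4]
      refine ⟨?_, hβ⟩
      rw [hβ, map_zero, zero_mul, add_zero] at h1
      have h7 := (mul_eq_zero.mp h1).resolve_right (hD Q hQ).2.ne_zero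
      exact (map_eq_zero_iff C (C_injective _ _)).mp h7
  have hcard' : N₀ < (D.image κ).card := by
    rw [Finset.card_image_of_injOn hinj]
    exact hcard
  obtain ⟨l, T, A₁, dZ, Z, hl, hT, hA₁, hA₁r, hA₁c, hZ0, hZh, hZ⟩ :=
    hN₀ P hPh (D.image κ) hPW hcard' (by
    intro a ha
    obtain ⟨Q, hQ, rfl⟩ := Finset.mem_image.mp ha
    rw [hκ1 Q (hD Q hQ).1]
    exact (hD Q hQ).2)
  have hPli : LinearIndependent ℂ P := by
    have := b.linearIndependent.map' (homogeneousSubmodule (Fin (n + 1)) ℂ e).subtype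
      (Submodule.ker_subtype _)
    exact this
  have hψli : LinearIndependent ℂ (pullP T P) := by
    rw [Fintype.linearIndependent_iff]
    intro c hc
    have h1 : ∑ i, C (c i) * pullP T P i = 0 := by
      rw [← hc]
      exact Finset.sum_congr rfl fun i _ => (smul_eq_C_mul _ _).symm
    rw [pullP_sum] at h1
    have h2 := (Fintype.linearIndependent_iff.mp hPli) (T c) (by
      rw [← h1]
      exact Finset.sum_congr rfl fun i _ => smul_eq_C_mul _ _)
    have h3 : T c = 0 := funext h2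
    have h4 : c = 0 := hT (by rw [h3, map_zero])
    intro i
    rw [h4]
    rfl
  refine ⟨l, pullP T P, D.filter (fun Q => κ Q ∈ A₁), dZ, Z, hl, pullP_hom T P hPh, hψli,
    Finset.filter_subset _ _, ?_, ?_, hZ0, hZh, ?_⟩
  · have h2 : (D.filter (fun Q => κ Q ∈ A₁)).image κ = A₁ := by
      ext x
      rw [Finset.mem_image]
      constructor
      · rintro ⟨Q₁, hQ₁, rfl⟩
        exact (Finset.mem_filter.mp hQ₁).2
      · intro hx
        obtain ⟨Q₁, hQ₁, rfl⟩ := Finset.mem_image.mp (hA₁ hx)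
        exact ⟨Q₁, Finset.mem_filter.mpr ⟨hQ₁, hx⟩, rfl⟩
    rw [← h2] at hA₁c
    exact lt_of_lt_of_le hA₁c Finset.card_image_le
  · intro Q hQ
    obtain ⟨v, hv⟩ := hA₁r _ (Finset.mem_filter.mp hQ).2
    refine ⟨v, ?_⟩
    rw [pullP_sum, hv]
    exact (hκ1 Q (hD Q (Finset.mem_filter.mp hQ).1).1).symm
  intro f hf htan
  set g : Fin (n + 1) → Ent := fun k => ⟨fun z => f k (Complex.exp z),
    (hf k).comp Complex.differentiable_exp⟩ with hg
  have hgv : ∀ k z, (g k).1 z = f k (Complex.exp z) := fun k z => rfl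
  -- zeros of forms
  have hzero : ∀ R : MvPolynomial (Fin (n + 1)) ℂ, aeval g R = 0 →
      ∀ z, eval (fun k => f k z) R = 0 := by
    intro R hR
    have h1 : (fun w => eval (fun k => f k w) R) = fun _ => 0 := by
      apply GGL.eq_of_comp_exp _ continuous_const
      · intro z
        have h2 := ent_aeval g R z
        rw [hR] at h2
        exact h2.symm
      · simp_rw [MvPolynomial.eval_eq']
        exact continuous_finsetSum _ fun a _ => continuous_const.mul
          (continuous_finsetProd _ fun k _ => (hf k).continuous.pow _)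
    exact fun z => congrFun h1 z
  have hord : ∀ (u : ℂ → ℂ) (z : ℂ), analyticOrderAt (fun ζ => u (Complex.exp ζ)) z =
      analyticOrderAt u (Complex.exp z) := by
    intro u z
    exact analyticOrderAt_comp_of_deriv_ne_zero (f := u) (g := Complex.exp) (z₀ := z)
      (by fun_prop) (by rw [Complex.deriv_exp]; exact Complex.exp_ne_zero z)
  rcases hZ g (by
      intro k z
      rw [hgv, hgv, Complex.exp_add, Complex.exp_two_pi_mul_I, mul_one]) (by
    have e1 : ∀ Q ∈ D, ∀ z, analyticOrderAt (fun ζ => ∑ k, κ Q k * (aeval g (P k)).1 ζ) z =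
          analyticOrderAt (fun ζ => eval (fun k => f k ζ) Q) (Complex.exp z) := by
      intro Q hQ z
      rw [← hord]
      congr 1
      funext ζ
      simp only [ent_aeval]
      conv_rhs => rw [← hκ1 Q (hD Q hQ).1]
      rw [map_sum]
      exact Finset.sum_congr rfl fun i _ => by rw [map_mul, eval_C]
    intro a ha b' hb' z c hb hc A' hA' hA'c
    obtain ⟨Q, hQ, rfl⟩ := Finset.mem_image.mp ha
    obtain ⟨Q', hQ', rfl⟩ := Finset.mem_image.mp hb'
    rw [e1 Q' hQ'] at hb
    rw [e1 Q hQ] at hc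
    have h1 := htan Q hQ Q' hQ' (Complex.exp z) c hb hc (D.filter (fun Q => κ Q ∈ A'))
      (Finset.filter_subset _ _) (by
      intro Q₁ hQ₁
      rw [← e1 Q₁ (Finset.mem_filter.mp hQ₁).1]
      exact hA'c _ (Finset.mem_filter.mp hQ₁).2)
    have h2 : (D.filter (fun Q => κ Q ∈ A')).image κ = A' := by
      ext x
      rw [Finset.mem_image]
      constructor
      · rintro ⟨Q₁, hQ₁, rfl⟩
        exact (Finset.mem_filter.mp hQ₁).2
      · intro hx
        obtain ⟨Q₁, hQ₁, rfl⟩ := Finset.mem_image.mp (hA' hx)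
        exact ⟨Q₁, Finset.mem_filter.mpr ⟨hQ₁, hx⟩, rfl⟩
    rw [← h2]
    exact Finset.card_image_le.trans h1) with h | ⟨t, ht0, ht⟩
  · left
    exact hzero Z h
  · right
    refine ⟨t, ht0, fun z i i' => ?_⟩
    have h1 : aeval g (C (t i) * pullP T P i' - C (t i') * pullP T P i) = 0 := by
      rw [map_sub, map_mul, map_mul, algHom_C, algHom_C, ← Algebra.smul_def, ← Algebra.smul_def,
        ht i i', sub_self]
    have h2 := hzero _ h1 z
    rw [map_sub, map_mul, map_mul, eval_C, eval_C, sub_eq_zero] at h2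
    exact h2

end Pool.Agent.SQ
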