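import Pool.Agent.Lib_MP_b9fedf_sq.Statement
import Pool.Agent.Lib_MP_b9fedf_ag.TanStatement

/-! Definitions used in the strong form of the statement on varieties over projective space which
are multiple along many hypersurfaces. -/

set_option autoImplicit false

namespace Pool.Agent.SQ

/-- Every entire curve of the projective variety `V(S)` is contained in the subvariety `Z = 0` or
in a fibre of the rational map `[φ_0 : … : φ_l]`. -/
def CurvesIn {m l : ℕ} (S : Set (MvPolynomial (Fin (m + 1)) ℂ)) (Z : MvPolynomial (Fin (m + 1)) ℂ)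
    (φ : Fin (l + 1) → MvPolynomial (Fin (m + 1)) ℂ) : Prop :=
  ∀ f : ℂ → (Fin (m + 1) → ℂ), Differentiable ℂ f → (∀ z, f z ≠ 0) →
    (∀ z, ∀ p ∈ S, MvPolynomial.eval (f z) p = 0) →
    (∀ z, MvPolynomial.eval (f z) Z = 0) ∨
      ∃ t : Fin (l + 1) → ℂ, t ≠ 0 ∧
        ∀ z, ∀ p ∈ Pool.Agent.GGL.Fibre S φ t, MvPolynomial.eval (f z) p = 0

end Pool.Agent.SQ
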