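import Mathlib
import Pool.Agent.Lib_MP_b9fedf_sq.Defs

/-! A strictly decreasing chain of the ideals `VD` is bounded by the rank. -/

set_option autoImplicit false

namespace Pool.Agent.SQ
open MvPolynomial

private theorem ci_span_chain {k j r : ℕ} {I : Ideal (Sp k j)} {b : Fin r → Sp k j}
    {db : Fin r → ℕ} (hI : CI I r b db) (s : Sp k j) :
    ∃ p : Fin r → Pp k, s - ∑ i, inc (p i) * b i ∈ I := by
  classical
  have h1 : ∀ d, ∃ p : Fin r → Pp k, homogeneousComponent d s - ∑ i, inc (p i) * b i ∈ I := by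
    intro d
    obtain ⟨p, -, hp⟩ := hI.span d _ (homogeneousComponent_isHomogeneous d s)
    exact ⟨p, hp⟩
  choose P hP using h1
  refine ⟨fun i => ∑ d ∈ Finset.range (s.totalDegree + 1), P d i, ?_⟩
  have h2 : s - ∑ i, inc (∑ d ∈ Finset.range (s.totalDegree + 1), P d i) * b i =
      ∑ d ∈ Finset.range (s.totalDegree + 1),
        (homogeneousComponent d s - ∑ i, inc (P d i) * b i) := by
    rw [Finset.sum_sub_distrib, sum_homogeneousComponent, Finset.sum_comm]
    congr 1
    refine Finset.sum_congr rfl fun i _ => ?_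
    rw [map_sum, Finset.sum_mul]
  rw [h2]
  exact I.sum_mem fun d _ => hP d

private theorem ci_torsion_chain {k j r : ℕ} {I : Ideal (Sp k j)} {b : Fin r → Sp k j}
    {db : Fin r → ℕ} (hI : CI I r b db) (p : Pp k) (hp : p ≠ 0) (s : Sp k j)
    (h : inc p * s ∈ I) : s ∈ I := by
  obtain ⟨q, hq⟩ := ci_span_chain hI s
  have h1 : ∑ i, inc (p * q i) * b i ∈ I := by
    have h2 : inc p * s - inc p * (s - ∑ i, inc (q i) * b i) ∈ I :=
      I.sub_mem h (I.mul_mem_left _ hq)
    have h3 : ∑ i, inc (p * q i) * b i =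
        inc p * s - inc p * (s - ∑ i, inc (q i) * b i) := by
      rw [mul_sub, sub_sub_cancel, Finset.mul_sum]
      refine Finset.sum_congr rfl fun i _ => ?_
      rw [map_mul, mul_assoc]
    rw [h3]
    exact h2
  have h4 := hI.indep _ h1
  have h5 : ∀ i, q i = 0 := by
    intro i
    have h6 := congrFun h4 i
    simp only [Pi.zero_apply, mul_eq_zero] at h6
    exact h6.resolve_left hp
  have h7 : ∑ i, inc (q i) * b i = 0 := by
    refine Finset.sum_eq_zero fun i _ => ?_
    rw [h5 i, map_zero, zero_mul]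
  rw [h7, sub_zero] at hq
  exact hq

private theorem VD_sat_chain {k j r : ℕ} {I : Ideal (Sp k j)} {b : Fin r → Sp k j}
    {db : Fin r → ℕ} (hI : CI I r b db) (A : Set (Fin (k + 1) ⊕ Fin j → ℂ)) (D : ℕ) (p : Pp k)
    (τ : Sp k j) (hp : p ≠ 0) (h : inc p * τ ∈ VD I A D) : τ ∈ VD I A D := by
  intro d hd g hg hv
  have h1 : inc p * τ * g ∈ I := h d hd g hg hv
  rw [mul_assoc] at h1
  exact ci_torsion_chain hI p hp _ h1

private theorem VD_anti_chain {k j : ℕ} (I : Ideal (Sp k j))
    (A : Set (Fin (k + 1) ⊕ Fin j → ℂ)) {D D' : ℕ} (h : D ≤ D') : VD I A D' ≤ VD I A D := by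
  intro τ hτ d hd g hg hv
  exact hτ d (hd.trans h) g hg hv

/-- A flag of saturated ideals has length at most the rank. -/
private theorem flag_chain {k j r : ℕ} {I : Ideal (Sp k j)} {b : Fin r → Sp k j}
    {db : Fin r → ℕ} (hI : CI I r b db) (W : ℕ → Ideal (Sp k j))
    (hIW : ∀ i, I ≤ W i) (hanti : ∀ i, W (i + 1) ≤ W i)
    (hsat : ∀ i (p : Pp k) (τ : Sp k j), p ≠ 0 → inc p * τ ∈ W i → τ ∈ W i)
    (τ : Fin (r + 1) → Sp k j) (hτ : ∀ i : Fin (r + 1), τ i ∈ W i.1)
    (hτ' : ∀ i : Fin (r + 1), τ i ∉ W (i.1 + 1)) : False := by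
  classical
  have hspan : ∀ i, ∃ p : Fin r → Pp k, τ i - ∑ l, inc (p l) * b l ∈ I :=
    fun i => ci_span_chain hI (τ i)
  choose v hv using hspan
  have hmono : ∀ a c, a ≤ c → W c ≤ W a := by
    intro a c hac
    exact antitone_nat_of_succ_le hanti hac
  have hli : LinearIndependent (Pp k) v := by
    rw [Fintype.linearIndependent_iff]
    intro g hg
    by_contra hne
    push Not at hne
    -- least index with nonzero coefficient
    have hex : ∃ n : ℕ, ∃ hn : n < r + 1, g ⟨n, hn⟩ ≠ 0 := by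
      obtain ⟨i, hi⟩ := hne
      exact ⟨i.1, i.2, hi⟩
    obtain ⟨hn, hgn⟩ := Nat.find_spec hex
    set n := Nat.find hex with hndef
    have hlt : ∀ i : Fin (r + 1), i.1 < n → g i = 0 := by
      intro i hi
      by_contra h
      exact Nat.find_min hex hi ⟨i.2, h⟩
    -- sum of inc (g i) * τ i is in I
    have hsum : ∑ i, inc (g i) * τ i ∈ I := by
      have h1 : ∑ i, inc (g i) * (τ i - ∑ l, inc (v i l) * b l) ∈ I :=
        I.sum_mem fun i _ => I.mul_mem_left _ (hv i)
      have h2 : ∑ i, inc (g i) * ∑ l, inc (v i l) * b l = 0 := by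
        have h3 : ∀ l, ∑ i, g i * v i l = 0 := by
          intro l
          have h4 := congrFun hg l
          simpa [Finset.sum_apply, smul_eq_mul] using h4
        have h5 : ∑ i, inc (g i) * ∑ l, inc (v i l) * b l =
            ∑ l, inc (∑ i, g i * v i l) * b l := by
          simp only [Finset.mul_sum, map_sum, map_mul, Finset.sum_mul]
          rw [Finset.sum_comm]
          refine Finset.sum_congr rfl fun l _ => Finset.sum_congr rfl fun i _ => ?_
          rw [mul_assoc]
        rw [h5]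
        refine Finset.sum_eq_zero fun l _ => ?_
        rw [h3 l, map_zero, zero_mul]
      have h6 : ∑ i, inc (g i) * (τ i - ∑ l, inc (v i l) * b l) =
          ∑ i, inc (g i) * τ i := by
        simp only [mul_sub, Finset.sum_sub_distrib]
        rw [h2, sub_zero]
      rwa [h6] at h1
    have hmem : inc (g ⟨n, hn⟩) * τ ⟨n, hn⟩ ∈ W (n + 1) := by
      have h1 : ∑ i, inc (g i) * τ i = inc (g ⟨n, hn⟩) * τ ⟨n, hn⟩ +
          ∑ i ∈ Finset.univ.erase (⟨n, hn⟩ : Fin (r + 1)), inc (g i) * τ i :=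
        (Finset.add_sum_erase _ _ (Finset.mem_univ _)).symm
      have h2 : ∑ i ∈ Finset.univ.erase (⟨n, hn⟩ : Fin (r + 1)), inc (g i) * τ i ∈
          W (n + 1) := by
        refine (W (n + 1)).sum_mem fun i hi => ?_
        have hi1 : i ≠ ⟨n, hn⟩ := (Finset.mem_erase.mp hi).1
        rcases lt_or_ge i.1 n with hlt' | hge
        · rw [hlt i hlt', map_zero, zero_mul]
          exact (W (n + 1)).zero_mem
        · have hne' : i.1 ≠ n := fun h => hi1 (Fin.ext h)
          have h3 : n + 1 ≤ i.1 := by omega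
          exact (W (n + 1)).mul_mem_left _ (hmono _ _ h3 (hτ i))
      have h3 : ∑ i, inc (g i) * τ i ∈ W (n + 1) := hIW _ hsum
      rw [h1] at h3
      exact ((W (n + 1)).add_mem_iff_left h2).mp h3
    exact hτ' ⟨n, hn⟩ (hsat _ _ _ hgn hmem)
  have hcard := hli.fintype_card_le_finrank
  rw [Fintype.card_fin, Module.finrank_fin_fun] at hcard
  omega

/-- PIECE CHAIN -/
theorem chain {k j r : ℕ} {I : Ideal (Sp k j)} {b : Fin r → Sp k j} {db : Fin r → ℕ}
    (hI : CI I r b db) (A : Set (Fin (k + 1) ⊕ Fin j → ℂ)) (D : ℕ → ℕ) (hD : Monotone D)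
    (h : ∃ τ ∈ VD I A (D r), τ ∉ I) : ∃ i < r, VD I A (D i) = VD I A (D (i + 1)) := by
  classical
  by_contra hcon
  push Not at hcon
  obtain ⟨τr, hτr, hτrI⟩ := h
  have hI_le : ∀ D, I ≤ VD I A D := by
    intro D τ hτ d _ g _ _
    exact I.mul_mem_right _ hτ
  have hex : ∀ i, i < r → ∃ τ ∈ VD I A (D i), τ ∉ VD I A (D (i + 1)) := by
    intro i hi
    by_contra hno
    push Not at hno
    exact hcon i hi (le_antisymm hno (VD_anti_chain I A (hD (Nat.le_succ i))))
  let W : ℕ → Ideal (Sp k j) := fun i => if i ≤ r then VD I A (D i) else I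
  have hW1 : ∀ i, i ≤ r → W i = VD I A (D i) := fun i hi => if_pos hi
  have hW2 : ∀ i, ¬ i ≤ r → W i = I := fun i hi => if_neg hi
  let τ : Fin (r + 1) → Sp k j := fun i => if hi : i.1 < r then (hex i.1 hi).choose else τr
  refine flag_chain hI W ?_ ?_ ?_ τ ?_ ?_
  · intro i
    by_cases hi : i ≤ r
    · rw [hW1 i hi]
      exact hI_le _
    · rw [hW2 i hi]
  · intro i
    by_cases hi : i + 1 ≤ r
    · rw [hW1 _ hi, hW1 i (by omega)]
      exact VD_anti_chain I A (hD (Nat.le_succ i))
    · rw [hW2 _ hi]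
      by_cases hi' : i ≤ r
      · rw [hW1 i hi']
        exact hI_le _
      · rw [hW2 i hi']
  · intro i p σ hp hσ
    by_cases hi : i ≤ r
    · rw [hW1 i hi] at hσ ⊢
      exact VD_sat_chain hI A _ p σ hp hσ
    · rw [hW2 i hi] at hσ ⊢
      exact ci_torsion_chain hI p hp σ hσ
  · intro i
    rw [hW1 i.1 (by omega)]
    by_cases hi : i.1 < r
    · have h1 : τ i = (hex i.1 hi).choose := dif_pos hi
      rw [h1]
      exact (hex i.1 hi).choose_spec.1
    · have h1 : τ i = τr := dif_neg hi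
      have h2 : i.1 = r := by omega
      rw [h1, h2]
      exact hτr
  · intro i
    by_cases hi : i.1 < r
    · have h1 : τ i = (hex i.1 hi).choose := dif_pos hi
      rw [h1, hW1 _ (by omega)]
      exact (hex i.1 hi).choose_spec.2
    · have h1 : τ i = τr := dif_neg hi
      rw [h1, hW2 _ (by omega)]
      exact hτrI

end Pool.Agent.SQ
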