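import Mathlib

/-! Growth: polynomial bounds beat exponential growth. -/

set_option autoImplicit false

namespace Pool.Agent.SQ
open Filter Topology

private theorem exists_pow_Grow (m c : ℕ) :
    ∃ n : ℕ, 1 ≤ n ∧ (m + 4) ^ n * (n + c) ^ m < (m + 5) ^ n := by
  have hm5 : (0 : ℝ) < (m : ℝ) + 5 := by positivity
  have hm4 : (0 : ℝ) < (m : ℝ) + 4 := by positivity
  set r : ℝ := ((m : ℝ) + 4) / ((m : ℝ) + 5) with hr
  have hr0 : 0 < r := div_pos hm4 hm5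
  have hr1 : |r| < 1 := by
    rw [abs_of_pos hr0, hr, div_lt_one hm5]
    linarith
  have ht := tendsto_pow_const_mul_const_pow_of_abs_lt_one m hr1
  have ht2 : Tendsto (fun n : ℕ => (((n + c : ℕ) : ℝ)) ^ m * r ^ (n + c)) atTop (𝓝 0) :=
    ht.comp (tendsto_add_atTop_nat c)
  have hev := (ht2.eventually (gt_mem_nhds (pow_pos hr0 c))).and (eventually_ge_atTop 1)
  obtain ⟨n, hn, hn1⟩ := hev.exists
  refine ⟨n, hn1, ?_⟩
  rw [pow_add] at hn
  have h1 : (((n + c : ℕ) : ℝ)) ^ m * r ^ n < 1 := by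
    have h2 : (((n + c : ℕ) : ℝ) ^ m * r ^ n) * r ^ c < 1 * r ^ c := by
      rw [one_mul]
      calc (((n + c : ℕ) : ℝ) ^ m * r ^ n) * r ^ c
          = ((n + c : ℕ) : ℝ) ^ m * (r ^ n * r ^ c) := by ring
        _ < r ^ c := hn
    exact lt_of_mul_lt_mul_right h2 (pow_pos hr0 c).le
  rw [hr, div_pow, mul_div_assoc', div_lt_one (pow_pos hm5 n)] at h1
  have h3 : (((m + 4) ^ n * (n + c) ^ m : ℕ) : ℝ) < (((m + 5) ^ n : ℕ) : ℝ) := by
    push_cast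
    push_cast at h1
    linarith [mul_comm (((m : ℝ) + 4) ^ n) (((n : ℝ) + c) ^ m)]
  exact_mod_cast h3

/-- PIECE GROW -/
theorem growth (m δ₀ : ℕ) : ∃ D' > δ₀, ∀ v : ℕ → ℕ, (∃ d ≤ δ₀, 1 ≤ v d) →
    (∀ d, v d ≤ v (d + 1)) → (∀ d, v d ≤ (m + d).choose m) →
    ∃ δ, δ₀ < δ ∧ δ ≤ D' ∧ (m + 4) * v δ < (m + 5) * v (δ - 1) := by
  obtain ⟨n, hn1, hn⟩ := exists_pow_Grow m (m + δ₀)
  refine ⟨δ₀ + n, by omega, ?_⟩
  intro v hv hmono hbd
  by_contra hcon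
  push Not at hcon
  have hmon : Monotone v := monotone_nat_of_le_succ hmono
  obtain ⟨d, hd, hvd⟩ := hv
  have h0 : 1 ≤ v δ₀ := le_trans hvd (hmon hd)
  have key : ∀ i, i ≤ n → (m + 5) ^ i * v δ₀ ≤ (m + 4) ^ i * v (δ₀ + i) := by
    intro i
    induction i with
    | zero => intro _; simp
    | succ i ih =>
      intro hi
      have h1 := ih (by omega)
      have h2 := hcon (δ₀ + (i + 1)) (by omega) (by omega)
      have h3 : δ₀ + (i + 1) - 1 = δ₀ + i := by omega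
      rw [h3] at h2
      calc (m + 5) ^ (i + 1) * v δ₀ = (m + 5) * ((m + 5) ^ i * v δ₀) := by ring
        _ ≤ (m + 5) * ((m + 4) ^ i * v (δ₀ + i)) := Nat.mul_le_mul_left _ h1
        _ = (m + 4) ^ i * ((m + 5) * v (δ₀ + i)) := by ring
        _ ≤ (m + 4) ^ i * ((m + 4) * v (δ₀ + (i + 1))) := Nat.mul_le_mul_left _ h2
        _ = (m + 4) ^ (i + 1) * v (δ₀ + (i + 1)) := by ring
  have h1 := key n le_rfl
  have h2 : v (δ₀ + n) ≤ (n + (m + δ₀)) ^ m := by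
    refine le_trans (hbd _) (le_trans (Nat.choose_le_pow _ _) ?_)
    exact le_of_eq (by ring)
  have h3 : (m + 5) ^ n * 1 ≤ (m + 4) ^ n * (n + (m + δ₀)) ^ m :=
    le_trans (Nat.mul_le_mul_left _ h0) (le_trans h1 (Nat.mul_le_mul_left _ h2))
  omega

end Pool.Agent.SQ
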