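import Mathlib
import Pool.Agent.Lib_MP_b9fedf_sq.Defs

/-! Elementary consequences of the structure `CI` and of the definitions of `VD` and `annI`. -/

set_option autoImplicit false

namespace Pool.Agent.SQ
open MvPolynomial

private theorem inc_inj_basic {k j : ℕ} : Function.Injective (inc : Pp k →ₐ[ℂ] Sp k j) :=
  rename_injective _ Sum.inl_injective

private theorem aeval_eq_eval_basic {σ : Type} (y : σ → ℂ) (g : MvPolynomial σ ℂ) :
    aeval y g = eval y g := by
  rw [aeval_def, Algebra.algebraMap_self]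
  rfl

private theorem sum_comp_basic {σ : Type} (s : MvPolynomial σ ℂ) :
    ∑ d ∈ Finset.range (s.totalDegree + 1), homogeneousComponent d s = s :=
  sum_homogeneousComponent s

theorem ci_span {k j r : ℕ} {I : Ideal (Sp k j)} {b : Fin r → Sp k j} {db : Fin r → ℕ}
    (hI : CI I r b db) (s : Sp k j) : ∃ p : Fin r → Pp k, s - ∑ i, inc (p i) * b i ∈ I := by
  classical
  choose p hp using fun d => hI.span d (homogeneousComponent d s)
    (homogeneousComponent_isHomogeneous d s)
  refine ⟨fun i => ∑ d ∈ Finset.range (s.totalDegree + 1), p d i, ?_⟩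
  have h1 : s - ∑ i, inc (∑ d ∈ Finset.range (s.totalDegree + 1), p d i) * b i
      = ∑ d ∈ Finset.range (s.totalDegree + 1),
        (homogeneousComponent d s - ∑ i, inc (p d i) * b i) := by
    rw [Finset.sum_sub_distrib, sum_comp_basic]
    congr 1
    rw [Finset.sum_comm]
    refine Finset.sum_congr rfl fun i _ => ?_
    rw [map_sum, Finset.sum_mul]
  rw [h1]
  exact I.sum_mem fun d _ => (hp d).2

theorem ci_torsion {k j r : ℕ} {I : Ideal (Sp k j)} {b : Fin r → Sp k j} {db : Fin r → ℕ}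
    (hI : CI I r b db) (p : Pp k) (hp : p ≠ 0) (s : Sp k j) (h : inc p * s ∈ I) : s ∈ I := by
  obtain ⟨q, hq⟩ := ci_span hI s
  have h1 : ∑ i, inc (p * q i) * b i ∈ I := by
    have e : ∑ i, inc (p * q i) * b i = inc p * s - inc p * (s - ∑ i, inc (q i) * b i) := by
      rw [mul_sub, sub_sub_cancel, Finset.mul_sum]
      refine Finset.sum_congr rfl fun i _ => ?_
      rw [map_mul, mul_assoc]
    rw [e]
    exact I.sub_mem h (I.mul_mem_left _ hq)
  have h2 := hI.indep _ h1
  have h3 : q = 0 := by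
    funext i
    have h4 := congrFun h2 i
    exact (mul_eq_zero.mp h4).resolve_left hp
  rw [h3] at hq
  simpa using hq

theorem ci_prime {k j r : ℕ} {I : Ideal (Sp k j)} {b : Fin r → Sp k j} {db : Fin r → ℕ}
    (hI : CI I r b db) (π g : Pp k) (hπ : Irreducible π) (hg : ¬ π ∣ g) (s w : Sp k j)
    (h : inc g * s - inc π * w ∈ I) : ∃ s', s - inc π * s' ∈ I := by
  obtain ⟨p, hp⟩ := ci_span hI s
  obtain ⟨q, hq⟩ := ci_span hI w
  have h1 : ∑ i, inc (g * p i - π * q i) * b i ∈ I := by
    have e : ∑ i, inc (g * p i - π * q i) * b i = (inc g * s - inc π * w)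
        - inc g * (s - ∑ i, inc (p i) * b i) + inc π * (w - ∑ i, inc (q i) * b i) := by
      have e1 : ∑ i, inc (g * p i - π * q i) * b i
          = inc g * ∑ i, inc (p i) * b i - inc π * ∑ i, inc (q i) * b i := by
        rw [Finset.mul_sum, Finset.mul_sum, ← Finset.sum_sub_distrib]
        refine Finset.sum_congr rfl fun i _ => ?_
        rw [map_sub, map_mul, map_mul]
        ring
      rw [e1]
      ring
    rw [e]
    exact I.add_mem (I.sub_mem h (I.mul_mem_left _ hp)) (I.mul_mem_left _ hq)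
  have h2 := hI.indep _ h1
  have hpr : Prime π := hπ.prime
  have h3 : ∀ i, ∃ c, p i = π * c := by
    intro i
    have h4 : g * p i = π * q i := by
      have := congrFun h2 i
      exact sub_eq_zero.mp this
    have h5 : π ∣ g * p i := ⟨q i, h4⟩
    exact (hpr.dvd_or_dvd h5).resolve_left hg
  choose c hc using h3
  refine ⟨∑ i, inc (c i) * b i, ?_⟩
  have e : s - inc π * ∑ i, inc (c i) * b i = s - ∑ i, inc (p i) * b i := by
    congr 1
    rw [Finset.mul_sum]
    refine Finset.sum_congr rfl fun i _ => ?_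
    rw [hc i, map_mul, mul_assoc]
  rw [e]
  exact hp

theorem ci_pow {k j r : ℕ} {I : Ideal (Sp k j)} {b : Fin r → Sp k j} {db : Fin r → ℕ}
    (hI : CI I r b db) (s : Sp k j) (n : ℕ) (hn : 1 ≤ n) (h : s ^ n ∈ I) : s ∈ I := by
  have key : ∀ m : ℕ, s ^ (2 ^ m) ∈ I → s ∈ I := by
    intro m
    induction m with
    | zero => intro h; simpa using h
    | succ m ih =>
      intro h
      apply ih
      apply hI.rad
      rwa [← pow_mul, ← pow_succ]
  apply key n
  have hle : n ≤ 2 ^ n := Nat.lt_two_pow_self.le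
  obtain ⟨c, hc⟩ := Nat.exists_eq_add_of_le hle
  rw [hc, pow_add]
  exact I.mul_mem_right _ h

theorem ci_null {k j r : ℕ} {I : Ideal (Sp k j)} {b : Fin r → Sp k j} {db : Fin r → ℕ}
    (hI : CI I r b db) (s : Sp k j) (h : ∀ y, (∀ g ∈ I, eval y g = 0) → eval y s = 0) :
    s ∈ I := by
  have h1 : s ∈ vanishingIdeal ℂ (zeroLocus ℂ I) := by
    rw [mem_vanishingIdeal_iff]
    intro y hy
    have h2 : ∀ g ∈ I, eval y g = 0 := by
      intro g hg
      have h3 := (mem_zeroLocus_iff.mp hy) g hg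
      exact (aeval_eq_eval_basic y g).symm.trans h3
    exact (aeval_eq_eval_basic y s).trans (h y h2)
  rw [vanishingIdeal_zeroLocus_eq_radical] at h1
  obtain ⟨n, hn⟩ := h1
  rcases Nat.eq_zero_or_pos n with h0 | h0
  · subst h0
    rw [pow_zero] at hn
    have : I = ⊤ := (Ideal.eq_top_iff_one I).mpr hn
    rw [this]
    trivial
  · exact ci_pow hI s n h0 hn

theorem le_VD {k j : ℕ} (I : Ideal (Sp k j)) (A : Set (Fin (k + 1) ⊕ Fin j → ℂ)) (D : ℕ) :
    I ≤ VD I A D := by
  intro τ hτ d _ g _ _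
  exact I.mul_mem_right g hτ

private theorem hc_mul_basic {σ : Type} (τ g : MvPolynomial σ ℂ) (e : ℕ)
    (hg : g.IsHomogeneous e) (d : ℕ) :
    homogeneousComponent (d + e) (τ * g) = homogeneousComponent d τ * g := by
  classical
  conv_lhs => rw [← sum_comp_basic τ, Finset.sum_mul, map_sum]
  have h1 : ∀ i ∈ Finset.range (τ.totalDegree + 1),
      homogeneousComponent (d + e) (homogeneousComponent i τ * g)
        = if i = d then homogeneousComponent d τ * g else 0 := by
    intro i _
    have hh : (homogeneousComponent i τ * g).IsHomogeneous (i + e) :=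
      (homogeneousComponent_isHomogeneous i τ).mul hg
    rw [homogeneousComponent_of_mem ((mem_homogeneousSubmodule _ _).mpr hh)]
    by_cases hid : i = d
    · subst hid
      simp
    · rw [if_neg hid, if_neg]
      omega
  rw [Finset.sum_congr rfl h1, Finset.sum_ite_eq']
  split_ifs with h
  · rfl
  · have : τ.totalDegree < d := by
      rw [Finset.mem_range] at h
      omega
    rw [homogeneousComponent_eq_zero _ _ this, zero_mul]

theorem VD_hom {k j r : ℕ} {I : Ideal (Sp k j)} {b : Fin r → Sp k j} {db : Fin r → ℕ}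
    (hI : CI I r b db) (A : Set (Fin (k + 1) ⊕ Fin j → ℂ)) (D : ℕ) :
    ∀ τ ∈ VD I A D, ∀ d, homogeneousComponent d τ ∈ VD I A D := by
  intro τ hτ d e he g hg hv
  rw [← hc_mul_basic τ g e hg d]
  exact hI.hom _ (hτ e he g hg hv) _

theorem annI_hom {k j r : ℕ} {I : Ideal (Sp k j)} {b : Fin r → Sp k j} {db : Fin r → ℕ}
    (hI : CI I r b db) (V : Ideal (Sp k j))
    (hV : ∀ τ ∈ V, ∀ d, homogeneousComponent d τ ∈ V) :
    ∀ ν ∈ annI I V, ∀ d, homogeneousComponent d ν ∈ annI I V := by
  intro ν hν d τ hτ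
  rw [← sum_comp_basic τ, Finset.mul_sum]
  refine I.sum_mem fun e _ => ?_
  rw [← hc_mul_basic ν (homogeneousComponent e τ) e (homogeneousComponent_isHomogeneous e τ) d]
  exact hI.hom _ (hν _ (hV τ hτ e)) _

theorem VD_sat {k j r : ℕ} {I : Ideal (Sp k j)} {b : Fin r → Sp k j} {db : Fin r → ℕ}
    (hI : CI I r b db) (A : Set (Fin (k + 1) ⊕ Fin j → ℂ)) (D : ℕ) (p : Pp k) (τ : Sp k j)
    (hp : p ≠ 0) (h : inc p * τ ∈ VD I A D) : τ ∈ VD I A D := by
  intro d hd g hg hv
  apply ci_torsion hI p hp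
  rw [← mul_assoc]
  exact h d hd g hg hv

end Pool.Agent.SQ
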