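import Pool.Agent.Lib_MP_b9fedf_sq.Rel
import Pool.Agent.Lib_MP_b9fedf_sq.Basic

/-! Low degree elements of the ideals `VD`. -/

set_option autoImplicit false

namespace Pool.Agent.SQ
open MvPolynomial

/-- `τ` and `p` have the same degree `e` and the same values on `A` -/
private def QLow {k j : ℕ} (A : Set (Fin (k + 1) ⊕ Fin j → ℂ)) (τ : Sp k j) (p : Pp k)
    (e : ℕ) : Prop :=
  p ≠ 0 ∧ p.IsHomogeneous e ∧ τ.IsHomogeneous e ∧ ∀ a ∈ A, eval a τ = eval a (inc (j := j) p)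

private theorem inc_hom_low {k j d : ℕ} {p : Pp k} (hp : p.IsHomogeneous d) :
    (inc (j := j) p).IsHomogeneous d :=
  hp.rename_isHomogeneous

/-- the forms of degree `d` vanishing on `A` -/
private noncomputable def WLow {k j : ℕ} (A : Set (Fin (k + 1) ⊕ Fin j → ℂ)) (d : ℕ) :
    Submodule ℂ (Sp k j) where
  carrier := {g | g.IsHomogeneous d ∧ Van A g}
  add_mem' := by
    rintro x y ⟨hx, hx'⟩ ⟨hy, hy'⟩
    refine ⟨hx.add hy, fun a ha => ?_⟩
    rw [map_add, hx' a ha, hy' a ha, add_zero]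
  zero_mem' := ⟨isHomogeneous_zero _ _ _, fun a _ => map_zero _⟩
  smul_mem' := by
    rintro c x ⟨hx, hx'⟩
    refine ⟨(homogeneousSubmodule (Fin (k + 1) ⊕ Fin j) ℂ d).smul_mem c hx, fun a ha => ?_⟩
    rw [smul_eval, hx' a ha, mul_zero]

/-- product over a finite set -/
private theorem prod_low {k j : ℕ} {A : Set (Fin (k + 1) ⊕ Fin j → ℂ)} {ι : Type}
    (s : Finset ι) (P : ι → Sp k j → Prop) (hP : ∀ i τ σ, P i τ → P i (σ * τ)) (B : ι → ℕ)
    (h : ∀ i ∈ s, ∃ (τ : Sp k j) (p : Pp k) (e : ℕ), QLow A τ p e ∧ e ≤ B i ∧ P i τ) :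
    ∃ (τ : Sp k j) (p : Pp k) (e : ℕ), QLow A τ p e ∧ e ≤ ∑ i ∈ s, B i ∧ ∀ i ∈ s, P i τ := by
  classical
  induction s using Finset.induction_on with
  | empty =>
    refine ⟨1, 1, 0, ⟨one_ne_zero, isHomogeneous_one _ _, isHomogeneous_one _ _, ?_⟩, by simp,
      by simp⟩
    intro a _
    rw [map_one, map_one, map_one]
  | insert i s hi ih =>
    obtain ⟨τ₁, p₁, e₁, hQ₁, he₁, hP₁⟩ := ih fun l hl => h l (Finset.mem_insert_of_mem hl)
    obtain ⟨τ₂, p₂, e₂, hQ₂, he₂, hP₂⟩ := h i (Finset.mem_insert_self i s)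
    refine ⟨τ₁ * τ₂, p₁ * p₂, e₁ + e₂, ⟨mul_ne_zero hQ₁.1 hQ₂.1, hQ₁.2.1.mul hQ₂.2.1,
      hQ₁.2.2.1.mul hQ₂.2.2.1, ?_⟩, ?_, ?_⟩
    · intro a ha
      rw [map_mul, map_mul, map_mul, hQ₁.2.2.2 a ha, hQ₂.2.2.2 a ha]
    · rw [Finset.sum_insert hi]
      omega
    · intro l hl
      rw [Finset.mem_insert] at hl
      rcases hl with rfl | hl
      · exact hP l τ₂ τ₁ hP₂
      · rw [mul_comm]
        exact hP l τ₁ τ₂ (hP₁ l hl)

/-- one form -/
private theorem one_low {k j r d β : ℕ} (hβ : ∀ (j : ℕ) (I : Ideal (Sp k j))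
    (b : Fin r → Sp k j) (db : Fin r → ℕ), CI I r b db → ∀ g : Sp k j, g.IsHomogeneous d →
    ∃ p : Fin (r + 1) → Pp k, p ≠ 0 ∧ (∀ i, (p i).IsHomogeneous (β + (r - (i : ℕ)) * d)) ∧
      ∑ i, inc (p i) * g ^ (i : ℕ) ∈ I) {I : Ideal (Sp k j)} {b : Fin r → Sp k j}
    {db : Fin r → ℕ} (hI : CI I r b db) {A : Set (Fin (k + 1) ⊕ Fin j → ℂ)}
    (hA : ∀ a ∈ A, ∀ s ∈ I, eval a s = 0) (hD : PDense (β + r * d) A) (g : Sp k j)
    (hg : g.IsHomogeneous d) (hv : Van A g) :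
    ∃ (τ : Sp k j) (p : Pp k) (e : ℕ), QLow A τ p e ∧ e ≤ β + r * d ∧ τ * g ∈ I := by
  classical
  obtain ⟨p, hp0, hph, hp⟩ := hβ j I b db hI g hg
  have hex : ∃ n : ℕ, ∃ h : n < r + 1, p ⟨n, h⟩ ≠ 0 := by
    by_contra hcon
    push Not at hcon
    exact hp0 (funext fun i => hcon i.1 i.2)
  obtain ⟨n, hn⟩ : ∃ n, n = Nat.find hex := ⟨_, rfl⟩
  obtain ⟨hn1, hn2⟩ : ∃ h : n < r + 1, p ⟨n, h⟩ ≠ 0 := by
    rw [hn]
    exact Nat.find_spec hex
  have hmin : ∀ i : Fin (r + 1), (i : ℕ) < n → p i = 0 := by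
    intro i hi
    by_contra hne
    rw [hn] at hi
    exact Nat.find_min hex hi ⟨i.2, hne⟩
  -- `n ≥ 1`
  have hn0 : 1 ≤ n := by
    by_contra hcon
    have hn' : n = 0 := by omega
    subst hn'
    refine hn2 (hD (β + r * d) le_rfl _ (by simpa using hph ⟨0, hn1⟩) ?_)
    intro a ha
    have h1 := hA a ha _ hp
    rw [map_sum, Finset.sum_eq_single (⟨0, hn1⟩ : Fin (r + 1))] at h1
    · simpa using h1
    · intro i _ hi
      rw [map_mul, map_pow, hv a ha, zero_pow, mul_zero]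
      intro h0
      exact hi (Fin.ext h0)
    · intro h0
      exact absurd (Finset.mem_univ _) h0
  obtain ⟨τ, hτ⟩ : ∃ τ : Sp k j, τ = ∑ i : Fin (r + 1), inc (p i) * g ^ ((i : ℕ) - n) := ⟨_, rfl⟩
  have hrel : g ^ n * τ ∈ I := by
    have h1 : g ^ n * τ = ∑ i, inc (p i) * g ^ (i : ℕ) := by
      rw [hτ, Finset.mul_sum]
      refine Finset.sum_congr rfl fun i _ => ?_
      by_cases hi : (i : ℕ) < n
      · rw [hmin i hi, map_zero]
        ring
      · have h2 : (i : ℕ) = n + ((i : ℕ) - n) := by omega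
        conv_rhs => rw [h2, pow_add]
        ring
    rw [h1]
    exact hp
  have hgτ : τ * g ∈ I := by
    refine ci_pow hI (τ * g) n hn0 ?_
    have h1 : (τ * g) ^ n = τ ^ (n - 1) * (g ^ n * τ) := by
      obtain ⟨m, rfl⟩ : ∃ m, n = m + 1 := ⟨n - 1, by omega⟩
      rw [Nat.add_sub_cancel]
      ring
    rw [h1]
    exact I.mul_mem_left _ hrel
  refine ⟨τ, p ⟨n, hn1⟩, β + (r - n) * d, ⟨hn2, hph ⟨n, hn1⟩, ?_, ?_⟩, ?_, hgτ⟩
  · rw [hτ]
    refine IsHomogeneous.sum _ _ _ fun i _ => ?_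
    by_cases hi : (i : ℕ) < n
    · rw [hmin i hi, map_zero, zero_mul]
      exact isHomogeneous_zero _ _ _
    · have h1 := (inc_hom_low (j := j) (hph i)).mul (hg.pow ((i : ℕ) - n))
      have h2 : β + (r - (i : ℕ)) * d + d * ((i : ℕ) - n) = β + (r - n) * d := by
        have h3 := i.2
        have h4 : r - n = (r - (i : ℕ)) + ((i : ℕ) - n) := by omega
        rw [h4]
        ring
      rwa [h2] at h1
  · intro a ha
    rw [hτ, map_sum, Finset.sum_eq_single (⟨n, hn1⟩ : Fin (r + 1))]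
    · rw [map_mul, map_pow]
      simp
    · intro i _ hi
      by_cases hi' : (i : ℕ) < n
      · rw [hmin i hi', map_zero, zero_mul, map_zero]
      · rw [map_mul, map_pow, hv a ha, zero_pow, mul_zero]
        intro h0
        exact hi (Fin.ext (by show (i : ℕ) = n; omega))
    · intro h0
      exact absurd (Finset.mem_univ _) h0
  · have h1 : (r - n) * d ≤ r * d := Nat.mul_le_mul_right d (Nat.sub_le r n)
    omega

/-- PIECE LOW -/
theorem low_bound (k j r D : ℕ) : ∃ δ₀ : ℕ, ∀ (I : Ideal (Sp k j)) (b : Fin r → Sp k j)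
    (db : Fin r → ℕ), CI I r b db → ∀ A : Set (Fin (k + 1) ⊕ Fin j → ℂ),
    (∀ a ∈ A, ∀ s ∈ I, eval a s = 0) → PDense δ₀ A →
    ∃ d ≤ δ₀, ∃ τ : Sp k j, τ.IsHomogeneous d ∧ τ ∉ I ∧ τ ∈ VD I A D := by
  classical
  choose β hβ using fun d : ℕ => rel_bound k r d
  obtain ⟨N, hN⟩ : ∃ N : ℕ → ℕ, ∀ d, N d =
      Module.finrank ℂ (homogeneousSubmodule (Fin (k + 1) ⊕ Fin j) ℂ d) := ⟨_, fun _ => rfl⟩
  refine ⟨∑ d ∈ Finset.range (D + 1), N d * (β d + r * d) +
    ∑ d ∈ Finset.range (D + 1), (β d + r * d), ?_⟩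
  intro I b db hI A hA hD
  have hmono : ∀ δ δ' : ℕ, δ ≤ δ' → PDense (k := k) (j := j) δ' A → PDense δ A :=
    fun δ δ' h h' d hd p hp hv => h' d (hd.trans h) p hp hv
  -- all vanishing forms of degree `d`
  have hdeg : ∀ d ∈ Finset.range (D + 1), ∃ (τ : Sp k j) (p : Pp k) (e : ℕ), QLow A τ p e ∧
      e ≤ N d * (β d + r * d) ∧ ∀ g : Sp k j, g.IsHomogeneous d → Van A g → τ * g ∈ I := by
    intro d hd
    have hDd : PDense (β d + r * d) A := by
      refine hmono _ _ ?_ hD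
      have h1 : β d + r * d ≤ ∑ d ∈ Finset.range (D + 1), (β d + r * d) :=
        Finset.single_le_sum (f := fun d => β d + r * d) (fun i _ => Nat.zero_le _) hd
      omega
    obtain ⟨H, hH⟩ : ∃ H, H = homogeneousSubmodule (Fin (k + 1) ⊕ Fin j) ℂ d := ⟨_, rfl⟩
    have hfin : Module.Finite ℂ H := by
      rw [hH, Module.Finite.iff_fg]
      exact homogeneousSubmodule_fg (Fin (k + 1) ⊕ Fin j) ℂ d
    obtain ⟨W, hW⟩ : ∃ W : Submodule ℂ (Sp k j), ∀ g, g ∈ W ↔ g.IsHomogeneous d ∧ Van A g :=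
      ⟨WLow A d, fun g => Iff.rfl⟩
    have hWH : W ≤ H := fun g hg => by
      rw [hH]
      exact ((hW g).1 hg).1
    have hWfin : Module.Finite ℂ W := by
      have := Submodule.finiteDimensional_of_le hWH
      exact this
    have hrank : Module.finrank ℂ W ≤ N d := by
      rw [hN, ← hH]
      exact Submodule.finrank_mono hWH
    obtain ⟨τ, p, e, hQ, he, hτ⟩ := prod_low (A := A)
      (Finset.univ : Finset (Fin (Module.finrank ℂ W)))
      (fun i τ => τ * ((Module.finBasis ℂ W i : W) : Sp k j) ∈ I)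
      (fun i τ σ h => by rw [mul_assoc]; exact I.mul_mem_left σ h) (fun _ => β d + r * d)
      (fun i _ => one_low (hβ d) hI hA hDd _ ((hW _).1 (Module.finBasis ℂ W i).2).1
        ((hW _).1 (Module.finBasis ℂ W i).2).2)
    refine ⟨τ, p, e, hQ, he.trans ?_, ?_⟩
    · rw [Finset.sum_const, Finset.card_univ, Fintype.card_fin, smul_eq_mul]
      exact Nat.mul_le_mul_right _ hrank
    · intro g hg hv
      have h1 := (Module.finBasis ℂ W).sum_repr ⟨g, (hW g).2 ⟨hg, hv⟩⟩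
      have h2 : g = ∑ i, ((Module.finBasis ℂ W).repr ⟨g, (hW g).2 ⟨hg, hv⟩⟩ i) •
          ((Module.finBasis ℂ W i : W) : Sp k j) := by
        have h3 := congrArg (fun x : W => (x : Sp k j)) h1
        simp only [AddSubmonoidClass.coe_finsetSum, SetLike.val_smul] at h3
        exact h3.symm
      rw [h2, Finset.mul_sum]
      refine I.sum_mem fun i _ => ?_
      rw [mul_smul_comm]
      exact Submodule.smul_of_tower_mem I _ (hτ i (Finset.mem_univ i))
  obtain ⟨τ, p, e, hQ, he, hτ⟩ := prod_low (A := A) (Finset.range (D + 1))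
    (fun d τ => ∀ g : Sp k j, g.IsHomogeneous d → Van A g → τ * g ∈ I)
    (fun i τ σ h g hg hv => by rw [mul_assoc]; exact I.mul_mem_left σ (h g hg hv))
    (fun d => N d * (β d + r * d)) hdeg
  refine ⟨e, by omega, τ, hQ.2.2.1, ?_, ?_⟩
  · intro hτI
    refine hQ.1 (hD e (by omega) p hQ.2.1 fun a ha => ?_)
    rw [← hQ.2.2.2 a ha]
    exact hA a ha τ hτI
  · intro d hd g hg hv
    exact hτ d (Finset.mem_range.2 (by omega)) g hg hv

end Pool.Agent.SQ
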