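import Pool.Agent.Lib_MP_b9fedf_sq.KThree
import Pool.Agent.Lib_MP_b9fedf_sq.Basic
import Pool.Agent.Lib_MP_b9fedf_ag.TanExt

/-! From the ideal `V` to the interpolation package. -/

set_option autoImplicit false

namespace Pool.Agent.SQ
open MvPolynomial

private theorem lin_hom_package {τ : Type} [Fintype τ] (h : τ → ℂ) :
    (lin h).IsHomogeneous 1 := by
  unfold lin
  apply IsHomogeneous.sum
  intro i _
  have := (isHomogeneous_C τ (h i)).mul (isHomogeneous_X ℂ i)
  rwa [zero_add] at this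

private theorem eval_lin_package {τ : Type} [Fintype τ] (h y : τ → ℂ) :
    eval y (lin h) = dt y h := by
  unfold lin dt
  rw [map_sum]
  exact Finset.sum_congr rfl fun i _ => by rw [map_mul, eval_C, eval_X, mul_comm]

/-- a basis of the degree `δ` part of `V` modulo `I` -/
private theorem exists_basis_package {k j : ℕ} (I V : Ideal (Sp k j)) (δ : ℕ)
    (hfin : Module.Finite ℂ (vpart I V δ)) (N : ℕ) (hN : vdim I V δ = N) :
    ∃ w : Fin N → Sp k j, (∀ l, (w l).IsHomogeneous δ ∧ w l ∈ V) ∧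
      (∀ c : Fin N → ℂ, ∑ l, c l • w l ∈ I → c = 0) ∧
      ∀ τ ∈ V, τ.IsHomogeneous δ → ∃ c : Fin N → ℂ, τ - ∑ l, c l • w l ∈ I := by
  classical
  subst hN
  let β : Module.Basis (Fin (vdim I V δ)) ℂ (vpart I V δ) := Module.finBasis ℂ _
  have h1 : ∀ l, ∃ w : Sp k j, (w.IsHomogeneous δ ∧ w ∈ V) ∧
      Ideal.Quotient.mkₐ ℂ I w = (β l : Sp k j ⧸ I) := by
    intro l
    obtain ⟨w, ⟨hw1, hw2⟩, hw3⟩ := (β l).2
    exact ⟨w, ⟨(mem_homogeneousSubmodule _ _).mp hw1, hw2⟩, hw3⟩
  choose w hw hwβ using h1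
  have hsum : ∀ c : Fin (vdim I V δ) → ℂ, Ideal.Quotient.mkₐ ℂ I (∑ l, c l • w l) =
      ((∑ l, c l • β l : vpart I V δ) : Sp k j ⧸ I) := by
    intro c
    rw [map_sum, AddSubmonoidClass.coe_finsetSum]
    apply Finset.sum_congr rfl
    intro l _
    rw [map_smul, hwβ]
    rfl
  refine ⟨w, hw, ?_, ?_⟩
  · intro c hc
    have h2 : Ideal.Quotient.mkₐ ℂ I (∑ l, c l • w l) = 0 := Ideal.Quotient.eq_zero_iff_mem.mpr hc
    rw [hsum] at h2
    have h3 : ∑ l, c l • β l = 0 := Subtype.ext h2
    exact funext ((Fintype.linearIndependent_iff.mp β.linearIndependent) c h3)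
  · intro τ hτ hτd
    have h2 : Ideal.Quotient.mkₐ ℂ I τ ∈ vpart I V δ :=
      Submodule.mem_map.mpr ⟨τ, ⟨(mem_homogeneousSubmodule _ _).mpr hτd, hτ⟩, rfl⟩
    refine ⟨β.repr ⟨_, h2⟩, ?_⟩
    have h3 : Ideal.Quotient.mkₐ ℂ I (τ - ∑ l, (β.repr ⟨_, h2⟩ l) • w l) = 0 := by
      rw [map_sub, hsum, β.sum_repr, sub_self]
    exact Ideal.Quotient.eq_zero_iff_mem.mp h3

private theorem hom_finite_package {k j : ℕ} (I V : Ideal (Sp k j)) (d : ℕ) :
    Module.Finite ℂ (vpart I V d) := by
  classical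
  have h0 : Module.Finite ℂ (homogeneousSubmodule (Fin (k + 1) ⊕ Fin j) ℂ d) := by
    have h1 : homogeneousSubmodule (Fin (k + 1) ⊕ Fin j) ℂ d ≤
        Submodule.span ℂ (((Finset.univ.finsuppAntidiag d).image (fun v =>
          (monomial v (1 : ℂ) : Sp k j)) : Finset (Sp k j)) : Set (Sp k j)) := by
      intro p hp
      rw [mem_homogeneousSubmodule] at hp
      rw [← support_sum_monomial_coeff p]
      apply Submodule.sum_mem
      intro v hv
      have h1 : monomial v (coeff v p) = coeff v p • (monomial v (1 : ℂ) : Sp k j) := by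
        rw [smul_monomial, smul_eq_mul, mul_one]
      rw [h1]
      apply Submodule.smul_mem
      apply Submodule.subset_span
      have h2 := hp (mem_support_iff.mp hv)
      rw [Finset.mem_coe, Finset.mem_image]
      refine ⟨v, ?_, rfl⟩
      rw [Finset.mem_finsuppAntidiag]
      refine ⟨?_, fun _ _ => Finset.mem_univ _⟩
      rw [← h2, Finsupp.weight_apply, Finsupp.sum_fintype _ _ (fun i => by simp)]
      simp
    exact Submodule.finiteDimensional_of_le h1
  have h1 : Module.Finite ℂ ((homogeneousSubmodule (Fin (k + 1) ⊕ Fin j) ℂ d) ⊓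
      (V.restrictScalars ℂ) : Submodule ℂ (Sp k j)) :=
    Submodule.finiteDimensional_of_le inf_le_left
  unfold vpart
  infer_instance

private theorem sum_comp_package {σ : Type} (s : MvPolynomial σ ℂ) :
    ∑ d ∈ Finset.range (s.totalDegree + 1), homogeneousComponent d s = s :=
  sum_homogeneousComponent s

private theorem hc_mul_package {σ : Type} (τ g : MvPolynomial σ ℂ) (e : ℕ)
    (hg : g.IsHomogeneous e) (d : ℕ) :
    homogeneousComponent (d + e) (τ * g) = homogeneousComponent d τ * g := by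
  classical
  conv_lhs => rw [← sum_comp_package τ, Finset.sum_mul, map_sum]
  have h1 : ∀ i ∈ Finset.range (τ.totalDegree + 1),
      homogeneousComponent (d + e) (homogeneousComponent i τ * g)
        = if i = d then homogeneousComponent d τ * g else 0 := by
    intro i _
    have hh : (homogeneousComponent i τ * g).IsHomogeneous (i + e) :=
      (homogeneousComponent_isHomogeneous i τ).mul hg
    rw [homogeneousComponent_of_mem ((mem_homogeneousSubmodule _ _).mpr hh)]
    by_cases hid : i = d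
    · subst hid
      simp
    · rw [if_neg hid, if_neg]
      omega
  rw [Finset.sum_congr rfl h1, Finset.sum_ite_eq']
  split_ifs with h
  · rfl
  · have : τ.totalDegree < d := by
      rw [Finset.mem_range] at h
      omega
    rw [homogeneousComponent_eq_zero _ _ this, zero_mul]

theorem package {k j r : ℕ} (hk : 1 ≤ k) {I : Ideal (Sp k j)} {b : Fin r → Sp k j}
    {db : Fin r → ℕ} (hI : CI I r b db) (A : Finset (Fin (k + 1) ⊕ Fin j → ℂ))
    (hA : ∀ a ∈ A, ∀ s ∈ I, eval a s = 0) (D D' δ : ℕ)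
    (hV : VD I (A : Set (Fin (k + 1) ⊕ Fin j → ℂ)) D = VD I (A : Set (Fin (k + 1) ⊕ Fin j → ℂ)) D')
    (hδ1 : 1 ≤ δ) (hδ : δ ≤ D')
    (hinv : ∀ h : Fin (k + 1) ⊕ Fin j → ℂ, h ≠ 0 → ∃ (p : Pp k) (dp : ℕ) (α : Sp k j), p ≠ 0 ∧
      p.IsHomogeneous dp ∧ inc p - lin h * α ∈ annI I (VD I (A : Set (Fin (k + 1) ⊕ Fin j → ℂ)) D))
    (hgrow : (k + j + 4) * vdim I (VD I (A : Set (Fin (k + 1) ⊕ Fin j → ℂ)) D) δ <
      (k + j + 5) * vdim I (VD I (A : Set (Fin (k + 1) ⊕ Fin j → ℂ)) D) (δ - 1)) :
    ∃ (N : ℕ) (q : Fin N → Fin (k + 1) ⊕ Fin j → ℂ)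
      (L : Fin N → (Fin (k + 1) ⊕ Fin j → ℂ) → ℂ) (K : Submodule ℂ (Fin N → ℂ)),
      (∀ i, q i ∈ A) ∧ (k + j + 5) * Module.finrank ℂ ((Fin N → ℂ) ⧸ K) < N ∧
      (∀ γ ∈ K, ∀ h h' : Fin (k + 1) ⊕ Fin j → ℂ, ∀ y, (∀ s ∈ I, eval y s = 0) →
        ∑ i, γ i * (L i y * wdt h h' y (q i)) = 0) ∧
      (∀ h : Fin (k + 1) ⊕ Fin j → ℂ, h ≠ 0 → ∀ γ ∈ K,
        (∀ i, dt (q i) h ≠ 0 → γ i = 0) → γ = 0) ∧
      (∀ (h h' : Fin (k + 1) ⊕ Fin j → ℂ) (e e' : Fin (k + 1) → ℂ),
        LinearIndependent ℂ ![e, e'] → GenAt (annI I (VD I (A : Set (Fin (k + 1) ⊕ Fin j → ℂ)) D)) e e' h h' →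
        (∀ i, dt (q i) h ≠ 0) → ∀ γ : Fin N → ℂ,
          (∀ y, (∀ s ∈ I, eval y s = 0) → ∑ i, γ i * (L i y * wdt h h' y (q i)) = 0) →
            γ ∈ K) := by
  classical
  set V := VD I (A : Set (Fin (k + 1) ⊕ Fin j → ℂ)) D with hVdef
  have hVhom : ∀ τ ∈ V, ∀ d, homogeneousComponent d τ ∈ V := VD_hom hI _ _
  obtain ⟨N, hN⟩ : ∃ N, vdim I V δ = N := ⟨_, rfl⟩
  obtain ⟨w, hw, hw0, hwspan⟩ := exists_basis_package I V δ (hom_finite_package I V δ) N hN
  rw [hN] at hgrow
  -- evaluation on `A` is injective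
  have hinjA : ∀ τ ∈ V, τ.IsHomogeneous δ → (∀ a ∈ A, eval a τ = 0) → τ ∈ I := by
    intro τ hτ hτd hτA
    apply hI.rad
    rw [hV] at hτ
    rw [pow_two]
    exact hτ δ hδ τ hτd (fun a ha => hτA a ha)
  have hws : ∀ c : Fin N → ℂ, (∑ l, c l • w l).IsHomogeneous δ ∧ ∑ l, c l • w l ∈ V := by
    intro c
    constructor
    · exact (mem_homogeneousSubmodule _ _).mp ((homogeneousSubmodule _ ℂ δ).sum_mem fun l _ =>
        (homogeneousSubmodule _ ℂ δ).smul_mem _ ((mem_homogeneousSubmodule _ _).mpr (hw l).1))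
    · exact V.sum_mem fun l _ => by
        rw [smul_eq_C_mul]
        exact V.mul_mem_left _ (hw l).2
  obtain ⟨q₀, hq₀⟩ := GGL.exists_points (X := A) (κ := Fin N)
    (fun a l => eval (a : Fin (k + 1) ⊕ Fin j → ℂ) (w l)) (by
      intro c hc
      apply hw0 c
      apply hinjA _ (hws c).2 (hws c).1
      intro a ha
      rw [map_sum, ← hc ⟨a, ha⟩]
      exact Finset.sum_congr rfl fun l _ => by rw [smul_eval])
  set q : Fin N → Fin (k + 1) ⊕ Fin j → ℂ := fun i => (q₀ i : _) with hq
  have hqA : ∀ i, q i ∈ A := fun i => (q₀ i).2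
  set Mx : Matrix (Fin N) (Fin N) ℂ := Matrix.of fun i l => eval (q i) (w l) with hMx
  have hMdet : Mx.det ≠ 0 := hq₀
  have hMunit : IsUnit Mx.det := isUnit_iff_ne_zero.mpr hMdet
  set Lp : Fin N → Sp k j := fun i => ∑ l, Mx⁻¹ l i • w l with hLp
  -- interpolation
  have hinterp : ∀ τ ∈ V, τ.IsHomogeneous δ → τ - ∑ i, eval (q i) τ • Lp i ∈ I := by
    intro τ hτ hτd
    obtain ⟨c, hc⟩ := hwspan τ hτ hτd
    have h1 : ∀ i, eval (q i) τ = ∑ l, c l * Mx i l := by
      intro i
      have h2 := hA (q i) (hqA i) _ hc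
      rw [map_sub, map_sum, sub_eq_zero] at h2
      rw [h2]
      exact Finset.sum_congr rfl fun l _ => by rw [smul_eval]; rfl
    have h2 : ∑ i, eval (q i) τ • Lp i = ∑ l, c l • w l := by
      have h3 : ∀ l l', ∑ i, Mx i l * Mx⁻¹ l' i = if l = l' then 1 else 0 := by
        intro l l'
        have h4 := congrFun (congrFun (Matrix.nonsing_inv_mul Mx hMunit) l') l
        rw [Matrix.mul_apply, Matrix.one_apply] at h4
        rw [if_congr eq_comm rfl rfl, ← h4]
        exact Finset.sum_congr rfl fun i _ => mul_comm _ _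
      calc ∑ i, eval (q i) τ • Lp i
          = ∑ i, ∑ l', ∑ l, (c l * (Mx i l * Mx⁻¹ l' i)) • w l' := by
            apply Finset.sum_congr rfl
            intro i _
            rw [h1, hLp, Finset.smul_sum]
            apply Finset.sum_congr rfl
            intro l' _
            rw [smul_smul, Finset.sum_mul, Finset.sum_smul]
            exact Finset.sum_congr rfl fun l _ => by rw [mul_assoc]
        _ = ∑ l', ∑ l, ∑ i, (c l * (Mx i l * Mx⁻¹ l' i)) • w l' := by
            rw [Finset.sum_comm]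
            exact Finset.sum_congr rfl fun l' _ => Finset.sum_comm
        _ = ∑ l', c l' • w l' := by
            apply Finset.sum_congr rfl
            intro l' _
            have h5 : ∀ l, ∑ i, (c l * (Mx i l * Mx⁻¹ l' i)) • w l' =
                (c l * (if l = l' then 1 else 0)) • w l' := by
              intro l
              rw [← Finset.sum_smul, ← Finset.mul_sum, h3]
            rw [Finset.sum_congr rfl fun l _ => h5 l, Finset.sum_eq_single l']
            · rw [if_pos rfl, mul_one]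
            · intro l _ hl
              rw [if_neg hl, mul_zero, zero_smul]
            · intro h6
              exact absurd (Finset.mem_univ _) h6
    rw [h2]
    exact hc
  have hzero : ∀ τ ∈ V, τ.IsHomogeneous δ → (∀ i, eval (q i) τ = 0) → τ ∈ I := by
    intro τ hτ hτd h0
    have h1 := hinterp τ hτ hτd
    simpa [h0] using h1
  -- the space `K`
  let evq : Sp k j →ₗ[ℂ] (Fin N → ℂ) := LinearMap.pi fun i => (aeval (q i)).toLinearMap
  have hevq : ∀ s i, evq s i = eval (q i) s := fun s i => by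
    show aeval (q i) s = eval (q i) s
    rw [← coe_aeval_eq_eval]
    rfl
  have hX : ∀ c ∈ V, c.IsHomogeneous (δ - 1) → (∀ i, eval (q i) c = 0) → c ∈ I := by
    intro c hc hcd h0
    apply ci_torsion hI (X 0) (X_ne_zero _) c
    apply hzero _ (V.mul_mem_left _ hc)
    · have h1 : (inc (X 0 : Pp k) : Sp k j).IsHomogeneous 1 := by
        unfold inc
        rw [rename_X]
        exact isHomogeneous_X ℂ _
      have h2 := h1.mul hcd
      rwa [show 1 + (δ - 1) = δ by omega] at h2
    · intro i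
      rw [map_mul, h0, mul_zero]
  set K : Submodule ℂ (Fin N → ℂ) := ((homogeneousSubmodule (Fin (k + 1) ⊕ Fin j) ℂ (δ - 1)) ⊓
      (V.restrictScalars ℂ)).map evq with hK
  have hKmem : ∀ γ ∈ K, ∃ c ∈ V, c.IsHomogeneous (δ - 1) ∧ ∀ i, γ i = eval (q i) c := by
    rintro γ ⟨c, ⟨hc1, hc2⟩, rfl⟩
    exact ⟨c, hc2, (mem_homogeneousSubmodule _ _).mp hc1, fun i => hevq c i⟩
  have hKdim : Module.finrank ℂ K = vdim I V (δ - 1) := by
    have h1 : I.restrictScalars ℂ ≤ LinearMap.ker evq := by
      intro s hs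
      rw [LinearMap.mem_ker]
      funext i
      rw [hevq]
      exact hA (q i) (hqA i) s hs
    let evq' : (Sp k j ⧸ I) →ₗ[ℂ] (Fin N → ℂ) := LinearMap.pi fun i =>
      (Ideal.Quotient.liftₐ I (aeval (q i)) (fun s hs => by
        have := congrFun (LinearMap.mem_ker.mp (h1 hs)) i
        exact this)).toLinearMap
    have h2 : ∀ s, evq' (Ideal.Quotient.mkₐ ℂ I s) = evq s := fun s => rfl
    have h3 : K = (vpart I V (δ - 1)).map evq' := by
      rw [hK]
      unfold vpart
      rw [← Submodule.map_comp]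
      rfl
    have h4 : Function.Injective (evq'.domRestrict (vpart I V (δ - 1))) := by
      rw [← LinearMap.ker_eq_bot, LinearMap.ker_eq_bot']
      rintro ⟨x, hx⟩ h5
      obtain ⟨c, ⟨hc1, hc2⟩, rfl⟩ := hx
      have h6 : evq c = 0 := by
        rw [← h2]
        exact h5
      have h7 := hX c hc2 ((mem_homogeneousSubmodule _ _).mp hc1) (fun i => by
        rw [← hevq, h6]
        rfl)
      exact Subtype.ext (Ideal.Quotient.eq_zero_iff_mem.mpr h7)
    have h5 : K = LinearMap.range (evq'.domRestrict (vpart I V (δ - 1))) := by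
      rw [h3, LinearMap.range_domRestrict]
    rw [h5]
    exact LinearMap.finrank_range_of_inj h4
  refine ⟨N, q, fun i y => eval y (Lp i), K, hqA, ?_, ?_, ?_, ?_⟩
  · have h1 := Submodule.finrank_quotient_add_finrank K
    rw [Module.finrank_fin_fun, hKdim] at h1
    have h2 : vdim I V (δ - 1) ≤ N := by omega
    have h3 : Module.finrank ℂ ((Fin N → ℂ) ⧸ K) = N - vdim I V (δ - 1) := by omega
    rw [h3]
    zify [h2] at hgrow ⊢
    nlinarith
  · intro γ hγ h h' y hy
    obtain ⟨c, hc, hcd, hγc⟩ := hKmem γ hγ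
    set τ : Sp k j := c * (C (dt y h) * lin h' - C (dt y h') * lin h) with hτ
    have hτV : τ ∈ V := V.mul_mem_right _ hc
    have hτd : τ.IsHomogeneous δ := by
      have h1 : (C (dt y h) * lin h' - C (dt y h') * lin h : Sp k j).IsHomogeneous 1 := by
        apply IsHomogeneous.sub
        · have := (isHomogeneous_C (Fin (k + 1) ⊕ Fin j) (dt y h)).mul (lin_hom_package h')
          rwa [zero_add] at this
        · have := (isHomogeneous_C (Fin (k + 1) ⊕ Fin j) (dt y h')).mul (lin_hom_package h)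
          rwa [zero_add] at this
      have h2 := hcd.mul h1
      rwa [show δ - 1 + 1 = δ by omega] at h2
    have h1 := hy _ (hinterp τ hτV hτd)
    rw [map_sub, map_sum, sub_eq_zero] at h1
    have h2 : ∀ x : Fin (k + 1) ⊕ Fin j → ℂ, eval x τ =
        eval x c * (dt y h * dt x h' - dt y h' * dt x h) := by
      intro x
      rw [hτ, map_mul, map_sub, map_mul, map_mul, eval_C, eval_C, eval_lin_package,
        eval_lin_package]
    have h3 : eval y τ = 0 := by
      rw [h2]
      ring
    rw [h3] at h1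
    rw [← h1.symm]
    apply Finset.sum_congr rfl
    intro i _
    rw [smul_eval, h2, hγc]
    unfold wdt
    ring
  · intro h hh γ hγ h0
    obtain ⟨c, hc, hcd, hγc⟩ := hKmem γ hγ
    obtain ⟨p, dp, α, hp0, hp, hmem⟩ := hinv h hh
    have h1 : lin h * c ∈ I := by
      apply hzero _ (V.mul_mem_left _ hc)
      · have h2 := (lin_hom_package h).mul hcd
        rwa [show 1 + (δ - 1) = δ by omega] at h2
      · intro i
        rw [map_mul, eval_lin_package]
        by_cases h3 : dt (q i) h = 0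
        · rw [h3, zero_mul]
        · rw [← hγc, h0 i h3, mul_zero]
    have h2 : inc p * c ∈ I := by
      have h3 := hmem c hc
      have h4 : inc p * c = (inc p - lin h * α) * c + α * (lin h * c) := by ring
      rw [h4]
      exact I.add_mem h3 (I.mul_mem_left _ h1)
    have h3 := ci_torsion hI p hp0 c h2
    funext i
    rw [hγc]
    exact hA (q i) (hqA i) c h3
  · intro h h' e e' he hgen hqh γ hγ
    have hh : h ≠ 0 := by
      rintro rfl
      have hNpos : 0 < N := by
        by_contra h0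
        have h1 : vdim I V (δ - 1) ≤ N := by
          rw [← hKdim]
          have := Submodule.finrank_le K
          rwa [Module.finrank_fin_fun] at this
        have h2 : vdim I V (δ - 1) = 0 := by omega
        have h3 : N = 0 := by omega
        rw [h2, h3] at hgrow
        simp at hgrow
      exact hqh ⟨0, hNpos⟩ (by simp [dt])
    set τ : Sp k j := ∑ i, (γ i * dt (q i) h) • Lp i with hτ
    set τ' : Sp k j := ∑ i, (γ i * dt (q i) h') • Lp i with hτ'
    have hLpV : ∀ i, Lp i ∈ V ∧ (Lp i).IsHomogeneous δ := fun i =>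
      ⟨(hws (fun l => Mx⁻¹ l i)).2, (hws (fun l => Mx⁻¹ l i)).1⟩
    have hcomb : ∀ v : Fin N → ℂ, ∑ i, v i • Lp i ∈ V ∧ (∑ i, v i • Lp i).IsHomogeneous δ := by
      intro v
      constructor
      · exact V.sum_mem fun i _ => by
          rw [smul_eq_C_mul]
          exact V.mul_mem_left _ (hLpV i).1
      · exact (mem_homogeneousSubmodule _ _).mp ((homogeneousSubmodule _ ℂ δ).sum_mem
          fun l _ => (homogeneousSubmodule _ ℂ δ).smul_mem _
            ((mem_homogeneousSubmodule _ _).mpr (hLpV l).2))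
    have hLpq : ∀ i i', eval (q i) (Lp i') = if i = i' then 1 else 0 := by
      intro i i'
      have h4 := congrFun (congrFun (Matrix.mul_nonsing_inv Mx hMunit) i) i'
      rw [Matrix.mul_apply, Matrix.one_apply] at h4
      rw [← h4, hLp, map_sum]
      apply Finset.sum_congr rfl
      intro l _
      rw [smul_eval, mul_comm]
      rfl
    have heq : lin h * τ' - lin h' * τ ∈ I := by
      apply ci_null hI
      intro y hy
      have h1 := hγ y hy
      rw [map_sub, map_mul, map_mul, eval_lin_package, eval_lin_package, hτ, hτ', map_sum,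
        map_sum, Finset.mul_sum, Finset.mul_sum, ← Finset.sum_sub_distrib, ← h1]
      apply Finset.sum_congr rfl
      intro i _
      rw [smul_eval, smul_eval]
      unfold wdt
      ring
    obtain ⟨c, hcV, hc⟩ := kthree hk hI V (le_VD I _ D) (fun p τ hp h => VD_sat hI _ D p τ hp h)
      h h' (hinv h hh) e e' he hgen τ τ' (hcomb _).1 (hcomb _).1 heq
    -- homogeneous component
    set c' := homogeneousComponent (δ - 1) c with hc'
    have hc'V : c' ∈ V := hVhom c hcV _
    have hc'h : c'.IsHomogeneous (δ - 1) := homogeneousComponent_isHomogeneous _ _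
    have hτc' : τ - lin h * c' ∈ I := by
      have h1 := hI.hom _ hc δ
      rw [map_sub, homogeneousComponent_of_mem ((mem_homogeneousSubmodule _ _).mpr (hcomb _).2),
        if_pos rfl] at h1
      have h2 : homogeneousComponent δ (lin h * c) = lin h * c' := by
        have h3 := hc_mul_package c (lin h) 1 (lin_hom_package h) (δ - 1)
        rw [show δ - 1 + 1 = δ by omega] at h3
        rw [mul_comm, h3, mul_comm]
      rwa [h2] at h1
    refine Submodule.mem_map.mpr ⟨c', ⟨(mem_homogeneousSubmodule _ _).mpr hc'h, hc'V⟩, ?_⟩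
    funext i
    rw [hevq]
    have h1 := hA (q i) (hqA i) _ hτc'
    rw [map_sub, map_mul, eval_lin_package, sub_eq_zero, hτ, map_sum] at h1
    have h2 : ∑ x, eval (q i) ((γ x * dt (q x) h) • Lp x) = γ i * dt (q i) h := by
      rw [Finset.sum_eq_single i]
      · rw [smul_eval, hLpq, if_pos rfl, mul_one]
      · intro x _ hx
        rw [smul_eval, hLpq, if_neg hx.symm, mul_zero]
      · intro h6
        exact absurd (Finset.mem_univ _) h6
    rw [h2] at h1
    apply mul_left_cancel₀ (hqh i)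
    rw [← h1]
    ring

end Pool.Agent.SQ
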