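import Pool.Agent.Lib_MP_b9fedf_sq.Inv
import Pool.Agent.Lib_MP_b9fedf_sq.Low
import Pool.Agent.Lib_MP_b9fedf_sq.Chain
import Pool.Agent.Lib_MP_b9fedf_sq.Grow
import Pool.Agent.Lib_MP_b9fedf_sq.PackageMain

/-! Assembly of the interpolation package. -/

set_option autoImplicit false

namespace Pool.Agent.SQ
open MvPolynomial

theorem lin_homogeneous {τ : Type} [Fintype τ] (h : τ → ℂ) : (lin h).IsHomogeneous 1 := by
  unfold lin
  apply IsHomogeneous.sum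
  intro i _
  have := (isHomogeneous_C τ (h i)).mul (isHomogeneous_X ℂ i)
  rwa [zero_add] at this

theorem eval_lin' {τ : Type} [Fintype τ] (h y : τ → ℂ) : eval y (lin h) = dt y h := by
  unfold lin dt
  rw [map_sum]
  exact Finset.sum_congr rfl fun i _ => by rw [map_mul, eval_C, eval_X, mul_comm]

theorem irr_mono {τ : Type} {D D' : ℕ} (h : D' ≤ D) {A : Set (τ → ℂ)} (hA : Irr D A) :
    Irr D' A :=
  fun d d' g g' hg hg' hdd hv => hA d d' g g' hg hg' (hdd.trans h) hv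

theorem pdense_mono {k j : ℕ} {D D' : ℕ} (h : D' ≤ D) {A : Set (Fin (k + 1) ⊕ Fin j → ℂ)}
    (hA : PDense D A) : PDense D' A :=
  fun d hd p hp hv => hA d (hd.trans h) p hp hv

theorem le_annI {k j : ℕ} (I V : Ideal (Sp k j)) : I ≤ annI I V :=
  fun _ hs τ _ => I.mul_mem_right τ hs

theorem hom_le_span {σ : Type} [Fintype σ] [DecidableEq σ] (d : ℕ) :
    homogeneousSubmodule σ ℂ d ≤
    Submodule.span ℂ (((Finset.univ.finsuppAntidiag d).image (fun v =>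
      (monomial v (1 : ℂ) : MvPolynomial σ ℂ)) : Finset (MvPolynomial σ ℂ)) :
        Set (MvPolynomial σ ℂ)) := by
  classical
  intro p hp
  rw [mem_homogeneousSubmodule] at hp
  rw [← support_sum_monomial_coeff p]
  apply Submodule.sum_mem
  intro v hv
  have h1 : monomial v (coeff v p) = coeff v p • (monomial v (1 : ℂ) : MvPolynomial σ ℂ) := by
    rw [smul_monomial, smul_eq_mul, mul_one]
  rw [h1]
  apply Submodule.smul_mem
  apply Submodule.subset_span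
  have h2 := hp (mem_support_iff.mp hv)
  rw [Finset.mem_coe, Finset.mem_image]
  refine ⟨v, ?_, rfl⟩
  rw [Finset.mem_finsuppAntidiag]
  refine ⟨?_, fun _ _ => Finset.mem_univ _⟩
  rw [← h2, Finsupp.weight_apply, Finsupp.sum_fintype _ _ (fun i => by simp)]
  simp

theorem hom_finite {σ : Type} [Fintype σ] (d : ℕ) :
    Module.Finite ℂ (homogeneousSubmodule σ ℂ d) := by
  classical
  exact Submodule.finiteDimensional_of_le (hom_le_span d)

theorem hom_finrank {σ : Type} [Fintype σ] (d : ℕ) :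
    Module.finrank ℂ (homogeneousSubmodule σ ℂ d) ≤ (Fintype.card σ + d - 1).choose d := by
  classical
  refine (Submodule.finrank_mono (hom_le_span d)).trans ?_
  refine (finrank_span_finset_le_card _).trans ?_
  refine Finset.card_image_le.trans ?_
  rw [Finset.card_finsuppAntidiag_nat_eq_choose, Finset.card_univ]

theorem vpart_finite {k j : ℕ} (I V : Ideal (Sp k j)) (d : ℕ) :
    Module.Finite ℂ (vpart I V d) := by
  have : Module.Finite ℂ (homogeneousSubmodule (Fin (k + 1) ⊕ Fin j) ℂ d) := hom_finite d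
  have : Module.Finite ℂ ((homogeneousSubmodule (Fin (k + 1) ⊕ Fin j) ℂ d) ⊓
      (V.restrictScalars ℂ) : Submodule ℂ (Sp k j)) :=
    Submodule.finiteDimensional_of_le inf_le_left
  unfold vpart
  infer_instance

theorem vdim_le {k j : ℕ} (I V : Ideal (Sp k j)) (d : ℕ) :
    vdim I V d ≤ (k + j + d).choose (k + j) := by
  have h0 : Module.Finite ℂ (homogeneousSubmodule (Fin (k + 1) ⊕ Fin j) ℂ d) := hom_finite d
  have h1 : Module.Finite ℂ ((homogeneousSubmodule (Fin (k + 1) ⊕ Fin j) ℂ d) ⊓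
      (V.restrictScalars ℂ) : Submodule ℂ (Sp k j)) :=
    Submodule.finiteDimensional_of_le inf_le_left
  unfold vdim vpart
  refine (Submodule.finrank_map_le _ _).trans ?_
  refine (Submodule.finrank_mono inf_le_left).trans ?_
  refine (hom_finrank d).trans ?_
  rw [Fintype.card_sum, Fintype.card_fin, Fintype.card_fin]
  have h2 : k + 1 + j + d - 1 = k + j + d := by omega
  rw [h2, ← Nat.choose_symm (by omega : k + j ≤ k + j + d)]
  have h3 : k + j + d - (k + j) = d := by omega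
  rw [h3]

theorem vdim_pos {k j : ℕ} {I V : Ideal (Sp k j)} {d : ℕ} {τ : Sp k j}
    (hτ : τ.IsHomogeneous d) (hτV : τ ∈ V) (hτI : τ ∉ I) : 1 ≤ vdim I V d := by
  have := vpart_finite I V d
  rw [Nat.one_le_iff_ne_zero]
  intro h
  unfold vdim at h
  rw [Submodule.finrank_eq_zero] at h
  have h1 : Ideal.Quotient.mkₐ ℂ I τ ∈ vpart I V d :=
    Submodule.mem_map.mpr ⟨τ, ⟨(mem_homogeneousSubmodule _ _).mpr hτ, hτV⟩, rfl⟩
  rw [h, Submodule.mem_bot] at h1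
  exact hτI (Ideal.Quotient.eq_zero_iff_mem.mp h1)

theorem vdim_mono {k j r : ℕ} {I : Ideal (Sp k j)} {b : Fin r → Sp k j} {db : Fin r → ℕ}
    (hI : CI I r b db) (V : Ideal (Sp k j)) (d : ℕ) : vdim I V d ≤ vdim I V (d + 1) := by
  have := vpart_finite I V d
  have := vpart_finite I V (d + 1)
  set x : Sp k j := X (Sum.inl 0) with hx
  have hx1 : x = inc (X 0) := by
    rw [hx]
    unfold inc
    rw [rename_X]
  let μ : (Sp k j ⧸ I) →ₗ[ℂ] (Sp k j ⧸ I) :=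
    LinearMap.mulLeft ℂ (Ideal.Quotient.mkₐ ℂ I x)
  have hμ : Function.Injective μ := by
    rw [← LinearMap.ker_eq_bot, LinearMap.ker_eq_bot']
    intro y hy
    obtain ⟨s, rfl⟩ := Ideal.Quotient.mkₐ_surjective ℂ I y
    have h1 : Ideal.Quotient.mkₐ ℂ I (x * s) = 0 := by
      rw [map_mul]
      exact hy
    have h2 : x * s ∈ I := Ideal.Quotient.eq_zero_iff_mem.mp h1
    rw [hx1] at h2
    have h3 := ci_torsion hI (X 0) (X_ne_zero _) s h2
    exact Ideal.Quotient.eq_zero_iff_mem.mpr h3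
  have h1 : (vpart I V d).map μ ≤ vpart I V (d + 1) := by
    rintro y ⟨z, hz, rfl⟩
    obtain ⟨s, ⟨hs1, hs2⟩, rfl⟩ := hz
    refine ⟨x * s, ⟨?_, ?_⟩, ?_⟩
    · have h4 : (x * s).IsHomogeneous (1 + d) :=
        (isHomogeneous_X ℂ _).mul ((mem_homogeneousSubmodule _ _).mp hs1)
      rw [add_comm 1 d] at h4
      exact (mem_homogeneousSubmodule _ _).mpr h4
    · exact V.mul_mem_left x hs2
    · show Ideal.Quotient.mkₐ ℂ I (x * s) = _
      rw [map_mul]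
      rfl
  unfold vdim
  rw [(Submodule.equivMapOfInjective μ hμ (vpart I V d)).finrank_eq]
  exact Submodule.finrank_mono h1

theorem pack (k j r e₁ : ℕ) (hk : 1 ≤ k) : ∃ Di Dp : ℕ, ∀ (I : Ideal (Sp k j))
    (b : Fin r → Sp k j) (db : Fin r → ℕ), CI I r b db →
    ∀ A : Finset (Fin (k + 1) ⊕ Fin j → ℂ), (∀ a ∈ A, ∀ s ∈ I, eval a s = 0) →
    Irr Di (A : Set (Fin (k + 1) ⊕ Fin j → ℂ)) → PDense Dp (A : Set (Fin (k + 1) ⊕ Fin j → ℂ)) →
    (∀ h : Fin (k + 1) ⊕ Fin j → ℂ, h ≠ 0 → ¬ Van (A : Set (Fin (k + 1) ⊕ Fin j → ℂ)) (lin h)) →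
    ∀ s : Sp k j, s.IsHomogeneous e₁ → ¬ Van (A : Set (Fin (k + 1) ⊕ Fin j → ℂ)) s →
    ∃ (V : Ideal (Sp k j)) (N : ℕ) (q : Fin N → Fin (k + 1) ⊕ Fin j → ℂ)
      (L : Fin N → (Fin (k + 1) ⊕ Fin j → ℂ) → ℂ) (K : Submodule ℂ (Fin N → ℂ)) (p : Pp k)
      (α : Sp k j),
      I ≤ annI I V ∧ (∀ ν ∈ annI I V, ∀ d, homogeneousComponent d ν ∈ annI I V) ∧
      p ≠ 0 ∧ inc p - s * α ∈ annI I V ∧
      (∀ i, q i ∈ A) ∧ (k + j + 5) * Module.finrank ℂ ((Fin N → ℂ) ⧸ K) < N ∧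
      (∀ γ ∈ K, ∀ h h' : Fin (k + 1) ⊕ Fin j → ℂ, ∀ y, (∀ s ∈ I, eval y s = 0) →
        ∑ i, γ i * (L i y * wdt h h' y (q i)) = 0) ∧
      (∀ h : Fin (k + 1) ⊕ Fin j → ℂ, h ≠ 0 → ∀ γ ∈ K,
        (∀ i, dt (q i) h ≠ 0 → γ i = 0) → γ = 0) ∧
      (∀ (h h' : Fin (k + 1) ⊕ Fin j → ℂ) (e e' : Fin (k + 1) → ℂ),
        LinearIndependent ℂ ![e, e'] → GenAt (annI I V) e e' h h' →
        (∀ i, dt (q i) h ≠ 0) → ∀ γ : Fin N → ℂ,
          (∀ y, (∀ s ∈ I, eval y s = 0) → ∑ i, γ i * (L i y * wdt h h' y (q i)) = 0) →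
            γ ∈ K) := by
  classical
  obtain ⟨β₁, hβ₁⟩ := inv_bound k r 1
  obtain ⟨β₂, hβ₂⟩ := inv_bound k r e₁
  set β := max β₁ β₂ with hβ
  choose δ₀ hδ₀ using fun D => low_bound k j r D
  choose G hG1 hG2 using fun δ => growth (k + j) δ
  let D : ℕ → ℕ := fun i => Nat.rec β (fun _ x => max x (G (δ₀ x))) i
  have hD0 : D 0 = β := rfl
  have hDs : ∀ i, D (i + 1) = max (D i) (G (δ₀ (D i))) := fun i => rfl
  have hDm : Monotone D := monotone_nat_of_le_succ fun i => by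
    rw [hDs]
    exact le_max_left _ _
  refine ⟨β, (Finset.range (r + 1)).sup (fun i => δ₀ (D i)), ?_⟩
  intro I b db hI A hA hirr hpd hlin s hs hsA
  have hpd' : ∀ i ≤ r, PDense (δ₀ (D i)) (A : Set (Fin (k + 1) ⊕ Fin j → ℂ)) := fun i hi =>
    pdense_mono (Finset.le_sup (f := fun i => δ₀ (D i)) (Finset.mem_range.mpr (by omega))) hpd
  obtain ⟨d₁, hd₁, τ₁, hτ₁, hτ₁I, hτ₁V⟩ := hδ₀ (D r) I b db hI _ hA (hpd' r le_rfl)
  obtain ⟨i, hi, hVV⟩ := chain hI (A : Set (Fin (k + 1) ⊕ Fin j → ℂ)) D hDm ⟨τ₁, hτ₁V, hτ₁I⟩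
  set V := VD I (A : Set (Fin (k + 1) ⊕ Fin j → ℂ)) (D i) with hV
  have hann : ∀ (dν : ℕ) (ν : Sp k j), ν.IsHomogeneous dν → dν ≤ β →
      Van (A : Set (Fin (k + 1) ⊕ Fin j → ℂ)) ν → ν ∈ annI I V := by
    intro dν ν hν hdν hvan τ hτ
    have h1 := hτ dν (hdν.trans (hDm (Nat.zero_le i))) ν hν hvan
    rwa [mul_comm] at h1
  have hinv : ∀ h : Fin (k + 1) ⊕ Fin j → ℂ, h ≠ 0 → ∃ (p : Pp k) (dp : ℕ) (α : Sp k j), p ≠ 0 ∧
      p.IsHomogeneous dp ∧ inc p - lin h * α ∈ annI I V := by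
    intro h hh
    obtain ⟨p, α, ν, dp, dν, hp0, hp, hν, hdν, hvan, hmem⟩ :=
      hβ₁ j I b db hI _ hA (irr_mono (le_max_left _ _) hirr) (lin h) (lin_homogeneous h) (hlin h hh)
    refine ⟨p, dp, α, hp0, hp, ?_⟩
    have h1 := (annI I V).add_mem (le_annI I V hmem)
      (hann dν ν hν (hdν.trans (le_max_left _ _)) hvan)
    convert h1 using 1
    ring
  obtain ⟨p, α, ν, dp, dν, hp0, hp, hν, hdν, hvan, hmem⟩ :=
    hβ₂ j I b db hI _ hA (irr_mono (le_max_right _ _) hirr) s hs hsA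
  obtain ⟨d₂, hd₂, τ₂, hτ₂, hτ₂I, hτ₂V⟩ := hδ₀ (D i) I b db hI _ hA (hpd' i hi.le)
  obtain ⟨δ, hδ1, hδ2, hδ3⟩ := hG2 (δ₀ (D i)) (vdim I V) ⟨d₂, hd₂, vdim_pos hτ₂ hτ₂V hτ₂I⟩
    (fun d => vdim_mono hI V d) (fun d => vdim_le I V d)
  obtain ⟨N, q, L, K, hq, hNK, hK1, hK2, hK3⟩ := package hk hI A hA (D i) (D (i + 1)) δ hVV
    (by omega) (by rw [hDs]; exact hδ2.trans (le_max_right _ _)) hinv hδ3
  refine ⟨V, N, q, L, K, p, α, le_annI I V, annI_hom hI V (VD_hom hI _ _), hp0, ?_, hq, hNK,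
    hK1, hK2, hK3⟩
  have h1 := (annI I V).add_mem (le_annI I V hmem)
    (hann dν ν hν (hdν.trans (le_max_right _ _)) hvan)
  convert h1 using 1
  ring

end Pool.Agent.SQ
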