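import Mathlib
import Pool.Agent.Lib_MP_b9fedf_sq.Defs

/-! A form of positive degree has a zero on every plane. -/

set_option autoImplicit false

namespace Pool.Agent.SQ
open MvPolynomial

private theorem eval_scale_bin_zero {k n : ℕ} (f : Pp k) (hf : f.IsHomogeneous n)
    (t : ℂ) (y : Fin (k + 1) → ℂ) :
    eval (fun i => t * y i) f = t ^ n * eval y f := by
  classical
  rw [eval_eq' (fun i => t * y i), eval_eq' y, Finset.mul_sum]
  refine Finset.sum_congr rfl fun s hs => ?_
  have h1 : ∑ i, s i = n := by
    have := hf (mem_support_iff.mp hs)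
    rw [Finsupp.weight_apply, Finsupp.sum_fintype _ _ (by simp)] at this
    simpa using this
  rw [show (∏ i, (t * y i) ^ s i) = t ^ n * ∏ i, y i ^ s i by
    rw [← h1, ← Finset.prod_pow_eq_pow_sum, ← Finset.prod_mul_distrib]
    exact Finset.prod_congr rfl fun i _ => mul_pow _ _ _]
  ring

private theorem eval_poly_bin_zero {k : ℕ} (f : Pp k) (g : Fin (k + 1) → Polynomial ℂ) (s : ℂ) :
    Polynomial.eval s (eval₂ Polynomial.C g f) = eval (fun i => Polynomial.eval s (g i)) f := by
  have := eval₂_comp_left (Polynomial.evalRingHom s) Polynomial.C g f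
  rw [Polynomial.coe_evalRingHom] at this
  rw [this, eval, coe_eval₂Hom]
  congr 1
  ext x
  simp

theorem bin_zero {k d : ℕ} (hd : 1 ≤ d) (p : Pp k) (hp : p.IsHomogeneous d)
    (e e' : Fin (k + 1) → ℂ) (he : LinearIndependent ℂ ![e, e']) :
    ∃ α β : ℂ, (fun i => α * e i + β * e' i) ≠ 0 ∧
      eval (fun i => α * e i + β * e' i) p = 0 := by
  have hne : ∀ α β : ℂ, (α, β) ≠ (0, 0) → (fun i => α * e i + β * e' i) ≠ 0 := by
    intro α β hab h
    rw [LinearIndependent.pair_iff] at he
    have h2 := he α β (by
      funext i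
      have := congrFun h i
      simpa [Pi.add_apply, Pi.smul_apply, smul_eq_mul] using this)
    exact hab (Prod.ext h2.1 h2.2)
  set q : Polynomial ℂ := eval₂ Polynomial.C
    (fun i => Polynomial.C (e i) + Polynomial.X * Polynomial.C (e' i)) p with hq
  have hqe : ∀ s, Polynomial.eval s q = eval (fun i => e i + s * e' i) p := by
    intro s
    rw [hq, eval_poly_bin_zero]
    simp only [Polynomial.eval_add, Polynomial.eval_mul, Polynomial.eval_C, Polynomial.eval_X]
  by_cases hdeg : q.degree = 0
  · -- `q` is a nonzero constant, so `p` vanishes at `e'`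
    obtain ⟨c, hc⟩ : ∃ c, q = Polynomial.C c := ⟨_, Polynomial.eq_C_of_degree_eq_zero hdeg⟩
    set r : Polynomial ℂ := eval₂ Polynomial.C
      (fun i => Polynomial.X * Polynomial.C (e i) + Polynomial.C (e' i)) p with hr
    have hre : ∀ s, Polynomial.eval s r = eval (fun i => s * e i + e' i) p := by
      intro s
      rw [hr, eval_poly_bin_zero]
      simp only [Polynomial.eval_add, Polynomial.eval_mul, Polynomial.eval_C, Polynomial.eval_X]
    have hrr : r = Polynomial.C c * Polynomial.X ^ d := by
      refine Polynomial.eq_of_infinite_eval_eq _ _ ?_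
      refine Set.Infinite.mono ?_ (Set.Infinite.sdiff (Set.infinite_univ (α := ℂ))
        (Set.finite_singleton (0 : ℂ)))
      intro s hs
      have hs0 : s ≠ 0 := fun h => hs.2 (by simpa using h)
      show Polynomial.eval s r = Polynomial.eval s _
      rw [hre]
      have h1 : (fun i => s * e i + e' i) = fun i => s * (e i + s⁻¹ * e' i) := by
        funext i
        rw [mul_add, ← mul_assoc, mul_inv_cancel₀ hs0, one_mul]
      rw [h1, eval_scale_bin_zero p hp, ← hqe, hc]
      simp only [Polynomial.eval_C, Polynomial.eval_mul, Polynomial.eval_pow, Polynomial.eval_X]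
      exact mul_comm _ _
    refine ⟨0, 1, hne 0 1 (by simp), ?_⟩
    have h0 := hre 0
    rw [hrr] at h0
    simp only [Polynomial.eval_mul, Polynomial.eval_C, Polynomial.eval_pow, Polynomial.eval_X,
      zero_pow (by omega : d ≠ 0), mul_zero] at h0
    simpa using h0.symm
  · obtain ⟨β, hβ⟩ := IsAlgClosed.exists_root q hdeg
    refine ⟨1, β, hne 1 β (by simp), ?_⟩
    have := hqe β
    rw [Polynomial.IsRoot.def.mp hβ] at this
    simpa using this.symm

end Pool.Agent.SQ
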