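import Pool.Agent.Lib_MP_b9fedf_sq.PkgKey

/-! The key estimate, with an auxiliary function of smaller weight. -/

set_option autoImplicit false

namespace Pool.Agent.SQ
open Filter Metric Real Set Function MeromorphicOn ValueDistribution
open Pool.Agent.GGL

/-- the key estimate -/
theorem key_estimate2 {m s N : ℕ} (q : Fin N → Fin (m + 1) → ℂ) (hq0 : ∀ i, q i ≠ 0)
    (hcard : (m + 5) * s < N)
    (hs : ∀ h : Fin (m + 1) → ℂ, h ≠ 0 →
      ((Finset.univ : Finset (Fin N)).filter (fun i => ∑ a, q i a * h a = 0)).card ≤ s)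
    (g : Fin (m + 1) → ℂ → ℂ)
    (hg : ∀ k, Differentiable ℂ (g k)) (hli : LinearIndependent ℂ g)
    (hphi : ∃ (s₀ : ℕ) (Φ : ℂ → ℂ) (C : ℝ), s₀ ≤ s ∧ 0 < C ∧ Differentiable ℂ Φ ∧ (∃ z, Φ z ≠ 0) ∧
      (∀ z, ‖Φ z‖ ≤ C * (‖fun ab : Fin (m + 1) × Fin (m + 1) =>
        g ab.1 z * deriv (g ab.2) z - g ab.2 z * deriv (g ab.1) z‖) ^ s₀) ∧
      ∀ (z : ℂ) (c : ℕ), (∀ a, (c : ℕ∞) ≤ analyticOrderAt (g a) z) →
        (∃ a, analyticOrderAt (g a) z = c) →
        ∀ o : Fin N → ℕ, (∀ i, analyticOrderAt (fun ζ => ∑ a, q i a * g a ζ) z = o i) →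
          ((2 * s₀ * c + ∑ i, (o i - c - 1) : ℕ) : ℕ∞) ≤ analyticOrderAt Φ z)
    (htan : ∀ (i : Fin N) (z : ℂ) (c : ℕ), (∀ a, (c : ℕ∞) ≤ analyticOrderAt (g a) z) →
      (∃ a, analyticOrderAt (g a) z = c) →
      analyticOrderAt (fun ζ => ∑ a, q i a * g a ζ) z ≠ ((c + 1 : ℕ) : ℕ∞)) :
    ∃ C : ℝ, 0 ≤ C ∧ ∀ (r B : ℝ), 1 ≤ r → 1 ≤ B →
      (∀ a, ∀ z ∈ sphere (0 : ℂ) r, Good (fun z => g a z / g 0 z) B z) →
      (∀ i, ∀ z ∈ sphere (0 : ℂ) r, Good (fun z => (∑ a, q i a * g a z) / g 0 z) B z) →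
      TC g r ≤ C * (1 + Real.log B) := by
  classical
  have hsN : s < N := by nlinarith
  have hhd : ∀ i, Differentiable ℂ (fun z => ∑ a, q i a * g a z) := fun i =>
    Differentiable.fun_sum fun a _ => (hg a).const_mul (q i a)
  have hhne : ∀ i, ∃ z, ∑ a, q i a * g a z ≠ 0 := fun i =>
    combination_ne_zero (q i) (hq0 i) g hli
  have hgne : ∀ a, ∃ z, g a z ≠ 0 := by
    intro a
    have := hli.ne_zero a
    by_contra hcon
    push Not at hcon
    exact this (funext hcon)
  have hWd : Differentiable ℂ (Wr g) := Wr_differentiable hg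
  have hWne := exists_Wr_ne_zero g hg hli
  obtain ⟨C1, hC1⟩ := average_main' q hq0 hs hsN g hg hli
  obtain ⟨s₀, Φ, CΦ, hs₀, hCΦ, hΦ, hΦ0, hΦle, hΦord⟩ := hphi
  obtain ⟨C2, hC2⟩ := average_phi (s := s₀) g hg (hgne 0) Φ CΦ hCΦ hΦ hΦ0 hΦle
  obtain ⟨C3, hC30, hC3⟩ := TC_ge hg hgne
  set D : locallyFinsupp ℂ ℤ := minDv (fun k => Dv (g k)) with hD
  -- pointwise facts about orders
  have hpt : ∀ z : ℂ, ∃ c : ℕ, D z = (c : ℤ) ∧ (∀ a, (c : ℕ∞) ≤ analyticOrderAt (g a) z) ∧
      (∃ a, analyticOrderAt (g a) z = c) := by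
    intro z
    obtain ⟨k0, hk0⟩ := exists_minDv (fun k => Dv (g k)) z
    have hord : ∀ a, analyticOrderAt (g a) z = ((analyticOrderAt (g a) z).toNat : ℕ∞) := fun a =>
      (ENat.natCast_toNat (order_ne_top (hg a) (hgne a) z)).symm
    refine ⟨(analyticOrderAt (g k0) z).toNat, ?_, ?_, k0, hord k0⟩
    · rw [hD, hk0, Dv_apply (hg k0)]
    · intro a
      have h1 := minDv_le (fun k => Dv (g k)) a z
      rw [hk0, Dv_apply (hg k0), Dv_apply (hg a)] at h1
      rw [hord a]
      exact_mod_cast h1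
  have hE1 : ∑ i, Function.locallyFinsuppWithin.logCounting
        (Dv (fun z => ∑ a, q i a * g a z)) = ∑ i, Function.locallyFinsuppWithin.logCounting
        (Dv (fun z => ∑ a, q i a * g a z)) := rfl
  have hdiv1 : ∀ r : ℝ, 1 ≤ r → ∑ i, Function.locallyFinsuppWithin.logCounting
        (Dv (fun z => ∑ a, q i a * g a z)) r +
        4 * s₀ * Function.locallyFinsuppWithin.logCounting D r ≤
      2 * Function.locallyFinsuppWithin.logCounting (Dv Φ) r +
        N * Function.locallyFinsuppWithin.logCounting D r := by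
    intro r hr
    have h1 : (∑ i, Dv (fun z => ∑ a, q i a * g a z)) + (4 * s₀) • D ≤
        2 • Dv Φ + (N) • D := by
      intro z
      obtain ⟨c, hc, hc1, hc2⟩ := hpt z
      set o : Fin N → ℕ := fun i =>
        (analyticOrderAt (fun z => ∑ a, q i a * g a z) z).toNat with ho
      have ho1 : ∀ i, analyticOrderAt (fun ζ => ∑ a, q i a * g a ζ) z = o i := fun i =>
        (ENat.natCast_toNat (order_ne_top (hhd i) (hhne i) z)).symm
      have ho2 : ∀ i, c ≤ o i := by
        intro i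
        have := order_linear (q i) g z (fun k => (hg k).analyticAt z) c hc1
        rw [ho1 i] at this
        exact_mod_cast this
      have ho3 : ∀ i, o i ≠ c + 1 := by
        intro i h
        apply htan i z c hc1 hc2
        rw [ho1 i, h]
      have h2 := hΦord z c hc1 hc2 o ho1
      rw [← ENat.natCast_toNat (order_ne_top hΦ hΦ0 z)] at h2
      have h3 : 2 * s₀ * c + ∑ i, (o i - c - 1) ≤ (analyticOrderAt Φ z).toNat := by
        exact_mod_cast h2
      have h4 : ∑ i, o i ≤ ∑ i, (2 * (o i - c - 1) + c) := by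
        apply Finset.sum_le_sum
        intro i _
        have := ho2 i
        have := ho3 i
        omega
      rw [Finset.sum_add_distrib, ← Finset.mul_sum, Finset.sum_const, Finset.card_univ,
        Fintype.card_fin, smul_eq_mul] at h4
      rw [locallyFinsuppWithin.coe_add, locallyFinsuppWithin.coe_add, Pi.add_apply, Pi.add_apply,
        locallyFinsuppWithin.coe_sum, Finset.sum_apply, locallyFinsuppWithin.coe_nsmul,
        locallyFinsuppWithin.coe_nsmul, locallyFinsuppWithin.coe_nsmul, Pi.smul_apply,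
        Pi.smul_apply, Pi.smul_apply, hc, Dv_apply hΦ]
      have h5 : ∀ i, (Dv (fun z => ∑ a, q i a * g a z)) z = (o i : ℤ) := fun i =>
        Dv_apply (hhd i) z
      simp_rw [h5]
      simp only [nsmul_eq_mul]
      have h6 : ((∑ i, o i + 4 * s₀ * c : ℕ) : ℤ) ≤
          ((2 * (analyticOrderAt Φ z).toNat + N * c : ℕ) : ℤ) := by
        exact_mod_cast (by linarith : ∑ i, o i + 4 * s₀ * c ≤
          2 * (analyticOrderAt Φ z).toNat + N * c)
      push_cast at h6 ⊢
      exact h6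
    have h2 := Function.locallyFinsuppWithin.logCounting_le h1 hr
    rw [map_add, map_add, map_sum, map_nsmul, map_nsmul, map_nsmul, Pi.add_apply, Pi.add_apply,
      Finset.sum_apply, Pi.smul_apply, Pi.smul_apply, Pi.smul_apply] at h2
    simp only [nsmul_eq_mul] at h2
    push_cast at h2
    linarith
  have hdiv2 : ∀ r : ℝ, 1 ≤ r → (m + 1) * Function.locallyFinsuppWithin.logCounting D r ≤
      Function.locallyFinsuppWithin.logCounting (Dv (Wr g)) r := by
    intro r hr
    have h1 : (m + 1) • D ≤ Dv (Wr g) := by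
      intro z
      obtain ⟨c, hc, hc1, hc2⟩ := hpt z
      have h2 := order_Wr_common g z (fun k => (hg k).analyticAt z) c hc1
      rw [← ENat.natCast_toNat (order_ne_top hWd hWne z)] at h2
      have h3 : (m + 1) * c ≤ (analyticOrderAt (Wr g) z).toNat := by exact_mod_cast h2
      rw [locallyFinsuppWithin.coe_nsmul, Pi.smul_apply, hc, Dv_apply hWd, nsmul_eq_mul]
      have h4 : (((m + 1) * c : ℕ) : ℤ) ≤ (((analyticOrderAt (Wr g) z).toNat : ℕ) : ℤ) :=
        Int.ofNat_le.mpr h3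
      push_cast at h4 ⊢
      exact h4
    have h2 := Function.locallyFinsuppWithin.logCounting_le h1 hr
    rw [map_nsmul, Pi.smul_apply, nsmul_eq_mul] at h2
    push_cast at h2
    exact h2
  have hs0 : (0 : ℝ) ≤ s := Nat.cast_nonneg s
  have hs₀0 : (0 : ℝ) ≤ s₀ := Nat.cast_nonneg s₀
  have hs₀s : (s₀ : ℝ) ≤ s := Nat.cast_le.mpr hs₀
  set e : ℝ := (N : ℝ) - (m + 1) * s - 4 * s₀ with he
  have he1 : 1 ≤ e := by
    have h1 : ((m + 5) * s + 1 : ℝ) ≤ (N : ℝ) := by exact_mod_cast hcard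
    rw [he]
    linarith
  refine ⟨|C1| + 2 * |C2| + e * C3 + s * (m + 1) ^ 2 + 2 * s₀, by positivity, ?_⟩
  intro r B hr hB hgood1 hgood2
  have h1 := hC1 r B hr hB hgood2
  have h2 := hC2 r B hr hB hgood1
  have h3 := hdiv1 r hr
  have h4 := hdiv2 r hr
  have h5 := hC3 r hr
  have hlogB : 0 ≤ Real.log B := Real.log_nonneg hB
  set A := circleAverage (fun z => Real.log ‖fun a => g a z‖) 0 r with hA
  set LD := Function.locallyFinsuppWithin.logCounting D r with hLD
  set LΦ := Function.locallyFinsuppWithin.logCounting (Dv Φ) r with hLΦ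
  set LW := Function.locallyFinsuppWithin.logCounting (Dv (Wr g)) r with hLW
  set LH := ∑ i, Function.locallyFinsuppWithin.logCounting
        (Dv (fun z => ∑ a, q i a * g a z)) r with hLH
  have hTC : TC g r = A - LD := rfl
  have h8 := mul_le_mul_of_nonneg_left h4 hs0
  have h9 : e * TC g r ≤ C1 + 2 * C2 + (s * (m + 1) ^ 2 + 2 * s₀) * Real.log B := by
    rw [hTC, he]
    nlinarith
  have h10 : C1 ≤ |C1| := le_abs_self _
  have h11 : C2 ≤ |C2| := le_abs_self _
  have h12 : TC g r + C3 ≤ e * (TC g r + C3) := by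
    have : 0 ≤ TC g r + C3 := by linarith
    nlinarith
  have h13 : 0 ≤ (|C1| + 2 * |C2| + e * C3) * Real.log B := by positivity
  nlinarith

end Pool.Agent.SQ
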