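import Pool.Agent.Lib_MP_b9fedf_ag.TanMain
import Pool.Agent.Lib_MP_b9fedf_sq.Key2
import Pool.Agent.Lib_MP_b9fedf_sq.EntDom

/-! The interpolation package contradicts tangency, for curves in a linear subspace. -/

set_option autoImplicit false

namespace Pool.Agent.SQ
open Filter Metric Real Set Function MeromorphicOn ValueDistribution
open Pool.Agent.GGL

theorem no_tangential2 {m s N : ℕ} (hm : 1 ≤ m)
    (q : Fin N → Fin (m + 1) → ℂ) (hq0 : ∀ i, q i ≠ 0)
    (hcard : (m + 5) * s < N)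
    (hs : ∀ h : Fin (m + 1) → ℂ, h ≠ 0 →
      ((Finset.univ : Finset (Fin N)).filter (fun i => ∑ a, q i a * h a = 0)).card ≤ s)
    (g : Fin (m + 1) → ℂ → ℂ)
    (hg : ∀ k, Differentiable ℂ (g k)) (hli : LinearIndependent ℂ g)
    (hper : ∀ k z, g k (z + 2 * Real.pi * Complex.I) = g k z)
    (hphi : ∃ (s₀ : ℕ) (Φ : ℂ → ℂ) (C : ℝ), s₀ ≤ s ∧ 0 < C ∧ Differentiable ℂ Φ ∧ (∃ z, Φ z ≠ 0) ∧
      (∀ z, ‖Φ z‖ ≤ C * (‖fun ab : Fin (m + 1) × Fin (m + 1) =>
        g ab.1 z * deriv (g ab.2) z - g ab.2 z * deriv (g ab.1) z‖) ^ s₀) ∧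
      ∀ (z : ℂ) (c : ℕ), (∀ a, (c : ℕ∞) ≤ analyticOrderAt (g a) z) →
        (∃ a, analyticOrderAt (g a) z = c) →
        ∀ o : Fin N → ℕ, (∀ i, analyticOrderAt (fun ζ => ∑ a, q i a * g a ζ) z = o i) →
          ((2 * s₀ * c + ∑ i, (o i - c - 1) : ℕ) : ℕ∞) ≤ analyticOrderAt Φ z)
    (htan : ∀ (i : Fin N) (z : ℂ) (c : ℕ), (∀ a, (c : ℕ∞) ≤ analyticOrderAt (g a) z) →
      (∃ a, analyticOrderAt (g a) z = c) →
      analyticOrderAt (fun ζ => ∑ a, q i a * g a ζ) z ≠ ((c + 1 : ℕ) : ℕ∞)) : False := by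
  classical
  have hhd : ∀ i, Differentiable ℂ (fun z => ∑ a, q i a * g a z) := fun i =>
    Differentiable.fun_sum fun a _ => (hg a).const_mul (q i a)
  have hhne : ∀ i, ∃ z, ∑ a, q i a * g a z ≠ 0 := fun i =>
    combination_ne_zero (q i) (hq0 i) g hli
  have hgne : ∀ a, ∃ z, g a z ≠ 0 := by
    intro a
    have := hli.ne_zero a
    by_contra hcon
    push Not at hcon
    exact this (funext hcon)
  obtain ⟨C, hC0, hC⟩ := key_estimate2 q hq0 hcard hs g hg hli hphi htan
  -- the family of quotients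
  set F : Fin (m + 1) ⊕ Fin N → ℂ → ℂ := fun k => Sum.elim (fun a => g a)
    (fun i z => ∑ a, q i a * g a z) k with hF
  have hFd : ∀ k, Differentiable ℂ (F k) := by
    rintro (a | i)
    · exact hg a
    · exact hhd i
  have hFne : ∀ k, ∃ z, F k z ≠ 0 := by
    rintro (a | i)
    · exact hgne a
    · exact hhne i
  set G : Fin (m + 1) ⊕ Fin N → ℂ → ℂ := fun k z => F k z / g 0 z with hG
  have hGm : ∀ k, Meromorphic (G k) := fun k => div_mero (hFd k) (hg 0)
  have hGne : ∀ k z, meromorphicOrderAt (G k) z ≠ ⊤ := by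
    intro k z
    have h1 : G k = F k * (g 0)⁻¹ := by
      ext z; simp only [hG, Pi.mul_apply, Pi.inv_apply, div_eq_mul_inv]
    rw [h1, meromorphicOrderAt_mul (mero_of_diff (hFd k) z) (mero_of_diff (hg 0) z).inv,
      meromorphicOrderAt_inv]
    have h2 := mOrder_ne_top (hFd k) (hFne k) z
    have h3 := mOrder_ne_top (hg 0) (hgne 0) z
    cases h4 : meromorphicOrderAt (F k) z with
    | top => exact absurd h4 h2
    | coe n =>
      cases h5 : meromorphicOrderAt (g 0) z with
      | top => exact absurd h5 h3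
      | coe n' => 
        intro h6
        have : ((n - n' : ℤ) : WithTop ℤ) = ⊤ := by
          rw [← h6]
          rfl
        exact WithTop.coe_ne_top this
  obtain ⟨CL, hCL1, hCL⟩ := ldl G hGm hGne
  set τ : ℝ → ℝ := fun ρ => ∑ a, characteristic (G (Sum.inl a)) ⊤ ρ with hτ
  have hτmono : MonotoneOn τ (Set.Ici 1) := by
    intro x hx y hy hxy
    apply Finset.sum_le_sum
    intro l _
    exact characteristic_monotoneOn (hGm _) (show (0 : ℝ) < x from lt_of_lt_of_le one_pos hx)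
      (show (0 : ℝ) < y from lt_of_lt_of_le one_pos hy) hxy
  have hτ0 : ∀ ρ, 1 ≤ ρ → 0 ≤ τ ρ := fun ρ hρ =>
    Finset.sum_nonneg fun l _ => characteristic_nonneg hρ
  -- all characteristics are bounded by `τ`
  choose Ci hCi0 hCi using fun i => char_combination_le (q i) (fun a => G (Sum.inl a))
    (fun a => hGm _)
  have hchar : ∀ i ρ, 1 ≤ ρ → characteristic (G (Sum.inr i)) ⊤ ρ ≤ τ ρ + Ci i := by
    intro i ρ hρ
    have h1 : G (Sum.inr i) = fun z => ∑ a, q i a * G (Sum.inl a) z := by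
      funext z
      simp only [hG, hF, Sum.elim_inr, Sum.elim_inl]
      rw [Finset.sum_div]
      apply Finset.sum_congr rfl
      intro a _
      rw [mul_div_assoc]
    rw [h1]
    exact hCi i ρ hρ
  set N' : ℝ := (Fintype.card (Fin N) : ℝ) with hN'
  have hN0 : 0 ≤ N' := by rw [hN']; positivity
  set CC : ℝ := ∑ i, Ci i with hCC
  have hCC0 : 0 ≤ CC := Finset.sum_nonneg fun i _ => hCi0 i
  have hsum : ∀ ρ, 1 ≤ ρ → ∑ k, characteristic (G k) ⊤ ρ ≤ (1 + N') * τ ρ + CC := by
    intro ρ hρ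
    rw [Fintype.sum_sum_type]
    have h1 : ∑ i, characteristic (G (Sum.inr i)) ⊤ ρ ≤ ∑ i, (τ ρ + Ci i) :=
      Finset.sum_le_sum fun i _ => hchar i ρ hρ
    rw [Finset.sum_add_distrib, Finset.sum_const, Finset.card_univ, nsmul_eq_mul] at h1
    have h2 : ∑ a, characteristic (G (Sum.inl a)) ⊤ ρ = τ ρ := rfl
    rw [h2]
    linarith
  -- `τ` is bounded by `TC`
  set L0 : ℝ := |Real.log ‖meromorphicTrailingCoeffAt (g 0) 0‖| with hL0
  have hτTC : ∀ ρ, 1 ≤ ρ → τ ρ ≤ (m + 1) * (TC g ρ + L0) := by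
    intro ρ hρ
    have h1 : ∀ a, characteristic (G (Sum.inl a)) ⊤ ρ ≤ TC g ρ + L0 := by
      intro a
      have h2 := characteristic_div_le_TC hg hgne hρ a 0
      have h3 := neg_abs_le (Real.log ‖meromorphicTrailingCoeffAt (g 0) 0‖)
      refine le_trans h2 ?_
      linarith
    refine (Finset.sum_le_sum fun a _ => h1 a).trans (le_of_eq ?_)
    rw [Finset.sum_const, Finset.card_univ, Fintype.card_fin, nsmul_eq_mul]
    push_cast
    ring
  have hL00 : 0 ≤ L0 := abs_nonneg _
  -- constants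
  set K1 : ℝ := (1 + N') + CC + 1 with hK1
  have hK11 : 1 ≤ K1 := by rw [hK1]; linarith
  set Kf : ℝ := (m + 1) * (C * (1 + Real.log CL + 4 * Real.log K1) + 4 * C + L0) with hKf
  refine growth_contradiction τ hτmono hτ0 Kf ?_ ?_
  · intro ρ δ hρ hδ0 hδ1
    obtain ⟨ρ', hρ', B, hB1, hB, hgood⟩ := hCL ρ δ hρ hδ0 hδ1
    refine ⟨ρ', hρ', ?_⟩
    have hρ'1 : 1 ≤ ρ' := hρ.trans hρ'.1
    have hR1 : 1 ≤ ρ + 2 * δ := by linarith
    have h1 := hC ρ' B hρ'1 hB1 (fun a z hz => hgood (Sum.inl a) z hz)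
      (fun i z hz => hgood (Sum.inr i) z hz)
    have h2 := hτTC ρ' hρ'1
    set Y : ℝ := (1 + τ (ρ + 2 * δ)) * (ρ + 2) / δ with hY
    have h3 := hτ0 _ hR1
    have hY1 : 1 ≤ Y := by
      rw [hY, le_div_iff₀ hδ0]
      nlinarith
    have hlogY : 0 ≤ Real.log Y := Real.log_nonneg hY1
    have h4 : (1 + ∑ k, characteristic (G k) ⊤ (ρ + 2 * δ)) * (ρ + 2) / δ ≤ K1 * Y := by
      rw [hY, mul_div_assoc, mul_div_assoc, ← mul_assoc]
      apply mul_le_mul_of_nonneg_right _ (by positivity)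
      have h5 := hsum _ hR1
      rw [hK1]
      nlinarith [mul_nonneg hCC0 h3]
    have h5 : 0 ≤ (1 + ∑ k, characteristic (G k) ⊤ (ρ + 2 * δ)) * (ρ + 2) / δ := by
      have : 0 ≤ ∑ k, characteristic (G k) ⊤ (ρ + 2 * δ) :=
        Finset.sum_nonneg fun k _ => characteristic_nonneg hR1
      positivity
    have h6 : B ≤ CL * (K1 * Y) ^ 4 :=
      hB.trans (mul_le_mul_of_nonneg_left (pow_le_pow_left₀ h5 h4 4) (by linarith))
    have h7 : Real.log B ≤ Real.log CL + 4 * (Real.log K1 + Real.log Y) := by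
      have h8 := Real.log_le_log (by linarith) h6
      rw [Real.log_mul (by linarith) (by positivity), Real.log_pow,
        Real.log_mul (by linarith) (by linarith)] at h8
      push_cast at h8
      exact h8
    have hlogCL : 0 ≤ Real.log CL := Real.log_nonneg hCL1
    have hlogK1 : 0 ≤ Real.log K1 := Real.log_nonneg hK11
    have h8 : TC g ρ' ≤ C * (1 + (Real.log CL + 4 * (Real.log K1 + Real.log Y))) :=
      h1.trans (mul_le_mul_of_nonneg_left (by linarith) hC0)
    have h9 : TC g ρ' + L0 ≤ (C * (1 + Real.log CL + 4 * Real.log K1) + 4 * C + L0) *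
        (1 + Real.log Y) := by
      have e1 : 0 ≤ C * (1 + Real.log CL + 4 * Real.log K1) * Real.log Y := by positivity
      have e2 : 0 ≤ L0 * Real.log Y := by positivity
      nlinarith
    refine h2.trans ?_
    rw [hKf, mul_assoc]
    exact mul_le_mul_of_nonneg_left h9 (by positivity)
  · intro A
    have h1ne : (⟨1, by omega⟩ : Fin (m + 1)) ≠ 0 := by
      intro h
      have := congrArg Fin.val h
      simp at this
    obtain ⟨r₀, hr₀⟩ := characteristic_div_ge_log (hg ⟨1, by omega⟩) (hg 0) (hgne 0)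
      (hper ⟨1, by omega⟩) (hper 0) (by
        intro c
        by_contra hcon
        push Not at hcon
        have h2 := hli
        rw [Fintype.linearIndependent_iff] at h2
        have h3 := h2 (fun a => if a = ⟨1, by omega⟩ then 1 else if a = 0 then -c else 0) (by
          funext z
          rw [Finset.sum_apply, Pi.zero_apply]
          rw [Finset.sum_eq_add (⟨1, by omega⟩ : Fin (m + 1)) 0 h1ne]
          · simp only [Pi.smul_apply, smul_eq_mul, if_true]
            rw [if_neg h1ne.symm, hcon z]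
            ring
          · intro a _ ha
            rw [if_neg ha.1, if_neg ha.2, zero_smul]
            rfl
          · intro h; exact absurd (Finset.mem_univ _) h
          · intro h; exact absurd (Finset.mem_univ _) h) ⟨1, by omega⟩
        simp at h3) A
    refine ⟨max r₀ 1, fun ρ hρ => ?_⟩
    have h1 := hr₀ ρ ((le_max_left _ _).trans hρ)
    refine h1.trans ?_
    exact Finset.single_le_sum (f := fun a => characteristic (G (Sum.inl a)) ⊤ ρ)
      (fun l _ => characteristic_nonneg ((le_max_right _ _).trans hρ)) (Finset.mem_univ _)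



end Pool.Agent.SQ
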