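import Pool.Agent.Lib_MP_b9fedf_sq.Basic
import Pool.Agent.Lib_MP_b9fedf_sq.EntDom

/-! The limit argument for the strong form. -/

set_option autoImplicit false

namespace Pool.Agent.SQ
open MvPolynomial Filter Topology

private theorem lin_hom_LIM {τ : Type} [Fintype τ] (h : τ → ℂ) : (lin h).IsHomogeneous 1 := by
  unfold lin
  apply IsHomogeneous.sum
  intro i _
  have := (isHomogeneous_C τ (h i)).mul (isHomogeneous_X ℂ i)
  rwa [zero_add] at this

private theorem eval_lin_LIM {τ : Type} [Fintype τ] (h y : τ → ℂ) :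
    eval y (lin h) = dt y h := by
  unfold lin dt
  rw [map_sum]
  exact Finset.sum_congr rfl fun i _ => by rw [map_mul, eval_C, eval_X, mul_comm]

private theorem lin_smul_LIM {τ : Type} [Fintype τ] (a : ℂ) (h : τ → ℂ) :
    lin (fun x => a * h x) = C a * lin h := by
  unfold lin
  rw [Finset.mul_sum]
  exact Finset.sum_congr rfl fun i _ => by rw [C_mul, mul_assoc]

private theorem hc_mul_LIM {σ : Type} (τ g : MvPolynomial σ ℂ) (e : ℕ)
    (hg : g.IsHomogeneous e) (d : ℕ) :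
    homogeneousComponent (d + e) (τ * g) = homogeneousComponent d τ * g := by
  classical
  conv_lhs => rw [← sum_homogeneousComponent τ, Finset.sum_mul, map_sum]
  have h1 : ∀ i ∈ Finset.range (τ.totalDegree + 1),
      homogeneousComponent (d + e) (homogeneousComponent i τ * g)
        = if i = d then homogeneousComponent d τ * g else 0 := by
    intro i _
    have hh : (homogeneousComponent i τ * g).IsHomogeneous (i + e) :=
      (homogeneousComponent_isHomogeneous i τ).mul hg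
    rw [homogeneousComponent_of_mem ((mem_homogeneousSubmodule _ _).mpr hh)]
    by_cases hid : i = d
    · subst hid
      simp
    · rw [if_neg hid, if_neg]
      omega
  rw [Finset.sum_congr rfl h1, Finset.sum_ite_eq']
  split_ifs with h
  · rfl
  · have : τ.totalDegree < d := by
      rw [Finset.mem_range] at h
      omega
    rw [homogeneousComponent_eq_zero _ _ this, zero_mul]

private theorem hom_le_span_LIM {σ : Type} [Fintype σ] [DecidableEq σ] (d : ℕ) :
    homogeneousSubmodule σ ℂ d ≤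
    Submodule.span ℂ (((Finset.univ.finsuppAntidiag d).image (fun v =>
      (monomial v (1 : ℂ) : MvPolynomial σ ℂ)) : Finset (MvPolynomial σ ℂ)) :
        Set (MvPolynomial σ ℂ)) := by
  classical
  intro p hp
  rw [mem_homogeneousSubmodule] at hp
  rw [← support_sum_monomial_coeff p]
  apply Submodule.sum_mem
  intro v hv
  have h1 : monomial v (coeff v p) = coeff v p • (monomial v (1 : ℂ) : MvPolynomial σ ℂ) := by
    rw [smul_monomial, smul_eq_mul, mul_one]
  rw [h1]
  apply Submodule.smul_mem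
  apply Submodule.subset_span
  have h2 := hp (mem_support_iff.mp hv)
  rw [Finset.mem_coe, Finset.mem_image]
  refine ⟨v, ?_, rfl⟩
  rw [Finset.mem_finsuppAntidiag]
  refine ⟨?_, fun _ _ => Finset.mem_univ _⟩
  rw [← h2, Finsupp.weight_apply, Finsupp.sum_fintype _ _ (fun i => by simp)]
  simp

private theorem vpart_finite_LIM {k j : ℕ} (I V : Ideal (Sp k j)) (d : ℕ) :
    Module.Finite ℂ (vpart I V d) := by
  classical
  have : Module.Finite ℂ (homogeneousSubmodule (Fin (k + 1) ⊕ Fin j) ℂ d) :=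
    Submodule.finiteDimensional_of_le (hom_le_span_LIM d)
  have : Module.Finite ℂ ((homogeneousSubmodule (Fin (k + 1) ⊕ Fin j) ℂ d) ⊓
      (V.restrictScalars ℂ) : Submodule ℂ (Sp k j)) :=
    Submodule.finiteDimensional_of_le inf_le_left
  unfold vpart
  infer_instance

private theorem ev_ne_LIM (f : ℂ → ℂ) (hf : Differentiable ℂ f) (z₂ : ℂ) (h : f z₂ ≠ 0)
    (z₁ : ℂ) : ∀ᶠ z in 𝓝[≠] z₁, f z ≠ 0 := by
  have ha : AnalyticOnNhd ℂ f Set.univ := hf.differentiableOn.analyticOnNhd isOpen_univ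
  rcases (ha z₁ trivial).eventually_eq_zero_or_eventually_ne_zero with h0 | h0
  · exfalso
    have : f = 0 := ha.eq_of_eventuallyEq analyticOnNhd_const h0
    exact h (congrFun this z₂)
  · exact h0

private theorem fact_LIM {σ : Type} [Fintype σ] (F : σ → ℂ → ℂ) (z₁ : ℂ)
    (hF : ∀ x, AnalyticAt ℂ (F x) z₁) (c : ℕ) (hc : ∀ x, (c : ℕ∞) ≤ analyticOrderAt (F x) z₁)
    (hc' : ∃ x, analyticOrderAt (F x) z₁ = c) :
    ∃ G : σ → ℂ → ℂ, (∀ x, AnalyticAt ℂ (G x) z₁) ∧
      (∀ᶠ z in 𝓝 z₁, ∀ x, F x z = (z - z₁) ^ c * G x z) ∧ (fun x => G x z₁) ≠ 0 := by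
  choose G hG hGF using fun x => (natCast_le_analyticOrderAt (hF x)).mp (hc x)
  refine ⟨G, hG, ?_, ?_⟩
  · rw [Filter.eventually_all]
    intro x
    exact (hGF x).mono fun z hz => by rw [hz, smul_eq_mul]
  · intro h0
    obtain ⟨x, hx⟩ := hc'
    obtain ⟨g, hg, hg0, hgF⟩ := ((hF x).analyticOrderAt_eq_natCast).mp hx
    have h1 : ∀ᶠ z in 𝓝[≠] z₁, G x z = g z := by
      have h2 := (hGF x).filter_mono (nhdsWithin_le_nhds (s := {z₁}ᶜ))
      have h3 := hgF.filter_mono (nhdsWithin_le_nhds (s := {z₁}ᶜ))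
      filter_upwards [h2, h3, self_mem_nhdsWithin] with z hz hz' hne
      rw [hz, smul_eq_mul, smul_eq_mul] at hz'
      have hne' : (z - z₁) ^ c ≠ 0 := pow_ne_zero _ (sub_ne_zero.mpr hne)
      exact mul_left_cancel₀ hne' hz'
    have h4 : G x z₁ = g z₁ :=
      tendsto_nhds_unique_of_eventuallyEq
        ((hG x).continuousAt.tendsto.mono_left nhdsWithin_le_nhds)
        (hg.continuousAt.tendsto.mono_left nhdsWithin_le_nhds) h1
    exact hg0 (h4.symm.trans (congrFun h0 x))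

private theorem core_LIM {W E : Type} [AddCommGroup W] [Module ℂ W] [Module.Finite ℂ W]
    [AddCommGroup E] [Module ℂ E] {σ : Type} [Fintype σ] (m : σ → W →ₗ[ℂ] E) (z₁ : ℂ)
    (G : σ → ℂ → ℂ) (hG : ∀ x, ContinuousAt (G x) z₁)
    (hinj : ∀ w : W, ∑ x, G x z₁ • m x w = 0 → w = 0)
    {ι : Type} [Fintype ι] (β : ι → ℂ → ℂ) (hβ : ∀ i, ContinuousAt (β i) z₁)
    (hβ0 : ∀ i, β i z₁ = 0) (e : ι → E) (ξ : ℂ → W)
    (hξ : ∀ᶠ z in 𝓝[≠] z₁, ∑ x, G x z • m x (ξ z) = ∑ i, β i z • e i)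
    (φ : W →ₗ[ℂ] ℂ) (g : ℂ → ℂ) (hg : ContinuousAt g z₁)
    (hgφ : ∀ᶠ z in 𝓝[≠] z₁, φ (ξ z) = g z) : g z₁ = 0 := by
  classical
  obtain ⟨L, hL⟩ := (∑ x, G x z₁ • m x : W →ₗ[ℂ] E).exists_leftInverse_of_injective (by
    rw [LinearMap.ker_eq_bot']
    intro w hw
    apply hinj w
    rw [← hw, LinearMap.sum_apply]
    rfl)
  set bW := Module.finBasis ℂ W with hbW
  let M : σ → Matrix (Fin (Module.finrank ℂ W)) (Fin (Module.finrank ℂ W)) ℂ :=
    fun x => LinearMap.toMatrix bW bW (L ∘ₗ m x)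
  let B : ℂ → Matrix (Fin (Module.finrank ℂ W)) (Fin (Module.finrank ℂ W)) ℂ :=
    fun z => ∑ x, G x z • M x
  let v : ℂ → Fin (Module.finrank ℂ W) → ℂ := fun z => ∑ i, β i z • bW.equivFun (L (e i))
  have hB : ContinuousAt B z₁ := by
    apply tendsto_finsetSum
    intro x _
    exact (hG x).smul continuousAt_const
  have hv : ContinuousAt v z₁ := by
    apply tendsto_finsetSum
    intro i _
    exact (hβ i).smul continuousAt_const
  have hBz : ∀ z, B z = LinearMap.toMatrix bW bW (L ∘ₗ (∑ x, G x z • m x)) := by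
    intro z
    have h1 : L ∘ₗ (∑ x, G x z • m x) = ∑ x, G x z • (L ∘ₗ m x) := by
      ext w
      simp [LinearMap.sum_apply, map_sum]
    rw [h1, map_sum]
    exact Finset.sum_congr rfl fun x _ => by rw [map_smul]
  have hB1 : B z₁ = 1 := by
    rw [hBz, hL, LinearMap.toMatrix_id]
  have hv1 : v z₁ = 0 := by
    show ∑ i, β i z₁ • bW.equivFun (L (e i)) = 0
    exact Finset.sum_eq_zero fun i _ => by rw [hβ0 i, zero_smul]
  have hmul : ∀ᶠ z in 𝓝[≠] z₁, (B z).mulVec (bW.equivFun (ξ z)) = v z := by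
    filter_upwards [hξ] with z hz
    have h1 : (B z).mulVec (bW.equivFun (ξ z)) = bW.equivFun (L (∑ x, G x z • m x (ξ z))) := by
      rw [hBz]
      have h2 := LinearMap.toMatrix_mulVec_repr bW bW (L ∘ₗ (∑ x, G x z • m x)) (ξ z)
      have h3 : (L ∘ₗ (∑ x, G x z • m x)) (ξ z) = L (∑ x, G x z • m x (ξ z)) := by
        rw [LinearMap.comp_apply, LinearMap.sum_apply]
        rfl
      rw [h3] at h2
      exact h2
    rw [h1, hz, map_sum, map_sum]
    exact Finset.sum_congr rfl fun i _ => by rw [map_smul, map_smul]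
  have hφ : ∀ w : W, φ w = ∑ l, bW.equivFun w l * φ (bW l) := by
    intro w
    conv_lhs => rw [← bW.sum_equivFun w, map_sum]
    exact Finset.sum_congr rfl fun l _ => by rw [map_smul, smul_eq_mul]
  have hkey : ∀ᶠ z in 𝓝[≠] z₁, (B z).det * g z
      = ∑ l, ((B z).adjugate.mulVec (v z)) l * φ (bW l) := by
    filter_upwards [hmul, hgφ] with z hz hz'
    rw [← hz, Matrix.mulVec_mulVec, Matrix.adjugate_mul, Matrix.smul_mulVec, Matrix.one_mulVec,
      ← hz', hφ, Finset.mul_sum]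
    exact Finset.sum_congr rfl fun l _ => by rw [Pi.smul_apply, smul_eq_mul, mul_assoc]
  have hc1 : ContinuousAt (fun z => (B z).det * g z) z₁ := by
    refine ContinuousAt.mul ?_ hg
    exact ContinuousAt.comp (f := B) (g := fun A => Matrix.det A)
      (Continuous.matrix_det continuous_id).continuousAt hB
  have hadj : ContinuousAt (fun z => (B z).adjugate) z₁ :=
    ContinuousAt.comp (f := B) (g := fun A => Matrix.adjugate A)
      (Continuous.matrix_adjugate continuous_id).continuousAt hB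
  have hc2 : ContinuousAt (fun z => ∑ l, ((B z).adjugate.mulVec (v z)) l * φ (bW l)) z₁ := by
    apply tendsto_finsetSum
    intro l _
    refine Tendsto.mul_const _ ?_
    have h5 : Continuous (fun p : Matrix (Fin (Module.finrank ℂ W)) (Fin (Module.finrank ℂ W)) ℂ ×
        (Fin (Module.finrank ℂ W) → ℂ) => (p.1.mulVec p.2) l) :=
      (continuous_apply l).comp (Continuous.matrix_mulVec continuous_fst continuous_snd)
    exact ContinuousAt.comp (f := fun z => ((B z).adjugate, v z))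
      (g := fun p : Matrix (Fin (Module.finrank ℂ W)) (Fin (Module.finrank ℂ W)) ℂ ×
        (Fin (Module.finrank ℂ W) → ℂ) => (p.1.mulVec p.2) l) h5.continuousAt (hadj.prodMk hv)
  have hfin : (B z₁).det * g z₁ = ∑ l, ((B z₁).adjugate.mulVec (v z₁)) l * φ (bW l) :=
    tendsto_nhds_unique_of_eventuallyEq (hc1.tendsto.mono_left nhdsWithin_le_nhds)
      (hc2.tendsto.mono_left nhdsWithin_le_nhds) hkey
  rw [hB1, hv1, Matrix.det_one, one_mul, Matrix.mulVec_zero] at hfin
  rw [hfin]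
  exact Finset.sum_eq_zero fun l _ => by rw [Pi.zero_apply, zero_mul]

theorem lim {k j r N δ b₀ : ℕ} {I : Ideal (Sp k j)} {b : Fin r → Sp k j}
    {db : Fin r → ℕ} (hI : CI I r b db) (V : Ideal (Sp k j)) (hIV : I ≤ V)
    (hVhom : ∀ τ ∈ V, ∀ d, homogeneousComponent d τ ∈ V)
    (hinv : ∀ h : Fin (k + 1) ⊕ Fin j → ℂ, h ≠ 0 → ∃ (p : Pp k) (α : Sp k j), p ≠ 0 ∧
      inc p - lin h * α ∈ annI I V)
    (q : Fin N → Fin (k + 1) ⊕ Fin j → ℂ) (hq : ∀ i, ∀ s ∈ I, eval (q i) s = 0)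
    (Lp : Fin N → Sp k j) (hLV : ∀ i, Lp i ∈ V) (hLd : ∀ i, (Lp i).IsHomogeneous δ) (hδ : 1 ≤ δ)
    (hLq : ∀ i i', eval (q i) (Lp i') = if i = i' then 1 else 0)
    (F : Fin (k + 1) ⊕ Fin j → Ent) (z₂ : ℂ) (hz₂ : ∀ i, dt (q i) (fun x => (F x).1 z₂) ≠ 0)
    (d : Ent) (hd : d ≠ 0)
    (hstar : ∀ z : ℂ, d.1 z ≠ 0 → ∀ τ ∈ V, ∀ τ' ∈ V,
      lin (fun i => (F i).1 z) * τ' - lin (fun i => (dE (F i)).1 z) * τ ∈ I →
      ∃ c ∈ V, lin (fun i => (F i).1 z₂) ^ b₀ * τ - lin (fun i => (F i).1 z) * c ∈ I)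
    (z₁ : ℂ) (c : ℕ) (hc : ∀ x, (c : ℕ∞) ≤ analyticOrderAt (F x).1 z₁)
    (hc' : ∃ x, analyticOrderAt (F x).1 z₁ = c)
    (γ : ℂ → Fin N → ℂ) (hγ : ContinuousAt γ z₁)
    (hγ0 : ∀ᶠ z in nhdsWithin z₁ {z₁}ᶜ, ∀ y, (∀ s ∈ I, eval y s = 0) →
      ∑ i, γ z i * (eval y (Lp i) * wdt (fun x => (F x).1 z) (fun x => (dE (F x)).1 z) y (q i)) = 0)
    (hsupp : ∀ i, analyticOrderAt (fun ζ => ∑ x, q i x * (F x).1 ζ) z₁ = c → γ z₁ i = 0) :
    γ z₁ = 0 := by
  classical
  have hFan : ∀ x, AnalyticAt ℂ (F x).1 z₁ := fun x =>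
    (Ent.diff (F x)).analyticAt z₁
  obtain ⟨G, hG, hGF, hG0⟩ := fact_LIM (fun x => (F x).1) z₁ hFan c hc hc'
  -- the points where everything is defined
  have hdne : ∀ᶠ z in 𝓝[≠] z₁, d.1 z ≠ 0 := by
    obtain ⟨z₀, hz₀⟩ := (Ent.ne_zero_iff d).mp hd
    exact ev_ne_LIM d.1 (Ent.diff d) z₀ hz₀ z₁
  have hqne : ∀ i, ∀ᶠ z in 𝓝[≠] z₁, dt (q i) (fun x => (F x).1 z) ≠ 0 := by
    intro i
    refine ev_ne_LIM (fun z => dt (q i) (fun x => (F x).1 z)) ?_ z₂ (hz₂ i) z₁
    unfold dt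
    exact Differentiable.fun_sum fun x _ => (Ent.diff (F x)).const_mul (q i x)
  -- the weak form of hstar
  have hx : ∀ z, d.1 z ≠ 0 → (∀ y, (∀ s ∈ I, eval y s = 0) →
      ∑ i, γ z i * (eval y (Lp i) * wdt (fun x => (F x).1 z) (fun x => (dE (F x)).1 z) y (q i)) = 0)
      → ∃ x ∈ V, x.IsHomogeneous (δ + b₀ - 1) ∧ lin (fun i => (F i).1 z₂) ^ b₀ *
        (∑ i, C (γ z i * dt (q i) (fun x => (F x).1 z)) * Lp i)
          - lin (fun i => (F i).1 z) * x ∈ I := by
    intro z hdz hz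
    obtain ⟨cc, hccV, hcc⟩ := hstar z hdz
      (∑ i, C (γ z i * dt (q i) (fun x => (F x).1 z)) * Lp i)
      (V.sum_mem fun i _ => V.mul_mem_left _ (hLV i))
      (∑ i, C (γ z i * dt (q i) (fun x => (dE (F x)).1 z)) * Lp i)
      (V.sum_mem fun i _ => V.mul_mem_left _ (hLV i)) (by
        apply ci_null hI
        intro y hy
        rw [← hz y hy, map_sub, map_mul, map_mul, eval_lin_LIM, eval_lin_LIM, map_sum, map_sum,
          Finset.mul_sum, Finset.mul_sum, ← Finset.sum_sub_distrib]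
        refine Finset.sum_congr rfl fun i _ => ?_
        simp only [map_mul, eval_C]
        unfold wdt
        ring)
    refine ⟨homogeneousComponent (δ + b₀ - 1) cc, hVhom _ hccV _,
      homogeneousComponent_isHomogeneous _ _, ?_⟩
    have h1 := hI.hom _ hcc (δ + b₀)
    rw [map_sub] at h1
    have h2 : homogeneousComponent (δ + b₀) (lin (fun i => (F i).1 z₂) ^ b₀ *
        (∑ i, C (γ z i * dt (q i) (fun x => (F x).1 z)) * Lp i))
        = lin (fun i => (F i).1 z₂) ^ b₀ *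
        (∑ i, C (γ z i * dt (q i) (fun x => (F x).1 z)) * Lp i) := by
      have h3 : (lin (fun i => (F i).1 z₂) ^ b₀ *
        (∑ i, C (γ z i * dt (q i) (fun x => (F x).1 z)) * Lp i)).IsHomogeneous (δ + b₀) := by
        have h4 : (lin (fun i => (F i).1 z₂) ^ b₀ : Sp k j).IsHomogeneous b₀ := by
          have := (lin_hom_LIM (fun i => (F i).1 z₂)).pow b₀
          rwa [one_mul] at this
        have h5 : (∑ i, C (γ z i * dt (q i) (fun x => (F x).1 z)) * Lp i).IsHomogeneous δ := by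
          apply IsHomogeneous.sum
          intro i _
          have := (isHomogeneous_C (Fin (k + 1) ⊕ Fin j)
            (γ z i * dt (q i) (fun x => (F x).1 z))).mul (hLd i)
          rwa [zero_add] at this
        have h9 := h4.mul h5
        rwa [add_comm b₀ δ] at h9
      rw [homogeneousComponent_of_mem ((mem_homogeneousSubmodule _ _).mpr h3), if_pos rfl]
    have h6 : homogeneousComponent (δ + b₀) (lin (fun i => (F i).1 z) * cc)
        = lin (fun i => (F i).1 z) * homogeneousComponent (δ + b₀ - 1) cc := by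
      have h7 := hc_mul_LIM cc (lin (fun i => (F i).1 z)) 1 (lin_hom_LIM _) (δ + b₀ - 1)
      have h8 : δ + b₀ - 1 + 1 = δ + b₀ := by omega
      rw [h8] at h7
      rw [mul_comm, h7, mul_comm]
    rw [h2, h6] at h1
    exact h1
  have hxe : ∃ x : ℂ → Sp k j, (∀ z, x z ∈ V ∧ (x z).IsHomogeneous (δ + b₀ - 1)) ∧
      ∀ z, d.1 z ≠ 0 → (∀ y, (∀ s ∈ I, eval y s = 0) →
      ∑ i, γ z i * (eval y (Lp i) * wdt (fun x => (F x).1 z) (fun x => (dE (F x)).1 z) y (q i)) = 0)
      → lin (fun i => (F i).1 z₂) ^ b₀ *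
        (∑ i, C (γ z i * dt (q i) (fun x => (F x).1 z)) * Lp i)
          - lin (fun i => (F i).1 z) * x z ∈ I := by
    have h1 : ∀ z, ∃ x : Sp k j, (x ∈ V ∧ x.IsHomogeneous (δ + b₀ - 1)) ∧
      (d.1 z ≠ 0 → (∀ y, (∀ s ∈ I, eval y s = 0) →
      ∑ i, γ z i * (eval y (Lp i) * wdt (fun x => (F x).1 z) (fun x => (dE (F x)).1 z) y (q i)) = 0)
      → lin (fun i => (F i).1 z₂) ^ b₀ *
        (∑ i, C (γ z i * dt (q i) (fun x => (F x).1 z)) * Lp i)
          - lin (fun i => (F i).1 z) * x ∈ I) := by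
      intro z
      by_cases h2 : d.1 z ≠ 0 ∧ (∀ y, (∀ s ∈ I, eval y s = 0) →
        ∑ i, γ z i * (eval y (Lp i) *
          wdt (fun x => (F x).1 z) (fun x => (dE (F x)).1 z) y (q i)) = 0)
      · obtain ⟨x, hxV, hxh, hxI⟩ := hx z h2.1 h2.2
        exact ⟨x, ⟨hxV, hxh⟩, fun _ _ => hxI⟩
      · exact ⟨0, ⟨V.zero_mem, isHomogeneous_zero _ _ _⟩, fun h3 h4 => absurd ⟨h3, h4⟩ h2⟩
    choose x hx1 hx2 using h1
    exact ⟨x, hx1, hx2⟩
  obtain ⟨x, hxV, hxI⟩ := hxe
  -- the finite dimensional space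
  have hfin : Module.Finite ℂ (vpart I V (δ + b₀ - 1)) := vpart_finite_LIM I V _
  let μ : Fin (k + 1) ⊕ Fin j → vpart I V (δ + b₀ - 1) →ₗ[ℂ] (Sp k j ⧸ I) := fun a =>
    (LinearMap.mulLeft ℂ (Ideal.Quotient.mk I (X a))) ∘ₗ (vpart I V (δ + b₀ - 1)).subtype
  have hmk : ∀ s ∈ V, s.IsHomogeneous (δ + b₀ - 1) →
      Ideal.Quotient.mk I s ∈ vpart I V (δ + b₀ - 1) := by
    intro s hs hsh
    exact Submodule.mem_map.mpr ⟨s, ⟨(mem_homogeneousSubmodule _ _).mpr hsh, hs⟩, rfl⟩
  let ξ : ℂ → vpart I V (δ + b₀ - 1) := fun z =>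
    ⟨Ideal.Quotient.mk I (x z), hmk _ (hxV z).1 (hxV z).2⟩
  have hCsmul : ∀ (a : ℂ) (s : Sp k j), Ideal.Quotient.mk I (C a * s)
      = a • Ideal.Quotient.mk I s := by
    intro a s
    rw [← smul_eq_C_mul]
    rfl
  have hlin : ∀ (h : Fin (k + 1) ⊕ Fin j → ℂ) (s : Sp k j),
      Ideal.Quotient.mk I (lin h * s)
        = ∑ a, h a • (Ideal.Quotient.mk I (X a) * Ideal.Quotient.mk I s) := by
    intro h s
    unfold lin
    rw [Finset.sum_mul, map_sum]
    refine Finset.sum_congr rfl fun a _ => ?_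
    rw [mul_assoc, hCsmul, map_mul]
  have hinj : ∀ w : vpart I V (δ + b₀ - 1), ∑ a, G a z₁ • μ a w = 0 → w = 0 := by
    rintro ⟨w, hw⟩ h0
    obtain ⟨s, ⟨hsh, hsV⟩, rfl⟩ := Submodule.mem_map.mp hw
    have h1 : Ideal.Quotient.mk I (lin (fun a => G a z₁) * s) = 0 := by
      rw [hlin]
      exact h0
    have h2 : lin (fun a => G a z₁) * s ∈ I := Ideal.Quotient.eq_zero_iff_mem.mp h1
    obtain ⟨p, α, hp, hpα⟩ := hinv (fun a => G a z₁) hG0
    have h3 : inc p * s ∈ I := by
      have h4 := hpα s hsV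
      have h5 : inc p * s = (inc p - lin (fun a => G a z₁) * α) * s
          + α * (lin (fun a => G a z₁) * s) := by ring
      rw [h5]
      exact I.add_mem h4 (I.mul_mem_left _ h2)
    have h6 : s ∈ I := ci_torsion hI p hp s h3
    apply Subtype.ext
    exact Ideal.Quotient.eq_zero_iff_mem.mpr h6
  have hγi : ∀ i, ContinuousAt (fun z => γ z i) z₁ := fun i =>
    (continuous_apply i).continuousAt.comp hγ
  have hGdt : ∀ i, ContinuousAt (fun z => ∑ a, q i a * G a z) z₁ := by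
    intro i
    apply tendsto_finsetSum
    intro a _
    exact (hG a).continuousAt.const_mul (q i a)
  funext i₀
  have hfinal : (dt (q i₀) (fun a => (F a).1 z₂)) ^ b₀ * γ z₁ i₀ = 0 := by
    refine core_LIM μ z₁ G (fun a => (hG a).continuousAt) hinj
      (fun (i : Fin N) z => γ z i * ∑ a, q i a * G a z)
      (fun i => (hγi i).mul (hGdt i)) ?_
      (fun i => Ideal.Quotient.mk I (lin (fun a => (F a).1 z₂) ^ b₀ * Lp i)) ξ ?_
      ((Ideal.Quotient.liftₐ I (aeval (q i₀)) (fun s hs => by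
        rw [aeval_def, Algebra.algebraMap_self]
        exact hq i₀ s hs)).toLinearMap ∘ₗ (vpart I V (δ + b₀ - 1)).subtype)
      (fun z => (dt (q i₀) (fun a => (F a).1 z₂)) ^ b₀ * γ z i₀)
      ((hγi i₀).const_mul _) ?_
    · intro i
      by_cases h1 : ∑ a, q i a * G a z₁ = 0
      · show γ z₁ i * ∑ a, q i a * G a z₁ = 0
        rw [h1, mul_zero]
      · have h2 : analyticOrderAt (fun ζ => ∑ x, q i x * (F x).1 ζ) z₁ = c := by
          have h3 : AnalyticAt ℂ (fun ζ => ∑ x, q i x * (F x).1 ζ) z₁ :=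
            Finset.analyticAt_fun_sum _ fun a _ => analyticAt_const.mul (hFan a)
          rw [h3.analyticOrderAt_eq_natCast]
          refine ⟨fun z => ∑ a, q i a * G a z,
            Finset.analyticAt_fun_sum _ fun a _ => analyticAt_const.mul (hG a), h1, ?_⟩
          filter_upwards [hGF] with z hz
          rw [smul_eq_mul, Finset.mul_sum]
          refine Finset.sum_congr rfl fun a _ => ?_
          rw [hz a]
          ring
        show γ z₁ i * ∑ a, q i a * G a z₁ = 0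
        rw [hsupp i h2, zero_mul]
    · have hGF' := hGF.filter_mono (nhdsWithin_le_nhds (s := {z₁}ᶜ))
      filter_upwards [hdne, hγ0, hGF', self_mem_nhdsWithin] with z h1 h2 h3 h4
      have hne : (z - z₁) ^ c ≠ 0 := pow_ne_zero _ (sub_ne_zero.mpr h4)
      have h5 := hxI z h1 h2
      have h6 : (fun a => (F a).1 z) = fun a => (z - z₁) ^ c * G a z := funext h3
      have h7 : lin (fun i => (F i).1 z₂) ^ b₀ *
          (∑ i, C (γ z i * dt (q i) (fun x => (F x).1 z)) * Lp i) - lin (fun i => (F i).1 z) * x z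
          = C ((z - z₁) ^ c) * (lin (fun i => (F i).1 z₂) ^ b₀ *
          (∑ i, C (γ z i * ∑ a, q i a * G a z) * Lp i) - lin (fun a => G a z) * x z) := by
        rw [h6, lin_smul_LIM, mul_sub]
        congr 1
        · rw [Finset.mul_sum, Finset.mul_sum, Finset.mul_sum]
          refine Finset.sum_congr rfl fun i _ => ?_
          have h8 : dt (q i) (fun a => (z - z₁) ^ c * G a z)
              = (z - z₁) ^ c * ∑ a, q i a * G a z := by
            unfold dt
            rw [Finset.mul_sum]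
            exact Finset.sum_congr rfl fun a _ => by ring
          rw [h8, C_mul, C_mul, C_mul]
          ring
        · ring
      rw [h7] at h5
      have h9 : lin (fun i => (F i).1 z₂) ^ b₀ *
          (∑ i, C (γ z i * ∑ a, q i a * G a z) * Lp i) - lin (fun a => G a z) * x z ∈ I := by
        have h10 := I.mul_mem_left (C ((z - z₁) ^ c)⁻¹) h5
        rwa [← mul_assoc, ← C_mul, inv_mul_cancel₀ hne, C_1, one_mul] at h10
      have h11 := (Ideal.Quotient.eq (I := I)).mpr h9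
      have h12 : ∑ a, G a z • μ a (ξ z) = Ideal.Quotient.mk I (lin (fun a => G a z) * x z) := by
        rw [hlin]
        rfl
      rw [h12, ← h11, Finset.mul_sum, map_sum]
      refine Finset.sum_congr rfl fun i _ => ?_
      rw [← hCsmul]
      congr 1
      ring
    · filter_upwards [hdne, hγ0, hqne i₀] with z h1 h2 h3
      have h5 := hq i₀ _ (hxI z h1 h2)
      rw [map_sub, map_mul, map_mul, map_pow, eval_lin_LIM, eval_lin_LIM, map_sum] at h5
      have h6 : ∑ i, eval (q i₀) (C (γ z i * dt (q i) (fun x => (F x).1 z)) * Lp i)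
          = γ z i₀ * dt (q i₀) (fun x => (F x).1 z) := by
        rw [Finset.sum_eq_single i₀]
        · simp only [map_mul, eval_C]
          rw [hLq, if_pos rfl, mul_one]
        · intro i _ hi
          rw [map_mul, hLq, if_neg (Ne.symm hi), mul_zero]
        · intro h7
          exact absurd (Finset.mem_univ _) h7
      rw [h6] at h5
      have h8 : dt (q i₀) (fun a => (F a).1 z₂) ^ b₀ * γ z i₀ = eval (q i₀) (x z) := by
        apply mul_left_cancel₀ h3
        linear_combination h5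
      rw [h8]
      show aeval (q i₀) (x z) = eval (q i₀) (x z)
      rw [aeval_def, Algebra.algebraMap_self]
      rfl
  exact (mul_eq_zero.mp hfinal).resolve_left (pow_ne_zero _ (hz₂ i₀))

end Pool.Agent.SQ
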