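import Mathlib
import Pool.Agent.Lib_MP_b9fedf_sq.Defs

/-! Piece REL: an algebraic relation with homogeneous coefficients of bounded degree, found by
counting dimensions. -/

set_option autoImplicit false

namespace Pool.Agent.SQ
open MvPolynomial

/-- the exponent vectors of degree `d` in `k + 1` variables -/
private abbrev MonRel (k d : ℕ) : Type :=
  ↥(Finset.finsuppAntidiag (Finset.univ : Finset (Fin (k + 1))) d)

private abbrev FormsRel (k d : ℕ) : Submodule ℂ (Pp k) :=
  homogeneousSubmodule (Fin (k + 1)) ℂ d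

private theorem mem_monRel {k d : ℕ} (α : Fin (k + 1) →₀ ℕ) (h : α.degree = d) :
    α ∈ Finset.finsuppAntidiag (Finset.univ : Finset (Fin (k + 1))) d := by
  rw [Finset.mem_finsuppAntidiag]
  refine ⟨?_, Finset.subset_univ _⟩
  rw [← h, Finsupp.degree_eq_sum]

private theorem degree_monRel {k d : ℕ} (α : MonRel k d) :
    (α : Fin (k + 1) →₀ ℕ).degree = d := by
  have h := α.2
  rw [Finset.mem_finsuppAntidiag] at h
  rw [Finsupp.degree_eq_sum]
  exact h.1

/-- forms of degree `d` are functions on the exponent vectors -/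
private noncomputable def equivRel (k d : ℕ) : FormsRel k d ≃ₗ[ℂ] (MonRel k d → ℂ) where
  toFun P := fun β => coeff (β : Fin (k + 1) →₀ ℕ) P.1
  map_add' P Q := by ext β; simp
  map_smul' c P := by ext β; simp
  invFun f := ⟨∑ β : MonRel k d, monomial (β : Fin (k + 1) →₀ ℕ) (f β), by
    apply Submodule.sum_mem
    intro β _
    exact isHomogeneous_monomial _ (degree_monRel β)⟩
  left_inv P := by
    apply Subtype.ext
    ext α
    simp only [coeff_sum, coeff_monomial]
    by_cases hα : α.degree = d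
    · rw [Finset.sum_eq_single (⟨α, mem_monRel α hα⟩ : MonRel k d)]
      · simp
      · intro β _ hβ
        rw [if_neg]
        intro h
        exact hβ (Subtype.ext h)
      · intro h
        exact absurd (Finset.mem_univ _) h
    · have h1 : coeff α P.1 = 0 := by
        have h2 : P.1.IsHomogeneous d := P.2
        exact h2.coeff_eq_zero hα
      rw [h1]
      apply Finset.sum_eq_zero
      intro β _
      rw [if_neg]
      intro h
      apply hα
      rw [← h]
      exact degree_monRel β
  right_inv f := by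
    ext β
    simp only [coeff_sum, coeff_monomial]
    rw [Finset.sum_eq_single β]
    · simp
    · intro γ _ hγ
      rw [if_neg]
      intro h
      exact hγ (Subtype.ext h)
    · intro h
      exact absurd (Finset.mem_univ _) h

private theorem finiteRel (k d : ℕ) : Module.Finite ℂ (FormsRel k d) :=
  Module.Finite.equiv (equivRel k d).symm

private theorem finrankRel (k d : ℕ) :
    Module.finrank ℂ (FormsRel k d) = (d + k).choose k := by
  rw [LinearEquiv.finrank_eq (equivRel k d), Module.finrank_fintype_fun_eq_card ℂ]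
  have h : Fintype.card (MonRel k d)
      = (Finset.finsuppAntidiag (Finset.univ : Finset (Fin (k + 1))) d).card :=
    Fintype.card_coe _
  rw [h, Finset.card_finsuppAntidiag_nat_eq_choose, Finset.card_univ, Fintype.card_fin]
  have h1 : k + 1 + d - 1 = d + k := by omega
  rw [h1]
  exact (Nat.choose_symm_add)

/-- comparison of two rising factorials -/
private theorem ascRel (b c k : ℕ) :
    (b + c + 1).ascFactorial k * (b + 1) ^ k ≤ (b + 1).ascFactorial k * (b + c + 1) ^ k := by
  induction k with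
  | zero => simp
  | succ k ih =>
    rw [Nat.ascFactorial_succ, Nat.ascFactorial_succ, pow_succ, pow_succ]
    have h1 : (b + c + 1 + k) * (b + 1) ≤ (b + 1 + k) * (b + c + 1) := by nlinarith
    calc (b + c + 1 + k) * (b + c + 1).ascFactorial k * ((b + 1) ^ k * (b + 1))
        = ((b + c + 1).ascFactorial k * (b + 1) ^ k) * ((b + c + 1 + k) * (b + 1)) := by ring
      _ ≤ ((b + 1).ascFactorial k * (b + c + 1) ^ k) * ((b + 1 + k) * (b + c + 1)) :=
          Nat.mul_le_mul ih h1
      _ = (b + 1 + k) * (b + 1).ascFactorial k * ((b + c + 1) ^ k * (b + c + 1)) := by ring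

private theorem chooseRel (b c k : ℕ) :
    (b + c + k).choose k * (b + 1) ^ k ≤ (b + k).choose k * (b + c + 1) ^ k := by
  have h := ascRel b c k
  rw [Nat.ascFactorial_eq_factorial_mul_choose, Nat.ascFactorial_eq_factorial_mul_choose] at h
  rw [mul_assoc, mul_assoc] at h
  exact Nat.le_of_mul_le_mul_left h (Nat.factorial_pos k)

private theorem powRel (r c k : ℕ) : ∃ b : ℕ, r * (b + c + 1) ^ k < (r + 1) * (b + 1) ^ k := by
  have h1 : Filter.Tendsto (fun n : ℕ => (c : ℝ) / ((n : ℝ) + 1)) Filter.atTop (nhds 0) :=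
    (tendsto_const_div_atTop_nhds_zero_nat (c : ℝ)).comp (Filter.tendsto_add_atTop_nat 1) |>.congr
      (fun n => by simp)
  have h2 : Filter.Tendsto (fun n : ℕ => (r : ℝ) * (1 + (c : ℝ) / ((n : ℝ) + 1)) ^ k)
      Filter.atTop (nhds ((r : ℝ) * (1 + 0) ^ k)) :=
    ((h1.const_add 1).pow k).const_mul (r : ℝ)
  have h3 : (r : ℝ) * (1 + 0) ^ k < (r : ℝ) + 1 := by simp
  obtain ⟨n, hn⟩ := (h2.eventually (gt_mem_nhds h3)).exists
  refine ⟨n, ?_⟩
  have hpos : (0 : ℝ) < (n : ℝ) + 1 := by positivity
  have h4 : (1 + (c : ℝ) / ((n : ℝ) + 1)) * ((n : ℝ) + 1) = (n : ℝ) + c + 1 := by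
    field_simp
    ring
  have h5 : (r : ℝ) * ((n : ℝ) + c + 1) ^ k < ((r : ℝ) + 1) * ((n : ℝ) + 1) ^ k := by
    rw [← h4, mul_pow, ← mul_assoc]
    exact mul_lt_mul_of_pos_right hn (pow_pos hpos k)
  exact_mod_cast h5

private theorem betaRel (k r c : ℕ) : ∃ β : ℕ,
    r * (β + c + k).choose k < (r + 1) * (β + k).choose k := by
  obtain ⟨b, hb⟩ := powRel r c k
  refine ⟨b, ?_⟩
  have h1 := chooseRel b c k
  have h2 : 0 < (b + k).choose k := Nat.choose_pos (by omega)
  have h3 : (r * (b + c + k).choose k) * (b + 1) ^ k <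
      ((r + 1) * (b + k).choose k) * (b + 1) ^ k := by
    calc (r * (b + c + k).choose k) * (b + 1) ^ k
        = r * ((b + c + k).choose k * (b + 1) ^ k) := by ring
      _ ≤ r * ((b + k).choose k * (b + c + 1) ^ k) := Nat.mul_le_mul_left _ h1
      _ = (b + k).choose k * (r * (b + c + 1) ^ k) := by ring
      _ < (b + k).choose k * ((r + 1) * (b + 1) ^ k) := Nat.mul_lt_mul_of_pos_left hb h2
      _ = ((r + 1) * (b + k).choose k) * (b + 1) ^ k := by ring
  exact Nat.lt_of_mul_lt_mul_right h3

private theorem degRel (β r d n : ℕ) (h : n ≤ r) : β + (r - n) * d + d * n = β + r * d := by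
  obtain ⟨c, rfl⟩ := Nat.exists_eq_add_of_le h
  have h5 : n + c - n = c := by omega
  rw [h5]
  ring

/-- PIECE REL -/
theorem rel_bound (k r d : ℕ) : ∃ β : ℕ, ∀ (j : ℕ) (I : Ideal (Sp k j)) (b : Fin r → Sp k j)
    (db : Fin r → ℕ), CI I r b db → ∀ g : Sp k j, g.IsHomogeneous d →
    ∃ p : Fin (r + 1) → Pp k, p ≠ 0 ∧ (∀ i, (p i).IsHomogeneous (β + (r - (i : ℕ)) * d)) ∧
      ∑ i, inc (p i) * g ^ (i : ℕ) ∈ I := by
  obtain ⟨β, hβ⟩ := betaRel k r (r * d)
  refine ⟨β, ?_⟩
  intro j I b db hI g hg
  have : ∀ d, Module.Finite ℂ (FormsRel k d) := finiteRel k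
  -- the two linear maps
  let e : Fin (r + 1) → ℕ := fun i => β + (r - (i : ℕ)) * d
  let Φ : (∀ i : Fin (r + 1), FormsRel k (e i)) →ₗ[ℂ] (Sp k j ⧸ I) :=
    ∑ i : Fin (r + 1), ((Ideal.Quotient.mkₐ ℂ I).toLinearMap.comp
      ((LinearMap.mulRight ℂ (g ^ (i : ℕ))).comp
        ((inc : Pp k →ₐ[ℂ] Sp k j).toLinearMap.comp
          ((FormsRel k (e i)).subtype.comp (LinearMap.proj i)))))
  let Ψ : (∀ i : Fin r, FormsRel k (β + r * d - db i)) →ₗ[ℂ] (Sp k j ⧸ I) :=
    ∑ i : Fin r, ((Ideal.Quotient.mkₐ ℂ I).toLinearMap.comp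
      ((LinearMap.mulRight ℂ (b i)).comp
        ((inc : Pp k →ₐ[ℂ] Sp k j).toLinearMap.comp
          ((FormsRel k (β + r * d - db i)).subtype.comp (LinearMap.proj i)))))
  have hΦ : ∀ p, Φ p = Ideal.Quotient.mk I (∑ i, inc (p i).1 * g ^ (i : ℕ)) := by
    intro p
    rw [map_sum]
    simp [Φ]
  have hΨ : ∀ p, Ψ p = Ideal.Quotient.mk I (∑ i, inc (p i).1 * b i) := by
    intro p
    rw [map_sum]
    simp [Ψ]
  have hle : LinearMap.range Φ ≤ LinearMap.range Ψ := by
    rintro _ ⟨p, rfl⟩
    have hhom : (∑ i : Fin (r + 1), inc (k := k) (j := j) (p i).1 * g ^ (i : ℕ)).IsHomogeneous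
        (β + r * d) := by
      apply IsHomogeneous.sum
      intro i _
      have h1 : (inc (k := k) (j := j) (p i).1).IsHomogeneous (e i) :=
        IsHomogeneous.rename_isHomogeneous (p i).2
      have h2 := h1.mul (hg.pow (i : ℕ))
      have h3 : e i + d * (i : ℕ) = β + r * d := degRel β r d i (Nat.lt_succ_iff.1 i.2)
      rw [h3] at h2
      exact h2
    obtain ⟨q, hq, hqI⟩ := hI.span _ _ hhom
    refine ⟨fun i => ⟨q i, (hq i).1⟩, ?_⟩
    rw [hΦ, hΨ, eq_comm, Ideal.Quotient.eq]
    exact hqI
  have hnotinj : ¬ Function.Injective Φ := by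
    intro hinj
    have h1 := LinearMap.finrank_range_of_inj hinj
    have h2 : Module.finrank ℂ (LinearMap.range Φ) ≤ Module.finrank ℂ (LinearMap.range Ψ) :=
      Submodule.finrank_mono hle
    have h3 : Module.finrank ℂ (LinearMap.range Ψ) ≤
        Module.finrank ℂ (∀ i : Fin r, FormsRel k (β + r * d - db i)) :=
      LinearMap.finrank_range_le Ψ
    rw [h1, Module.finrank_pi_fintype] at h2
    rw [Module.finrank_pi_fintype] at h3
    have h4 : (r + 1) * (β + k).choose k ≤
        ∑ i : Fin (r + 1), Module.finrank ℂ (FormsRel k (e i)) := by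
      calc (r + 1) * (β + k).choose k = ∑ _i : Fin (r + 1), (β + k).choose k := by simp
        _ ≤ _ := by
          apply Finset.sum_le_sum
          intro i _
          rw [finrankRel]
          apply Nat.choose_le_choose
          simp only [e]
          omega
    have h5 : ∑ i : Fin r, Module.finrank ℂ (FormsRel k (β + r * d - db i)) ≤
        r * (β + r * d + k).choose k := by
      calc ∑ i : Fin r, Module.finrank ℂ (FormsRel k (β + r * d - db i))
          ≤ ∑ _i : Fin r, (β + r * d + k).choose k := by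
            apply Finset.sum_le_sum
            intro i _
            rw [finrankRel]
            apply Nat.choose_le_choose
            omega
        _ = r * (β + r * d + k).choose k := by simp
    omega
  have hker : ∃ p, Φ p = 0 ∧ p ≠ 0 := by
    by_contra hcon
    push Not at hcon
    apply hnotinj
    rw [← LinearMap.ker_eq_bot, LinearMap.ker_eq_bot']
    exact hcon
  obtain ⟨p, hp0, hp⟩ := hker
  refine ⟨fun i => (p i).1, ?_, fun i => (p i).2, ?_⟩
  · intro h
    apply hp
    funext i
    exact Subtype.ext (congrFun h i)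
  · rw [hΦ, Ideal.Quotient.eq_zero_iff_mem] at hp0
    exact hp0

end Pool.Agent.SQ
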