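import Mathlib
import Pool.Agent.Lib_MP_b9fedf_sq.Defs
import Pool.Agent.Lib_MP_b9fedf_sq.Rel

/-! Piece INVB: a form which does not vanish on an irreducible set is invertible up to elements
vanishing on the set. -/

set_option autoImplicit false

namespace Pool.Agent.SQ
open MvPolynomial

private theorem ci_pow_invb {k j r : ℕ} {I : Ideal (Sp k j)} {b : Fin r → Sp k j} {db : Fin r → ℕ}
    (hI : CI I r b db) (s : Sp k j) (n : ℕ) (h : s ^ n ∈ I) : s ∈ I := by
  have h2 : ∀ m : ℕ, s ^ (2 ^ m) ∈ I → s ∈ I := by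
    intro m
    induction m with
    | zero => intro h; simpa using h
    | succ m ih =>
      intro h
      apply ih
      apply hI.rad
      rwa [← pow_mul, ← pow_succ]
  apply h2 n
  have hle : n ≤ 2 ^ n := (Nat.lt_two_pow_self).le
  obtain ⟨c, hc⟩ := Nat.exists_eq_add_of_le hle
  rw [hc, pow_add]
  exact I.mul_mem_right _ h

private theorem inc_hom_invb {k j d : ℕ} {p : Pp k} (hp : p.IsHomogeneous d) :
    (inc (j := j) p).IsHomogeneous d := hp.rename_isHomogeneous

/-- PIECE INVB -/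
theorem inv_bound' (k r d : ℕ) : ∃ β : ℕ, ∀ (j : ℕ) (I : Ideal (Sp k j)) (b : Fin r → Sp k j)
    (db : Fin r → ℕ), CI I r b db → ∀ A : Set (Fin (k + 1) ⊕ Fin j → ℂ),
    (∀ a ∈ A, ∀ s ∈ I, eval a s = 0) → Irr β A → ∀ g : Sp k j, g.IsHomogeneous d → ¬ Van A g →
    ∃ (p : Pp k) (α ν : Sp k j) (dp dν : ℕ), p ≠ 0 ∧ p.IsHomogeneous dp ∧ dp ≤ β ∧
      ν.IsHomogeneous dν ∧ dν ≤ β ∧ Van A ν ∧ inc p - (g * α + ν) ∈ I := by
  obtain ⟨β₀, hβ⟩ := rel_bound k r d
  refine ⟨β₀ + (r + 1) * d, ?_⟩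
  intro j I b db hI A hA hIrr g hg hgA
  obtain ⟨p, hp0, hph, hrel⟩ := hβ j I b db hI g hg
  -- the coefficients indexed by the natural numbers
  set P : ℕ → Pp k := fun i => if h : i < r + 1 then p ⟨i, h⟩ else 0 with hP
  have hPi : ∀ (i : ℕ) (h : i < r + 1), P i = p ⟨i, h⟩ := by
    intro i h
    simp only [hP]
    rw [dif_pos h]
  have hPf : ∀ i : Fin (r + 1), P i = p i := fun i => hPi i.1 i.2
  have hPn : ∀ i : ℕ, ¬ i < r + 1 → P i = 0 := by
    intro i h
    simp only [hP]
    rw [dif_neg h]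
  have hPh : ∀ i, (P i).IsHomogeneous (β₀ + (r - i) * d) := by
    intro i
    by_cases h : i < r + 1
    · rw [hPi i h]
      exact hph ⟨i, h⟩
    · rw [hPn i h]
      exact isHomogeneous_zero _ _ _
  have hPex : ∃ i, P i ≠ 0 := by
    by_contra hcon
    push Not at hcon
    apply hp0
    funext i
    rw [← hPf i]
    exact hcon i.1
  classical
  set i₀ := Nat.find hPex with hi₀
  have hi0 : P i₀ ≠ 0 := Nat.find_spec hPex
  have himin : ∀ i < i₀, P i = 0 := by
    intro i hi
    by_contra hne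
    exact Nat.find_min hPex hi hne
  have hir : i₀ < r + 1 := by
    by_contra hcon
    exact hi0 (hPn i₀ hcon)
  obtain ⟨m, hm⟩ : ∃ m, r + 1 = i₀ + (m + 1) := ⟨r - i₀, by omega⟩
  -- the element ν
  set ν : Sp k j := ∑ l ∈ Finset.range (m + 1), inc (P (i₀ + l)) * g ^ l with hν
  have hsum : ∑ i : Fin (r + 1), inc (j := j) (p i) * g ^ (i : ℕ) = g ^ i₀ * ν := by
    have h1 : ∑ i : Fin (r + 1), inc (j := j) (p i) * g ^ (i : ℕ) =
        ∑ i ∈ Finset.range (r + 1), inc (j := j) (P i) * g ^ i := by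
      rw [← Fin.sum_univ_eq_sum_range (fun i => inc (j := j) (P i) * g ^ i) (r + 1)]
      apply Finset.sum_congr rfl
      intro i _
      rw [hPf i]
    rw [h1, hm, Finset.sum_range_add, Finset.sum_eq_zero, zero_add, hν, Finset.mul_sum]
    · apply Finset.sum_congr rfl
      intro l _
      rw [pow_add]
      ring
    · intro i hi
      rw [himin i (Finset.mem_range.mp hi), map_zero, zero_mul]
  have hνh : ν.IsHomogeneous (β₀ + (r - i₀) * d) := by
    apply IsHomogeneous.sum
    intro l hl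
    have hl' : l ≤ m := by
      have := Finset.mem_range.mp hl
      omega
    have h1 := (inc_hom_invb (j := j) (hPh (i₀ + l))).mul (hg.pow l)
    convert h1 using 1
    have : r - i₀ = (r - (i₀ + l)) + l := by omega
    rw [this, add_mul, mul_comm d l]
    ring
  have hdeg : (r - i₀) * d ≤ (r + 1) * d := Nat.mul_le_mul_right _ (by omega)
  have hdeg2 : (r - i₀) * d + d ≤ (r + 1) * d := by
    have : (r - i₀) * d + d = (r - i₀ + 1) * d := by ring
    rw [this]
    exact Nat.mul_le_mul_right _ (by omega)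
  have hνA : Van A ν := by
    rw [hsum] at hrel
    rcases Nat.eq_zero_or_pos i₀ with h0 | hpos
    · intro a ha
      apply hA a ha
      rwa [h0, pow_zero, one_mul] at hrel
    · have h1 : (g * ν) ^ i₀ ∈ I := by
        obtain ⟨q, hq⟩ : ∃ q, i₀ = q + 1 := ⟨i₀ - 1, by omega⟩
        have : (g * ν) ^ i₀ = ν ^ q * (g ^ i₀ * ν) := by
          rw [mul_pow, hq, pow_succ ν q]
          ring
        rw [this]
        exact I.mul_mem_left _ hrel
      have h2 : g * ν ∈ I := ci_pow_invb hI _ _ h1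
      have h3 : Van A (g * ν) := fun a ha => hA a ha _ h2
      rcases hIrr d (β₀ + (r - i₀) * d) g ν hg hνh (by omega) h3 with h | h
      · exact absurd h hgA
      · exact h
  refine ⟨P i₀, - ∑ l ∈ Finset.range m, inc (P (i₀ + (l + 1))) * g ^ l, ν, _, _, hi0, hPh i₀, by omega, hνh,
    by omega, hνA, ?_⟩
  have : inc (j := j) (P i₀) - (g * (- ∑ l ∈ Finset.range m, inc (P (i₀ + (l + 1))) * g ^ l) + ν)
      = 0 := by
    rw [hν, Finset.sum_range_succ', mul_neg, Finset.mul_sum, add_zero, pow_zero, mul_one]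
    have : ∑ l ∈ Finset.range m, inc (j := j) (P (i₀ + (l + 1))) * g ^ (l + 1) =
        ∑ l ∈ Finset.range m, g * (inc (P (i₀ + (l + 1))) * g ^ l) := by
      apply Finset.sum_congr rfl
      intro l _
      ring
    rw [this]
    ring
  rw [this]
  exact I.zero_mem

end Pool.Agent.SQ
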