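import Pool.Agent.Lib_MP_b9fedf_sq.PackAll
import Pool.Agent.Lib_MP_b9fedf_sq.Package2
import Pool.Agent.Lib_MP_b9fedf_sq.InvB

/-! Assembly of the interpolation package, with the interpolating forms. -/

set_option autoImplicit false

namespace Pool.Agent.SQ
open MvPolynomial

/-- the package for a set `A` of points on `V(I)` -/
structure Package2 {k j : ℕ} (I : Ideal (Sp k j)) (A : Finset (Fin (k + 1) ⊕ Fin j → ℂ)) where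
  V : Ideal (Sp k j)
  N : ℕ
  δ : ℕ
  B : ℕ
  q : Fin N → Fin (k + 1) ⊕ Fin j → ℂ
  Lp : Fin N → Sp k j
  K : Submodule ℂ (Fin N → ℂ)
  hIV : I ≤ V
  hVhom : ∀ τ ∈ V, ∀ d, homogeneousComponent d τ ∈ V
  hsat : ∀ (p : Pp k) (τ : Sp k j), p ≠ 0 → inc p * τ ∈ V → τ ∈ V
  hinv : ∀ h : Fin (k + 1) ⊕ Fin j → ℂ, h ≠ 0 → ∃ (p : Pp k) (dp : ℕ) (α : Sp k j), p ≠ 0 ∧
      p.IsHomogeneous dp ∧ dp ≤ B ∧ inc p - lin h * α ∈ annI I V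
  hqA : ∀ i, q i ∈ A
  hLV : ∀ i, Lp i ∈ V
  hLd : ∀ i, (Lp i).IsHomogeneous δ
  hδ : 1 ≤ δ
  hLq : ∀ i i', eval (q i) (Lp i') = if i = i' then 1 else 0
  hcard : (k + j + 5) * Module.finrank ℂ ((Fin N → ℂ) ⧸ K) < N
  hK1 : ∀ γ ∈ K, ∀ h h' : Fin (k + 1) ⊕ Fin j → ℂ, ∀ y, (∀ s ∈ I, eval y s = 0) →
        ∑ i, γ i * (eval y (Lp i) * wdt h h' y (q i)) = 0
  hK2 : ∀ h : Fin (k + 1) ⊕ Fin j → ℂ, h ≠ 0 → ∀ γ ∈ K,
        (∀ i, dt (q i) h ≠ 0 → γ i = 0) → γ = 0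

theorem pack2 (k j r e₁ : ℕ) : ∃ Di Dp : ℕ, ∀ (I : Ideal (Sp k j))
    (b : Fin r → Sp k j) (db : Fin r → ℕ), CI I r b db →
    ∀ A : Finset (Fin (k + 1) ⊕ Fin j → ℂ), (∀ a ∈ A, ∀ s ∈ I, eval a s = 0) →
    Irr Di (A : Set (Fin (k + 1) ⊕ Fin j → ℂ)) → PDense Dp (A : Set (Fin (k + 1) ⊕ Fin j → ℂ)) →
    (∀ h : Fin (k + 1) ⊕ Fin j → ℂ, h ≠ 0 → ¬ Van (A : Set (Fin (k + 1) ⊕ Fin j → ℂ)) (lin h)) →
    ∀ s : Sp k j, s.IsHomogeneous e₁ → ¬ Van (A : Set (Fin (k + 1) ⊕ Fin j → ℂ)) s →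
    ∃ (pk : Package2 I A) (p : Pp k) (α : Sp k j), p ≠ 0 ∧ inc p - s * α ∈ annI I pk.V := by
  classical
  obtain ⟨β₁, hβ₁⟩ := inv_bound' k r 1
  obtain ⟨β₂, hβ₂⟩ := inv_bound' k r e₁
  set β := max β₁ β₂ with hβ
  choose δ₀ hδ₀ using fun D => low_bound k j r D
  choose G hG1 hG2 using fun δ => growth (k + j) δ
  let D : ℕ → ℕ := fun i => Nat.rec β (fun _ x => max x (G (δ₀ x))) i
  have hD0 : D 0 = β := rfl
  have hDs : ∀ i, D (i + 1) = max (D i) (G (δ₀ (D i))) := fun i => rfl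
  have hDm : Monotone D := monotone_nat_of_le_succ fun i => by
    rw [hDs]
    exact le_max_left _ _
  refine ⟨β, (Finset.range (r + 1)).sup (fun i => δ₀ (D i)), ?_⟩
  intro I b db hI A hA hirr hpd hlin s hs hsA
  have hpd' : ∀ i ≤ r, PDense (δ₀ (D i)) (A : Set (Fin (k + 1) ⊕ Fin j → ℂ)) := fun i hi =>
    pdense_mono (Finset.le_sup (f := fun i => δ₀ (D i)) (Finset.mem_range.mpr (by omega))) hpd
  obtain ⟨d₁, hd₁, τ₁, hτ₁, hτ₁I, hτ₁V⟩ := hδ₀ (D r) I b db hI _ hA (hpd' r le_rfl)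
  obtain ⟨i, hi, hVV⟩ := chain hI (A : Set (Fin (k + 1) ⊕ Fin j → ℂ)) D hDm ⟨τ₁, hτ₁V, hτ₁I⟩
  set V := VD I (A : Set (Fin (k + 1) ⊕ Fin j → ℂ)) (D i) with hV
  have hann : ∀ (dν : ℕ) (ν : Sp k j), ν.IsHomogeneous dν → dν ≤ β →
      Van (A : Set (Fin (k + 1) ⊕ Fin j → ℂ)) ν → ν ∈ annI I V := by
    intro dν ν hν hdν hvan τ hτ
    have h1 := hτ dν (hdν.trans (hDm (Nat.zero_le i))) ν hν hvan
    rwa [mul_comm] at h1
  have hinv : ∀ h : Fin (k + 1) ⊕ Fin j → ℂ, h ≠ 0 → ∃ (p : Pp k) (dp : ℕ) (α : Sp k j), p ≠ 0 ∧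
      p.IsHomogeneous dp ∧ dp ≤ β₁ ∧ inc p - lin h * α ∈ annI I V := by
    intro h hh
    obtain ⟨p, α, ν, dp, dν, hp0, hp, hdp, hν, hdν, hvan, hmem⟩ :=
      hβ₁ j I b db hI _ hA (irr_mono (le_max_left _ _) hirr) (lin h) (lin_homogeneous h) (hlin h hh)
    refine ⟨p, dp, α, hp0, hp, hdp, ?_⟩
    have h1 := (annI I V).add_mem (le_annI I V hmem)
      (hann dν ν hν (hdν.trans (le_max_left _ _)) hvan)
    convert h1 using 1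
    ring
  obtain ⟨p, α, ν, dp, dν, hp0, hp, _, hν, hdν, hvan, hmem⟩ :=
    hβ₂ j I b db hI _ hA (irr_mono (le_max_right _ _) hirr) s hs hsA
  obtain ⟨d₂, hd₂, τ₂, hτ₂, hτ₂I, hτ₂V⟩ := hδ₀ (D i) I b db hI _ hA (hpd' i hi.le)
  obtain ⟨δ, hδ1, hδ2, hδ3⟩ := hG2 (δ₀ (D i)) (vdim I V) ⟨d₂, hd₂, vdim_pos hτ₂ hτ₂V hτ₂I⟩
    (fun d => vdim_mono hI V d) (fun d => vdim_le I V d)
  obtain ⟨N, q, Lp, K, hq, hLV, hLd, hLq, hNK, hK1, hK2⟩ :=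
    package2 hI A hA (D i) (D (i + 1)) δ hVV
    (by omega) (by rw [hDs]; exact hδ2.trans (le_max_right _ _)) (fun h hh => by
      obtain ⟨p, dp, α, h1, _, _, h2⟩ := hinv h hh
      exact ⟨p, α, h1, h2⟩) hδ3
  refine ⟨{ V := V, N := N, δ := δ, B := β₁, q := q, Lp := Lp, K := K, hIV := le_VD I _ _,
            hVhom := VD_hom hI _ _, hsat := fun p τ hp h => VD_sat hI _ _ p τ hp h,
            hinv := hinv, hqA := hq, hLV := hLV, hLd := hLd, hδ := by omega, hLq := hLq,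
            hcard := hNK, hK1 := hK1, hK2 := hK2 }, p, α, hp0, ?_⟩
  have h1 := (annI I V).add_mem (le_annI I V hmem)
    (hann dν ν hν (hdν.trans (le_max_right _ _)) hvan)
  convert h1 using 1
  ring

end Pool.Agent.SQ
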