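import Pool.Agent.Lib_MP_b9fedf_sq.Defs3
import Pool.Agent.Lib_MP_b9fedf_ag.TanPhi

/-! The auxiliary function `Φ` for the strong form: the pencil may be degenerate. -/

set_option autoImplicit false

namespace Pool.Agent.SQ
open Filter Metric Real Set Function
open Pool.Agent.GGL

/-- Cramer's rule for a bordered matrix -/
private lemma bordered_PHITWO {n : ℕ} (A : Matrix (Fin n) (Fin n) ℂ) (hA : A.det ≠ 0)
    (r v : Fin n → ℂ) (x : ℂ) (c' : Fin (n + 1) → ℂ) (hc : c' ≠ 0)
    (h1 : ∀ k, v k * c' 0 + ∑ l, A k l * c' l.succ = 0)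
    (h2 : x * c' 0 + ∑ l : Fin n, r l * c' l.succ = 0) :
    x * A.det = ∑ l, r l * (A.updateCol l v).det := by
  have h0 : c' 0 ≠ 0 := by
    intro h0
    apply hc
    have h3 : A.mulVec (fun l => c' l.succ) = 0 := by
      funext k
      have h4 := h1 k
      rw [h0, mul_zero, zero_add] at h4
      rw [Matrix.mulVec, dotProduct]
      exact h4
    have h4 := Matrix.eq_zero_of_mulVec_eq_zero hA h3
    funext i
    refine Fin.cases h0 (fun l => congrFun h4 l) i
  have h3 : A.mulVec (A.det • (fun l : Fin n => c' l.succ) + c' 0 • Matrix.cramer A v) = 0 := by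
    rw [Matrix.mulVec_add, Matrix.mulVec_smul, Matrix.mulVec_smul, Matrix.mulVec_cramer]
    funext k
    have h4 := h1 k
    simp only [Pi.add_apply, Pi.smul_apply, smul_eq_mul, Pi.zero_apply, Matrix.mulVec, dotProduct]
    linear_combination A.det * h4
  have h4 := Matrix.eq_zero_of_mulVec_eq_zero hA h3
  have h5 : ∀ l : Fin n, A.det * c' l.succ + c' 0 * (A.updateCol l v).det = 0 := by
    intro l
    have h6 := congrFun h4 l
    simp only [Pi.add_apply, Pi.smul_apply, smul_eq_mul, Pi.zero_apply, Matrix.cramer_apply] at h6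
    exact h6
  apply mul_left_cancel₀ h0
  have h6 : ∑ l, r l * (A.det * c' l.succ + c' 0 * (A.updateCol l v).det) = 0 :=
    Finset.sum_eq_zero fun l _ => by rw [h5 l, mul_zero]
  have h7 : ∑ l, r l * (A.det * c' l.succ + c' 0 * (A.updateCol l v).det) =
      A.det * (∑ l : Fin n, r l * c' l.succ) + c' 0 * ∑ l, r l * (A.updateCol l v).det := by
    rw [Finset.mul_sum, Finset.mul_sum, ← Finset.sum_add_distrib]
    exact Finset.sum_congr rfl fun l _ => by ring
  rw [h7] at h6
  linear_combination A.det * h2 - h6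

/-- more than `s` unit vectors are dependent modulo `K` -/
private lemma dependent_PHITWO {n N s : ℕ} (K : Submodule ℂ (Fin N → ℂ))
    (hfin : Module.finrank ℂ ((Fin N → ℂ) ⧸ K) = s) (hn : s < n) (κ : Fin n → Fin N) :
    ∃ c : Fin n → ℂ, c ≠ 0 ∧ ∑ l, c l • (Pi.single (κ l) (1 : ℂ) : Fin N → ℂ) ∈ K := by
  have h1 : ¬ LinearIndependent ℂ
      (fun l : Fin n => K.mkQ (Pi.single (κ l) (1 : ℂ) : Fin N → ℂ)) := by
    intro h
    have h2 := h.fintype_card_le_finrank
    rw [Fintype.card_fin, hfin] at h2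
    omega
  rw [Fintype.not_linearIndependent_iff] at h1
  obtain ⟨c, hc, i, hi⟩ := h1
  refine ⟨c, fun h => hi (congrFun h i), ?_⟩
  rw [← Submodule.Quotient.mk_eq_zero K, ← Submodule.mkQ_apply, map_sum, ← hc]
  exact Finset.sum_congr rfl fun l _ => by rw [map_smul]

/-- the order of `(w - z) ^ e ψ` -/
private lemma order_mul_PHITWO {f ψ : ℂ → ℂ} {z : ℂ} {e : ℕ} (hψ : AnalyticAt ℂ ψ z)
    (h : ∀ᶠ w in nhds z, f w = (w - z) ^ e • ψ w) :
    analyticOrderAt f z = (e : ℕ∞) + analyticOrderAt ψ z := by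
  rw [analyticOrderAt_congr (h : f =ᶠ[nhds z] fun w => (w - z) ^ e • ψ w)]
  have h1 := analyticOrderAt_smul (f := fun w => (w - z) ^ e) (g := ψ) (z₀ := z)
    (by fun_prop) hψ
  have h2 : (fun w => (w - z) ^ e • ψ w) = (fun w => (w - z) ^ e) • ψ := rfl
  rw [h2, h1]
  congr 1
  exact analyticOrderAt_centeredMonomial

/-- PIECE PHITWO -/
theorem exists_phi2 {m s N : ℕ} (q : Fin N → Fin (m + 1) → ℂ) {Y : Type}
    (yv : Y → Fin (m + 1) → ℂ) (L : Fin N → Y → ℂ)
    (K : Submodule ℂ (Fin N → ℂ)) (hfin : Module.finrank ℂ ((Fin N → ℂ) ⧸ K) = s)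
    (hK1 : ∀ γ ∈ K, ∀ (h h' : Fin (m + 1) → ℂ) (y : Y),
      ∑ i, γ i * (L i y * GGL.wd h h' (yv y) (q i)) = 0)
    (g : Fin (m + 1) → ℂ → ℂ) (hg : ∀ k, Differentiable ℂ (g k))
    (hlim : ∀ (z₁ : ℂ) (c : ℕ), (∀ a, (c : ℕ∞) ≤ analyticOrderAt (g a) z₁) →
      (∃ a, analyticOrderAt (g a) z₁ = c) → ∀ γ : ℂ → Fin N → ℂ, ContinuousAt γ z₁ →
      (∀ᶠ z in nhdsWithin z₁ {z₁}ᶜ, ∀ y : Y, ∑ i, γ z i *
        (L i y * GGL.wd (fun a => g a z) (fun a => deriv (g a) z) (yv y) (q i)) = 0) →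
      (∀ i, analyticOrderAt (fun ζ => ∑ a, q i a * g a ζ) z₁ = c → γ z₁ i = 0) → γ z₁ = 0) :
    ∃ (s₀ : ℕ) (Φ : ℂ → ℂ) (C : ℝ), s₀ ≤ s ∧ 0 < C ∧ Differentiable ℂ Φ ∧ (∃ z, Φ z ≠ 0) ∧
      (∀ z, ‖Φ z‖ ≤ C * (‖fun ab : Fin (m + 1) × Fin (m + 1) =>
        g ab.1 z * deriv (g ab.2) z - g ab.2 z * deriv (g ab.1) z‖) ^ s₀) ∧
      ∀ (z : ℂ) (c : ℕ), (∀ a, (c : ℕ∞) ≤ analyticOrderAt (g a) z) →
        (∃ a, analyticOrderAt (g a) z = c) →
        ∀ o : Fin N → ℕ, (∀ i, analyticOrderAt (fun ζ => ∑ a, q i a * g a ζ) z = o i) →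
          ((2 * s₀ * c + ∑ i, (o i - c - 1) : ℕ) : ℕ∞) ≤ analyticOrderAt Φ z := by
  classical
  have hgd : ∀ a, Differentiable ℂ (deriv (g a)) := fun a => (hg a).deriv
  -- the wedge as a function of `z`
  set w : (Fin (m + 1) → ℂ) → (Fin (m + 1) → ℂ) → ℂ → ℂ := fun y p ζ =>
    GGL.wd (fun a => g a ζ) (fun a => deriv (g a) ζ) y p with hw
  have hwd : ∀ y p, Differentiable ℂ (w y p) := by
    intro y p
    simp only [hw, GGL.wd]
    exact ((Differentiable.fun_sum fun a _ => (hgd a).const_mul (p a)).mul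
      (Differentiable.fun_sum fun a _ => (hg a).const_mul (y a))).sub
      ((Differentiable.fun_sum fun a _ => (hg a).const_mul (p a)).mul
      (Differentiable.fun_sum fun a _ => (hgd a).const_mul (y a)))
  set M : Y → Fin N → ℂ → ℂ := fun y i ζ => L i y * w (yv y) (q i) ζ with hM
  have hMd : ∀ y i, Differentiable ℂ (M y i) := fun y i => (hwd _ _).const_mul _
  let D : (n : ℕ) → (Fin n → Y) → (Fin n → Fin N) → ℂ → ℂ := fun n y κ ζ =>
    (Matrix.of fun (k : Fin n) (l : Fin n) => M (y k) (κ l) ζ).det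
  have hDdef : ∀ (n : ℕ) (y : Fin n → Y) (κ : Fin n → Fin N) (ζ : ℂ), D n y κ ζ =
    (Matrix.of fun (k : Fin n) (l : Fin n) => M (y k) (κ l) ζ).det := fun _ _ _ _ => rfl
  have hDd : ∀ n y κ, Differentiable ℂ (D n y κ) := by
    intro n y κ
    have h1 : D n y κ = fun ζ => ∑ σ : Equiv.Perm (Fin n), Equiv.Perm.sign σ •
        ∏ i, M (y (σ i)) (κ i) ζ := by
      ext ζ
      rw [hDdef, Matrix.det_apply]
      simp only [Matrix.of_apply]
    rw [h1]
    apply Differentiable.fun_sum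
    intro σ _
    apply Differentiable.const_smul
    exact Differentiable.fun_finsetProd fun i _ => hMd _ _
  let P : ℕ → Prop := fun n => ∃ (y : Fin n → Y) (κ : Fin n → Fin N) (z : ℂ), D n y κ z ≠ 0
  have hP0 : P 0 := by
    refine ⟨Fin.elim0, Fin.elim0, 0, ?_⟩
    rw [hDdef, Matrix.det_isEmpty]
    exact one_ne_zero
  have hPs : ∀ n, P n → n ≤ s := by
    intro n hn
    by_contra hlt
    push Not at hlt
    obtain ⟨y, κ, z, hz⟩ := hn
    obtain ⟨c, hc0, hc⟩ := dependent_PHITWO K hfin hlt κ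
    apply hz
    rw [hDdef, ← Matrix.exists_mulVec_eq_zero_iff]
    refine ⟨c, hc0, ?_⟩
    funext k
    have h1 := hK1 _ hc (fun a => g a z) (fun a => deriv (g a) z) (y k)
    rw [Matrix.mulVec, dotProduct, Pi.zero_apply, ← h1]
    simp only [Matrix.of_apply, hM, hw, Finset.sum_apply, Pi.smul_apply, smul_eq_mul,
      Finset.sum_mul]
    rw [Finset.sum_comm]
    apply Finset.sum_congr rfl
    intro l _
    rw [Finset.sum_eq_single (κ l)]
    · rw [Pi.single_eq_same]
      ring
    · intro i _ hi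
      rw [Pi.single_apply, if_neg hi]
      ring
    · intro h
      exact absurd (Finset.mem_univ _) h
  obtain ⟨s₀, hPs0, hPs1⟩ : ∃ s₀, P s₀ ∧ ¬ P (s₀ + 1) := by
    refine ⟨Nat.findGreatest P s, Nat.findGreatest_spec (Nat.zero_le s) hP0, ?_⟩
    intro h
    exact Nat.findGreatest_is_greatest (Nat.lt_succ_self _) (hPs _ h) h
  obtain ⟨y, κ₀, z₀, hz₀⟩ := hPs0
  have hs₀ : s₀ ≤ s := hPs s₀ ⟨y, κ₀, z₀, hz₀⟩
  -- the relation between the minors
  have hrel : ∀ (y' : Y) (i₀ : Fin N) (κ : Fin s₀ → Fin N) (z : ℂ), D s₀ y κ z ≠ 0 →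
      M y' i₀ z * D s₀ y κ z = ∑ l, M y' (κ l) z * D s₀ y (Function.update κ l i₀) z := by
    intro y' i₀ κ z hz
    have h1 : (Matrix.of fun (k : Fin (s₀ + 1)) (l : Fin (s₀ + 1)) =>
        M ((Fin.cons y' y : Fin (s₀ + 1) → Y) k)
          ((Fin.cons i₀ κ : Fin (s₀ + 1) → Fin N) l) z).det = 0 := by
      by_contra hne
      exact hPs1 ⟨Fin.cons y' y, Fin.cons i₀ κ, z, hne⟩
    rw [← Matrix.exists_mulVec_eq_zero_iff] at h1
    obtain ⟨c', hc0, hc'⟩ := h1
    have h2 := bordered_PHITWO (Matrix.of fun (k : Fin s₀) (l : Fin s₀) => M (y k) (κ l) z) hz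
      (fun l => M y' (κ l) z) (fun k => M (y k) i₀ z) (M y' i₀ z) c' hc0 (by
        intro k
        have h3 := congrFun hc' k.succ
        rw [Matrix.mulVec, dotProduct, Fin.sum_univ_succ] at h3
        simpa only [Matrix.of_apply, Fin.cons_succ, Fin.cons_zero, Pi.zero_apply] using h3) (by
        have h3 := congrFun hc' 0
        rw [Matrix.mulVec, dotProduct, Fin.sum_univ_succ] at h3
        simpa only [Matrix.of_apply, Fin.cons_succ, Fin.cons_zero, Pi.zero_apply] using h3)
    rw [hDdef, h2]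
    apply Finset.sum_congr rfl
    intro l _
    rw [hDdef]
    congr 2
    ext k l'
    rw [Matrix.updateCol_apply]
    by_cases hl : l' = l
    · subst hl
      rw [if_pos rfl]
      simp only [Matrix.of_apply, Function.update_self]
    · rw [if_neg hl]
      simp only [Matrix.of_apply, Function.update_of_ne hl]
  -- the bound
  obtain ⟨C, hC0, hC⟩ := det_bound (fun k l => M (y k) (κ₀ l))
      (fun z => ‖fun ab : Fin (m + 1) × Fin (m + 1) =>
        g ab.1 z * deriv (g ab.2) z - g ab.2 z * deriv (g ab.1) z‖) (fun z => norm_nonneg _) (by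
    intro k l
    obtain ⟨B, hB0, hB⟩ := entry_bound g (yv (y k)) (fun _ : Unit => q (κ₀ l))
      (fun _ => L (κ₀ l) (y k))
    refine ⟨B, hB0, fun z => ?_⟩
    refine le_trans (le_of_eq ?_) (hB z)
    simp only [hM, hw, Finset.univ_unique, Finset.sum_singleton])
  refine ⟨s₀, D s₀ y κ₀, C, hs₀, hC0, hDd _ _ _, ⟨z₀, hz₀⟩, hC, ?_⟩
  intro z c hc hc' o ho
  -- a minor of minimal order with many columns in `S`
  obtain ⟨κ₁, hκ₁⟩ := Finset.exists_min_image (Finset.univ : Finset (Fin s₀ → Fin N))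
    (fun κ => analyticOrderAt (D s₀ y κ) z) ⟨κ₀, Finset.mem_univ _⟩
  let cnt : (Fin s₀ → Fin N) → ℕ := fun κ => (Finset.univ.filter fun l => c < o (κ l)).card
  obtain ⟨κ₂, hκ₂, hκ₂m⟩ := Finset.exists_max_image (Finset.univ.filter fun κ =>
    analyticOrderAt (D s₀ y κ) z = analyticOrderAt (D s₀ y κ₁) z) cnt
      ⟨κ₁, Finset.mem_filter.2 ⟨Finset.mem_univ _, rfl⟩⟩
  rw [Finset.mem_filter] at hκ₂
  have hmin : ∀ κ, analyticOrderAt (D s₀ y κ₂) z ≤ analyticOrderAt (D s₀ y κ) z := by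
    intro κ
    rw [hκ₂.2]
    exact hκ₁.2 κ (Finset.mem_univ _)
  have hmax : ∀ κ, cnt κ₂ < cnt κ → analyticOrderAt (D s₀ y κ₂) z <
      analyticOrderAt (D s₀ y κ) z := by
    intro κ hlt
    refine lt_of_le_of_ne (hmin κ) ?_
    intro heq
    have h1 := hκ₂m κ (Finset.mem_filter.2 ⟨Finset.mem_univ _, by rw [← heq, hκ₂.2]⟩)
    omega
  have htop : analyticOrderAt (D s₀ y κ₂) z ≠ ⊤ := by
    intro h
    have h1 := hmin κ₀
    rw [h, top_le_iff] at h1
    exact order_ne_top (hDd s₀ y κ₀) ⟨z₀, hz₀⟩ z h1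
  obtain ⟨e, he⟩ : ∃ e : ℕ, analyticOrderAt (D s₀ y κ₂) z = e :=
    ⟨_, (ENat.natCast_toNat htop).symm⟩
  have hψ : ∀ κ, ∃ ψ : ℂ → ℂ, AnalyticAt ℂ ψ z ∧
      ∀ᶠ w in nhds z, D s₀ y κ w = (w - z) ^ e • ψ w := by
    intro κ
    refine (natCast_le_analyticOrderAt ((hDd s₀ y κ).analyticAt z)).1 ?_
    rw [← he]
    exact hmin κ
  choose ψ hψ hψ' using hψ
  have hψ2 : ψ κ₂ z ≠ 0 := by
    have h1 := order_mul_PHITWO (hψ κ₂) (hψ' κ₂)
    rw [he] at h1
    have h2 : analyticOrderAt (ψ κ₂) z = 0 := by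
      have h3 : analyticOrderAt (ψ κ₂) z ≠ ⊤ := by
        intro h4
        rw [h4] at h1
        exact absurd h1.symm (by simp)
      obtain ⟨n, hn⟩ : ∃ n : ℕ, analyticOrderAt (ψ κ₂) z = n := ⟨_, (ENat.natCast_toNat h3).symm⟩
      rw [hn] at h1 ⊢
      have h4 : e = e + n := by exact_mod_cast h1
      have h5 : n = 0 := by omega
      rw [h5]
      rfl
    rcases analyticOrderAt_eq_zero.1 h2 with h3 | h3
    · exact absurd (hψ κ₂) h3
    · exact h3
  have hψ3 : ∀ κ, cnt κ₂ < cnt κ → ψ κ z = 0 := by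
    intro κ hlt
    have h1 := hmax κ hlt
    rw [he, order_mul_PHITWO (hψ κ) (hψ' κ)] at h1
    by_contra h2
    have h3 : analyticOrderAt (ψ κ) z = 0 := analyticOrderAt_eq_zero.2 (Or.inr h2)
    rw [h3, add_zero] at h1
    exact lt_irrefl _ h1
  -- the claim
  have hclaim : ∀ i₀, c < o i₀ → ∃ l, κ₂ l = i₀ := by
    intro i₀ hi₀
    by_contra hno
    push Not at hno
    let γ : ℂ → Fin N → ℂ := fun ζ i => (if i = i₀ then - ψ κ₂ ζ else 0) +
      ∑ l, if κ₂ l = i then ψ (Function.update κ₂ l i₀) ζ else 0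
    have hγ : ContinuousAt γ z := by
      rw [continuousAt_pi]
      intro i
      apply ContinuousAt.add
      · by_cases hi : i = i₀
        · simp only [hi, if_true]
          exact (hψ κ₂).continuousAt.neg
        · simp only [hi, if_false]
          exact continuousAt_const
      · refine tendsto_finsetSum _ fun l _ => ?_
        by_cases hl : κ₂ l = i
        · simp only [hl, if_true]
          exact (hψ (Function.update κ₂ l i₀)).continuousAt
        · simp only [hl, if_false]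
          exact continuousAt_const
    have h1 := hlim z c hc hc' γ hγ (by
      have h2 : ∀ᶠ ζ in nhdsWithin z {z}ᶜ, ∀ κ, D s₀ y κ ζ = (ζ - z) ^ e • ψ κ ζ :=
        Filter.Eventually.filter_mono nhdsWithin_le_nhds (Filter.eventually_all.2 hψ')
      have h3 : ∀ᶠ ζ in nhdsWithin z {z}ᶜ, ψ κ₂ ζ ≠ 0 :=
        Filter.Eventually.filter_mono nhdsWithin_le_nhds ((hψ κ₂).continuousAt.eventually_ne hψ2)
      filter_upwards [h2, h3, self_mem_nhdsWithin] with ζ hζ1 hζ2 hζ3 y'
      have hζ4 : (ζ - z) ^ e ≠ 0 := pow_ne_zero _ (sub_ne_zero.2 hζ3)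
      have hζ5 : D s₀ y κ₂ ζ ≠ 0 := by
        rw [hζ1 κ₂, smul_eq_mul]
        exact mul_ne_zero hζ4 hζ2
      have h4 := hrel y' i₀ κ₂ ζ hζ5
      have h5 : ∑ i, γ ζ i * M y' i ζ = - ψ κ₂ ζ * M y' i₀ ζ +
          ∑ l, ψ (Function.update κ₂ l i₀) ζ * M y' (κ₂ l) ζ := by
        simp only [γ, add_mul, Finset.sum_add_distrib]
        congr 1
        · rw [Finset.sum_eq_single i₀]
          · rw [if_pos rfl]
          · intro i _ hi
            rw [if_neg hi, zero_mul]
          · intro h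
            exact absurd (Finset.mem_univ _) h
        · simp only [Finset.sum_mul]
          rw [Finset.sum_comm]
          apply Finset.sum_congr rfl
          intro l _
          rw [Finset.sum_eq_single (κ₂ l)]
          · rw [if_pos rfl]
          · intro i _ hi
            rw [if_neg (Ne.symm hi), zero_mul]
          · intro h
            exact absurd (Finset.mem_univ _) h
      show ∑ i, γ ζ i * M y' i ζ = 0
      rw [h5]
      apply mul_left_cancel₀ hζ4
      rw [hζ1 κ₂] at h4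
      simp only [hζ1, smul_eq_mul] at h4
      have h6 : (ζ - z) ^ e * ∑ l, ψ (Function.update κ₂ l i₀) ζ * M y' (κ₂ l) ζ =
          ∑ l, M y' (κ₂ l) ζ * ((ζ - z) ^ e * ψ (Function.update κ₂ l i₀) ζ) := by
        rw [Finset.mul_sum]
        exact Finset.sum_congr rfl fun l _ => by ring
      rw [mul_add, h6, ← h4]
      ring) (by
      intro i hi
      rw [ho i] at hi
      have hi' : o i = c := by exact_mod_cast hi
      have hne : i ≠ i₀ := by
        intro h
        rw [h] at hi'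
        omega
      show (if i = i₀ then - ψ κ₂ z else 0) +
        (∑ l, if κ₂ l = i then ψ (Function.update κ₂ l i₀) z else 0) = 0
      rw [if_neg hne, zero_add]
      apply Finset.sum_eq_zero
      intro l _
      by_cases hl : κ₂ l = i
      · rw [if_pos hl]
        apply hψ3
        apply Finset.card_lt_card
        rw [Finset.ssubset_iff_of_subset]
        · refine ⟨l, ?_, ?_⟩
          · rw [Finset.mem_filter, Function.update_self]
            exact ⟨Finset.mem_univ _, hi₀⟩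
          · rw [Finset.mem_filter, hl, hi']
            intro h
            exact absurd h.2 (lt_irrefl _)
        · intro l' hl'
          rw [Finset.mem_filter] at hl' ⊢
          refine ⟨Finset.mem_univ _, ?_⟩
          have hll : l' ≠ l := by
            intro h
            rw [h, hl, hi'] at hl'
            exact absurd hl'.2 (lt_irrefl _)
          rw [Function.update_of_ne hll]
          exact hl'.2
      · rw [if_neg hl])
    have h2 := congrFun h1 i₀
    apply hψ2
    have h3 : γ z i₀ = - ψ κ₂ z := by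
      show (if i₀ = i₀ then - ψ κ₂ z else 0) +
        (∑ l, if κ₂ l = i₀ then ψ (Function.update κ₂ l i₀) z else 0) = - ψ κ₂ z
      rw [if_pos rfl, Finset.sum_eq_zero (fun l _ => if_neg (hno l)), add_zero]
    rw [h3] at h2
    simpa using h2
  -- the order of the minor `κ₂`
  have hworder : ∀ (y : Y) (i : Fin N),
      ((2 * c + (o i - c - 1) : ℕ) : ℕ∞) ≤ analyticOrderAt (M y i) z := by
    intro y i
    have h1 := order_wd g z (fun a => (hg a).analyticAt z) c hc (q i) (yv y) (o i) (ho i).ge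
    have h2 : M y i = (fun _ => L i y) * w (yv y) (q i) := rfl
    rw [h2, analyticOrderAt_mul analyticAt_const ((hwd _ _).analyticAt z)]
    exact h1.trans le_add_self
  have h1 := order_det (s := s₀) (ι := Fin s₀) (fun k l => M (y k) (κ₂ l)) z
    (fun k l => (hMd _ _).analyticAt z) (2 * c) (by
      intro k l
      refine le_trans ?_ (hworder (y k) (κ₂ l))
      exact_mod_cast Nat.le_add_right _ _) (fun i => Pi.single i 1)
      (by
        have := (Pi.basisFun ℂ (Fin s₀)).linearIndependent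
        convert this using 1
        ext i
        simp) (fun l => o (κ₂ l) - c - 1) (by
      intro l k
      have h2 : (fun ζ => ∑ l', (Pi.single l (1 : ℂ) : Fin s₀ → ℂ) l' * M (y k) (κ₂ l') ζ) =
          M (y k) (κ₂ l) := by
        funext ζ
        rw [Finset.sum_eq_single l]
        · rw [Pi.single_eq_same, one_mul]
        · intro l' _ hl'
          rw [Pi.single_apply, if_neg hl', zero_mul]
        · intro h
          exact absurd (Finset.mem_univ _) h
      rw [h2]
      exact hworder (y k) (κ₂ l))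
  refine le_trans ?_ (h1.trans (hmin κ₀))
  have h2 : ∑ i, (o i - c - 1) ≤ ∑ l, (o (κ₂ l) - c - 1) := by
    have h3 : ∑ i, (o i - c - 1) = ∑ i ∈ Finset.univ.filter (fun i => c < o i), (o i - c - 1) := by
      rw [Finset.sum_filter]
      apply Finset.sum_congr rfl
      intro i _
      split_ifs with h
      · rfl
      · omega
    rw [h3]
    calc ∑ i ∈ Finset.univ.filter (fun i => c < o i), (o i - c - 1)
        ≤ ∑ i ∈ Finset.univ.image κ₂, (o i - c - 1) := by
          apply Finset.sum_le_sum_of_subset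
          intro i hi
          rw [Finset.mem_filter] at hi
          obtain ⟨l, hl⟩ := hclaim i hi.2
          exact Finset.mem_image.2 ⟨l, Finset.mem_univ _, hl⟩
      _ ≤ ∑ l, (o (κ₂ l) - c - 1) := Finset.sum_image_le_of_nonneg (fun _ _ => Nat.zero_le _)
  have h3 : 2 * s₀ * c = s₀ * (2 * c) := by ring
  rw [h3]
  exact_mod_cast Nat.add_le_add_left h2 _

end Pool.Agent.SQ
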