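import Pool.Agent.Lib_MP_b9fedf_sq.Main2
import Pool.Agent.Lib_MP_b9fedf_sq.PhiTwo

/-! The interpolation package contradicts tangency, for curves in a linear subspace:
coordinates. -/

set_option autoImplicit false

namespace Pool.Agent.SQ
open Pool.Agent.GGL

private theorem hyper_count_pkg {τ : Type} [Fintype τ] {s N : ℕ} (q : Fin N → τ → ℂ)
    (K : Submodule ℂ (Fin N → ℂ)) (hfin : Module.finrank ℂ ((Fin N → ℂ) ⧸ K) = s)
    (hK2 : ∀ h : τ → ℂ, h ≠ 0 → ∀ γ ∈ K,
      (∀ i, dt (q i) h ≠ 0 → γ i = 0) → γ = 0) (h : τ → ℂ) (hh : h ≠ 0) :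
    ((Finset.univ : Finset (Fin N)).filter (fun i => dt (q i) h = 0)).card ≤ s := by
  classical
  set I : Type := {i : Fin N // dt (q i) h = 0} with hI
  have hli : LinearIndependent ℂ (fun i : I => K.mkQ (Pi.single i.1 (1 : ℂ))) := by
    rw [Fintype.linearIndependent_iff]
    intro lam hlam
    set γ : Fin N → ℂ := ∑ i : I, lam i • (Pi.single i.1 (1 : ℂ)) with hγ
    have h1 : γ ∈ K := by
      rw [← Submodule.Quotient.mk_eq_zero K, ← Submodule.mkQ_apply, hγ, map_sum, ← hlam]
      exact Finset.sum_congr rfl fun i _ => by rw [map_smul]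
    have h2 : γ = 0 := by
      apply hK2 h hh γ h1
      intro i hi
      rw [hγ, Finset.sum_apply]
      apply Finset.sum_eq_zero
      intro l _
      rw [Pi.smul_apply, Pi.single_apply, if_neg, smul_zero]
      intro h6
      apply hi
      rw [h6]
      exact l.2
    intro i
    have h4 := congrFun h2 i.1
    rw [hγ, Finset.sum_apply, Finset.sum_eq_single i] at h4
    · simpa using h4
    · intro l _ hl
      rw [Pi.smul_apply, Pi.single_apply, if_neg, smul_zero]
      intro h6
      exact hl (Subtype.ext h6.symm)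
    · intro h6
      exact absurd (Finset.mem_univ _) h6
  have h5 := hli.fintype_card_le_finrank
  rw [hfin] at h5
  exact (Fintype.card_subtype (fun i : Fin N => dt (q i) h = 0)).symm.le.trans h5

/-- coordinates on the span of a family -/
private theorem coords_gen_pkg {τ V : Type} [Fintype τ] [Nonempty τ] [AddCommGroup V] [Module ℂ V]
    (F : τ → V) (hF : ∀ t : τ → ℂ, t ≠ 0 → ∃ i i', t i • F i' ≠ t i' • F i) :
    ∃ (u : ℕ) (G : Fin (u + 1) → V) (lam mu : Fin (u + 1) → τ → ℂ), 1 ≤ u ∧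
      u + 1 ≤ Fintype.card τ ∧ LinearIndependent ℂ G ∧ (∀ x, F x = ∑ l, lam l x • G l) ∧
      (∀ l, G l = ∑ x, mu l x • F x) ∧
      ∀ l l', ∑ x, mu l x * lam l' x = if l = l' then 1 else 0 := by
  classical
  set W : Submodule ℂ V := Submodule.span ℂ (Set.range F) with hW
  have hfd : Module.Finite ℂ W := FiniteDimensional.span_of_finite ℂ (Set.finite_range F)
  have hFW : ∀ x, F x ∈ W := fun x => Submodule.subset_span ⟨x, rfl⟩
  obtain ⟨r, hr⟩ : ∃ r, Module.finrank ℂ W = r := ⟨_, rfl⟩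
  let b : Module.Basis (Fin r) ℂ W := Module.finBasisOfFinrankEq ℂ W hr
  obtain ⟨lam, hlam⟩ : ∃ lam : Fin r → τ → ℂ, ∀ x, F x = ∑ l, lam l x • (b l : V) := by
    refine ⟨fun l x => b.repr ⟨F x, hFW x⟩ l, ?_⟩
    intro x
    have h1 := congrArg (Subtype.val) (b.sum_repr ⟨F x, hFW x⟩)
    rw [AddSubmonoidClass.coe_finsetSum] at h1
    exact h1.symm
  have hmu : ∀ l, ∃ c : τ → ℂ, ∑ x, c x • F x = (b l : V) := by
    intro l
    exact (Submodule.mem_span_range_iff_exists_fun ℂ).mp (b l).2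
  choose mu hmu using hmu
  have hGli : LinearIndependent ℂ (fun l => (b l : V)) := by
    have := b.linearIndependent.map' W.subtype (Submodule.ker_subtype W)
    exact this
  have hr2 : 2 ≤ r := by
    by_contra hcon
    have h1 : r = 0 ∨ r = 1 := by omega
    rcases h1 with rfl | rfl
    · obtain ⟨i, i', hne⟩ := hF (fun _ => 1) (by
        intro h0
        exact one_ne_zero (congrFun h0 (Classical.arbitrary τ)))
      apply hne
      rw [hlam i, hlam i']
      simp
    · by_cases hc : lam 0 = 0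
      · obtain ⟨i, i', hne⟩ := hF (fun _ => 1) (by
          intro h0
          exact one_ne_zero (congrFun h0 (Classical.arbitrary τ)))
        apply hne
        rw [hlam i, hlam i']
        simp [hc]
      · obtain ⟨i, i', hne⟩ := hF _ hc
        apply hne
        rw [hlam i, hlam i', Fin.sum_univ_one, Fin.sum_univ_one, smul_smul, smul_smul, mul_comm]
  obtain ⟨u, rfl⟩ : ∃ u, r = u + 1 := ⟨r - 1, by omega⟩
  refine ⟨u, fun l => (b l : V), lam, mu, by omega, ?_, hGli, hlam, fun l => (hmu l).symm, ?_⟩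
  · rw [← hr]
    exact finrank_range_le_card (R := ℂ) F
  · intro l l'
    have h1 : ∑ l', (∑ x, mu l x * lam l' x - if l = l' then 1 else 0) • (b l' : V) = 0 := by
      simp only [sub_smul, Finset.sum_sub_distrib, Finset.sum_smul, mul_smul]
      rw [Finset.sum_comm]
      simp only [← Finset.smul_sum]
      simp only [← hlam, hmu, ite_smul, one_smul, zero_smul, Finset.sum_ite_eq, Finset.mem_univ,
        if_true, sub_self]
    have h2 := (Fintype.linearIndependent_iff.mp hGli) _ h1 l'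
    exact sub_eq_zero.mp h2

theorem pkg2 {τ : Type} [Fintype τ] [DecidableEq τ] [Nonempty τ] {N : ℕ}
    (q : Fin N → τ → ℂ) {Y : Type} (yv : Y → τ → ℂ) (L : Fin N → Y → ℂ)
    (K : Submodule ℂ (Fin N → ℂ))
    (hcard : (Fintype.card τ + 4) * Module.finrank ℂ ((Fin N → ℂ) ⧸ K) < N)
    (h1 : ∀ γ ∈ K, ∀ (h h' : τ → ℂ) (y : Y), ∑ i, γ i * (L i y * wdt h h' (yv y) (q i)) = 0)
    (h2 : ∀ h : τ → ℂ, h ≠ 0 → ∀ γ ∈ K, (∀ i, dt (q i) h ≠ 0 → γ i = 0) → γ = 0)
    (F : τ → Ent) (hF : ∀ t : τ → ℂ, t ≠ 0 → ∃ i i', t i • F i' ≠ t i' • F i)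
    (hqF : ∀ i, ∑ x, q i x • F x ≠ 0)
    (hper : ∀ a z, (F a).1 (z + 2 * Real.pi * Complex.I) = (F a).1 z)
    (hlim : ∀ (z₁ : ℂ) (c : ℕ), (∀ x, (c : ℕ∞) ≤ analyticOrderAt (F x).1 z₁) →
      (∃ x, analyticOrderAt (F x).1 z₁ = c) → ∀ γ : ℂ → Fin N → ℂ, ContinuousAt γ z₁ →
      (∀ᶠ z in nhdsWithin z₁ {z₁}ᶜ, ∀ y : Y, ∑ i, γ z i *
        (L i y * wdt (fun x => (F x).1 z) (fun x => (dE (F x)).1 z) (yv y) (q i)) = 0) →
      (∀ i, analyticOrderAt (fun ζ => ∑ x, q i x * (F x).1 ζ) z₁ = c → γ z₁ i = 0) → γ z₁ = 0)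
    (htan : ∀ (i : Fin N) (z : ℂ) (c : ℕ), (∀ a, (c : ℕ∞) ≤ analyticOrderAt (F a).1 z) →
      (∃ a, analyticOrderAt (F a).1 z = c) →
      analyticOrderAt (fun ζ => ∑ a, q i a * (F a).1 ζ) z ≠ ((c + 1 : ℕ) : ℕ∞)) : False := by
  classical
  obtain ⟨u, G, lam, mu, hu1, hucard, hGli, hFG, hGF, hmulam⟩ := coords_gen_pkg F hF
  obtain ⟨s, hs⟩ : ∃ s, Module.finrank ℂ ((Fin N → ℂ) ⧸ K) = s := ⟨_, rfl⟩
  rw [hs] at hcard
  have hcount := hyper_count_pkg q K hs h2
  -- the vector `h` in the coordinates of `τ`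
  set up : (Fin (u + 1) → ℂ) → τ → ℂ := fun h x => ∑ l, h l * lam l x with hup
  have hup0 : ∀ h, h ≠ 0 → up h ≠ 0 := by
    intro h hh h0
    apply hh
    funext l
    have e1 : ∑ x, mu l x * up h x = h l := by
      simp only [hup, Finset.mul_sum]
      rw [Finset.sum_comm]
      have e2 : ∀ l', ∑ x, mu l x * (h l' * lam l' x) = h l' * (if l = l' then 1 else 0) := by
        intro l'
        rw [← hmulam l l', Finset.mul_sum]
        exact Finset.sum_congr rfl fun x _ => by ring
      rw [Finset.sum_congr rfl fun l' _ => e2 l']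
      simp
    rw [← e1, h0]
    simp
  have hFz : ∀ x z, (F x).1 z = ∑ l, lam l x * (G l).1 z := by
    intro x z
    conv_lhs => rw [hFG x]
    rw [AddSubmonoidClass.coe_finsetSum, Finset.sum_apply]
    rfl
  have hGz : ∀ l z, (G l).1 z = ∑ x, mu l x * (F x).1 z := by
    intro l z
    conv_lhs => rw [hGF l]
    rw [AddSubmonoidClass.coe_finsetSum, Finset.sum_apply]
    rfl
  have hdFz : ∀ x z, (dE (F x)).1 z = ∑ l, lam l x * deriv (G l).1 z := by
    intro x z
    have e1 : (F x).1 = fun z => ∑ l, lam l x * (G l).1 z := funext fun z => hFz x z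
    show deriv (F x).1 z = _
    rw [e1, deriv_fun_sum (fun l _ => ((Ent.diff (G l)).differentiableAt).const_mul _)]
    exact Finset.sum_congr rfl fun l _ => by
      rw [deriv_const_mul _ (Ent.diff (G l)).differentiableAt]
  have hupG : ∀ z, up (fun l => (G l).1 z) = fun x => (F x).1 z := by
    intro z
    funext x
    rw [hFz x z]
    exact Finset.sum_congr rfl fun l _ => by ring
  have hupG' : ∀ z, up (fun l => deriv (G l).1 z) = fun x => (dE (F x)).1 z := by
    intro z
    funext x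
    rw [hdFz x z]
    exact Finset.sum_congr rfl fun l _ => by ring
  have hdtup : ∀ (a : τ → ℂ) (h : Fin (u + 1) → ℂ), ∑ l, (∑ x, a x * lam l x) * h l =
      dt a (up h) := by
    intro a h
    unfold dt
    simp only [hup, Finset.sum_mul, Finset.mul_sum]
    rw [Finset.sum_comm]
    exact Finset.sum_congr rfl fun x _ => Finset.sum_congr rfl fun l _ => by ring
  set q' : Fin N → Fin (u + 1) → ℂ := fun i l => ∑ x, q i x * lam l x with hq'
  set yv' : Y → Fin (u + 1) → ℂ := fun y l => ∑ x, yv y x * lam l x with hyv'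
  have hwd : ∀ (h h' : Fin (u + 1) → ℂ) (y : Y) (i : Fin N), wd h h' (yv' y) (q' i) =
      wdt (up h) (up h') (yv y) (q i) := by
    intro h h' y i
    unfold wd wdt
    rw [← hdtup, ← hdtup, ← hdtup, ← hdtup]
  have hq'G : ∀ i z, ∑ l, q' i l * (G l).1 z = ∑ x, q i x * (F x).1 z := by
    intro i z
    rw [hdtup (q i) (fun l => (G l).1 z), hupG]
    rfl
  -- orders
  have hord1 : ∀ (z : ℂ) (c : ℕ), (∀ l, (c : ℕ∞) ≤ analyticOrderAt (G l).1 z) →
      ∀ x, (c : ℕ∞) ≤ analyticOrderAt (F x).1 z := by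
    intro z c hc x
    have e1 : (F x).1 = fun z => ∑ l, lam l x * (G l).1 z := funext fun z => hFz x z
    rw [e1]
    exact order_linear (fun l => lam l x) (fun l => (G l).1) z
      (fun l => (Ent.diff (G l)).analyticAt z) c hc
  have hord2 : ∀ (z : ℂ) (c : ℕ), (∀ x, (c : ℕ∞) ≤ analyticOrderAt (F x).1 z) →
      ∀ l, (c : ℕ∞) ≤ analyticOrderAt (G l).1 z := by
    intro z c hc l
    rw [show (G l).1 = fun z => ∑ x, mu l x * (F x).1 z from funext fun z => hGz l z]
    have hana : ∀ x, AnalyticAt ℂ (fun ζ => mu l x * (F x).1 ζ) z := fun x =>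
      analyticAt_const.mul ((Ent.diff (F x)).analyticAt z)
    have e2 : ∀ S : Finset τ, AnalyticAt ℂ (fun ζ => ∑ x ∈ S, mu l x * (F x).1 ζ) z ∧
        (c : ℕ∞) ≤ analyticOrderAt (fun ζ => ∑ x ∈ S, mu l x * (F x).1 ζ) z := by
      intro S
      induction S using Finset.induction_on with
      | empty =>
        refine ⟨?_, ?_⟩
        · simp only [Finset.sum_empty]
          exact analyticAt_const
        · simp only [Finset.sum_empty]
          rw [analyticOrderAt_eq_top.mpr (Filter.Eventually.of_forall fun _ => rfl)]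
          exact le_top
      | insert x S hx ih =>
        have e3 : (fun ζ => ∑ x ∈ insert x S, mu l x * (F x).1 ζ) =
            (fun ζ => mu l x * (F x).1 ζ) + (fun ζ => ∑ x ∈ S, mu l x * (F x).1 ζ) := by
          funext ζ
          rw [Finset.sum_insert hx]
          rfl
        rw [e3]
        refine ⟨(hana x).add ih.1, ?_⟩
        refine le_trans (le_min ?_ ih.2) (le_analyticOrderAt_add)
        have e4 : (fun ζ => mu l x * (F x).1 ζ) = (fun _ => mu l x) * (F x).1 := rfl
        rw [e4, analyticOrderAt_mul analyticAt_const ((Ent.diff (F x)).analyticAt z)]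
        exact le_add_left (hc x)
    exact (e2 Finset.univ).2
  have hord3 : ∀ (z : ℂ) (c : ℕ), (∀ l, (c : ℕ∞) ≤ analyticOrderAt (G l).1 z) →
      (∃ l, analyticOrderAt (G l).1 z = c) → ∃ x, analyticOrderAt (F x).1 z = c := by
    intro z c hc ⟨l, hl⟩
    by_contra hcon
    push Not at hcon
    have e1 : ∀ x, ((c + 1 : ℕ) : ℕ∞) ≤ analyticOrderAt (F x).1 z := by
      intro x
      have e2 := hord1 z c hc x
      have e3 := hcon x
      push_cast
      exact Order.add_one_le_of_lt (lt_of_le_of_ne e2 (Ne.symm e3))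
    have e2 := hord2 z (c + 1) e1 l
    rw [hl] at e2
    have e3 : c + 1 ≤ c := by exact_mod_cast e2
    omega
  refine no_tangential2 (m := u) (s := s) hu1 q' ?_ ?_ ?_ (fun l => (G l).1)
    (fun l => Ent.diff _) ?_ ?_ ?_ ?_
  · intro i hi
    apply hqF i
    apply Ent.ext'
    intro z
    have e1 := hq'G i z
    rw [hi] at e1
    rw [AddSubmonoidClass.coe_finsetSum, Finset.sum_apply]
    show ∑ x, q i x * (F x).1 z = 0
    rw [← e1]
    simp
  · refine lt_of_le_of_lt (Nat.mul_le_mul_right s ?_) hcard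
    omega
  · intro h hh
    have e1 := hcount (up h) (hup0 h hh)
    refine le_trans (le_of_eq ?_) e1
    congr 1
    apply Finset.filter_congr
    intro i _
    rw [← hdtup]
  · rw [Fintype.linearIndependent_iff]
    intro c hc
    apply (Fintype.linearIndependent_iff.mp hGli) c
    apply Ent.ext'
    intro z
    have e2 := congrFun hc z
    rw [Finset.sum_apply] at e2
    rw [AddSubmonoidClass.coe_finsetSum, Finset.sum_apply]
    exact e2
  · intro l z
    show (G l).1 _ = (G l).1 _
    rw [hGz, hGz]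
    exact Finset.sum_congr rfl fun x _ => by rw [hper]
  · refine exists_phi2 q' yv' L K hs ?_ (fun l => (G l).1) (fun l => Ent.diff _) ?_
    · intro γ hγ h h' y
      rw [← h1 γ hγ (up h) (up h') y]
      exact Finset.sum_congr rfl fun i _ => by rw [hwd]
    · intro z₁ c hc hc' γ hγ hγ0 hsupp
      refine hlim z₁ c (hord1 z₁ c hc) (hord3 z₁ c hc hc') γ hγ ?_ ?_
      · filter_upwards [hγ0] with z hz y
        rw [← hz y]
        apply Finset.sum_congr rfl
        intro i _
        rw [hwd, hupG, hupG']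
      · intro i hi
        apply hsupp i
        rw [← hi]
        congr 1
        funext ζ
        exact hq'G i ζ
  · intro i z c hc hc' h5
    refine htan i z c (hord1 z c hc) (hord3 z c hc hc') ?_
    rw [← h5]
    congr 1
    funext ζ
    exact (hq'G i ζ).symm

end Pool.Agent.SQ
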