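import Pool.Agent.Lib_MP_b9fedf_sq.Defs3

/-! Finitely many points in general position such that the lines joining them detect the forms of
bounded degree up to finitely many. -/

set_option autoImplicit false

namespace Pool.Agent.SQ
open MvPolynomial

/-- `2 ^ m * 3 ^ n' = 2 ^ n * 3 ^ m'` implies `m = n` (complex version). -/
private theorem two_three_planes {m n m' n' : ℕ} (h : (2 : ℂ) ^ m * 3 ^ n' = 2 ^ n * 3 ^ m') :
    m = n := by
  have h1 : 2 ^ m * 3 ^ n' = 2 ^ n * 3 ^ m' := by exact_mod_cast h
  have key : ∀ a b c d : ℕ, 2 ^ a * 3 ^ b = 2 ^ c * 3 ^ d → a ≤ c := by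
    intro a b c d h
    have h2 : 2 ^ a ∣ 2 ^ c * 3 ^ d := Dvd.intro _ h
    have h3 : Nat.Coprime (2 ^ a) (3 ^ d) := Nat.Coprime.pow a d (by norm_num)
    exact (Nat.pow_dvd_pow_iff_le_right (by norm_num)).1 (h3.dvd_of_dvd_mul_right h2)
  exact le_antisymm (key _ _ _ _ h1) (key _ _ _ _ h1.symm)

/-- the grid -/
private noncomputable def gridS_planes (k M : ℕ) (i : Fin (k + 1)) : Finset ℂ :=
  (Finset.range (M + 1)).image (fun n : ℕ => (if i = 0 then (2 : ℂ) else 3) ^ n)

private theorem card_gridS_planes (k M : ℕ) (i : Fin (k + 1)) :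
    (gridS_planes k M i).card = M + 1 := by
  unfold gridS_planes
  rw [Finset.card_image_of_injective, Finset.card_range]
  intro a b hab
  simp only at hab
  split_ifs at hab
  · have : (2 : ℕ) ^ a = 2 ^ b := by exact_mod_cast hab
    exact Nat.pow_right_injective (le_refl 2) this
  · have : (3 : ℕ) ^ a = 3 ^ b := by exact_mod_cast hab
    exact Nat.pow_right_injective (by norm_num) this

/-- the possible values at `1` of a polynomial of degree at most `B` with value `1` at `0` and roots
in `T` -/
private noncomputable def vals_planes (B : ℕ) (T : Finset ℂ) : Set ℂ :=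
  (fun m : Multiset ℂ => (m.map (fun r => (1 - r) / (0 - r))).prod) '' Set.Iic (B • T.val)

private theorem vals_finite_planes (B : ℕ) (T : Finset ℂ) : (vals_planes B T).Finite := by
  classical
  exact (Set.finite_Iic _).image _

private theorem mem_vals_planes {B : ℕ} {T : Finset ℂ} {f : Polynomial ℂ}
    (hf : f.natDegree ≤ B) (h0 : f.eval 0 = 1) (hT : ∀ t, f.eval t = 0 → t ∈ T) :
    f.eval 1 ∈ vals_planes B T := by
  classical
  have hne : f ≠ 0 := by
    rintro rfl
    simp at h0
  refine ⟨f.roots, ?_, ?_⟩
  · rw [Set.mem_Iic, Multiset.le_iff_count]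
    intro r
    rw [Multiset.count_nsmul]
    by_cases hr : r ∈ f.roots
    · have hrT : r ∈ T := hT r (Polynomial.isRoot_of_mem_roots hr)
      have h1 : T.val.count r = 1 := Multiset.count_eq_one_of_mem T.nodup hrT
      rw [h1, mul_one]
      calc f.roots.count r ≤ Multiset.card f.roots := Multiset.count_le_card _ _
        _ ≤ f.natDegree := Polynomial.card_roots' f
        _ ≤ B := hf
    · rw [Multiset.count_eq_zero_of_notMem hr]
      exact Nat.zero_le _
  · have hs : f.Splits := IsAlgClosed.splits f
    have e0 := hs.eval_eq_prod_roots 0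
    have e1 := hs.eval_eq_prod_roots 1
    rw [h0] at e0
    have hlc : f.leadingCoeff ≠ 0 := Polynomial.leadingCoeff_ne_zero.2 hne
    simp only
    rw [Multiset.prod_map_div, e1]
    have hne0 : (f.roots.map (fun r => (0 : ℂ) - r)).prod ≠ 0 := by
      intro h
      rw [h, mul_zero] at e0
      exact one_ne_zero e0
    rw [div_eq_iff hne0]
    calc (f.roots.map (fun r => (1 : ℂ) - r)).prod
        = (f.roots.map (fun r => (1 : ℂ) - r)).prod *
          (f.leadingCoeff * (f.roots.map (fun r => (0 : ℂ) - r)).prod) := by rw [← e0, mul_one]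
      _ = _ := by ring

/-- the restriction of `π` to a line -/
private noncomputable def res_planes {k : ℕ} (e e' : Fin (k + 1) → ℂ) (π : Pp k) :
    Polynomial ℂ :=
  aeval (fun i => Polynomial.C (e i) + Polynomial.X * Polynomial.C (e' i - e i)) π

private theorem eval_res_planes {k : ℕ} (e e' : Fin (k + 1) → ℂ) (π : Pp k) (t : ℂ) :
    (res_planes e e' π).eval t = eval (fun i => e i + t * (e' i - e i)) π := by
  unfold res_planes
  induction π using MvPolynomial.induction_on with
  | C a => simp
  | add p q hp hq => rw [map_add, Polynomial.eval_add, hp, hq, map_add]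
  | mul_X p i hp =>
    rw [map_mul, Polynomial.eval_mul, hp, map_mul, aeval_X, eval_X]
    simp

private theorem deg_res_planes {k B : ℕ} (e e' : Fin (k + 1) → ℂ) (π : Pp k)
    (h : π.totalDegree ≤ B) : (res_planes e e' π).natDegree ≤ B := by
  have := MvPolynomial.aeval_natDegree_le (n := 1) π h
    (fun i => Polynomial.C (e i) + Polynomial.X * Polynomial.C (e' i - e i)) (by
      intro i
      refine Polynomial.natDegree_add_le_of_degree_le ?_ ?_
      · rw [Polynomial.natDegree_C]
        exact Nat.zero_le _
      · refine Polynomial.natDegree_mul_le.trans ?_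
        rw [Polynomial.natDegree_C, add_zero]
        exact Polynomial.natDegree_X_le)
  rw [mul_one] at this
  exact this

/-- PIECE PLANES -/
theorem planes {k : ℕ} (hk : 1 ≤ k) (B : ℕ) (p₀ : Pp k) (hp₀ : p₀ ≠ 0) :
    ∃ (Q : ℕ) (ε : Fin Q → Fin (k + 1) → ℂ), (∀ a, eval (ε a) p₀ ≠ 0) ∧
      (∀ a b, a ≠ b → LinearIndependent ℂ ![ε a, fun i => ε b i - ε a i]) ∧
      Detects B Q ε := by
  classical
  set M : ℕ := B + p₀.totalDegree with hM
  set G : Finset (Fin (k + 1) → ℂ) :=
    (Fintype.piFinset (gridS_planes k M)).filter (fun x => eval x p₀ ≠ 0) with hG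
  -- no nonzero form of degree at most `B` vanishes on `G`
  have hdet : ∀ π : Pp k, π.totalDegree ≤ B → (∀ x ∈ G, eval x π = 0) → π = 0 := by
    intro π hπ hv
    by_contra hne
    refine mul_ne_zero hne hp₀ ?_
    refine eq_zero_of_eval_zero_at_prod_finset (π * p₀) (gridS_planes k M) ?_ ?_
    · intro i
      rw [card_gridS_planes]
      refine Nat.lt_succ_of_le ?_
      refine (degreeOf_le_totalDegree _ _).trans ?_
      exact (totalDegree_mul _ _).trans (Nat.add_le_add_right hπ _)
    · intro x hx
      rw [map_mul]
      by_cases hx0 : eval x p₀ = 0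
      · rw [hx0, mul_zero]
      · rw [hv x (Finset.mem_filter.2 ⟨Fintype.mem_piFinset.2 hx, hx0⟩), zero_mul]
  let eqv := G.equivFin
  let ε : Fin G.card → Fin (k + 1) → ℂ := fun a => (eqv.symm a).1
  have hεG : ∀ a, ε a ∈ G := fun a => (eqv.symm a).2
  have hεinj : Function.Injective ε := by
    intro a b hab
    exact eqv.symm.injective (Subtype.ext hab)
  have hεsurj : ∀ x ∈ G, ∃ a, ε a = x := by
    intro x hx
    refine ⟨eqv ⟨x, hx⟩, ?_⟩
    show (eqv.symm (eqv ⟨x, hx⟩)).1 = x
    rw [Equiv.symm_apply_apply]
  have hdet' : ∀ π : Pp k, π.totalDegree ≤ B → (∀ a, eval (ε a) π = 0) → π = 0 := by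
    intro π hπ hv
    refine hdet π hπ ?_
    intro x hx
    obtain ⟨a, rfl⟩ := hεsurj x hx
    exact hv a
  refine ⟨G.card, ε, ?_, ?_, ?_⟩
  · intro a
    exact (Finset.mem_filter.1 (hεG a)).2
  · intro a b hab
    have hcoord : ∀ a, ∀ i, ∃ n : ℕ, (if i = 0 then (2 : ℂ) else 3) ^ n = ε a i := by
      intro a i
      have h1 := (Finset.mem_filter.1 (hεG a)).1
      have h2 := Fintype.mem_piFinset.1 h1 i
      unfold gridS_planes at h2
      obtain ⟨n, -, hn⟩ := Finset.mem_image.1 h2
      exact ⟨n, hn⟩
    have hne0 : ∀ a i, ε a i ≠ 0 := by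
      intro a i
      obtain ⟨n, hn⟩ := hcoord a i
      rw [← hn]
      refine pow_ne_zero _ ?_
      split_ifs <;> norm_num
    rw [LinearIndependent.pair_iff]
    intro s t hst
    have hst' : ∀ i, (s - t) * ε a i = - (t * ε b i) := by
      intro i
      have := congrFun hst i
      simp only [Pi.add_apply, Pi.smul_apply, smul_eq_mul, Pi.zero_apply] at this
      linear_combination this
    have ht : t = 0 := by
      by_contra ht
      apply hab
      apply hεinj
      obtain ⟨m, hm⟩ := hcoord a 0
      obtain ⟨n, hn⟩ := hcoord b 0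
      rw [if_pos rfl] at hm hn
      have h10 : (⟨1, by omega⟩ : Fin (k + 1)) ≠ 0 := by
        intro h
        have := congrArg Fin.val h
        simp at this
      obtain ⟨m', hm'⟩ := hcoord a ⟨1, by omega⟩
      obtain ⟨n', hn'⟩ := hcoord b ⟨1, by omega⟩
      rw [if_neg h10] at hm' hn'
      have e0 := hst' 0
      have e1 := hst' ⟨1, by omega⟩
      rw [← hm, ← hn] at e0
      rw [← hm', ← hn'] at e1
      have hmn : m = n := by
        refine two_three_planes (m' := m') (n' := n') ?_
        refine mul_left_cancel₀ ht ?_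
        have hst0 : s - t ≠ 0 := by
          intro h0
          rw [h0, zero_mul] at e0
          have : t * (2 : ℂ) ^ n = 0 := by linear_combination e0
          rcases mul_eq_zero.1 this with h1 | h1
          · exact ht h1
          · exact absurd h1 (pow_ne_zero _ (by norm_num))
        refine mul_left_cancel₀ hst0 ?_
        linear_combination (t * (3 : ℂ) ^ n') * e0 - (t * (2 : ℂ) ^ n) * e1
      subst hmn
      have hst1 : s - t = - t := by
        have h2 : (2 : ℂ) ^ m ≠ 0 := pow_ne_zero _ (by norm_num)
        refine mul_right_cancel₀ h2 ?_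
        linear_combination e0
      funext i
      have := hst' i
      rw [hst1] at this
      have h3 : t * ε a i = t * ε b i := by linear_combination -this
      exact mul_left_cancel₀ ht h3
    subst ht
    refine ⟨?_, rfl⟩
    have := hst' 0
    rw [sub_zero, zero_mul, neg_zero] at this
    rcases mul_eq_zero.1 this with h1 | h1
    · exact h1
    · exact absurd h1 (hne0 a 0)
  · intro T
    -- the finite set of normalized forms
    let A : ℕ → Fin G.card → Set (Pp k) := fun d a =>
      {π | π.IsHomogeneous d ∧ ∀ b, eval (ε b) π ∈ insert 1 (vals_planes B (T a b))}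
    have hA : ∀ d ≤ B, ∀ a, (A d a).Finite := by
      intro d hd a
      have hfin : (Set.pi Set.univ (fun b => insert 1 (vals_planes B (T a b))) :
          Set (Fin G.card → ℂ)).Finite :=
        Set.Finite.pi' (fun b => (vals_finite_planes B (T a b)).insert 1) |>.subset (by
          intro x hx b
          exact hx b (Set.mem_univ b))
      refine Set.Finite.of_finite_image (f := fun π : Pp k => fun b => eval (ε b) π)
        (hfin.subset ?_) ?_
      · rintro _ ⟨π, hπ, rfl⟩ b _
        exact hπ.2 b
      · intro π hπ π' hπ' heq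
        have h1 : π - π' = 0 := by
          refine hdet' _ ?_ ?_
          · exact (hπ.1.sub hπ'.1).totalDegree_le.trans hd
          · intro b
            rw [map_sub]
            exact sub_eq_zero.2 (congrFun heq b)
        exact sub_eq_zero.1 h1
    have hfinS : (⋃ d ∈ Finset.range (B + 1), ⋃ a, A d a).Finite := by
      refine Set.Finite.biUnion (Finset.finite_toSet _) ?_
      intro d hd
      have hd' : d ≤ B := Nat.lt_succ_iff.1 (Finset.mem_range.1 (Finset.mem_coe.1 hd))
      exact Set.finite_iUnion (fun a => hA d hd' a)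
    refine ⟨hfinS.toFinset, ?_⟩
    intro π d hd hπ hne hroots
    -- choose a point with nonzero value
    obtain ⟨a, ha⟩ : ∃ a, eval (ε a) π ≠ 0 := by
      by_contra hcon
      push Not at hcon
      exact hne (hdet' π (hπ.totalDegree_le.trans hd) hcon)
    refine ⟨C (eval (ε a) π)⁻¹ * π, ?_, eval (ε a) π, ha, ?_⟩
    · rw [Set.Finite.mem_toFinset]
      simp only [Set.mem_iUnion]
      refine ⟨d, Finset.mem_range.2 (Nat.lt_succ_of_le hd), a, ?_, ?_⟩
      · have := (isHomogeneous_C (Fin (k + 1)) (eval (ε a) π)⁻¹).mul hπ
        rwa [zero_add] at this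
      · intro b
        by_cases hab : a = b
        · subst hab
          left
          rw [map_mul, eval_C, inv_mul_cancel₀ ha]
        · right
          set π₁ : Pp k := C (eval (ε a) π)⁻¹ * π with hπ₁
          have hdeg : π₁.totalDegree ≤ B := by
            have : π₁.IsHomogeneous d := by
              have := (isHomogeneous_C (Fin (k + 1)) (eval (ε a) π)⁻¹).mul hπ
              rwa [zero_add] at this
            exact this.totalDegree_le.trans hd
          have h1 := mem_vals_planes (T := T a b) (deg_res_planes (ε a) (ε b) π₁ hdeg) (by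
              rw [eval_res_planes]
              have : (fun i => ε a i + 0 * (ε b i - ε a i)) = ε a := by
                funext i
                ring
              rw [this, hπ₁, map_mul, eval_C, inv_mul_cancel₀ ha]) (by
              intro t ht
              rw [eval_res_planes, hπ₁, map_mul, eval_C] at ht
              rcases mul_eq_zero.1 ht with h | h
              · exact absurd h (inv_ne_zero ha)
              · exact hroots a b hab t h)
          rw [eval_res_planes] at h1
          have h2 : (fun i => ε a i + 1 * (ε b i - ε a i)) = ε b := by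
            funext i
            ring
          rw [h2] at h1
          exact h1
    · rw [← mul_assoc, ← C_mul, mul_inv_cancel₀ ha, C_1, one_mul]

end Pool.Agent.SQ
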