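import Pool.Agent.Lib_MP_b9fedf_sq.FiberPrimes

/-! Piece CPTWO: a uniform power of a linear form over the generic point of a hypersurface. -/

set_option autoImplicit false

namespace Pool.Agent.SQ
open MvPolynomial

private theorem mem_pair_cprime {R : Type} [CommRing R] (N : Ideal R) (l x : R) :
    x ∈ Ideal.span {l} ⊔ N ↔ ∃ w, x - l * w ∈ N := by
  constructor
  · intro h
    obtain ⟨y, hy, z, hz, rfl⟩ := Submodule.mem_sup.mp h
    obtain ⟨w, rfl⟩ := Ideal.mem_span_singleton.mp hy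
    exact ⟨w, by rwa [add_sub_cancel_left]⟩
  · rintro ⟨w, hw⟩
    have h : x = l * w + (x - l * w) := by ring
    rw [h]
    exact add_mem (Ideal.mem_sup_left (Ideal.mul_mem_right _ _ (Ideal.mem_span_singleton_self l)))
      (Ideal.mem_sup_right hw)

private theorem sInf_le_prime_cprime {R : Type} [CommRing R] (S : Set (Ideal R)) (hS : S.Finite)
    (Q : Ideal R) (hQ : Q.IsPrime) (h : sInf S ≤ Q) : ∃ 𝔓 ∈ S, 𝔓 ≤ Q := by
  classical
  have h1 : sInf S = hS.toFinset.inf id := by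
    rw [Finset.inf_id_eq_sInf, hS.coe_toFinset]
  rw [h1, hQ.inf_le'] at h
  obtain ⟨i, hi, hi'⟩ := h
  exact ⟨i, hS.mem_toFinset.mp hi, hi'⟩

private theorem pow_le_B_cprime {k : ℕ} (π p : Pp k) (hπ : Irreducible π) (dp n : ℕ)
    (hp : p ≠ 0) (hd : p.IsHomogeneous dp) (h : π ^ n ∣ p) : n ≤ dp := by
  obtain ⟨q, rfl⟩ := h
  have hq : q ≠ 0 := right_ne_zero_of_mul hp
  have hπn : π ^ n ≠ 0 := left_ne_zero_of_mul hp
  have h1 : (π ^ n * q).totalDegree = dp := hd.totalDegree hp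
  have h2 : (π ^ n * q).totalDegree = (π ^ n).totalDegree + q.totalDegree :=
    totalDegree_mul_of_isDomain hπn hq
  have h3 : ∀ m : ℕ, (π ^ m).totalDegree = m * π.totalDegree := by
    intro m
    induction m with
    | zero => rw [pow_zero, totalDegree_one, zero_mul]
    | succ m ih =>
      rw [pow_succ, totalDegree_mul_of_isDomain (pow_ne_zero m hπ.ne_zero) hπ.ne_zero, ih]
      ring
  have h4 : π.totalDegree ≠ 0 := by
    intro h0
    rw [totalDegree_eq_zero_iff_eq_C] at h0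
    apply hπ.not_isUnit
    rw [h0]
    refine IsUnit.map C (isUnit_iff_ne_zero.mpr ?_)
    intro hc
    rw [hc, C_0] at h0
    exact hπ.ne_zero h0
  have h5 : n * 1 ≤ n * π.totalDegree := Nat.mul_le_mul_left n (Nat.one_le_iff_ne_zero.mpr h4)
  have h6 := h3 n
  omega

/-- PIECE CPTWO (from CPONE) -/
theorem cprime {k j r : ℕ} {I : Ideal (Sp k j)} {b : Fin r → Sp k j}
    {db : Fin r → ℕ} (hI : CI I r b db) (N : Ideal (Sp k j)) (hIN : I ≤ N) (B : ℕ) (π : Pp k)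
    (hπ : Irreducible π) :
    ∃ (S : Set (Ideal (Sp k j))) (b₀ : ℕ), S.Finite ∧ (∀ 𝔓 ∈ S, 𝔓.IsPrime) ∧
      ∀ h₀ h : Fin (k + 1) ⊕ Fin j → ℂ, (∀ 𝔓 ∈ S, lin h₀ ∈ 𝔓 → lin h ∈ 𝔓) →
        (∃ (p : Pp k) (dp : ℕ) (α : Sp k j), p ≠ 0 ∧ p.IsHomogeneous dp ∧ dp ≤ B ∧
          inc p - lin h₀ * α ∈ N) →
        ∃ (g : Pp k) (w : Sp k j), ¬ π ∣ g ∧ inc g * lin h ^ b₀ - lin h₀ * w ∈ N := by
  classical
  obtain ⟨S, b₁, g₁, hfin, hprime, hinc, hg₁, hJ, hx⟩ := fiber_primes hI N hIN π hπ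
  have hπp : Prime π := hπ.prime
  refine ⟨S, B * b₁, hfin, hprime, ?_⟩
  rintro h₀ h hh ⟨p, dp, α, hp, hpd, hdB, hpα⟩
  set S₂ : Set (Ideal (Sp k j)) := {𝔓 | 𝔓 ∈ S ∧ lin h₀ ∉ 𝔓} with hS₂
  set E : Ideal (Sp k j) := sInf S₂ with hE
  have hJn : ∀ 𝔓 ∈ S, ¬ (E ^ b₁ ⊔ (Ideal.span {inc π} ⊔ (Ideal.span {lin h₀} ⊔ N))) ≤ 𝔓 := by
    intro Q hQ hle
    have hQp := hprime Q hQ
    have h1 : E ≤ Q := hQp.le_of_pow_le (le_sup_left.trans hle)
    have h2 : lin h₀ ∈ Q := hle (Ideal.mem_sup_right (Ideal.mem_sup_right (Ideal.mem_sup_left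
      (Ideal.mem_span_singleton_self _))))
    obtain ⟨Q', hQ', hQ'Q⟩ := sInf_le_prime_cprime S₂ (hfin.subset fun _ h => h.1) Q hQp h1
    have h3 := hinc Q' hQ'.1 Q hQ hQ'Q
    exact hQ'.2 (h3 ▸ h2)
  obtain ⟨g₂, hg₂, hg₂J⟩ := hJ _ (le_sup_right.trans (le_sup_right.trans le_sup_right))
    (Ideal.mem_sup_right (Ideal.mem_sup_left (Ideal.mem_span_singleton_self _))) hJn
  obtain ⟨e, he, y, hy, hey⟩ := Submodule.mem_sup.mp hg₂J
  -- the main congruence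
  have hE1 : Ideal.span {lin h} * E ≤ sInf S := by
    refine le_sInf fun Q hQ => ?_
    by_cases h1 : lin h₀ ∈ Q
    · refine Ideal.mul_le_left.trans ?_
      rw [Ideal.span_singleton_le_iff_mem]
      exact hh Q hQ h1
    · exact Ideal.mul_le_right.trans (sInf_le ⟨hQ, h1⟩)
  have he1 : lin h ^ b₁ * e ∈ (sInf S) ^ b₁ := by
    refine Ideal.pow_right_mono hE1 b₁ ?_
    rw [mul_pow]
    exact Ideal.mul_mem_mul (Ideal.pow_mem_pow (Ideal.mem_span_singleton_self _) _) he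
  have he2 := hx _ he1
  set K : Ideal (Sp k j) := Ideal.span {lin h₀} ⊔ N with hK
  have hmain : inc (g₁ * g₂) * lin h ^ b₁ ∈ Ideal.span {inc π} ⊔ K := by
    have h1 : inc (g₁ * g₂) * lin h ^ b₁ =
        inc g₁ * (lin h ^ b₁ * e) + inc g₁ * lin h ^ b₁ * y := by
      rw [map_mul, ← hey]
      ring
    rw [h1]
    refine add_mem ?_ (Ideal.mul_mem_left _ _ hy)
    have h2 : N ⊔ Ideal.span {inc π} ≤ Ideal.span {inc π} ⊔ K :=
      sup_le (le_sup_right.trans le_sup_right) le_sup_left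
    exact h2 he2
  rw [mem_pair_cprime] at hmain
  obtain ⟨c, hc⟩ := hmain
  -- the multiplicity of `π` in `p`
  have hfm : FiniteMultiplicity π p := FiniteMultiplicity.of_prime_left hπp hp
  obtain ⟨n, p', hp', hp'd⟩ : ∃ (n : ℕ) (p' : Pp k), p = π ^ n * p' ∧ ¬ π ∣ p' :=
    ⟨_, hfm.exists_eq_pow_mul_and_not_dvd⟩
  have hnB : n ≤ B := (pow_le_B_cprime π p hπ dp n hp hpd ⟨p', hp'⟩).trans hdB
  have hpow : (inc (g₁ * g₂) * lin h ^ b₁) ^ n - (inc π * c) ^ n ∈ K := by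
    obtain ⟨z, hz⟩ := sub_dvd_pow_sub_pow (inc (g₁ * g₂) * lin h ^ b₁) (inc π * c) n
    rw [hz]
    exact Ideal.mul_mem_right _ _ hc
  have hpK : inc p ∈ K := (mem_pair_cprime N _ _).mpr ⟨α, hpα⟩
  have hfinal : inc (p' * (g₁ * g₂) ^ n) * lin h ^ (B * b₁) ∈ K := by
    have h1 : inc (p' * (g₁ * g₂) ^ n) * lin h ^ (B * b₁) =
        lin h ^ ((B - n) * b₁) * (inc p' * ((inc (g₁ * g₂) * lin h ^ b₁) ^ n - (inc π * c) ^ n) +
          c ^ n * inc p) := by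
      have h2 : B * b₁ = (B - n) * b₁ + b₁ * n := by
        obtain ⟨m, rfl⟩ := Nat.exists_eq_add_of_le hnB
        rw [Nat.add_sub_cancel_left]
        ring
      have h3 : (inc p : Sp k j) = inc π ^ n * inc p' := by
        rw [hp', map_mul, map_pow]
      rw [h2, h3, map_mul, map_pow, pow_add, pow_mul]
      ring
    rw [h1]
    exact Ideal.mul_mem_left _ _ (add_mem (Ideal.mul_mem_left _ _ hpow)
      (Ideal.mul_mem_left _ _ hpK))
  obtain ⟨w, hw⟩ := (mem_pair_cprime N _ _).mp hfinal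
  refine ⟨p' * (g₁ * g₂) ^ n, w, ?_, hw⟩
  intro hd
  rcases hπp.dvd_or_dvd hd with h1 | h1
  · exact hp'd h1
  · rcases hπp.dvd_or_dvd (hπp.dvd_of_dvd_pow h1) with h2 | h2
    · exact hg₁ h2
    · exact hg₂ h2

end Pool.Agent.SQ
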