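import Pool.Agent.Lib_MP_b9fedf_sq.Defs2

/-! Definitions for the strong form. -/

set_option autoImplicit false

namespace Pool.Agent.SQ
open MvPolynomial

/-- The lines joining the points `ε a` detect forms of degree at most `B` up to finitely many. -/
def Detects {k : ℕ} (B Q : ℕ) (ε : Fin Q → Fin (k + 1) → ℂ) : Prop :=
  ∀ T : Fin Q → Fin Q → Finset ℂ, ∃ S : Finset (Pp k), ∀ (π : Pp k) (d : ℕ), d ≤ B →
    π.IsHomogeneous d → π ≠ 0 →
    (∀ a b, a ≠ b → ∀ t : ℂ, eval (fun i => ε a i + t * (ε b i - ε a i)) π = 0 → t ∈ T a b) →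
    ∃ π₀ ∈ S, ∃ c : ℂ, c ≠ 0 ∧ π = C c * π₀

/-- No point of `V(N)` over a transcendental point of the line through `e` with direction `e'` is
orthogonal to `F` and its derivative. -/
def NoTr {k j : ℕ} (N : Ideal (Sp k j)) (e e' : Fin (k + 1) → ℂ)
    (F : Fin (k + 1) ⊕ Fin j → Ent) : Prop :=
  ∀ (Ω : Type) [Field Ω] (ψ : Ent →+* Ω), Function.Injective ψ →
      (∀ x : Ω, ∃ P : Polynomial Ent, P ≠ 0 ∧ P.eval₂ ψ x = 0) →
      ∀ (t : Ω) (p : Fin (k + 1) ⊕ Fin j → Ω),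
      (∀ P : Polynomial ℂ, P ≠ 0 → P.eval₂ (ψ.comp (algebraMap ℂ Ent)) t ≠ 0) →
      (∀ i, p (Sum.inl i) = ψ (algebraMap ℂ Ent (e i)) + t * ψ (algebraMap ℂ Ent (e' i))) →
      (∀ g ∈ N, g.eval₂ (ψ.comp (algebraMap ℂ Ent)) p = 0) →
      ∑ i, p i * ψ (F i) = 0 → ∑ i, p i * ψ (dE (F i)) = 0 → False

end Pool.Agent.SQ
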