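import Mathlib
import Pool.Agent.Lib_MP_b9fedf_sq.Defs3
import Pool.Agent.Lib_MP_b9fedf_sq.EntDom
import Pool.Agent.Lib_MP_b9fedf_sq.Null

/-! Piece GENL: genericity of an entire curve (possibly degenerate) and its derivative along an
affine line. -/

set_option autoImplicit false

namespace Pool.Agent.SQ
open MvPolynomial

private theorem ci_span_gl {k j r : ℕ} {I : Ideal (Sp k j)} {b : Fin r → Sp k j}
    {db : Fin r → ℕ} (hI : CI I r b db) (s : Sp k j) :
    ∃ p : Fin r → Pp k, s - ∑ i, inc (p i) * b i ∈ I := by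
  have h : ∀ d, ∃ p : Fin r → Pp k,
      homogeneousComponent d s - ∑ i, inc (p i) * b i ∈ I := by
    intro d
    obtain ⟨p, _, hp⟩ := hI.span d _ (homogeneousComponent_isHomogeneous d s)
    exact ⟨p, hp⟩
  choose p hp using h
  refine ⟨fun i => ∑ d ∈ Finset.range (s.totalDegree + 1), p d i, ?_⟩
  have h1 : s - ∑ i, inc (∑ d ∈ Finset.range (s.totalDegree + 1), p d i) * b i =
      ∑ d ∈ Finset.range (s.totalDegree + 1),
        (homogeneousComponent d s - ∑ i, inc (p d i) * b i) := by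
    rw [Finset.sum_sub_distrib, sum_homogeneousComponent, Finset.sum_comm]
    congr 1
    refine Finset.sum_congr rfl fun i _ => ?_
    rw [map_sum, Finset.sum_mul]
  rw [h1]
  exact I.sum_mem fun d _ => hp d

/-- every element is integral over the polynomials in `u` modulo `I` -/
private theorem int_gl {k j r : ℕ} {I : Ideal (Sp k j)} {b : Fin r → Sp k j}
    {db : Fin r → ℕ} (hI : CI I r b db) (s : Sp k j) :
    ∃ G : Polynomial (Pp k), G.Monic ∧
      G.eval₂ ((inc : Pp k →ₐ[ℂ] Sp k j) : Pp k →+* Sp k j) s ∈ I := by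
  let f : Pp k →+* (Sp k j ⧸ I) :=
    (Ideal.Quotient.mk I).comp ((inc : Pp k →ₐ[ℂ] Sp k j) : Pp k →+* Sp k j)
  have hfin : f.Finite := by
    let : Algebra (Pp k) (Sp k j ⧸ I) := f.toAlgebra
    show Module.Finite (Pp k) (Sp k j ⧸ I)
    classical
    refine ⟨⟨Finset.univ.image fun i => Ideal.Quotient.mk I (b i), ?_⟩⟩
    rw [eq_top_iff]
    rintro x -
    obtain ⟨s, rfl⟩ := Ideal.Quotient.mk_surjective x
    obtain ⟨p, hp⟩ := ci_span_gl hI s
    have h1 : Ideal.Quotient.mk I s = ∑ i, p i • Ideal.Quotient.mk I (b i) := by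
      rw [← sub_eq_zero]
      have h2 := Ideal.Quotient.eq_zero_iff_mem.2 hp
      rw [map_sub, map_sum] at h2
      rw [← h2]
      congr 1
    rw [h1]
    refine Submodule.sum_mem _ fun i _ => Submodule.smul_mem _ _ (Submodule.subset_span ?_)
    simp
  obtain ⟨G, hG, hG0⟩ := hfin.to_isIntegral (Ideal.Quotient.mk I s)
  refine ⟨G, hG, ?_⟩
  rw [← Ideal.Quotient.eq_zero_iff_mem, Polynomial.hom_eval₂]
  exact hG0

/-- the value of the variable `r_i` is a root of a monic polynomial -/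
private theorem root_gl {k j : ℕ} {Ω : Type} [CommRing Ω] (φ : ℂ →+* Ω)
    (p : Fin (k + 1) ⊕ Fin j → Ω) (G : Polynomial (Pp k)) (i : Fin j)
    (h : (G.eval₂ ((inc : Pp k →ₐ[ℂ] Sp k j) : Pp k →+* Sp k j) (X (Sum.inr i))).eval₂ φ p = 0) :
    G.eval₂ (eval₂Hom φ fun l => p (Sum.inl l)) (p (Sum.inr i)) = 0 := by
  have h1 : eval₂Hom φ p
      (G.eval₂ ((inc : Pp k →ₐ[ℂ] Sp k j) : Pp k →+* Sp k j) (X (Sum.inr i))) = 0 := h
  rw [Polynomial.hom_eval₂, eval₂Hom_X'] at h1
  have h2 : (eval₂Hom φ p).comp ((inc : Pp k →ₐ[ℂ] Sp k j) : Pp k →+* Sp k j) =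
      eval₂Hom φ fun l => p (Sum.inl l) := by
    apply MvPolynomial.ringHom_ext
    · intro c
      rw [RingHom.comp_apply, eval₂Hom_C]
      show eval₂Hom φ p (rename Sum.inl (C c)) = φ c
      rw [rename_C, eval₂Hom_C]
    · intro l
      rw [RingHom.comp_apply, eval₂Hom_X']
      show eval₂Hom φ p (rename Sum.inl (X l)) = _
      rw [rename_X, eval₂Hom_X']
  rwa [h2] at h1

/-- roots of complex polynomials in a field extension are complex -/
private theorem cplx_gl {Ω : Type} [Field Ω] (φ : ℂ →+* Ω) (P : Polynomial ℂ) (hP : P ≠ 0)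
    (x : Ω) (h : P.eval₂ φ x = 0) : ∃ c : ℂ, x = φ c := by
  have hs := (IsAlgClosed.splits P).eq_prod_roots
  rw [hs, Polynomial.eval₂_mul, Polynomial.eval₂_C, mul_eq_zero] at h
  rcases h with h | h
  · exact absurd ((map_eq_zero φ).1 h) (Polynomial.leadingCoeff_ne_zero.2 hP)
  · rw [Polynomial.eval₂_multiset_prod, Multiset.prod_eq_zero_iff, Multiset.map_map,
      Multiset.mem_map] at h
    obtain ⟨a, -, ha⟩ := h
    refine ⟨a, ?_⟩
    simp only [Function.comp_apply, Polynomial.eval₂_sub, Polynomial.eval₂_X,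
      Polynomial.eval₂_C] at ha
    exact sub_eq_zero.1 ha

/-- evaluation of entire functions -/
private noncomputable def evE_gl (z : ℂ) : Ent →+* ℂ :=
  (Pi.evalRingHom (fun _ : ℂ => ℂ) z).comp (Ent.val : Ent →+* (ℂ → ℂ))

private theorem evE_gl_apply (z : ℂ) (f : Ent) : evE_gl z f = f.1 z := rfl

/-- the point of the line with parameter `t` (the variable `none` is the Rabinowitsch variable) -/
private noncomputable def ptGl {k j : ℕ} (e e' : Fin (k + 1) → ℂ) :
    Fin (k + 1) ⊕ Fin j → MvPolynomial (Option (Option (Fin j))) Ent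
  | Sum.inl l => C (algebraMap ℂ Ent (e l)) + X (some none) * C (algebraMap ℂ Ent (e' l))
  | Sum.inr i => X (some (some i))

/-- the ideal of the bad points of the line -/
private noncomputable def jGl {k j : ℕ} (N : Ideal (Sp k j)) (e e' : Fin (k + 1) → ℂ)
    (F : Fin (k + 1) ⊕ Fin j → Ent) (h₀ : Fin (k + 1) ⊕ Fin j → ℂ) :
    Ideal (MvPolynomial (Option (Option (Fin j))) Ent) :=
  Ideal.span ({h | ∃ g ∈ N, h = g.eval₂
      ((C : Ent →+* MvPolynomial (Option (Option (Fin j))) Ent).comp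
      (algebraMap ℂ Ent)) (ptGl e e')} ∪
    {∑ i, ptGl e e' i * C (F i), ∑ i, ptGl e e' i * C (dE (F i)),
      1 - X none * ∑ i, ptGl e e' i * C (algebraMap ℂ Ent (h₀ i))})

private theorem ptl_eval_inl {k j : ℕ} (e e' : Fin (k + 1) → ℂ) {Ω : Type} [CommRing Ω]
    (ψ : Ent →+* Ω) (x : Option (Option (Fin j)) → Ω) (l : Fin (k + 1)) :
    (ptGl e e' (Sum.inl l)).eval₂ ψ x =
      ψ (algebraMap ℂ Ent (e l)) + x (some none) * ψ (algebraMap ℂ Ent (e' l)) := by
  simp [ptGl, eval₂_add, eval₂_mul, eval₂_C, eval₂_X]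

private theorem ptl_eval_inr {k j : ℕ} (e e' : Fin (k + 1) → ℂ) {Ω : Type} [CommRing Ω]
    (ψ : Ent →+* Ω) (x : Option (Option (Fin j)) → Ω) (i : Fin j) :
    (ptGl (k := k) e e' (Sum.inr i)).eval₂ ψ x = x (some (some i)) := by
  simp [ptGl, eval₂_X]

private theorem ptl_eval {k j : ℕ} (e e' : Fin (k + 1) → ℂ) {Ω : Type} [CommRing Ω]
    (ψ : Ent →+* Ω) (x : Option (Option (Fin j)) → Ω) (g : Sp k j) :
    (g.eval₂ ((C : Ent →+* MvPolynomial (Option (Option (Fin j))) Ent).comp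
      (algebraMap ℂ Ent)) (ptGl e e')).eval₂ ψ x =
    g.eval₂ (ψ.comp (algebraMap ℂ Ent)) fun i => (ptGl e e' i).eval₂ ψ x := by
  have h := MvPolynomial.eval₂_comp_left (eval₂Hom ψ x)
    ((C : Ent →+* MvPolynomial (Option (Option (Fin j))) Ent).comp (algebraMap ℂ Ent))
    (ptGl e e') g
  have h1 : (eval₂Hom ψ x).comp
      ((C : Ent →+* MvPolynomial (Option (Option (Fin j))) Ent).comp (algebraMap ℂ Ent)) =
      ψ.comp (algebraMap ℂ Ent) := by
    ext c
    simp
  rw [h1] at h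
  exact h

private theorem ptl_sum {k j : ℕ} (e e' : Fin (k + 1) → ℂ) {Ω : Type} [CommRing Ω]
    (ψ : Ent →+* Ω) (x : Option (Option (Fin j)) → Ω) (F : Fin (k + 1) ⊕ Fin j → Ent) :
    (∑ i, ptGl e e' i * C (F i)).eval₂ ψ x =
      ∑ i, (ptGl e e' i).eval₂ ψ x * ψ (F i) := by
  have h : eval₂Hom ψ x (∑ i, ptGl e e' i * C (F i)) =
      ∑ i, eval₂Hom ψ x (ptGl e e' i) * ψ (F i) := by
    rw [map_sum]
    refine Finset.sum_congr rfl fun i _ => ?_
    rw [map_mul, eval₂Hom_C]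
  exact h

private theorem ptl_rab {k j : ℕ} (e e' : Fin (k + 1) → ℂ) {Ω : Type} [CommRing Ω]
    (ψ : Ent →+* Ω) (x : Option (Option (Fin j)) → Ω) (F : Fin (k + 1) ⊕ Fin j → Ent) :
    (1 - X none * ∑ i, ptGl e e' i * C (F i)).eval₂ ψ x =
      1 - x none * ∑ i, (ptGl e e' i).eval₂ ψ x * ψ (F i) := by
  have h : eval₂Hom ψ x (1 - X none * ∑ i, ptGl e e' i * C (F i)) =
      1 - x none * (∑ i, ptGl e e' i * C (F i)).eval₂ ψ x := by
    rw [map_sub, map_one, map_mul, eval₂Hom_X']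
    rfl
  rw [ptl_sum] at h
  exact h

/-- one vector of the curve -/
private theorem key_gl {k j r : ℕ} {I : Ideal (Sp k j)} {b : Fin r → Sp k j}
    {db : Fin r → ℕ} (hI : CI I r b db) (N : Ideal (Sp k j)) (hIN : I ≤ N)
    (e e' : Fin (k + 1) → ℂ) (F : Fin (k + 1) ⊕ Fin j → Ent) (h : NoTr N e e' F) (z₀ : ℂ) :
    ∃ d : Ent, d ≠ 0 ∧ ∀ z : ℂ, d.1 z ≠ 0 → ∀ (t : ℂ) (p : Fin (k + 1) ⊕ Fin j → ℂ),
      (∀ g ∈ N, eval p g = 0) → (∀ i, p (Sum.inl i) = e i + t * e' i) →
      dt p (fun i => (F i).1 z) = 0 → dt p (fun i => (dE (F i)).1 z) = 0 →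
      dt p (fun i => (F i).1 z₀) = 0 := by
  classical
  obtain ⟨d, hd, hB⟩ : ∃ d : Ent, d ≠ 0 ∧
      (C d : MvPolynomial (Option (Option (Fin j))) Ent) ∈
        jGl N e e' F (fun i => (F i).1 z₀) := by
    apply null_ent
    intro Ω _ ψ hψ halg x
    by_contra hcon
    push Not at hcon
    let p : Fin (k + 1) ⊕ Fin j → Ω := fun i => (ptGl e e' i).eval₂ ψ x
    have hpN : ∀ g ∈ N, g.eval₂ (ψ.comp (algebraMap ℂ Ent)) p = 0 := by
      intro g hg
      rw [← ptl_eval]
      exact hcon _ (Ideal.subset_span (Or.inl ⟨g, hg, rfl⟩))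
    have hp1 : ∑ i, p i * ψ (F i) = 0 := by
      rw [← ptl_sum]
      exact hcon _ (Ideal.subset_span (Or.inr (Or.inl rfl)))
    have hp2 : ∑ i, p i * ψ (dE (F i)) = 0 := by
      rw [← ptl_sum e e' ψ x fun i => dE (F i)]
      exact hcon _ (Ideal.subset_span (Or.inr (Or.inr (Or.inl rfl))))
    have hp3 : 1 - x none * ∑ i, p i * ψ (algebraMap ℂ Ent ((F i).1 z₀)) = 0 := by
      rw [← ptl_rab e e' ψ x fun i => algebraMap ℂ Ent ((F i).1 z₀)]
      exact hcon _ (Ideal.subset_span (Or.inr (Or.inr (Or.inr rfl))))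
    have hpl : ∀ l, p (Sum.inl l) =
        ψ (algebraMap ℂ Ent (e l)) + x (some none) * ψ (algebraMap ℂ Ent (e' l)) :=
      fun l => ptl_eval_inl e e' ψ x l
    by_cases ht : ∀ P : Polynomial ℂ, P ≠ 0 →
        P.eval₂ (ψ.comp (algebraMap ℂ Ent)) (x (some none)) ≠ 0
    · exact h Ω ψ hψ halg (x (some none)) p ht hpl hpN hp1 hp2
    · push Not at ht
      obtain ⟨P, hP, hP0⟩ := ht
      obtain ⟨c, hc⟩ := cplx_gl _ P hP _ hP0
      have hinl : ∀ l, p (Sum.inl l) = (ψ.comp (algebraMap ℂ Ent)) (e l + c * e' l) := by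
        intro l
        rw [hpl, hc, map_add, map_mul]
        rfl
      have hall : ∀ i, ∃ w : ℂ, p i = (ψ.comp (algebraMap ℂ Ent)) w := by
        intro i
        rcases i with l | i
        · exact ⟨_, hinl l⟩
        · obtain ⟨G, hG, hG0⟩ := int_gl hI (X (Sum.inr i))
          have h1 := root_gl (ψ.comp (algebraMap ℂ Ent)) p G i (hpN _ (hIN hG0))
          refine cplx_gl _ (G.map (eval fun l => e l + c * e' l)) (hG.map _).ne_zero _ ?_
          rw [Polynomial.eval₂_map]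
          rw [← h1]
          congr 1
          apply MvPolynomial.ringHom_ext
          · intro a
            simp
          · intro l
            rw [RingHom.comp_apply, eval_X, eval₂Hom_X', hinl]
      choose q hq using hall
      have hE : ∑ i, algebraMap ℂ Ent (q i) * F i = 0 := by
        apply hψ
        rw [map_zero, map_sum, ← hp1]
        refine Finset.sum_congr rfl fun i _ => ?_
        rw [map_mul, hq i]
        rfl
      have h0 : ∑ i, q i * (F i).1 z₀ = 0 := by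
        have h1 := congrArg (evE_gl z₀) hE
        rw [map_sum, map_zero] at h1
        rw [← h1]
        refine Finset.sum_congr rfl fun i _ => ?_
        rw [map_mul]
        rfl
      have h3 : ∑ i, p i * ψ (algebraMap ℂ Ent ((F i).1 z₀)) =
          (ψ.comp (algebraMap ℂ Ent)) (∑ i, q i * (F i).1 z₀) := by
        rw [map_sum]
        refine Finset.sum_congr rfl fun i _ => ?_
        rw [map_mul, hq i]
        rfl
      rw [h3, h0, map_zero, mul_zero, sub_zero] at hp3
      exact one_ne_zero hp3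
  refine ⟨d, hd, ?_⟩
  intro z hz t p hpN hpl hdt hdt'
  by_contra hne
  apply hz
  let x : Option (Option (Fin j)) → ℂ := fun o => o.elim (dt p (fun i => (F i).1 z₀))⁻¹
    fun o' => o'.elim t fun i => p (Sum.inr i)
  have hx : (fun i => (ptGl e e' i).eval₂ (evE_gl z) x) = p := by
    funext i
    rcases i with l | i
    · rw [ptl_eval_inl, hpl]
      rfl
    · rw [ptl_eval_inr]
      rfl
  have hxi : ∀ i, (ptGl e e' i).eval₂ (evE_gl z) x = p i := fun i => congrFun hx i
  have hJ : jGl N e e' F (fun i => (F i).1 z₀) ≤ RingHom.ker (eval₂Hom (evE_gl z) x) := by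
    unfold jGl
    rw [Ideal.span_le]
    rintro g (⟨g, hg, rfl⟩ | rfl | rfl | rfl)
    · rw [SetLike.mem_coe, RingHom.mem_ker]
      show (MvPolynomial.eval₂ ((C : Ent →+* MvPolynomial (Option (Option (Fin j))) Ent).comp
        (algebraMap ℂ Ent)) (ptGl e e') g).eval₂ (evE_gl z) x = 0
      rw [ptl_eval, hx]
      have h1 : (evE_gl z).comp (algebraMap ℂ Ent) = RingHom.id ℂ := by
        ext c
        rfl
      rw [h1]
      exact hpN g hg
    · rw [SetLike.mem_coe, RingHom.mem_ker]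
      show (∑ i, ptGl e e' i * C (F i)).eval₂ (evE_gl z) x = 0
      rw [ptl_sum, ← hdt]
      unfold dt
      refine Finset.sum_congr rfl fun i _ => ?_
      rw [hxi, evE_gl_apply]
    · rw [SetLike.mem_coe, RingHom.mem_ker]
      show (∑ i, ptGl e e' i * C (dE (F i))).eval₂ (evE_gl z) x = 0
      rw [ptl_sum e e' (evE_gl z) x fun i => dE (F i), ← hdt']
      unfold dt
      refine Finset.sum_congr rfl fun i _ => ?_
      rw [hxi, evE_gl_apply]
    · rw [SetLike.mem_coe, RingHom.mem_ker]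
      show (1 - X none * ∑ i, ptGl e e' i * C (algebraMap ℂ Ent ((F i).1 z₀))).eval₂
        (evE_gl z) x = 0
      rw [ptl_rab e e' (evE_gl z) x fun i => algebraMap ℂ Ent ((F i).1 z₀)]
      have h1 : ∑ i, (ptGl e e' i).eval₂ (evE_gl z) x *
          evE_gl z (algebraMap ℂ Ent ((F i).1 z₀)) = dt p (fun i => (F i).1 z₀) := by
        unfold dt
        refine Finset.sum_congr rfl fun i _ => ?_
        rw [hxi]
        rfl
      have h2 : x none = (dt p (fun i => (F i).1 z₀))⁻¹ := rfl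
      rw [h1, h2, inv_mul_cancel₀ hne, sub_self]
  have h1 := hJ hB
  rw [RingHom.mem_ker, eval₂Hom_C] at h1
  exact h1

/-- PIECE GENL: `F` may be linearly degenerate -/
theorem gen_line {k j r : ℕ} {I : Ideal (Sp k j)} {b : Fin r → Sp k j}
    {db : Fin r → ℕ} (hI : CI I r b db) (N : Ideal (Sp k j)) (hIN : I ≤ N)
    (e e' : Fin (k + 1) → ℂ) (F : Fin (k + 1) ⊕ Fin j → Ent) (h : NoTr N e e' F) :
    ∃ d : Ent, d ≠ 0 ∧ ∀ z : ℂ, d.1 z ≠ 0 → ∀ (t : ℂ) (p : Fin (k + 1) ⊕ Fin j → ℂ),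
      (∀ g ∈ N, eval p g = 0) → (∀ i, p (Sum.inl i) = e i + t * e' i) →
      dt p (fun i => (F i).1 z) = 0 → dt p (fun i => (dE (F i)).1 z) = 0 →
      ∀ z', dt p (fun i => (F i).1 z') = 0 := by
  classical
  let Fz : ℂ → Fin (k + 1) ⊕ Fin j → ℂ := fun z i => (F i).1 z
  have hfg : (Submodule.span ℂ (Set.range Fz)).FG := IsNoetherian.noetherian _
  rw [Submodule.fg_span_iff_fg_span_finset_subset] at hfg
  obtain ⟨S, hS, hspan⟩ := hfg
  choose! ζ hζ using fun (x : Fin (k + 1) ⊕ Fin j → ℂ) (hx : x ∈ (S : Set _)) => hS hx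
  choose d hd hd' using fun z₀ : ℂ => key_gl hI N hIN e e' F h z₀
  refine ⟨∏ x ∈ S, d (ζ x), Finset.prod_ne_zero_iff.2 fun x _ => hd (ζ x), ?_⟩
  intro z hz t p hpN hpl hdt hdt' z'
  have hz1 : ∀ x ∈ S, (d (ζ x)).1 z ≠ 0 := by
    intro x hx h0
    apply hz
    rw [← evE_gl_apply, map_prod]
    exact Finset.prod_eq_zero hx h0
  have hmem : Fz z' ∈ Submodule.span ℂ (S : Set (Fin (k + 1) ⊕ Fin j → ℂ)) := by
    rw [← hspan]
    exact Submodule.subset_span ⟨z', rfl⟩
  have hall : ∀ v ∈ Submodule.span ℂ (S : Set (Fin (k + 1) ⊕ Fin j → ℂ)), dt p v = 0 := by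
    intro v hv
    induction hv using Submodule.span_induction with
    | mem v hv =>
      have h1 := hd' (ζ v) z (hz1 v hv) t p hpN hpl hdt hdt'
      have h2 : (fun i => (F i).1 (ζ v)) = v := hζ v hv
      rwa [h2] at h1
    | zero =>
      unfold dt
      simp
    | add v w _ _ hv hw =>
      have h1 : dt p (v + w) = dt p v + dt p w := by
        unfold dt
        rw [← Finset.sum_add_distrib]
        exact Finset.sum_congr rfl fun i _ => mul_add _ _ _
      rw [h1, hv, hw, add_zero]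
    | smul c v _ hv =>
      have h1 : dt p (c • v) = c * dt p v := by
        unfold dt
        rw [Finset.mul_sum]
        refine Finset.sum_congr rfl fun i _ => ?_
        rw [Pi.smul_apply, smul_eq_mul]
        ring
      rw [h1, hv, mul_zero]
  exact hall _ hmem

end Pool.Agent.SQ
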