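import Mathlib
import Pool.Agent.Lib_MP_b9fedf_sq.Defs

/-! Piece NAK: Nakayama lemma for a quotient which is finite over the polynomials in `u`. -/

set_option autoImplicit false

namespace Pool.Agent.SQ
open MvPolynomial

private theorem ci_span_nak {k j r : ℕ} {I : Ideal (Sp k j)} {b : Fin r → Sp k j}
    {db : Fin r → ℕ} (hI : CI I r b db) (s : Sp k j) :
    ∃ p : Fin r → Pp k, s - ∑ i, inc (p i) * b i ∈ I := by
  have h : ∀ d, ∃ p : Fin r → Pp k,
      homogeneousComponent d s - ∑ i, inc (p i) * b i ∈ I := by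
    intro d
    obtain ⟨p, _, hp⟩ := hI.span d _ (homogeneousComponent_isHomogeneous d s)
    exact ⟨p, hp⟩
  choose p hp using h
  refine ⟨fun i => ∑ d ∈ Finset.range (s.totalDegree + 1), p d i, ?_⟩
  have h1 : s - ∑ i, inc (∑ d ∈ Finset.range (s.totalDegree + 1), p d i) * b i =
      ∑ d ∈ Finset.range (s.totalDegree + 1),
        (homogeneousComponent d s - ∑ i, inc (p d i) * b i) := by
    rw [Finset.sum_sub_distrib, sum_homogeneousComponent, Finset.sum_comm]
    congr 1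
    refine Finset.sum_congr rfl fun i _ => ?_
    rw [map_sum, Finset.sum_mul]
  rw [h1]
  exact I.sum_mem fun d _ => hp d

private theorem top_nak {k j : ℕ} (B : Ideal (Sp k j)) (u : Fin (k + 1) → ℂ)
    (hu : ∀ p : Fin (k + 1) ⊕ Fin j → ℂ, (∀ i, p (Sum.inl i) = u i) →
      ∃ g ∈ B, eval p g ≠ 0) :
    B ⊔ (RingHom.ker (eval u : Pp k →+* ℂ)).map (inc : Pp k →ₐ[ℂ] Sp k j).toRingHom = ⊤ := by
  by_contra hne
  obtain ⟨M, hM, hle⟩ := Ideal.exists_le_maximal _ hne
  obtain ⟨p, hp⟩ := MvPolynomial.isMaximal_iff_eq_vanishingIdeal_singleton.1 hM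
  have hev : ∀ g ∈ M, eval p g = 0 := by
    intro g hg
    rw [hp, mem_vanishingIdeal_singleton_iff] at hg
    rwa [← coe_aeval_eq_eval]
  have hpu : ∀ i, p (Sum.inl i) = u i := by
    intro i
    have h1 : (X i - C (u i) : Pp k) ∈ RingHom.ker (eval u : Pp k →+* ℂ) := by
      rw [RingHom.mem_ker, map_sub, eval_X, eval_C, sub_self]
    have h2 : (inc : Pp k →ₐ[ℂ] Sp k j).toRingHom (X i - C (u i)) ∈ M :=
      hle (Ideal.mem_sup_right (Ideal.mem_map_of_mem _ h1))
    have h3 := hev _ h2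
    have h4 : (inc : Pp k →ₐ[ℂ] Sp k j).toRingHom (X i - C (u i)) =
        (X (Sum.inl i) - C (u i) : Sp k j) := by
      show (rename Sum.inl) (X i - C (u i)) = _
      rw [map_sub, rename_X, rename_C]
    rw [h4, map_sub, eval_X, eval_C] at h3
    exact sub_eq_zero.1 h3
  obtain ⟨g, hg, hg0⟩ := hu p hpu
  exact hg0 (hev g (hle (Ideal.mem_sup_left hg)))

/-- PIECE NAK -/
theorem nak {k j r : ℕ} {I : Ideal (Sp k j)} {b : Fin r → Sp k j} {db : Fin r → ℕ}
    (hI : CI I r b db) (B : Ideal (Sp k j)) (hIB : I ≤ B) (u : Fin (k + 1) → ℂ)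
    (hu : ∀ p : Fin (k + 1) ⊕ Fin j → ℂ, (∀ i, p (Sum.inl i) = u i) → ∃ g ∈ B, eval p g ≠ 0) :
    ∃ g : Pp k, eval u g ≠ 0 ∧ inc g ∈ B := by
  classical
  set φ : Pp k →+* Sp k j ⧸ B :=
    (Ideal.Quotient.mk B).comp (inc : Pp k →ₐ[ℂ] Sp k j).toRingHom with hφ
  let _ : Algebra (Pp k) (Sp k j ⧸ B) := φ.toAlgebra
  have halg : (algebraMap (Pp k) (Sp k j ⧸ B)) = φ := rfl
  have hfin : (⊤ : Submodule (Pp k) (Sp k j ⧸ B)).FG := by
    refine ⟨Finset.univ.image fun i => Ideal.Quotient.mk B (b i), ?_⟩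
    rw [eq_top_iff]
    rintro x -
    obtain ⟨s, rfl⟩ := Ideal.Quotient.mk_surjective x
    obtain ⟨p, hp⟩ := ci_span_nak hI s
    have h1 : Ideal.Quotient.mk B s = ∑ i, p i • Ideal.Quotient.mk B (b i) := by
      have h2 : Ideal.Quotient.mk B (s - ∑ i, inc (p i) * b i) = 0 :=
        Ideal.Quotient.eq_zero_iff_mem.2 (hIB hp)
      rw [map_sub, sub_eq_zero] at h2
      rw [h2, map_sum]
      refine Finset.sum_congr rfl fun i _ => ?_
      rw [Algebra.smul_def, halg, map_mul]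
      rfl
    rw [h1]
    refine Submodule.sum_mem _ fun i _ => Submodule.smul_mem _ _ (Submodule.subset_span ?_)
    rw [Finset.coe_image, Finset.coe_univ, Set.image_univ]
    exact Set.mem_range_self i
  have htop : (⊤ : Submodule (Pp k) (Sp k j ⧸ B)) ≤
      (RingHom.ker (eval u : Pp k →+* ℂ)) • (⊤ : Submodule (Pp k) (Sp k j ⧸ B)) := by
    rw [Ideal.smul_top_eq_map]
    have h1 : (RingHom.ker (eval u : Pp k →+* ℂ)).map (algebraMap (Pp k) (Sp k j ⧸ B)) = ⊤ := by
      rw [halg, hφ, ← Ideal.map_map]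
      have h2 := top_nak B u hu
      have h3 := congrArg (Ideal.map (Ideal.Quotient.mk B)) h2
      rw [Ideal.map_sup, Ideal.map_quotient_self, bot_sup_eq, Ideal.map_top] at h3
      exact h3
    rw [h1]
    exact le_of_eq rfl
  obtain ⟨g, hg1, hg2⟩ := Submodule.exists_sub_one_mem_and_smul_eq_zero_of_fg_of_le_smul
    (RingHom.ker (eval u : Pp k →+* ℂ)) ⊤ hfin htop
  refine ⟨g, ?_, ?_⟩
  · rw [RingHom.mem_ker, map_sub, map_one, sub_eq_zero] at hg1
    rw [hg1]
    exact one_ne_zero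
  · have h1 := hg2 1 trivial
    rw [Algebra.smul_def, halg, mul_one] at h1
    exact Ideal.Quotient.eq_zero_iff_mem.1 h1

end Pool.Agent.SQ
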