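import Mathlib
import Pool.Agent.Lib_MP_b9fedf_sq.Defs3
import Pool.Agent.Lib_MP_b9fedf_sq.EntDom
import Pool.Agent.Lib_MP_b9fedf_sq.Null
import Pool.Agent.Lib_MP_b9fedf_sq.Nak

/-! Piece TFIN: the values of the parameter with a point orthogonal to the whole curve are finite in
number. -/

set_option autoImplicit false

namespace Pool.Agent.SQ
open MvPolynomial

private noncomputable def evE_tfin (z : ℂ) : Ent →+* ℂ :=
  (Pi.evalRingHom (fun _ : ℂ => ℂ) z).comp (Ent.val : Ent →+* (ℂ → ℂ))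

private theorem evE_tfin_apply (z : ℂ) (f : Ent) : evE_tfin z f = f.1 z := rfl

private theorem evE_tfin_alg (z : ℂ) (c : ℂ) : evE_tfin z (algebraMap ℂ Ent c) = c := rfl

/-- finitely many vectors of the curve span everything, with constant coordinate functionals -/
private theorem span_tfin {τ : Type} [Fintype τ] [DecidableEq τ] (F : τ → Ent) :
    ∃ (w : ℕ) (zz : Fin w → ℂ) (a : Fin w → τ → ℂ),
      ∀ z i, (F i).1 z = ∑ x, (∑ l, a x l * (F l).1 z) * (F i).1 (zz x) := by
  classical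
  obtain ⟨h, hmem, hspan, hli⟩ := Submodule.exists_fun_fin_finrank_span_eq ℂ
    (Set.range fun (z : ℂ) (i : τ) => (F i).1 z)
  choose zz hzz using hmem
  obtain ⟨Q, hQ⟩ := LinearMap.exists_leftInverse_of_injective
    (Submodule.span ℂ (Set.range h)).subtype (Submodule.ker_subtype _)
  refine ⟨_, zz, fun x l => (Module.Basis.span hli).coord x (Q (fun i => if l = i then 1 else 0)), ?_⟩
  intro z i
  have hv : (fun i : τ => (F i).1 z) ∈ Submodule.span ℂ (Set.range h) := by
    rw [hspan]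
    exact Submodule.subset_span ⟨z, rfl⟩
  have hQv : Q (fun i : τ => (F i).1 z) = ⟨_, hv⟩ := by
    have := congrArg (fun g => g ⟨_, hv⟩) hQ
    simpa using this
  have h1 := (Module.Basis.span hli).sum_repr ⟨_, hv⟩
  have h2 := congrArg (fun y : Submodule.span ℂ (Set.range h) => (y : τ → ℂ) i) h1
  simp only [Submodule.coe_sum, Submodule.coe_smul, Module.Basis.span_apply, Finset.sum_apply,
    Pi.smul_apply, smul_eq_mul] at h2
  rw [← h2]
  refine Finset.sum_congr rfl fun x _ => ?_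
  have h3 : h x i = (F i).1 (zz x) := by rw [← hzz x]
  rw [h3]
  congr 1
  have h4 : (Module.Basis.span hli).repr ⟨_, hv⟩ x =
      ((Module.Basis.span hli).coord x ∘ₗ Q) (fun i : τ => (F i).1 z) := by
    rw [LinearMap.comp_apply, hQv, Module.Basis.coord_apply]
  rw [h4, LinearMap.pi_apply_eq_sum_univ]
  refine Finset.sum_congr rfl fun l _ => ?_
  rw [smul_eq_mul, mul_comm]
  rfl

/-- the identity function is transcendental -/
private theorem trans_tfin {Ω : Type} [Field Ω] (ψ : Ent →+* Ω) (hψ : Function.Injective ψ)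
    (I₀ : Ent) (hI₀ : ∀ z, I₀.1 z = z) (P : Polynomial ℂ) (hP : P ≠ 0) :
    P.eval₂ (ψ.comp (algebraMap ℂ Ent)) (ψ I₀) ≠ 0 := by
  rw [← Polynomial.hom_eval₂]
  intro h0
  have h1 : P.eval₂ (algebraMap ℂ Ent) I₀ = 0 := hψ (by rw [h0, map_zero])
  apply hP
  apply Polynomial.funext
  intro z
  have h2 : evE_tfin z (P.eval₂ (algebraMap ℂ Ent) I₀) = 0 := by rw [h1, map_zero]
  rw [Polynomial.hom_eval₂, evE_tfin_apply, hI₀] at h2
  have h3 : (evE_tfin z).comp (algebraMap ℂ Ent) = RingHom.id ℂ := by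
    ext c
    rfl
  rw [h3] at h2
  rw [Polynomial.eval_zero]
  exact h2

/-- PIECE TFIN -/
theorem t_fin {k j r : ℕ} {I : Ideal (Sp k j)} {b : Fin r → Sp k j}
    {db : Fin r → ℕ} (hI : CI I r b db) (N : Ideal (Sp k j)) (hIN : I ≤ N)
    (e e' : Fin (k + 1) → ℂ) (F : Fin (k + 1) ⊕ Fin j → Ent) (h : NoTr N e e' F) :
    ∃ T : Finset ℂ, ∀ (t : ℂ) (p : Fin (k + 1) ⊕ Fin j → ℂ),
      (∀ g ∈ N, eval p g = 0) → (∀ i, p (Sum.inl i) = e i + t * e' i) →
      (∀ z, dt p (fun i => (F i).1 z) = 0) → t ∈ T := by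
  classical
  obtain ⟨w, zz, a, ha⟩ := span_tfin F
  let I₀ : Ent := ⟨fun z => z, differentiable_id⟩
  have hI₀ : ∀ z, I₀.1 z = z := fun z => rfl
  -- the coordinates
  let c : Fin w → Ent := fun x => ∑ l, algebraMap ℂ Ent (a x l) * F l
  have hc : ∀ i, F i = ∑ x, c x * algebraMap ℂ Ent ((F i).1 (zz x)) := by
    intro i
    apply Ent.ext'
    intro z
    rw [← evE_tfin_apply, ← evE_tfin_apply, map_sum, evE_tfin_apply, ha z i]
    refine Finset.sum_congr rfl fun x _ => ?_
    rw [map_mul, evE_tfin_alg, map_sum]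
    congr 1
  have hdc : ∀ i, dE (F i) = ∑ x, dE (c x) * algebraMap ℂ Ent ((F i).1 (zz x)) := by
    intro i
    conv_lhs => rw [hc i]
    rw [dE_sum]
    refine Finset.sum_congr rfl fun x _ => ?_
    rw [dE_mul, dE_algebraMap, mul_zero, add_zero]
  -- the ideal over the entire functions
  let S : Set (MvPolynomial (Fin (k + 1) ⊕ Fin j) Ent) :=
    ((MvPolynomial.map (algebraMap ℂ Ent)) '' (N : Set (Sp k j))) ∪
    (Set.range fun i : Fin (k + 1) => (X (Sum.inl i) -
      C (algebraMap ℂ Ent (e i) + I₀ * algebraMap ℂ Ent (e' i)) :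
        MvPolynomial (Fin (k + 1) ⊕ Fin j) Ent)) ∪
    (Set.range fun x : Fin w => ∑ i, (X i * C (algebraMap ℂ Ent ((F i).1 (zz x))) :
        MvPolynomial (Fin (k + 1) ⊕ Fin j) Ent))
  have hnull : ∃ d : Ent, d ≠ 0 ∧ MvPolynomial.C d ∈ Ideal.span S := by
    apply null_ent
    intro Ω _ ψ hψ halg p
    by_contra hcon
    push Not at hcon
    have hS : ∀ g ∈ S, g.eval₂ ψ p = 0 := fun g hg => hcon g (Ideal.subset_span hg)
    have hort : ∀ x : Fin w, ∑ i, p i * ψ (algebraMap ℂ Ent ((F i).1 (zz x))) = 0 := by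
      intro x
      have h1 := hS _ (Or.inr ⟨x, rfl⟩)
      rw [← coe_eval₂Hom, map_sum] at h1
      rw [← h1]
      refine Finset.sum_congr rfl fun i _ => ?_
      rw [map_mul, eval₂Hom_X', eval₂Hom_C]
    have hgen : ∀ (cc : Fin w → Ent) (G : Fin (k + 1) ⊕ Fin j → Ent),
        (∀ i, G i = ∑ x, cc x * algebraMap ℂ Ent ((F i).1 (zz x))) →
        ∑ i, p i * ψ (G i) = 0 := by
      intro cc G hG
      have h1 : ∑ i, p i * ψ (G i) =
          ∑ x, ψ (cc x) * ∑ i, p i * ψ (algebraMap ℂ Ent ((F i).1 (zz x))) := by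
        simp only [Finset.mul_sum]
        rw [Finset.sum_comm]
        refine Finset.sum_congr rfl fun i _ => ?_
        rw [hG i, map_sum, Finset.mul_sum]
        refine Finset.sum_congr rfl fun x _ => ?_
        rw [map_mul]
        ring
      rw [h1]
      refine Finset.sum_eq_zero fun x _ => ?_
      rw [hort x, mul_zero]
    refine h Ω ψ hψ halg (ψ I₀) p (fun P hP => trans_tfin ψ hψ I₀ hI₀ P hP) ?_ ?_
      (hgen c F hc) (hgen (fun x => dE (c x)) (fun i => dE (F i)) hdc)
    · intro i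
      have h1 := hS _ (Or.inl (Or.inr ⟨i, rfl⟩))
      rw [← coe_eval₂Hom, map_sub, eval₂Hom_X', eval₂Hom_C, sub_eq_zero, map_add, map_mul] at h1
      exact h1
    · intro g hg
      have h1 := hS _ (Or.inl (Or.inl ⟨g, hg, rfl⟩))
      rw [eval₂_map] at h1
      exact h1
  obtain ⟨d, hd, hdS⟩ := hnull
  obtain ⟨z₀, hz₀⟩ := (Ent.ne_zero_iff d).1 hd
  -- the ideal over the complex numbers
  let B : Ideal (Sp k j) := N ⊔ Ideal.span (Set.range fun x : Fin w => lin fun i => (F i).1 (zz x))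
  have hlin : ∀ (p h : Fin (k + 1) ⊕ Fin j → ℂ), eval p (lin h) = dt p h := by
    intro p h
    rw [lin, map_sum, dt]
    refine Finset.sum_congr rfl fun i _ => ?_
    rw [map_mul, eval_C, eval_X, mul_comm]
  have hBu : ∀ p : Fin (k + 1) ⊕ Fin j → ℂ, (∀ i, p (Sum.inl i) = e i + z₀ * e' i) →
      ∃ g ∈ B, eval p g ≠ 0 := by
    intro p hp
    by_contra hcon
    push Not at hcon
    apply hz₀
    have hle : Ideal.span S ≤ RingHom.ker (eval₂Hom (evE_tfin z₀) p) := by
      rw [Ideal.span_le]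
      rintro g ((⟨s, hs, rfl⟩ | ⟨i, rfl⟩) | ⟨x, rfl⟩)
      · rw [SetLike.mem_coe, RingHom.mem_ker, coe_eval₂Hom, eval₂_map]
        have h3 : (evE_tfin z₀).comp (algebraMap ℂ Ent) = RingHom.id ℂ := by
          ext c
          rfl
        rw [h3]
        exact hcon s (Ideal.mem_sup_left hs)
      · rw [SetLike.mem_coe, RingHom.mem_ker, map_sub, eval₂Hom_X', eval₂Hom_C, map_add, map_mul,
          evE_tfin_alg, evE_tfin_alg, evE_tfin_apply, hI₀, hp i, sub_self]
      · rw [SetLike.mem_coe, RingHom.mem_ker, map_sum]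
        have h4 := hcon _ (Ideal.mem_sup_right (Ideal.subset_span ⟨x, rfl⟩))
        rw [hlin, dt] at h4
        rw [← h4]
        refine Finset.sum_congr rfl fun i _ => ?_
        rw [map_mul, eval₂Hom_X', eval₂Hom_C, evE_tfin_alg]
    have h5 := hle hdS
    rw [RingHom.mem_ker, eval₂Hom_C, evE_tfin_apply] at h5
    exact h5
  obtain ⟨g, hg0, hgB⟩ := nak hI B (hIN.trans le_sup_left) (fun i => e i + z₀ * e' i) hBu
  -- the polynomial in `t`
  let G : Polynomial ℂ := aeval (fun i => Polynomial.C (e i) + Polynomial.X * Polynomial.C (e' i)) g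
  have hG : ∀ t : ℂ, G.eval t = eval (fun i => e i + t * e' i) g := by
    intro t
    have h1 : (Polynomial.evalRingHom t).comp
        ((aeval (R := ℂ) fun i : Fin (k + 1) =>
          (Polynomial.C (e i) + Polynomial.X * Polynomial.C (e' i) : Polynomial ℂ)) :
            Pp k →+* Polynomial ℂ) = eval (fun i => e i + t * e' i) := by
      apply MvPolynomial.ringHom_ext
      · intro c
        simp
      · intro i
        simp
        ring
    exact congrArg (fun φ : Pp k →+* ℂ => φ g) h1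
  have hGne : G ≠ 0 := by
    intro h0
    apply hg0
    rw [← hG z₀, h0, Polynomial.eval_zero]
  refine ⟨G.roots.toFinset, fun t p hpN hpe hpF => ?_⟩
  rw [Multiset.mem_toFinset, Polynomial.mem_roots hGne, Polynomial.IsRoot.def, hG]
  have hle : B ≤ RingHom.ker (eval p : Sp k j →+* ℂ) := by
    refine sup_le (fun s hs => hpN s hs) ?_
    rw [Ideal.span_le]
    rintro _ ⟨x, rfl⟩
    rw [SetLike.mem_coe, RingHom.mem_ker, hlin]
    exact hpF (zz x)
  have h6 := hle hgB
  rw [RingHom.mem_ker] at h6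
  have h7 : eval p (inc g) = eval (fun i => e i + t * e' i) g := by
    show eval p (rename Sum.inl g) = _
    rw [eval_rename]
    congr 2
    funext i
    exact hpe i
  rw [← h7]
  exact h6

end Pool.Agent.SQ
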