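import Pool.Agent.Lib_MP_b9fedf_sq.Defs3
import Pool.Agent.Lib_MP_b9fedf_sq.Basic
import Pool.Agent.Lib_MP_b9fedf_sq.HomFac
import Pool.Agent.Lib_MP_b9fedf_sq.Nak
import Pool.Agent.Lib_MP_b9fedf_sq.EntDom
import Pool.Agent.Lib_MP_b9fedf_sq.GenLine
import Pool.Agent.Lib_MP_b9fedf_sq.TFin
import Pool.Agent.Lib_MP_b9fedf_sq.CPrime

/-! Piece STAR of the strong form. -/

set_option autoImplicit false

namespace Pool.Agent.SQ
open MvPolynomial

private theorem star_eval_lin {τ : Type} [Fintype τ] (p h : τ → ℂ) :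
    eval p (lin h) = dt p h := by
  unfold lin dt
  rw [map_sum]
  refine Finset.sum_congr rfl fun i _ => ?_
  rw [map_mul, eval_C, eval_X, mul_comm]

/-- cancellation of an irreducible factor -/
private theorem star_cancel {k j r : ℕ} {I : Ideal (Sp k j)} {b : Fin r → Sp k j}
    {db : Fin r → ℕ} (hI : CI I r b db) (V : Ideal (Sp k j)) (hIV : I ≤ V)
    (hsat : ∀ (p : Pp k) (τ : Sp k j), p ≠ 0 → inc p * τ ∈ V → τ ∈ V)
    (h₀ : Fin (k + 1) ⊕ Fin j → ℂ) (p : Pp k) (α : Sp k j) (hp0 : p ≠ 0)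
    (hpα : inc p - lin h₀ * α ∈ annI I V) (π g₁ g₂ : Pp k) (hπ : Irreducible π)
    (hg : ¬ π ∣ g₂) (x c₁ c₂ : Sp k j) (hc₁ : c₁ ∈ V) (hc₂ : c₂ ∈ V)
    (h1 : inc (π * g₁) * x - lin h₀ * c₁ ∈ I) (h2 : inc g₂ * x - lin h₀ * c₂ ∈ I) :
    ∃ c₃ ∈ V, inc g₁ * x - lin h₀ * c₃ ∈ I := by
  have hz : inc g₂ * c₁ - inc (π * g₁) * c₂ ∈ I := by
    have hzV : inc g₂ * c₁ - inc (π * g₁) * c₂ ∈ V :=
      V.sub_mem (V.mul_mem_left _ hc₁) (V.mul_mem_left _ hc₂)
    have h3 : lin h₀ * (inc g₂ * c₁ - inc (π * g₁) * c₂) ∈ I := by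
      have h4 : lin h₀ * (inc g₂ * c₁ - inc (π * g₁) * c₂) =
          inc (π * g₁) * (inc g₂ * x - lin h₀ * c₂) -
            inc g₂ * (inc (π * g₁) * x - lin h₀ * c₁) := by ring
      rw [h4]
      exact I.sub_mem (I.mul_mem_left _ h2) (I.mul_mem_left _ h1)
    have h5 : inc p * (inc g₂ * c₁ - inc (π * g₁) * c₂) ∈ I := by
      have h6 : inc p * (inc g₂ * c₁ - inc (π * g₁) * c₂) =
          (inc p - lin h₀ * α) * (inc g₂ * c₁ - inc (π * g₁) * c₂) +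
            α * (lin h₀ * (inc g₂ * c₁ - inc (π * g₁) * c₂)) := by ring
      rw [h6]
      exact I.add_mem (hpα _ hzV) (I.mul_mem_left _ h3)
    exact ci_torsion hI p hp0 _ h5
  have hz' : inc g₂ * c₁ - inc π * (inc g₁ * c₂) ∈ I := by
    have h3 : inc g₂ * c₁ - inc π * (inc g₁ * c₂) = inc g₂ * c₁ - inc (π * g₁) * c₂ := by
      rw [map_mul]
      ring
    rw [h3]
    exact hz
  obtain ⟨s', hs'⟩ := ci_prime hI π g₂ hπ hg c₁ (inc g₁ * c₂) hz'
  have hs'V : s' ∈ V := by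
    refine hsat π s' hπ.ne_zero ?_
    have h3 : inc π * s' = c₁ - (c₁ - inc π * s') := by ring
    rw [h3]
    exact V.sub_mem hc₁ (hIV hs')
  refine ⟨s', hs'V, ?_⟩
  refine ci_torsion hI π hπ.ne_zero _ ?_
  have h3 : inc π * (inc g₁ * x - lin h₀ * s') =
      (inc (π * g₁) * x - lin h₀ * c₁) + lin h₀ * (c₁ - inc π * s') := by
    rw [map_mul]
    ring
  rw [h3]
  exact I.add_mem h1 (I.mul_mem_left _ hs')

/-- the induction on the degree -/
private theorem star_ind {k j r : ℕ} {I : Ideal (Sp k j)} {b : Fin r → Sp k j}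
    {db : Fin r → ℕ} (hI : CI I r b db) (V : Ideal (Sp k j)) (hIV : I ≤ V)
    (hsat : ∀ (p : Pp k) (τ : Sp k j), p ≠ 0 → inc p * τ ∈ V → τ ∈ V) (B : ℕ)
    (h₀ : Fin (k + 1) ⊕ Fin j → ℂ) (p : Pp k) (α : Sp k j) (hp0 : p ≠ 0)
    (hpα : inc p - lin h₀ * α ∈ annI I V) (x : Sp k j)
    (hstep : ∀ (π : Pp k) (d : ℕ), Irreducible π → π.IsHomogeneous d → d ≤ B →
      ∃ g₂ : Pp k, ¬ π ∣ g₂ ∧ ∃ c₂ ∈ V, inc g₂ * x - lin h₀ * c₂ ∈ I) :
    ∀ (n : ℕ) (g : Pp k), n ≤ B → g ≠ 0 → g.IsHomogeneous n →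
      (∃ u ∈ V, inc g * x - lin h₀ * u ∈ I) → ∃ c ∈ V, x - lin h₀ * c ∈ I := by
  intro n
  induction n using Nat.strong_induction_on with
  | _ n ih =>
    intro g₀ hn hg0 hgh hgu
    obtain ⟨u, hu, hgu⟩ := hgu
    by_cases hunit : IsUnit g₀
    · -- a constant
      obtain ⟨w, hw⟩ := hunit
      have h1 : inc (↑(w⁻¹) : Pp k) * inc g₀ = (1 : Sp k j) := by
        rw [← map_mul, ← hw, Units.inv_mul, map_one]
      refine ⟨inc (↑(w⁻¹) : Pp k) * u, V.mul_mem_left _ hu, ?_⟩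
      have h2 : x - lin h₀ * (inc (↑(w⁻¹) : Pp k) * u) =
          inc (↑(w⁻¹) : Pp k) * (inc g₀ * x - lin h₀ * u) := by
        have h3 : inc (↑(w⁻¹) : Pp k) * (inc g₀ * x - lin h₀ * u) =
            (inc (↑(w⁻¹) : Pp k) * inc g₀) * x - lin h₀ * (inc (↑(w⁻¹) : Pp k) * u) := by ring
        rw [h3, h1, one_mul]
      rw [h2]
      exact I.mul_mem_left _ hgu
    · obtain ⟨π, hπ, g₁, hg1⟩ := WfDvdMonoid.exists_irreducible_factor hunit hg0
      obtain ⟨dπ, d₁, hdd, hπh, hg1h⟩ := homogeneous_of_mul (hg1 ▸ hgh) (hg1 ▸ hg0)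
      have hg10 : g₁ ≠ 0 := by
        rintro rfl
        exact hg0 (by rw [hg1, mul_zero])
      have hdπ : 1 ≤ dπ := by
        rcases Nat.eq_zero_or_pos dπ with h0 | h0
        · exfalso
          subst h0
          have h1 : π = C (coeff 0 π) := totalDegree_eq_zero_iff_eq_C.1 (hπh.totalDegree hπ.ne_zero)
          have h2 : coeff 0 π ≠ 0 := by
            intro h3
            rw [h3, map_zero] at h1
            exact hπ.ne_zero h1
          apply hπ.not_isUnit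
          rw [h1]
          exact (isUnit_iff_ne_zero.2 h2).map C
        · exact h0
      obtain ⟨g₂, hg2, c₂, hc2, hg2c⟩ := hstep π dπ hπ hπh (by omega)
      obtain ⟨c₃, hc3, hfin⟩ := star_cancel hI V hIV hsat h₀ p α hp0 hpα π g₁ g₂ hπ hg2 x u c₂ hu
        hc2 (by rw [← hg1]; exact hgu) hg2c
      exact ih d₁ (by omega) g₁ (by omega) hg10 hg1h ⟨c₃, hc3, hfin⟩

/-- for every ideal there is a nonzero entire function `w` such that `lin F(z)` in the ideal and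
`w(z) ≠ 0` imply that all `lin F(z')` are in the ideal -/
private theorem star_func {k j : ℕ} (F : Fin (k + 1) ⊕ Fin j → Ent) (P : Ideal (Sp k j)) :
    ∃ w : Ent, w ≠ 0 ∧ ∀ z, w.1 z ≠ 0 → lin (fun i => (F i).1 z) ∈ P →
      ∀ z', lin (fun i => (F i).1 z') ∈ P := by
  classical
  by_cases hall : ∀ z', lin (fun i => (F i).1 z') ∈ P
  · exact ⟨1, one_ne_zero, fun z _ _ => hall⟩
  push Not at hall
  obtain ⟨z', hz'⟩ := hall
  let L : Submodule ℂ (Fin (k + 1) ⊕ Fin j → ℂ) :=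
    { carrier := {h | lin h ∈ P}
      add_mem' := by
        intro a b ha hb
        have h1 : lin (a + b) = lin a + lin b := by
          unfold lin
          rw [← Finset.sum_add_distrib]
          refine Finset.sum_congr rfl fun i _ => ?_
          rw [Pi.add_apply, map_add, add_mul]
        show lin (a + b) ∈ P
        rw [h1]
        exact P.add_mem ha hb
      zero_mem' := by
        have h1 : lin (0 : Fin (k + 1) ⊕ Fin j → ℂ) = 0 := by
          unfold lin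
          refine Finset.sum_eq_zero fun i _ => ?_
          rw [Pi.zero_apply, map_zero, zero_mul]
        show lin (0 : Fin (k + 1) ⊕ Fin j → ℂ) ∈ P
        rw [h1]
        exact P.zero_mem
      smul_mem' := by
        intro c a ha
        have h1 : lin (c • a) = C c * lin a := by
          unfold lin
          rw [Finset.mul_sum]
          refine Finset.sum_congr rfl fun i _ => ?_
          rw [Pi.smul_apply, smul_eq_mul, map_mul, mul_assoc]
        show lin (c • a) ∈ P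
        rw [h1]
        exact P.mul_mem_left _ ha }
  have hL : (fun i => (F i).1 z') ∉ L := hz'
  obtain ⟨f, hf, hLf⟩ := Submodule.exists_le_ker_of_notMem hL
  have hfs : ∀ v : Fin (k + 1) ⊕ Fin j → ℂ, f v = ∑ i, f (Pi.single i 1) * v i := by
    intro v
    conv_lhs => rw [pi_eq_sum_univ' v]
    rw [map_sum]
    refine Finset.sum_congr rfl fun i _ => ?_
    rw [map_smul, smul_eq_mul, mul_comm]
  let w : Ent := ∑ i, algebraMap ℂ Ent (f (Pi.single i 1)) * F i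
  have hw : ∀ z, w.1 z = f (fun i => (F i).1 z) := by
    intro z
    rw [hfs]
    have h1 : w.1 = ∑ i, (algebraMap ℂ Ent (f (Pi.single i 1)) * F i).1 := by
      exact map_sum Ent.val _ _
    rw [h1, Finset.sum_apply]
    rfl
  refine ⟨w, ?_, ?_⟩
  · rw [Ent.ne_zero_iff]
    exact ⟨z', by rw [hw]; exact hf⟩
  · intro z hz hP
    exfalso
    apply hz
    rw [hw]
    have h1 : (fun i => (F i).1 z) ∈ L := hP
    exact LinearMap.mem_ker.1 (hLf h1)

private theorem star_dvd {x d : Ent} (h : x ∣ d) {z : ℂ} (hz : d.1 z ≠ 0) : x.1 z ≠ 0 := by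
  obtain ⟨y, rfl⟩ := h
  intro h0
  apply hz
  show x.1 z * y.1 z = 0
  rw [h0, zero_mul]

/-- PIECE STAR -/
theorem star {k j r : ℕ} (hk : 1 ≤ k) {I : Ideal (Sp k j)} {b : Fin r → Sp k j}
    {db : Fin r → ℕ} (hI : CI I r b db) (V : Ideal (Sp k j)) (hIV : I ≤ V)
    (hsat : ∀ (p : Pp k) (τ : Sp k j), p ≠ 0 → inc p * τ ∈ V → τ ∈ V) (B : ℕ)
    (hinv : ∀ h : Fin (k + 1) ⊕ Fin j → ℂ, h ≠ 0 → ∃ (p : Pp k) (dp : ℕ) (α : Sp k j), p ≠ 0 ∧
      p.IsHomogeneous dp ∧ dp ≤ B ∧ inc p - lin h * α ∈ annI I V)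
    (Q : ℕ) (ε : Fin Q → Fin (k + 1) → ℂ) (hε : Detects B Q ε)
    (F : Fin (k + 1) ⊕ Fin j → Ent) (hF : F ≠ 0)
    (hNT : ∀ a b, a ≠ b → NoTr (annI I V) (ε a) (fun i => ε b i - ε a i) F) (z₂ : ℂ) :
    ∃ (d : Ent) (b₀ : ℕ), d ≠ 0 ∧ ∀ z : ℂ, d.1 z ≠ 0 → ∀ τ ∈ V, ∀ τ' ∈ V,
      lin (fun i => (F i).1 z) * τ' - lin (fun i => (dE (F i)).1 z) * τ ∈ I →
      ∃ c ∈ V, lin (fun i => (F i).1 z₂) ^ b₀ * τ - lin (fun i => (F i).1 z) * c ∈ I := by
  classical
  have hIann : I ≤ annI I V := by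
    intro s hs t _
    exact I.mul_mem_right t hs
  -- the finite sets `T a b`
  have hTex : ∀ a b : Fin Q, ∃ T : Finset ℂ, a ≠ b →
      ∀ (t : ℂ) (p : Fin (k + 1) ⊕ Fin j → ℂ),
        (∀ g ∈ annI I V, eval p g = 0) →
        (∀ i, p (Sum.inl i) = ε a i + t * (ε b i - ε a i)) →
        (∀ z, dt p (fun i => (F i).1 z) = 0) → t ∈ T := by
    intro a b
    by_cases hab : a = b
    · exact ⟨∅, fun h => (h hab).elim⟩
    · obtain ⟨T, hT⟩ := t_fin hI (annI I V) hIann (ε a) (fun i => ε b i - ε a i) F (hNT a b hab)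
      exact ⟨T, fun _ => hT⟩
  choose T hT using hTex
  -- the functions `dd a b`
  have hdex : ∀ a b : Fin Q, ∃ d : Ent, d ≠ 0 ∧ (a ≠ b →
      ∀ z : ℂ, d.1 z ≠ 0 → ∀ (t : ℂ) (p : Fin (k + 1) ⊕ Fin j → ℂ),
        (∀ g ∈ annI I V, eval p g = 0) →
        (∀ i, p (Sum.inl i) = ε a i + t * (ε b i - ε a i)) →
        dt p (fun i => (F i).1 z) = 0 → dt p (fun i => (dE (F i)).1 z) = 0 →
        ∀ z', dt p (fun i => (F i).1 z') = 0) := by
    intro a b
    by_cases hab : a = b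
    · exact ⟨1, one_ne_zero, fun h => (h hab).elim⟩
    · obtain ⟨d, hd, hd'⟩ := gen_line hI (annI I V) hIann (ε a) (fun i => ε b i - ε a i) F
        (hNT a b hab)
      exact ⟨d, hd, fun _ => hd'⟩
  choose dd hdd0 hdd using hdex
  -- the finite set of exceptional irreducible forms
  obtain ⟨S, hS⟩ := hε T
  have hPex : ∀ π₀ : Pp k, ∃ (PF : Finset (Ideal (Sp k j))) (b₀ : ℕ), Irreducible π₀ →
      ∀ h₀ h : Fin (k + 1) ⊕ Fin j → ℂ, (∀ P ∈ PF, lin h₀ ∈ P → lin h ∈ P) →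
        (∃ (p : Pp k) (dp : ℕ) (α : Sp k j), p ≠ 0 ∧ p.IsHomogeneous dp ∧ dp ≤ B ∧
          inc p - lin h₀ * α ∈ annI I V) →
        ∃ (g : Pp k) (w : Sp k j), ¬ π₀ ∣ g ∧ inc g * lin h ^ b₀ - lin h₀ * w ∈ annI I V := by
    intro π₀
    by_cases hπ₀ : Irreducible π₀
    · obtain ⟨S', b₀, hfin, _, h1⟩ := cprime hI (annI I V) hIann B π₀ hπ₀
      refine ⟨hfin.toFinset, b₀, fun _ h₀ h h2 h3 => h1 h₀ h ?_ h3⟩
      intro P hP
      exact h2 P (hfin.mem_toFinset.2 hP)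
    · exact ⟨∅, 0, fun h => (hπ₀ h).elim⟩
  choose PF b₀ hPF using hPex
  choose w hw0 hw using star_func F
  obtain ⟨i₀, hi₀⟩ := Function.ne_iff.1 hF
  -- the function `d`
  set d₁ : Ent := ∏ a : Fin Q, ∏ b : Fin Q, dd a b with hd₁
  set d₂ : Ent := ∏ π₀ ∈ S, ∏ P ∈ PF π₀, w P with hd₂
  refine ⟨d₁ * (F i₀ * d₂), ∑ π₀ ∈ S, b₀ π₀, ?_, ?_⟩
  · refine mul_ne_zero ?_ (mul_ne_zero hi₀ ?_)
    · exact Finset.prod_ne_zero_iff.2 fun a _ => Finset.prod_ne_zero_iff.2 fun b _ => hdd0 a b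
    · exact Finset.prod_ne_zero_iff.2 fun a _ => Finset.prod_ne_zero_iff.2 fun b _ => hw0 b
  intro z hz τ hτ τ' hτ' heq
  have hz1 : ∀ a b, (dd a b).1 z ≠ 0 := by
    intro a b
    refine star_dvd ?_ hz
    refine Dvd.dvd.mul_right ?_ _
    exact (Finset.dvd_prod_of_mem (fun b => dd a b) (Finset.mem_univ b)).trans
      (Finset.dvd_prod_of_mem (fun a => ∏ b : Fin Q, dd a b) (Finset.mem_univ a))
  have hz2 : (F i₀).1 z ≠ 0 := by
    refine star_dvd ?_ hz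
    exact Dvd.dvd.mul_left (Dvd.intro _ rfl) _
  have hz3 : ∀ π₀ ∈ S, ∀ P ∈ PF π₀, (w P).1 z ≠ 0 := by
    intro π₀ hπ₀ P hP
    refine star_dvd ?_ hz
    refine Dvd.dvd.mul_left (Dvd.dvd.mul_left ?_ _) _
    exact (Finset.dvd_prod_of_mem (fun P => w P) hP).trans
      (Finset.dvd_prod_of_mem (fun π₀ => ∏ P ∈ PF π₀, w P) hπ₀)
  set h₀ : Fin (k + 1) ⊕ Fin j → ℂ := fun i => (F i).1 z with hh₀
  set h' : Fin (k + 1) ⊕ Fin j → ℂ := fun i => (dE (F i)).1 z with hh'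
  set h : Fin (k + 1) ⊕ Fin j → ℂ := fun i => (F i).1 z₂ with hh
  have hne : h₀ ≠ 0 := fun h1 => hz2 (congrFun h1 i₀)
  obtain ⟨p, dp, α, hp0, hph, hpB, hpα⟩ := hinv h₀ hne
  set bb : ℕ := ∑ π₀ ∈ S, b₀ π₀ with hbb
  have hxV : lin h ^ bb * τ ∈ V := V.mul_mem_left _ hτ
  refine star_ind hI V hIV hsat B h₀ p α hp0 hpα (lin h ^ bb * τ) ?_ dp p hpB hp0 hph
    ⟨α * (lin h ^ bb * τ), V.mul_mem_left _ hxV, ?_⟩
  · -- the step
    intro π dπ hπ hπh hdπ
    by_cases hA : ∃ a b, a ≠ b ∧ ∃ t, t ∉ T a b ∧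
        eval (fun i => ε a i + t * (ε b i - ε a i)) π = 0
    · obtain ⟨a, b', hab, t, htT, hzero⟩ := hA
      obtain ⟨g, hgne, hgB⟩ := nak hI (annI I V ⊔ Ideal.span {lin h₀, lin h'})
        (le_trans hIann le_sup_left) (fun i => ε a i + t * (ε b' i - ε a i)) (by
        intro q hq
        by_contra hcon
        push Not at hcon
        have h1 : ∀ g ∈ annI I V, eval q g = 0 := fun g hg => hcon g (Ideal.mem_sup_left hg)
        have h2 : dt q h₀ = 0 := by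
          rw [← star_eval_lin]
          exact hcon _ (Ideal.mem_sup_right (Ideal.subset_span (Or.inl rfl)))
        have h3 : dt q h' = 0 := by
          rw [← star_eval_lin]
          exact hcon _ (Ideal.mem_sup_right (Ideal.subset_span (Or.inr rfl)))
        exact htT (hT a b' hab t q h1 hq (hdd a b' hab z (hz1 a b') t q h1 hq h2 h3)))
      refine ⟨g, ?_, ?_⟩
      · rintro ⟨w', hw'⟩
        apply hgne
        rw [hw', map_mul, hzero, zero_mul]
      obtain ⟨ν, hν, y, hy, hνy⟩ := Submodule.mem_sup.1 hgB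
      obtain ⟨x₁, x₂, hxx⟩ := Ideal.mem_span_pair.1 hy
      refine ⟨x₁ * (lin h ^ bb * τ) + x₂ * lin h ^ bb * τ',
        V.add_mem (V.mul_mem_left _ hxV) (V.mul_mem_left _ hτ'), ?_⟩
      have h1 : inc g * (lin h ^ bb * τ) -
          lin h₀ * (x₁ * (lin h ^ bb * τ) + x₂ * lin h ^ bb * τ') =
          ν * (lin h ^ bb * τ) - x₂ * lin h ^ bb * (lin h₀ * τ' - lin h' * τ) := by
        rw [← hνy, ← hxx]
        ring
      rw [h1]
      exact I.sub_mem (hν _ hxV) (I.mul_mem_left _ heq)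
    · obtain ⟨π₀, hπ₀S, c, hc, hπc⟩ := hS π dπ hdπ hπh hπ.ne_zero (by
        intro a b' hab t ht
        by_contra hcon
        exact hA ⟨a, b', hab, t, hcon, ht⟩)
      have hassoc : Associated π π₀ := by
        rw [hπc]
        exact (associated_unit_mul_left _ _ ((isUnit_iff_ne_zero.2 hc).map C))
      have hπ₀ : Irreducible π₀ := hassoc.irreducible hπ
      obtain ⟨g, w', hg, hgw⟩ := hPF π₀ hπ₀ h₀ h (by
        intro P hP hP0
        exact hw P z (hz3 π₀ hπ₀S P hP) hP0 z₂) ⟨p, dp, α, hp0, hph, hpB, hpα⟩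
      refine ⟨g, fun hdv => hg (hassoc.symm.dvd.trans hdv), ?_⟩
      have hle : b₀ π₀ ≤ bb := Finset.single_le_sum (f := b₀) (fun _ _ => Nat.zero_le _) hπ₀S
      obtain ⟨m, hm⟩ := Nat.exists_eq_add_of_le hle
      refine ⟨w' * (lin h ^ m * τ), V.mul_mem_left _ (V.mul_mem_left _ hτ), ?_⟩
      have h1 : inc g * (lin h ^ bb * τ) - lin h₀ * (w' * (lin h ^ m * τ)) =
          (inc g * lin h ^ (b₀ π₀) - lin h₀ * w') * (lin h ^ m * τ) := by
        rw [hm, pow_add]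
        ring
      rw [h1]
      exact hgw _ (V.mul_mem_left _ hτ)
  · have h1 : inc p * (lin h ^ bb * τ) - lin h₀ * (α * (lin h ^ bb * τ)) =
        (inc p - lin h₀ * α) * (lin h ^ bb * τ) := by ring
    rw [h1]
    exact hpα _ hxV

end Pool.Agent.SQ
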