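import Pool.Agent.Lib_MP_b9fedf_sq.EntDom

/-! Linear changes of coordinates. -/

set_option autoImplicit false

namespace Pool.Agent.SQ
open MvPolynomial

/-- the curve `F` in the coordinates given by `T` -/
noncomputable def pull {σ τ : Type} [Fintype τ] [DecidableEq σ] (T : (σ → ℂ) →ₗ[ℂ] (τ → ℂ))
    (F : τ → Ent) : σ → Ent := fun i => ∑ k, T (Pi.single i 1) k • F k

/-- the polynomial `s` in the coordinates given by `T` -/
noncomputable def subs {σ τ : Type} [Fintype σ] [DecidableEq σ] (T : (σ → ℂ) →ₗ[ℂ] (τ → ℂ))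
    (s : MvPolynomial τ ℂ) : MvPolynomial σ ℂ :=
  bind₁ (fun k => ∑ i, C (T (Pi.single i 1) k) * X i) s

theorem map_eq_sum {σ τ : Type} [Fintype σ] [DecidableEq σ]
    (T : (σ → ℂ) →ₗ[ℂ] (τ → ℂ)) (v : σ → ℂ) (k : τ) :
    T v k = ∑ i, v i * T (Pi.single i 1) k := by
  have h1 : v = ∑ i, v i • (Pi.single i (1 : ℂ) : σ → ℂ) := by
    funext x
    rw [Finset.sum_apply, Finset.sum_eq_single x]
    · simp
    · intro b _ hb
      rw [Pi.smul_apply, Pi.single_apply, if_neg hb.symm, smul_zero]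
    · intro h
      exact absurd (Finset.mem_univ _) h
  conv_lhs => rw [h1]
  rw [map_sum, Finset.sum_apply]
  exact Finset.sum_congr rfl fun i _ => by rw [map_smul]; rfl

theorem exists_left_inv {σ τ : Type} [Fintype σ] [Fintype τ] [DecidableEq σ] [DecidableEq τ]
    (T : (σ → ℂ) →ₗ[ℂ] (τ → ℂ)) (hT : Function.Injective T) :
    ∃ R : τ → σ → ℂ, ∀ i i', ∑ k, T (Pi.single i 1) k * R k i' = if i = i' then 1 else 0 := by
  obtain ⟨g, hg⟩ := LinearMap.exists_leftInverse_of_injective T (LinearMap.ker_eq_bot.mpr hT)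
  refine ⟨fun k i => g (Pi.single k 1) i, fun i i' => ?_⟩
  rw [← map_eq_sum g]
  have h1 := congrArg (fun f => f (Pi.single i 1) i') hg
  simp only [LinearMap.comp_apply, LinearMap.id_apply] at h1
  rw [h1, Pi.single_apply]
  exact if_congr eq_comm rfl rfl

theorem ent_sum_apply {ι : Type} [Fintype ι] (c : ι → ℂ) (f : ι → Ent) (z : ℂ) :
    (∑ i, c i • f i : Ent).1 z = ∑ i, c i * (f i).1 z := by
  rw [AddSubmonoidClass.coe_finsetSum, Finset.sum_apply]
  rfl

theorem pull_apply {σ τ : Type} [Fintype τ] [DecidableEq σ] (T : (σ → ℂ) →ₗ[ℂ] (τ → ℂ))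
    (F : τ → Ent) (i : σ) (z : ℂ) : (pull T F i).1 z = ∑ k, T (Pi.single i 1) k * (F k).1 z :=
  ent_sum_apply _ _ z

theorem pull_sum {σ τ : Type} [Fintype σ] [Fintype τ] [DecidableEq σ]
    (T : (σ → ℂ) →ₗ[ℂ] (τ → ℂ)) (F : τ → Ent) (v : σ → ℂ) (z : ℂ) :
    ∑ i, v i * (pull T F i).1 z = ∑ k, T v k * (F k).1 z := by
  have h1 : ∀ k, T v k * (F k).1 z = ∑ i, v i * (T (Pi.single i 1) k * (F k).1 z) := by
    intro k
    rw [map_eq_sum T v k, Finset.sum_mul]
    exact Finset.sum_congr rfl fun i _ => by ring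
  rw [Finset.sum_congr rfl fun k _ => h1 k, Finset.sum_comm]
  apply Finset.sum_congr rfl
  intro i _
  rw [pull_apply, Finset.mul_sum]

theorem pull_per {σ τ : Type} [Fintype τ] [DecidableEq σ]
    (T : (σ → ℂ) →ₗ[ℂ] (τ → ℂ)) (F : τ → Ent)
    (hper : ∀ a z, (F a).1 (z + 2 * Real.pi * Complex.I) = (F a).1 z) (i : σ) (z : ℂ) :
    (pull T F i).1 (z + 2 * Real.pi * Complex.I) = (pull T F i).1 z := by
  rw [pull_apply, pull_apply]
  exact Finset.sum_congr rfl fun k _ => by rw [hper]

theorem pull_li {σ τ : Type} [Fintype σ] [Fintype τ] [DecidableEq σ] [DecidableEq τ]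
    (T : (σ → ℂ) →ₗ[ℂ] (τ → ℂ)) (hT : Function.Injective T) (F : τ → Ent)
    (hF : LinearIndependent ℂ F) : LinearIndependent ℂ (pull T F) := by
  obtain ⟨R, hR⟩ := exists_left_inv T hT
  rw [Fintype.linearIndependent_iff] at hF ⊢
  intro c hc i'
  have h1 : ∑ k, (∑ i, c i * T (Pi.single i 1) k) • F k = 0 := by
    rw [← hc]
    simp only [pull, Finset.sum_smul, Finset.smul_sum, smul_smul]
    rw [Finset.sum_comm]
  have h2 := hF _ h1
  have h3 : ∑ k, (∑ i, c i * T (Pi.single i 1) k) * R k i' = 0 :=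
    Finset.sum_eq_zero fun k _ => by rw [h2 k, zero_mul]
  simp only [Finset.sum_mul] at h3
  rw [Finset.sum_comm] at h3
  have h4 : ∀ i, ∑ k, c i * T (Pi.single i 1) k * R k i' = c i * (if i = i' then 1 else 0) := by
    intro i
    rw [← hR i i', Finset.mul_sum]
    exact Finset.sum_congr rfl fun k _ => by ring
  rw [Finset.sum_congr rfl fun i _ => h4 i] at h3
  simpa using h3

theorem subs_hom {σ τ : Type} [Fintype σ] [DecidableEq σ] (T : (σ → ℂ) →ₗ[ℂ] (τ → ℂ))
    {s : MvPolynomial τ ℂ} {e : ℕ} (hs : s.IsHomogeneous e) : (subs T s).IsHomogeneous e := by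
  have h1 := hs.aeval (fun k => ∑ i, C (T (Pi.single i 1) k) * X i : τ → MvPolynomial σ ℂ)
    (n := 1) (fun k => by
      apply IsHomogeneous.sum
      intro i _
      have := (isHomogeneous_C σ (T (Pi.single i 1) k)).mul (isHomogeneous_X ℂ i)
      rwa [zero_add] at this)
  rw [one_mul] at h1
  exact h1

theorem eval_subs {σ τ : Type} [Fintype σ] [DecidableEq σ] (T : (σ → ℂ) →ₗ[ℂ] (τ → ℂ))
    (s : MvPolynomial τ ℂ) (v : σ → ℂ) : eval v (subs T s) = eval (T v) s := by
  have h1 := eval₂Hom_bind₁ (RingHom.id ℂ) v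
    (fun k => ∑ i, C (T (Pi.single i 1) k) * X i : τ → MvPolynomial σ ℂ) s
  have h2 : eval v (subs T s) = eval (fun k => eval v
      (∑ i, C (T (Pi.single i 1) k) * X i : MvPolynomial σ ℂ)) s := h1
  rw [h2]
  congr 2
  funext k
  rw [map_sum, map_eq_sum T v k]
  exact Finset.sum_congr rfl fun i _ => by rw [map_mul, eval_C, eval_X, mul_comm]

theorem pull_ND {σ τ : Type} [Fintype σ] [Fintype τ] [DecidableEq σ] [DecidableEq τ]
    (T : (σ → ℂ) →ₗ[ℂ] (τ → ℂ)) (hT : Function.Injective T) (F : τ → Ent)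
    (s : MvPolynomial τ ℂ) (h : ND F s) : ND (pull T F) (subs T s) := by
  obtain ⟨R, hR⟩ := exists_left_inv T hT
  intro Ω _ ψ hψ halg t p ht hp hp0 h1 h2
  set φ : ℂ →+* Ω := ψ.comp (algebraMap ℂ Ent) with hφ
  have hsm : ∀ (c : ℂ) (f : Ent), ψ (c • f) = φ c * ψ f := by
    intro c f
    rw [Algebra.smul_def, map_mul]
    rfl
  set p' : τ → Ω := fun k => ∑ i, p i * φ (T (Pi.single i 1) k) with hp'
  have e1 : ∀ G : τ → Ent, ∑ k, p' k * ψ (G k) =
      ∑ i, p i * ψ (∑ k, T (Pi.single i 1) k • G k) := by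
    intro G
    simp only [hp', Finset.sum_mul, map_sum, hsm, Finset.mul_sum]
    rw [Finset.sum_comm]
    exact Finset.sum_congr rfl fun i _ => Finset.sum_congr rfl fun k _ => by ring
  have h3 : s.eval₂ φ p' = 0 := by
    apply h Ω ψ hψ halg t p' ht
    · intro k
      set θ : Polynomial ℂ →+* Ω := Polynomial.eval₂RingHom φ t with hθ
      let _ := θ.toAlgebra
      have h4 : ∀ i, IsAlgebraic (Polynomial ℂ) (p i) := by
        intro i
        obtain ⟨R, hR0, hR1⟩ := hp i
        exact ⟨R, hR0, hR1⟩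
      have h5 : ∀ c : ℂ, IsAlgebraic (Polynomial ℂ) (φ c) := by
        intro c
        have : φ c = algebraMap (Polynomial ℂ) Ω (Polynomial.C c) := by
          show φ c = Polynomial.eval₂ φ t (Polynomial.C c)
          rw [Polynomial.eval₂_C]
        rw [this]
        exact isAlgebraic_algebraMap _
      have h6 : ∀ S : Finset σ, IsAlgebraic (Polynomial ℂ)
          (∑ i ∈ S, p i * φ (T (Pi.single i 1) k)) := by
        intro S
        induction S using Finset.induction_on with
        | empty =>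
          rw [Finset.sum_empty]
          exact isAlgebraic_zero
        | insert a S ha ih =>
          rw [Finset.sum_insert ha]
          exact ((h4 a).mul (h5 _)).add ih
      obtain ⟨R, hR0, hR1⟩ := h6 Finset.univ
      exact ⟨R, hR0, hR1⟩
    · intro hz
      apply hp0
      funext i'
      have h7 : ∑ k, p' k * φ (R k i') = 0 := by
        rw [hz]
        simp
      simp only [hp', Finset.sum_mul] at h7
      rw [Finset.sum_comm] at h7
      have h8 : ∀ i, ∑ k, p i * φ (T (Pi.single i 1) k) * φ (R k i') =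
          p i * (if i = i' then 1 else 0) := by
        intro i
        have h9 := congrArg φ (hR i i')
        rw [map_sum] at h9
        have h10 : φ (if i = i' then 1 else 0) = if i = i' then 1 else 0 := by
          split_ifs
          · exact map_one φ
          · exact map_zero φ
        rw [h10] at h9
        rw [← h9, Finset.mul_sum]
        exact Finset.sum_congr rfl fun k _ => by rw [map_mul]; ring
      rw [Finset.sum_congr rfl fun i _ => h8 i] at h7
      simpa using h7
    · rw [e1]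
      exact h1
    · rw [e1 (fun k => dE (F k))]
      rw [← h2]
      apply Finset.sum_congr rfl
      intro i _
      congr 2
      unfold pull
      rw [dE_sum]
      exact Finset.sum_congr rfl fun k _ => (dE_smul _ _).symm
  have h4 := eval₂Hom_bind₁ φ p
    (fun k => ∑ i, C (T (Pi.single i 1) k) * X i : τ → MvPolynomial σ ℂ) s
  have h5 : (subs T s).eval₂ φ p = s.eval₂ φ (fun k => eval₂Hom φ p
      (∑ i, C (T (Pi.single i 1) k) * X i : MvPolynomial σ ℂ)) := h4
  rw [h5, ← h3]
  congr 1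
  funext k
  rw [map_sum]
  exact Finset.sum_congr rfl fun i _ => by
    rw [map_mul, eval₂Hom_C, eval₂Hom_X', mul_comm]

end Pool.Agent.SQ
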