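import Mathlib

/-! The greedy estimate for families of hyperplanes of which few pass through a point. -/

set_option autoImplicit false

namespace Pool.Agent.SQ

private theorem pgrd_span {m s N : ℕ} (q : Fin N → Fin (m + 1) → ℂ)
    (hs : ∀ h : Fin (m + 1) → ℂ, h ≠ 0 →
      ((Finset.univ : Finset (Fin N)).filter (fun i => ∑ a, q i a * h a = 0)).card ≤ s)
    (hsN : s < N) : Submodule.span ℂ (Set.range q) = ⊤ := by
  by_contra hne
  obtain ⟨f, hf, hle⟩ := Submodule.exists_le_ker_of_lt_top _ (lt_top_iff_ne_top.mpr hne)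
  have h0 : (fun a => f (Pi.single a 1)) ≠ 0 := by
    intro h0
    apply hf
    ext x
    have := congrFun h0 x
    simpa using this
  have h1 := hs _ h0
  rw [Finset.filter_true_of_mem, Finset.card_univ, Fintype.card_fin] at h1
  · omega
  · intro i _
    have h1 : f (q i) = 0 := hle (Submodule.subset_span ⟨i, rfl⟩)
    rw [← h1, LinearMap.pi_apply_eq_sum_univ f (q i)]
    refine Finset.sum_congr rfl fun a _ => ?_
    rw [smul_eq_mul]
    congr 2
    ext b
    simp [Pi.single_apply, eq_comm]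

private theorem pgrd_exists {m s N : ℕ} (q : Fin N → Fin (m + 1) → ℂ)
    (hs : ∀ h : Fin (m + 1) → ℂ, h ≠ 0 →
      ((Finset.univ : Finset (Fin N)).filter (fun i => ∑ a, q i a * h a = 0)).card ≤ s)
    (hsN : s < N) : ∃ κ : Fin (m + 1) → Fin N, LinearIndependent ℂ (fun k => q (κ k)) := by
  obtain ⟨f, hf, -, hli⟩ := Submodule.exists_fun_fin_finrank_span_eq ℂ (Set.range q)
  have hr : Module.finrank ℂ (Submodule.span ℂ (Set.range q)) = m + 1 := by
    rw [pgrd_span q hs hsN]; simp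
  choose κ hκ using hf
  refine ⟨fun k => κ (Fin.cast hr.symm k), ?_⟩
  have : (fun k : Fin (m + 1) => q (κ (Fin.cast hr.symm k))) = f ∘ (Fin.cast hr.symm) := by
    funext k
    exact hκ _
  rw [this]
  exact hli.comp _ (Fin.cast_injective _)

private theorem pgrd_basis {m : ℕ} (v : Fin (m + 1) → Fin (m + 1) → ℂ)
    (hv : LinearIndependent ℂ v) :
    ∃ b : Module.Basis (Fin (m + 1)) ℂ (Fin (m + 1) → ℂ), ∀ k, b k = v k := by
  refine ⟨basisOfLinearIndependentOfCardEqFinrank hv (by simp), fun k => ?_⟩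
  simp

private theorem pgrd_update {m : ℕ} (b : Module.Basis (Fin (m + 1)) ℂ (Fin (m + 1) → ℂ))
    (y : Fin (m + 1) → ℂ) (k : Fin (m + 1)) (hk : b.repr y k ≠ 0)
    (v : Fin (m + 1) → Fin (m + 1) → ℂ)
    (hv : ∀ l, v l = if l = k then y else b l) : LinearIndependent ℂ v := by
  rw [Fintype.linearIndependent_iff]
  intro g hg
  have hc : ∀ j, ∑ l, g l * b.repr (v l) j = 0 := by
    intro j
    have := congrArg (fun z => b.repr z j) hg
    simpa [map_sum, Finsupp.finsetSum_apply] using this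
  have hk0 : g k = 0 := by
    have h1 := hc k
    rw [Finset.sum_eq_single k] at h1
    · rw [hv k, if_pos rfl] at h1
      exact (mul_eq_zero.mp h1).resolve_right hk
    · intro l _ hl
      rw [hv l, if_neg hl]
      simp [hl]
    · simp
  intro i
  by_cases hi : i = k
  · rw [hi, hk0]
  · have h1 := hc i
    rw [Finset.sum_eq_single i] at h1
    · rw [hv i, if_neg hi] at h1
      simpa using h1
    · intro l _ hl
      by_cases hlk : l = k
      · rw [hlk, hk0, zero_mul]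
      · rw [hv l, if_neg hlk]
        simp [hl]
    · simp

private theorem pgrd_low1 {m : ℕ} (v : Fin (m + 1) → Fin (m + 1) → ℂ)
    (hv : LinearIndependent ℂ v) :
    ∃ C : ℝ, 0 < C ∧ ∀ x : Fin (m + 1) → ℂ, ∃ k, ‖x‖ ≤ C * ‖∑ a, v k a * x a‖ := by
  obtain ⟨b, hb⟩ := pgrd_basis v hv
  refine ⟨(∑ a : Fin (m + 1), ∑ k, ‖b.repr (Pi.single a 1) k‖) + 1, by positivity, fun x => ?_⟩
  obtain ⟨k, -, hk⟩ := Finset.exists_max_image (Finset.univ : Finset (Fin (m + 1)))
    (fun k => ‖∑ a, v k a * x a‖) Finset.univ_nonempty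
  refine ⟨k, ?_⟩
  have hM : ∀ j, ‖∑ a, v j a * x a‖ ≤ ‖∑ a, v k a * x a‖ := fun j => hk j (Finset.mem_univ _)
  rw [pi_norm_le_iff_of_nonneg (by positivity)]
  intro a
  have h1 : x a = ∑ j, b.repr (Pi.single a 1) j * ∑ e, v j e * x e := by
    have h2 := b.sum_repr (Pi.single a (1 : ℂ))
    have h3 : ∀ e, (Pi.single a (1 : ℂ) : Fin (m + 1) → ℂ) e
        = ∑ j, b.repr (Pi.single a 1) j * v j e := by
      intro e
      conv_lhs => rw [← h2]
      simp [Finset.sum_apply, hb]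
    calc x a = ∑ e, (Pi.single a (1 : ℂ) : Fin (m + 1) → ℂ) e * x e := by
          simp [Pi.single_apply]
      _ = ∑ e, (∑ j, b.repr (Pi.single a 1) j * v j e) * x e := by
          refine Finset.sum_congr rfl fun e _ => by rw [h3 e]
      _ = _ := by
          simp_rw [Finset.sum_mul, Finset.mul_sum]
          rw [Finset.sum_comm]
          refine Finset.sum_congr rfl fun j _ => Finset.sum_congr rfl fun e _ => by ring
  rw [h1]
  calc ‖∑ j, b.repr (Pi.single a 1) j * ∑ e, v j e * x e‖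
      ≤ ∑ j, ‖b.repr (Pi.single a 1) j * ∑ e, v j e * x e‖ := norm_sum_le _ _
    _ ≤ ∑ j, ‖b.repr (Pi.single a 1) j‖ * ‖∑ a, v k a * x a‖ := by
        refine Finset.sum_le_sum fun j _ => ?_
        rw [norm_mul]
        exact mul_le_mul_of_nonneg_left (hM j) (norm_nonneg _)
    _ = (∑ j, ‖b.repr (Pi.single a 1) j‖) * ‖∑ a, v k a * x a‖ := by rw [Finset.sum_mul]
    _ ≤ _ := by
        refine mul_le_mul_of_nonneg_right ?_ (norm_nonneg _)
        have := Finset.single_le_sum (f := fun a : Fin (m + 1) => ∑ k, ‖b.repr (Pi.single a 1) k‖)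
          (fun i _ => by positivity) (Finset.mem_univ a)
        linarith

private theorem pgrd_low {m N : ℕ} (q : Fin N → Fin (m + 1) → ℂ) :
    ∃ C : ℝ, ∀ κ : Fin (m + 1) → Fin N, LinearIndependent ℂ (fun k => q (κ k)) →
      ∀ x : Fin (m + 1) → ℂ, x ≠ 0 → (∀ i, ∑ a, q i a * x a ≠ 0) →
        ∃ k, Real.log ‖x‖ - Real.log ‖∑ a, q (κ k) a * x a‖ ≤ C := by
  have h1 : ∀ κ : Fin (m + 1) → Fin N, ∃ C : ℝ, LinearIndependent ℂ (fun k => q (κ k)) →
      ∀ x : Fin (m + 1) → ℂ, x ≠ 0 → (∀ i, ∑ a, q i a * x a ≠ 0) →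
        ∃ k, Real.log ‖x‖ - Real.log ‖∑ a, q (κ k) a * x a‖ ≤ C := by
    intro κ
    by_cases hκ : LinearIndependent ℂ (fun k => q (κ k))
    · obtain ⟨C, hC, h⟩ := pgrd_low1 _ hκ
      refine ⟨Real.log C, fun _ x hx hqx => ?_⟩
      obtain ⟨k, hk⟩ := h x
      refine ⟨k, ?_⟩
      have h2 : Real.log ‖x‖ ≤ Real.log (C * ‖∑ a, q (κ k) a * x a‖) :=
        Real.log_le_log (norm_pos_iff.mpr hx) hk
      rw [Real.log_mul hC.ne' (norm_ne_zero_iff.mpr (hqx _))] at h2
      linarith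
    · exact ⟨0, fun h => absurd h hκ⟩
  choose C hC using h1
  obtain ⟨M, hM⟩ := Finite.exists_le C
  refine ⟨M, fun κ hκ x hx hqx => ?_⟩
  obtain ⟨k, hk⟩ := hC κ hκ x hx hqx
  exact ⟨k, hk.trans (hM κ)⟩

private theorem pgrd_up {m N : ℕ} (q : Fin N → Fin (m + 1) → ℂ) :
    ∃ C : ℝ, 0 ≤ C ∧ ∀ x : Fin (m + 1) → ℂ, x ≠ 0 → (∀ i, ∑ a, q i a * x a ≠ 0) →
        ∀ i, 0 ≤ Real.log ‖x‖ - Real.log ‖∑ a, q i a * x a‖ + C := by
  obtain ⟨M, hM⟩ := Finite.exists_le (fun i => ∑ a, ‖q i a‖)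
  refine ⟨Real.log (max M 1), Real.log_nonneg (le_max_right _ _), fun x hx hqx i => ?_⟩
  have h1 : ‖∑ a, q i a * x a‖ ≤ max M 1 * ‖x‖ := by
    calc ‖∑ a, q i a * x a‖ ≤ ∑ a, ‖q i a * x a‖ := norm_sum_le _ _
      _ ≤ ∑ a, ‖q i a‖ * ‖x‖ := by
          refine Finset.sum_le_sum fun a _ => ?_
          rw [norm_mul]
          exact mul_le_mul_of_nonneg_left (norm_le_pi_norm x a) (norm_nonneg _)
      _ = (∑ a, ‖q i a‖) * ‖x‖ := by rw [Finset.sum_mul]
      _ ≤ _ := mul_le_mul_of_nonneg_right ((hM i).trans (le_max_left _ _)) (norm_nonneg _)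
  have h2 := Real.log_le_log (norm_pos_iff.mpr (hqx i)) h1
  rw [Real.log_mul (by positivity) (norm_ne_zero_iff.mpr hx)] at h2
  linarith

theorem pgreedy {m s N : ℕ} (q : Fin N → Fin (m + 1) → ℂ) (hq0 : ∀ i, q i ≠ 0)
    (hs : ∀ h : Fin (m + 1) → ℂ, h ≠ 0 →
      ((Finset.univ : Finset (Fin N)).filter (fun i => ∑ a, q i a * h a = 0)).card ≤ s)
    (hsN : s < N) :
    ∃ C : ℝ, ∀ x : Fin (m + 1) → ℂ, (∀ i, ∑ a, q i a * x a ≠ 0) →
      ∃ κ : Fin (m + 1) → Fin N, LinearIndependent ℂ (fun k => q (κ k)) ∧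
        ∑ i, (Real.log ‖x‖ - Real.log ‖∑ a, q i a * x a‖) ≤
          (s : ℝ) * ∑ k, (Real.log ‖x‖ - Real.log ‖∑ a, q (κ k) a * x a‖) + C := by
  classical
  obtain ⟨C0, hC0, hup⟩ := pgrd_up q
  obtain ⟨C1, hlow⟩ := pgrd_low q
  obtain ⟨κ₁, hκ₁⟩ := pgrd_exists q hs hsN
  set D : ℝ := max (C1 + C0) 0 with hD
  refine ⟨N * D + s * ((m + 1) * C0), fun x hqx => ?_⟩
  have hx : x ≠ 0 := by
    rintro rfl
    exact hqx (κ₁ 0) (by simp)
  set lam : Fin N → ℝ := fun i => Real.log ‖x‖ - Real.log ‖∑ a, q i a * x a‖ with hlam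
  -- the best independent family
  obtain ⟨κ, hκS, hκmax⟩ := Finset.exists_max_image
    ((Finset.univ : Finset (Fin (m + 1) → Fin N)).filter
      (fun κ => LinearIndependent ℂ (fun k => q (κ k))))
    (fun κ => ∑ k, lam (κ k)) ⟨κ₁, by simpa using hκ₁⟩
  have hκ : LinearIndependent ℂ (fun k => q (κ k)) := by simpa using hκS
  refine ⟨κ, hκ, ?_⟩
  obtain ⟨b, hb⟩ := pgrd_basis _ hκ
  have hmono : ∀ i k, b.repr (q i) k ≠ 0 → lam i ≤ lam (κ k) := by
    intro i k hik
    have hli : LinearIndependent ℂ (fun l => q (Function.update κ k i l)) := by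
      apply pgrd_update b (q i) k hik
      intro l
      by_cases hl : l = k
      · subst hl; simp
      · rw [if_neg hl, Function.update_of_ne hl, hb]
    have h1 := hκmax (Function.update κ k i) (by simpa using hli)
    have h2 : ∑ l, lam (Function.update κ k i l) = lam i + ∑ l ∈ Finset.univ.erase k, lam (κ l) := by
      rw [← Finset.add_sum_erase _ _ (Finset.mem_univ k), Function.update_self]
      congr 1
      refine Finset.sum_congr rfl fun l hl => ?_
      rw [Function.update_of_ne (Finset.ne_of_mem_erase hl)]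
    rw [h2, ← Finset.add_sum_erase _ _ (Finset.mem_univ k)] at h1
    linarith
  -- the smallest
  obtain ⟨k₀, hk₀⟩ := hlow κ hκ x hx hqx
  set mu : Fin (m + 1) → ℝ := fun k => lam (κ k) + C0 with hmu
  have hmu0 : ∀ k, 0 ≤ mu k := fun k => hup x hx hqx (κ k)
  have hk0 : mu k₀ ≤ D := le_max_of_le_left (by simp only [hmu]; linarith)
  have hD0 : 0 ≤ D := le_max_right _ _
  -- the coordinate functional of k₀
  set h : Fin (m + 1) → ℂ := fun a => b.repr (Pi.single a 1) k₀ with hh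
  have hcoord : ∀ y : Fin (m + 1) → ℂ, ∑ a, y a * h a = b.repr y k₀ := by
    intro y
    have h1 : y = ∑ a, y a • (Pi.single a (1 : ℂ) : Fin (m + 1) → ℂ) := by
      ext e
      simp [Finset.sum_apply, Pi.single_apply]
    conv_rhs => rw [h1]
    rw [map_sum, Finsupp.finsetSum_apply]
    refine Finset.sum_congr rfl fun a _ => ?_
    rw [map_smul, Finsupp.smul_apply, smul_eq_mul]
  have hh0 : h ≠ 0 := by
    intro h0
    have h1 := hcoord (b k₀)
    rw [h0] at h1
    simp at h1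
  have hcard := hs h hh0
  have hone : ∀ i, lam i + C0 ≤ D + (if ∑ a, q i a * h a = 0 then ∑ k, mu k else 0) := by
    intro i
    by_cases hi : ∑ a, q i a * h a = 0
    · rw [if_pos hi]
      have h1 : ∃ k, b.repr (q i) k ≠ 0 := by
        by_contra hcon
        push Not at hcon
        apply hq0 i
        have : b.repr (q i) = 0 := by ext k; exact hcon k
        simpa using this
      obtain ⟨k, hk⟩ := h1
      have h2 := hmono i k hk
      have h3 : mu k ≤ ∑ k, mu k :=
        Finset.single_le_sum (f := mu) (fun k _ => hmu0 k) (Finset.mem_univ k)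
      have h4 : mu k = lam (κ k) + C0 := rfl
      linarith
    · rw [if_neg hi, add_zero]
      rw [hcoord] at hi
      have h2 := hmono i k₀ hi
      have h4 : mu k₀ = lam (κ k₀) + C0 := rfl
      linarith
  have hsum := Finset.sum_le_sum (fun i (_ : i ∈ (Finset.univ : Finset (Fin N))) => hone i)
  rw [Finset.sum_add_distrib, Finset.sum_add_distrib, Finset.sum_const, Finset.sum_const,
    Finset.card_univ, Fintype.card_fin, nsmul_eq_mul, nsmul_eq_mul, ← Finset.sum_filter,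
    Finset.sum_const, nsmul_eq_mul] at hsum
  have hmus : 0 ≤ ∑ k, mu k := Finset.sum_nonneg fun k _ => hmu0 k
  have h5 : (((Finset.univ : Finset (Fin N)).filter
      (fun i => ∑ a, q i a * h a = 0)).card : ℝ) * ∑ k, mu k ≤ s * ∑ k, mu k :=
    mul_le_mul_of_nonneg_right (by exact_mod_cast hcard) hmus
  have h6 : ∑ k, mu k = ∑ k, lam (κ k) + (m + 1) * C0 := by
    rw [hmu, Finset.sum_add_distrib, Finset.sum_const, Finset.card_univ, Fintype.card_fin,
      nsmul_eq_mul]
    push_cast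
    ring
  have h7 : 0 ≤ (N : ℝ) * C0 := by positivity
  have h8 : ∑ i, lam i ≤ N * D + s * ∑ k, mu k := by linarith
  rw [h6] at h8
  refine h8.trans (le_of_eq ?_)
  ring

end Pool.Agent.SQ
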