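import Pool.Agent.Lib_MP_b9fedf_sq.PkgPhi
import Pool.Agent.Lib_MP_b9fedf_sq.PkgGrd

/-! The key estimate for a general interpolation package. -/

set_option autoImplicit false

namespace Pool.Agent.SQ
open Filter Metric Real Set Function MeromorphicOn ValueDistribution
open Pool.Agent.GGL

lemma pointwise_main' {m s N : ℕ} (q : Fin N → Fin (m + 1) → ℂ) (hq0 : ∀ i, q i ≠ 0)
    (hs : ∀ h : Fin (m + 1) → ℂ, h ≠ 0 →
      ((Finset.univ : Finset (Fin N)).filter (fun i => ∑ a, q i a * h a = 0)).card ≤ s)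
    (hsN : s < N)
    (g : Fin (m + 1) → ℂ → ℂ) (hg : ∀ k, Differentiable ℂ (g k)) :
    ∃ C : ℝ, ∀ (z : ℂ) (B : ℝ), 1 ≤ B → g 0 z ≠ 0 → (∀ i, ∑ a, q i a * g a z ≠ 0) →
      Wr g z ≠ 0 → (∀ i, Good (fun z => (∑ a, q i a * g a z) / g 0 z) B z) →
      ((N : ℝ) - (m + 1) * (s : ℝ)) *
        Real.log ‖fun a => g a z‖ + (s : ℝ) * Real.log ‖Wr g z‖ ≤
      ∑ i, Real.log ‖∑ a, q i a * g a z‖ + C +
        (s : ℝ) * ((m + 1) ^ 2 * Real.log B) := by
  classical
  obtain ⟨C1, hC1⟩ := pgreedy q hq0 hs hsN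
  have hs0 : (0 : ℝ) ≤ s := Nat.cast_nonneg s
  set C2 : ℝ := ∑ κ : Fin (m + 1) → Fin N,
    |Real.log ‖(Matrix.of fun k a => q (κ k) a).det‖| with hC2
  set c0 : ℝ := Real.log ((m + 1).factorial : ℝ) +
    (m + 1) * (1 + Real.log ((m + 1).factorial : ℝ)) with hc0
  refine ⟨C1 + s * (C2 + c0), ?_⟩
  intro z B hB hg0 hhz hW hgood
  obtain ⟨κ, hκ, hsum⟩ := hC1 (fun a => g a z) hhz
  have hdet : (Matrix.of fun k a => q (κ k) a).det ≠ 0 := by
    have h1 : LinearIndependent ℂ (Matrix.of fun k a => q (κ k) a).row := hκ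
    rw [Matrix.linearIndependent_rows_iff_isUnit] at h1
    exact ((Matrix.isUnit_iff_isUnit_det _).mp h1).ne_zero
  have hWr := Wr_linear (fun k a => q (κ k) a) g hg z
  have hle := Wr_le_prod (g0 := g 0) (h := fun k ζ => ∑ a, q (κ k) a * g a ζ) (z := z) hB
    ((hg 0).analyticAt z) (fun k => (Differentiable.fun_sum (fun a _ =>
      (hg a).const_mul (q (κ k) a))).analyticAt z) hg0 (fun k => hgood (κ k))
  rw [hWr, norm_mul] at hle
  have hdpos : 0 < ‖(Matrix.of fun k a => q (κ k) a).det‖ := norm_pos_iff.mpr hdet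
  have hWpos : 0 < ‖Wr g z‖ := norm_pos_iff.mpr hW
  have hf : (0 : ℝ) < ((m + 1).factorial : ℝ) := by exact_mod_cast Nat.factorial_pos (m + 1)
  have hBm : 0 < B ^ (m + 1) := by positivity
  have he : 0 < Real.exp 1 := Real.exp_pos 1
  have hprod : 0 < ∏ k, ‖∑ a, q (κ k) a * g a z‖ :=
    Finset.prod_pos fun k _ => norm_pos_iff.mpr (hhz _)
  have h6 := Real.log_le_log (mul_pos hdpos hWpos) hle
  rw [Real.log_mul hdpos.ne' hWpos.ne', Real.log_mul (by positivity) hprod.ne',
    Real.log_mul hf.ne' (by positivity), Real.log_pow,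
    Real.log_mul (by positivity) hBm.ne', Real.log_mul he.ne' hf.ne', Real.log_exp, Real.log_pow,
    Real.log_prod (fun i _ => (norm_pos_iff.mpr (hhz _)).ne')] at h6
  have h7 : -C2 ≤ Real.log ‖(Matrix.of fun k a => q (κ k) a).det‖ := by
    have h8 : |Real.log ‖(Matrix.of fun k a => q (κ k) a).det‖| ≤ C2 :=
      Finset.single_le_sum (f := fun κ : Fin (m + 1) → Fin N =>
        |Real.log ‖(Matrix.of fun k a => q (κ k) a).det‖|) (fun _ _ => abs_nonneg _)
        (Finset.mem_univ κ)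
    linarith [neg_abs_le (Real.log ‖(Matrix.of fun k a => q (κ k) a).det‖)]
  rw [Finset.sum_sub_distrib, Finset.sum_sub_distrib, Finset.sum_const, Finset.sum_const,
    Finset.card_univ, Finset.card_univ, Fintype.card_fin, Fintype.card_fin, nsmul_eq_mul,
    nsmul_eq_mul] at hsum
  push_cast at hsum h6
  set X := Real.log ‖fun a => g a z‖ with hX
  set Y := ∑ k, Real.log ‖∑ a, q (κ k) a * g a z‖ with hY
  set Z := ∑ i, Real.log ‖∑ a, q i a * g a z‖ with hZ
  have h9 : -Y ≤ -Real.log ‖Wr g z‖ + (C2 + c0) + (m + 1) ^ 2 * Real.log B := by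
    rw [hc0]
    linarith
  have h10 := mul_le_mul_of_nonneg_left h9 hs0
  linarith

/-- the averaged inequality -/
lemma average_main' {m s N : ℕ} (q : Fin N → Fin (m + 1) → ℂ) (hq0 : ∀ i, q i ≠ 0)
    (hs : ∀ h : Fin (m + 1) → ℂ, h ≠ 0 →
      ((Finset.univ : Finset (Fin N)).filter (fun i => ∑ a, q i a * h a = 0)).card ≤ s)
    (hsN : s < N)
    (g : Fin (m + 1) → ℂ → ℂ) (hg : ∀ k, Differentiable ℂ (g k))
    (hli : LinearIndependent ℂ g) :
    ∃ C : ℝ, ∀ (r B : ℝ), 1 ≤ r → 1 ≤ B →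
      (∀ i, ∀ z ∈ sphere (0 : ℂ) r, Good (fun z => (∑ a, q i a * g a z) / g 0 z) B z) →
      ((N : ℝ) - (m + 1) * (s : ℝ)) *
        circleAverage (fun z => Real.log ‖fun a => g a z‖) 0 r +
        (s : ℝ) *
          Function.locallyFinsuppWithin.logCounting (Dv (Wr g)) r ≤
      ∑ i, Function.locallyFinsuppWithin.logCounting
        (Dv (fun z => ∑ a, q i a * g a z)) r + C +
        (s : ℝ) * ((m + 1) ^ 2 * Real.log B) := by
  classical
  obtain ⟨C, hC⟩ := pointwise_main' q hq0 hs hsN g hg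
  have hhd : ∀ i, Differentiable ℂ (fun z => ∑ a, q i a * g a z) := fun i =>
    Differentiable.fun_sum fun a _ => (hg a).const_mul (q i a)
  have hhne : ∀ i, ∃ z, ∑ a, q i a * g a z ≠ 0 := fun i =>
    combination_ne_zero (q i) (hq0 i) g hli
  have hg0ne : ∃ z, g 0 z ≠ 0 := by
    have := hli.ne_zero 0
    by_contra hcon
    push Not at hcon
    exact this (funext hcon)
  have hWd : Differentiable ℂ (Wr g) := Wr_differentiable hg
  have hWne := exists_Wr_ne_zero g hg hli
  refine ⟨C + ∑ i, Real.log ‖meromorphicTrailingCoeffAt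
      (fun z => ∑ a, q i a * g a z) 0‖ -
    (s : ℝ) * Real.log ‖meromorphicTrailingCoeffAt (Wr g) 0‖, ?_⟩
  intro r B hr hB hgood
  have hr0 : 0 < r := by linarith
  set κ : ℝ := (N : ℝ) - (m + 1) * s with hκ
  have hvI : CircleIntegrable (fun z => Real.log ‖fun a => g a z‖) 0 r := vec_integrable hg r
  have hWI := log_integrable (mero_of_diff hWd) r
  have hhI : ∀ i, CircleIntegrable (fun z => Real.log ‖∑ a, q i a * g a z‖) 0 r := fun i =>
    log_integrable (mero_of_diff (hhd i)) r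
  have hsI : CircleIntegrable (fun z => ∑ i, Real.log ‖∑ a, q i a * g a z‖) 0 r := by
    have := CircleIntegrable.sum Finset.univ (f := fun i z => Real.log ‖∑ a, q i a * g a z‖)
      (c := 0) (R := r) (fun k _ => hhI k)
    convert! this using 1
    ext z
    simp
  have h1 : circleAverage (fun z => κ * Real.log ‖fun a => g a z‖ + s * Real.log ‖Wr g z‖) 0 r ≤
      circleAverage (fun z => (∑ i, Real.log ‖∑ a, q i a * g a z‖) +
        (C + s * ((m + 1) ^ 2 * Real.log B))) 0 r := by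
    apply circleAverage_mono_codiscrete hr0
      (CircleIntegrable.add (ci_mul κ hvI) (ci_mul s hWI))
      (CircleIntegrable.add hsI (circleIntegrable_const _ _ _))
    have h2 : ∀ᶠ z in codiscreteWithin (sphere (0 : ℂ) r), ∀ i, ∑ a, q i a * g a z ≠ 0 :=
      Filter.eventually_all.mpr fun i => nonzero_codiscrete (hhd i) (hhne i) r
    filter_upwards [h2, nonzero_codiscrete hWd hWne r, nonzero_codiscrete (hg 0) hg0ne r,
      self_mem_codiscreteWithin _] with z hz hWz hg0z hzs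
    have := hC z B hB hg0z hz hWz (fun i => hgood i z hzs)
    show κ * Real.log ‖fun a => g a z‖ + s * Real.log ‖Wr g z‖ ≤
      (∑ i, Real.log ‖∑ a, q i a * g a z‖) + (C + s * ((m + 1) ^ 2 * Real.log B))
    linarith
  rw [circleAverage_fun_add (ci_mul κ hvI) (ci_mul s hWI),
    circleAverage_fun_add hsI (circleIntegrable_const _ _ _),
    circleAverage_const] at h1
  rw [ca_mul, ca_mul, circleAverage_fun_sum (fun k _ => hhI k), jensen (mero_of_diff hWd) hr] at h1
  have h4 : ∑ i, circleAverage (fun z => Real.log ‖∑ a, q i a * g a z‖) 0 r =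
      ∑ i, Function.locallyFinsuppWithin.logCounting (Dv (fun z => ∑ a, q i a * g a z)) r +
        ∑ i, Real.log ‖meromorphicTrailingCoeffAt (fun z => ∑ a, q i a * g a z) 0‖ := by
    rw [← Finset.sum_add_distrib]
    exact Finset.sum_congr rfl fun k _ => jensen (mero_of_diff (hhd k)) hr
  rw [h4] at h1
  linarith

/-- at most `s` of the hyperplanes of a package pass through a point -/
lemma hyper_count {m s N : ℕ} (q : Fin N → Fin (m + 1) → ℂ) (K : Submodule ℂ (Fin N → ℂ))
    (hfin : Module.finrank ℂ ((Fin N → ℂ) ⧸ K) = s)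
    (hK2 : ∀ h : Fin (m + 1) → ℂ, h ≠ 0 → ∀ γ ∈ K,
      (∀ i, ∑ a, q i a * h a ≠ 0 → γ i = 0) → γ = 0) (h : Fin (m + 1) → ℂ) (hh : h ≠ 0) :
    ((Finset.univ : Finset (Fin N)).filter (fun i => ∑ a, q i a * h a = 0)).card ≤ s := by
  classical
  set I : Type := {i : Fin N // ∑ a, q i a * h a = 0} with hI
  have hli : LinearIndependent ℂ (fun i : I => K.mkQ (Pi.single i.1 (1 : ℂ))) := by
    rw [Fintype.linearIndependent_iff]
    intro lam hlam
    set γ : Fin N → ℂ := ∑ i : I, lam i • (Pi.single i.1 (1 : ℂ)) with hγ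
    have h1 : γ ∈ K := by
      rw [← Submodule.Quotient.mk_eq_zero K, ← Submodule.mkQ_apply, hγ, map_sum, ← hlam]
      exact Finset.sum_congr rfl fun i _ => by rw [map_smul]
    have h2 : γ = 0 := by
      apply hK2 h hh γ h1
      intro i hi
      rw [hγ, Finset.sum_apply]
      apply Finset.sum_eq_zero
      intro l _
      rw [Pi.smul_apply, Pi.single_apply, if_neg, smul_zero]
      intro h6
      apply hi
      rw [h6]
      exact l.2
    intro i
    have h4 := congrFun h2 i.1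
    rw [hγ, Finset.sum_apply, Finset.sum_eq_single i] at h4
    · simpa using h4
    · intro l _ hl
      rw [Pi.smul_apply, Pi.single_apply, if_neg, smul_zero]
      intro h6
      exact hl (Subtype.ext h6.symm)
    · intro h6
      exact absurd (Finset.mem_univ _) h6
  have h5 := hli.fintype_card_le_finrank
  rw [hfin] at h5
  exact (Fintype.card_subtype (fun i : Fin N => ∑ a, q i a * h a = 0)).symm.le.trans h5

/-- the key estimate -/
theorem key_estimate' {m s N : ℕ} (q : Fin N → Fin (m + 1) → ℂ) (hq0 : ∀ i, q i ≠ 0)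
    (hcard : (m + 5) * s < N)
    (Y : Set (Fin (m + 1) → ℂ)) (L : Fin N → (Fin (m + 1) → ℂ) → ℂ)
    (K : Submodule ℂ (Fin N → ℂ)) (hfin : Module.finrank ℂ ((Fin N → ℂ) ⧸ K) = s)
    (hK1 : ∀ γ ∈ K, ∀ h h' : Fin (m + 1) → ℂ, ∀ y ∈ Y,
      ∑ i, γ i * (L i y * wd h h' y (q i)) = 0)
    (hK2 : ∀ h : Fin (m + 1) → ℂ, h ≠ 0 → ∀ γ ∈ K,
      (∀ i, ∑ a, q i a * h a ≠ 0 → γ i = 0) → γ = 0) (g : Fin (m + 1) → ℂ → ℂ)
    (hg : ∀ k, Differentiable ℂ (g k)) (hli : LinearIndependent ℂ g) (z0 : ℂ)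
    (hK3 : ∀ γ : Fin N → ℂ, (∀ y ∈ Y, ∑ i, γ i *
      (L i y * wd (fun a => g a z0) (fun a => deriv (g a) z0) y (q i)) = 0) → γ ∈ K)
    (htan : ∀ (i : Fin N) (z : ℂ) (c : ℕ), (∀ a, (c : ℕ∞) ≤ analyticOrderAt (g a) z) →
      (∃ a, analyticOrderAt (g a) z = c) →
      analyticOrderAt (fun ζ => ∑ a, q i a * g a ζ) z ≠ ((c + 1 : ℕ) : ℕ∞)) :
    ∃ C : ℝ, 0 ≤ C ∧ ∀ (r B : ℝ), 1 ≤ r → 1 ≤ B →
      (∀ a, ∀ z ∈ sphere (0 : ℂ) r, Good (fun z => g a z / g 0 z) B z) →
      (∀ i, ∀ z ∈ sphere (0 : ℂ) r, Good (fun z => (∑ a, q i a * g a z) / g 0 z) B z) →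
      TC g r ≤ C * (1 + Real.log B) := by
  classical
  have hs := hyper_count q K hfin hK2
  have hsN : s < N := by nlinarith
  have hhd : ∀ i, Differentiable ℂ (fun z => ∑ a, q i a * g a z) := fun i =>
    Differentiable.fun_sum fun a _ => (hg a).const_mul (q i a)
  have hhne : ∀ i, ∃ z, ∑ a, q i a * g a z ≠ 0 := fun i =>
    combination_ne_zero (q i) (hq0 i) g hli
  have hgne : ∀ a, ∃ z, g a z ≠ 0 := by
    intro a
    have := hli.ne_zero a
    by_contra hcon
    push Not at hcon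
    exact this (funext hcon)
  have hWd : Differentiable ℂ (Wr g) := Wr_differentiable hg
  have hWne := exists_Wr_ne_zero g hg hli
  obtain ⟨C1, hC1⟩ := average_main' q hq0 hs hsN g hg hli
  obtain ⟨Φ, CΦ, hCΦ, hΦ, hΦ0, hΦle, hΦord⟩ := exists_phi' q Y L K hfin hK1 hK2 g hg z0 hK3
  obtain ⟨C2, hC2⟩ := average_phi (s := s) g hg (hgne 0) Φ CΦ hCΦ hΦ hΦ0 hΦle
  obtain ⟨C3, hC30, hC3⟩ := TC_ge hg hgne
  set D : locallyFinsupp ℂ ℤ := minDv (fun k => Dv (g k)) with hD
  -- pointwise facts about orders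
  have hpt : ∀ z : ℂ, ∃ c : ℕ, D z = (c : ℤ) ∧ (∀ a, (c : ℕ∞) ≤ analyticOrderAt (g a) z) ∧
      (∃ a, analyticOrderAt (g a) z = c) := by
    intro z
    obtain ⟨k0, hk0⟩ := exists_minDv (fun k => Dv (g k)) z
    have hord : ∀ a, analyticOrderAt (g a) z = ((analyticOrderAt (g a) z).toNat : ℕ∞) := fun a =>
      (ENat.natCast_toNat (order_ne_top (hg a) (hgne a) z)).symm
    refine ⟨(analyticOrderAt (g k0) z).toNat, ?_, ?_, k0, hord k0⟩
    · rw [hD, hk0, Dv_apply (hg k0)]
    · intro a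
      have h1 := minDv_le (fun k => Dv (g k)) a z
      rw [hk0, Dv_apply (hg k0), Dv_apply (hg a)] at h1
      rw [hord a]
      exact_mod_cast h1
  have hE1 : ∑ i, Function.locallyFinsuppWithin.logCounting
        (Dv (fun z => ∑ a, q i a * g a z)) = ∑ i, Function.locallyFinsuppWithin.logCounting
        (Dv (fun z => ∑ a, q i a * g a z)) := rfl
  have hdiv1 : ∀ r : ℝ, 1 ≤ r → ∑ i, Function.locallyFinsuppWithin.logCounting
        (Dv (fun z => ∑ a, q i a * g a z)) r +
        4 * s * Function.locallyFinsuppWithin.logCounting D r ≤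
      2 * Function.locallyFinsuppWithin.logCounting (Dv Φ) r +
        N * Function.locallyFinsuppWithin.logCounting D r := by
    intro r hr
    have h1 : (∑ i, Dv (fun z => ∑ a, q i a * g a z)) + (4 * s) • D ≤
        2 • Dv Φ + (N) • D := by
      intro z
      obtain ⟨c, hc, hc1, hc2⟩ := hpt z
      set o : Fin N → ℕ := fun i =>
        (analyticOrderAt (fun z => ∑ a, q i a * g a z) z).toNat with ho
      have ho1 : ∀ i, analyticOrderAt (fun ζ => ∑ a, q i a * g a ζ) z = o i := fun i =>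
        (ENat.natCast_toNat (order_ne_top (hhd i) (hhne i) z)).symm
      have ho2 : ∀ i, c ≤ o i := by
        intro i
        have := order_linear (q i) g z (fun k => (hg k).analyticAt z) c hc1
        rw [ho1 i] at this
        exact_mod_cast this
      have ho3 : ∀ i, o i ≠ c + 1 := by
        intro i h
        apply htan i z c hc1 hc2
        rw [ho1 i, h]
      have h2 := hΦord z c hc1 hc2 o ho1
      rw [← ENat.natCast_toNat (order_ne_top hΦ hΦ0 z)] at h2
      have h3 : 2 * s * c + ∑ i, (o i - c - 1) ≤ (analyticOrderAt Φ z).toNat := by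
        exact_mod_cast h2
      have h4 : ∑ i, o i ≤ ∑ i, (2 * (o i - c - 1) + c) := by
        apply Finset.sum_le_sum
        intro i _
        have := ho2 i
        have := ho3 i
        omega
      rw [Finset.sum_add_distrib, ← Finset.mul_sum, Finset.sum_const, Finset.card_univ,
        Fintype.card_fin, smul_eq_mul] at h4
      rw [locallyFinsuppWithin.coe_add, locallyFinsuppWithin.coe_add, Pi.add_apply, Pi.add_apply,
        locallyFinsuppWithin.coe_sum, Finset.sum_apply, locallyFinsuppWithin.coe_nsmul,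
        locallyFinsuppWithin.coe_nsmul, locallyFinsuppWithin.coe_nsmul, Pi.smul_apply,
        Pi.smul_apply, Pi.smul_apply, hc, Dv_apply hΦ]
      have h5 : ∀ i, (Dv (fun z => ∑ a, q i a * g a z)) z = (o i : ℤ) := fun i =>
        Dv_apply (hhd i) z
      simp_rw [h5]
      simp only [nsmul_eq_mul]
      have h6 : ((∑ i, o i + 4 * s * c : ℕ) : ℤ) ≤
          ((2 * (analyticOrderAt Φ z).toNat + N * c : ℕ) : ℤ) := by
        exact_mod_cast (by linarith : ∑ i, o i + 4 * s * c ≤
          2 * (analyticOrderAt Φ z).toNat + N * c)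
      push_cast at h6 ⊢
      exact h6
    have h2 := Function.locallyFinsuppWithin.logCounting_le h1 hr
    rw [map_add, map_add, map_sum, map_nsmul, map_nsmul, map_nsmul, Pi.add_apply, Pi.add_apply,
      Finset.sum_apply, Pi.smul_apply, Pi.smul_apply, Pi.smul_apply] at h2
    simp only [nsmul_eq_mul] at h2
    push_cast at h2
    linarith
  have hdiv2 : ∀ r : ℝ, 1 ≤ r → (m + 1) * Function.locallyFinsuppWithin.logCounting D r ≤
      Function.locallyFinsuppWithin.logCounting (Dv (Wr g)) r := by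
    intro r hr
    have h1 : (m + 1) • D ≤ Dv (Wr g) := by
      intro z
      obtain ⟨c, hc, hc1, hc2⟩ := hpt z
      have h2 := order_Wr_common g z (fun k => (hg k).analyticAt z) c hc1
      rw [← ENat.natCast_toNat (order_ne_top hWd hWne z)] at h2
      have h3 : (m + 1) * c ≤ (analyticOrderAt (Wr g) z).toNat := by exact_mod_cast h2
      rw [locallyFinsuppWithin.coe_nsmul, Pi.smul_apply, hc, Dv_apply hWd, nsmul_eq_mul]
      have h4 : (((m + 1) * c : ℕ) : ℤ) ≤ (((analyticOrderAt (Wr g) z).toNat : ℕ) : ℤ) :=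
        Int.ofNat_le.mpr h3
      push_cast at h4 ⊢
      exact h4
    have h2 := Function.locallyFinsuppWithin.logCounting_le h1 hr
    rw [map_nsmul, Pi.smul_apply, nsmul_eq_mul] at h2
    push_cast at h2
    exact h2
  have hs0 : (0 : ℝ) ≤ s := Nat.cast_nonneg s
  set e : ℝ := (N : ℝ) - (m + 5) * s with he
  have he1 : 1 ≤ e := by
    have h1 : ((m + 5) * s + 1 : ℝ) ≤ (N : ℝ) := by exact_mod_cast hcard
    rw [he]
    linarith
  refine ⟨|C1| + 2 * |C2| + e * C3 + s * (m + 1) ^ 2 + 2 * s, by positivity, ?_⟩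
  intro r B hr hB hgood1 hgood2
  have h1 := hC1 r B hr hB hgood2
  have h2 := hC2 r B hr hB hgood1
  have h3 := hdiv1 r hr
  have h4 := hdiv2 r hr
  have h5 := hC3 r hr
  have hlogB : 0 ≤ Real.log B := Real.log_nonneg hB
  set A := circleAverage (fun z => Real.log ‖fun a => g a z‖) 0 r with hA
  set LD := Function.locallyFinsuppWithin.logCounting D r with hLD
  set LΦ := Function.locallyFinsuppWithin.logCounting (Dv Φ) r with hLΦ
  set LW := Function.locallyFinsuppWithin.logCounting (Dv (Wr g)) r with hLW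
  set LH := ∑ i, Function.locallyFinsuppWithin.logCounting
        (Dv (fun z => ∑ a, q i a * g a z)) r with hLH
  have hTC : TC g r = A - LD := rfl
  have h8 := mul_le_mul_of_nonneg_left h4 hs0
  have h9 : e * TC g r ≤ C1 + 2 * C2 + (s * (m + 1) ^ 2 + 2 * s) * Real.log B := by
    rw [hTC, he]
    nlinarith
  have h10 : C1 ≤ |C1| := le_abs_self _
  have h11 : C2 ≤ |C2| := le_abs_self _
  have h12 : TC g r + C3 ≤ e * (TC g r + C3) := by
    have : 0 ≤ TC g r + C3 := by linarith
    nlinarith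
  have h13 : 0 ≤ (|C1| + 2 * |C2| + e * C3) * Real.log B := by positivity
  nlinarith

end Pool.Agent.SQ
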