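import Pool.Agent.Lib_MP_b9fedf_ag.TanMain
import Pool.Agent.Lib_MP_b9fedf_sq.PkgKey
import Pool.Agent.Lib_MP_b9fedf_sq.EntDom

/-! The interpolation package contradicts tangency. -/

set_option autoImplicit false

namespace Pool.Agent.SQ
open Filter Metric Real Set Function MeromorphicOn ValueDistribution
open Pool.Agent.GGL

theorem no_tangential' {m s N : ℕ} (hm : 1 ≤ m)
    (q : Fin N → Fin (m + 1) → ℂ) (hq0 : ∀ i, q i ≠ 0)
    (hcard : (m + 5) * s < N)
    (Y : Set (Fin (m + 1) → ℂ)) (L : Fin N → (Fin (m + 1) → ℂ) → ℂ)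
    (K : Submodule ℂ (Fin N → ℂ)) (hfin : Module.finrank ℂ ((Fin N → ℂ) ⧸ K) = s)
    (hK1 : ∀ γ ∈ K, ∀ h h' : Fin (m + 1) → ℂ, ∀ y ∈ Y,
      ∑ i, γ i * (L i y * wd h h' y (q i)) = 0)
    (hK2 : ∀ h : Fin (m + 1) → ℂ, h ≠ 0 → ∀ γ ∈ K,
      (∀ i, ∑ a, q i a * h a ≠ 0 → γ i = 0) → γ = 0) (g : Fin (m + 1) → ℂ → ℂ)
    (hg : ∀ k, Differentiable ℂ (g k)) (hli : LinearIndependent ℂ g)
    (hper : ∀ k z, g k (z + 2 * Real.pi * Complex.I) = g k z) (z0 : ℂ)
    (hK3 : ∀ γ : Fin N → ℂ, (∀ y ∈ Y, ∑ i, γ i *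
      (L i y * wd (fun a => g a z0) (fun a => deriv (g a) z0) y (q i)) = 0) → γ ∈ K)
    (htan : ∀ (i : Fin N) (z : ℂ) (c : ℕ), (∀ a, (c : ℕ∞) ≤ analyticOrderAt (g a) z) →
      (∃ a, analyticOrderAt (g a) z = c) →
      analyticOrderAt (fun ζ => ∑ a, q i a * g a ζ) z ≠ ((c + 1 : ℕ) : ℕ∞)) : False := by
  classical
  have hhd : ∀ i, Differentiable ℂ (fun z => ∑ a, q i a * g a z) := fun i =>
    Differentiable.fun_sum fun a _ => (hg a).const_mul (q i a)
  have hhne : ∀ i, ∃ z, ∑ a, q i a * g a z ≠ 0 := fun i =>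
    combination_ne_zero (q i) (hq0 i) g hli
  have hgne : ∀ a, ∃ z, g a z ≠ 0 := by
    intro a
    have := hli.ne_zero a
    by_contra hcon
    push Not at hcon
    exact this (funext hcon)
  obtain ⟨C, hC0, hC⟩ := key_estimate' q hq0 hcard Y L K hfin hK1 hK2 g hg hli z0 hK3 htan
  -- the family of quotients
  set F : Fin (m + 1) ⊕ Fin N → ℂ → ℂ := fun k => Sum.elim (fun a => g a)
    (fun i z => ∑ a, q i a * g a z) k with hF
  have hFd : ∀ k, Differentiable ℂ (F k) := by
    rintro (a | i)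
    · exact hg a
    · exact hhd i
  have hFne : ∀ k, ∃ z, F k z ≠ 0 := by
    rintro (a | i)
    · exact hgne a
    · exact hhne i
  set G : Fin (m + 1) ⊕ Fin N → ℂ → ℂ := fun k z => F k z / g 0 z with hG
  have hGm : ∀ k, Meromorphic (G k) := fun k => div_mero (hFd k) (hg 0)
  have hGne : ∀ k z, meromorphicOrderAt (G k) z ≠ ⊤ := by
    intro k z
    have h1 : G k = F k * (g 0)⁻¹ := by
      ext z; simp only [hG, Pi.mul_apply, Pi.inv_apply, div_eq_mul_inv]
    rw [h1, meromorphicOrderAt_mul (mero_of_diff (hFd k) z) (mero_of_diff (hg 0) z).inv,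
      meromorphicOrderAt_inv]
    have h2 := mOrder_ne_top (hFd k) (hFne k) z
    have h3 := mOrder_ne_top (hg 0) (hgne 0) z
    cases h4 : meromorphicOrderAt (F k) z with
    | top => exact absurd h4 h2
    | coe n =>
      cases h5 : meromorphicOrderAt (g 0) z with
      | top => exact absurd h5 h3
      | coe n' => 
        intro h6
        have : ((n - n' : ℤ) : WithTop ℤ) = ⊤ := by
          rw [← h6]
          rfl
        exact WithTop.coe_ne_top this
  obtain ⟨CL, hCL1, hCL⟩ := ldl G hGm hGne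
  set τ : ℝ → ℝ := fun ρ => ∑ a, characteristic (G (Sum.inl a)) ⊤ ρ with hτ
  have hτmono : MonotoneOn τ (Set.Ici 1) := by
    intro x hx y hy hxy
    apply Finset.sum_le_sum
    intro l _
    exact characteristic_monotoneOn (hGm _) (show (0 : ℝ) < x from lt_of_lt_of_le one_pos hx)
      (show (0 : ℝ) < y from lt_of_lt_of_le one_pos hy) hxy
  have hτ0 : ∀ ρ, 1 ≤ ρ → 0 ≤ τ ρ := fun ρ hρ =>
    Finset.sum_nonneg fun l _ => characteristic_nonneg hρ
  -- all characteristics are bounded by `τ`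
  choose Ci hCi0 hCi using fun i => char_combination_le (q i) (fun a => G (Sum.inl a))
    (fun a => hGm _)
  have hchar : ∀ i ρ, 1 ≤ ρ → characteristic (G (Sum.inr i)) ⊤ ρ ≤ τ ρ + Ci i := by
    intro i ρ hρ
    have h1 : G (Sum.inr i) = fun z => ∑ a, q i a * G (Sum.inl a) z := by
      funext z
      simp only [hG, hF, Sum.elim_inr, Sum.elim_inl]
      rw [Finset.sum_div]
      apply Finset.sum_congr rfl
      intro a _
      rw [mul_div_assoc]
    rw [h1]
    exact hCi i ρ hρ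
  set N' : ℝ := (Fintype.card (Fin N) : ℝ) with hN'
  have hN0 : 0 ≤ N' := by rw [hN']; positivity
  set CC : ℝ := ∑ i, Ci i with hCC
  have hCC0 : 0 ≤ CC := Finset.sum_nonneg fun i _ => hCi0 i
  have hsum : ∀ ρ, 1 ≤ ρ → ∑ k, characteristic (G k) ⊤ ρ ≤ (1 + N') * τ ρ + CC := by
    intro ρ hρ
    rw [Fintype.sum_sum_type]
    have h1 : ∑ i, characteristic (G (Sum.inr i)) ⊤ ρ ≤ ∑ i, (τ ρ + Ci i) :=
      Finset.sum_le_sum fun i _ => hchar i ρ hρ
    rw [Finset.sum_add_distrib, Finset.sum_const, Finset.card_univ, nsmul_eq_mul] at h1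
    have h2 : ∑ a, characteristic (G (Sum.inl a)) ⊤ ρ = τ ρ := rfl
    rw [h2]
    linarith
  -- `τ` is bounded by `TC`
  set L0 : ℝ := |Real.log ‖meromorphicTrailingCoeffAt (g 0) 0‖| with hL0
  have hτTC : ∀ ρ, 1 ≤ ρ → τ ρ ≤ (m + 1) * (TC g ρ + L0) := by
    intro ρ hρ
    have h1 : ∀ a, characteristic (G (Sum.inl a)) ⊤ ρ ≤ TC g ρ + L0 := by
      intro a
      have h2 := characteristic_div_le_TC hg hgne hρ a 0
      have h3 := neg_abs_le (Real.log ‖meromorphicTrailingCoeffAt (g 0) 0‖)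
      refine le_trans h2 ?_
      linarith
    refine (Finset.sum_le_sum fun a _ => h1 a).trans (le_of_eq ?_)
    rw [Finset.sum_const, Finset.card_univ, Fintype.card_fin, nsmul_eq_mul]
    push_cast
    ring
  have hL00 : 0 ≤ L0 := abs_nonneg _
  -- constants
  set K1 : ℝ := (1 + N') + CC + 1 with hK1
  have hK11 : 1 ≤ K1 := by rw [hK1]; linarith
  set Kf : ℝ := (m + 1) * (C * (1 + Real.log CL + 4 * Real.log K1) + 4 * C + L0) with hKf
  refine growth_contradiction τ hτmono hτ0 Kf ?_ ?_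
  · clear_value Kf K1 L0 CC N' τ
    intro ρ δ hρ hδ0 hδ1
    obtain ⟨ρ', hρ', B, hB1, hB, hgood⟩ := hCL ρ δ hρ hδ0 hδ1
    refine ⟨ρ', hρ', ?_⟩
    have hρ'1 : 1 ≤ ρ' := hρ.trans hρ'.1
    have hR1 : 1 ≤ ρ + 2 * δ := by linarith
    have h1 := hC ρ' B hρ'1 hB1 (fun a z hz => hgood (Sum.inl a) z hz)
      (fun i z hz => hgood (Sum.inr i) z hz)
    have h2 := hτTC ρ' hρ'1
    obtain ⟨Y, hY⟩ : ∃ Y : ℝ, Y = (1 + τ (ρ + 2 * δ)) * (ρ + 2) / δ := ⟨_, rfl⟩
    have h3 := hτ0 _ hR1
    have hY1 : 1 ≤ Y := by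
      rw [hY, le_div_iff₀ hδ0]
      nlinarith
    have hlogY : 0 ≤ Real.log Y := Real.log_nonneg hY1
    have h4 : (1 + ∑ k, characteristic (G k) ⊤ (ρ + 2 * δ)) * (ρ + 2) / δ ≤ K1 * Y := by
      rw [hY, mul_div_assoc, mul_div_assoc, ← mul_assoc]
      apply mul_le_mul_of_nonneg_right _ (div_nonneg (by linarith) hδ0.le)
      have h5 := hsum _ hR1
      rw [hK1]
      nlinarith [mul_nonneg hCC0 h3]
    have h5 : 0 ≤ (1 + ∑ k, characteristic (G k) ⊤ (ρ + 2 * δ)) * (ρ + 2) / δ := by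
      have h5' : 0 ≤ ∑ k, characteristic (G k) ⊤ (ρ + 2 * δ) :=
        Finset.sum_nonneg fun k _ => characteristic_nonneg hR1
      exact div_nonneg (mul_nonneg (by linarith) (by linarith)) hδ0.le
    have h6 : B ≤ CL * (K1 * Y) ^ 4 :=
      hB.trans (mul_le_mul_of_nonneg_left (pow_le_pow_left₀ h5 h4 4) (by linarith))
    have h7 : Real.log B ≤ Real.log CL + 4 * (Real.log K1 + Real.log Y) := by
      have h8 := Real.log_le_log (by linarith) h6
      rw [Real.log_mul (by linarith) (pow_ne_zero _ (mul_ne_zero (by linarith) (by linarith))),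
        Real.log_pow,
        Real.log_mul (by linarith) (by linarith)] at h8
      push_cast at h8
      exact h8
    have hlogCL : 0 ≤ Real.log CL := Real.log_nonneg hCL1
    have hlogK1 : 0 ≤ Real.log K1 := Real.log_nonneg hK11
    have h8 : TC g ρ' ≤ C * (1 + (Real.log CL + 4 * (Real.log K1 + Real.log Y))) :=
      h1.trans (mul_le_mul_of_nonneg_left (by linarith) hC0)
    have h9 : TC g ρ' + L0 ≤ (C * (1 + Real.log CL + 4 * Real.log K1) + 4 * C + L0) *
        (1 + Real.log Y) := by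
      have e1 : 0 ≤ C * (1 + Real.log CL + 4 * Real.log K1) * Real.log Y :=
        mul_nonneg (mul_nonneg hC0 (by linarith)) hlogY
      have e2 : 0 ≤ L0 * Real.log Y := mul_nonneg hL00 hlogY
      nlinarith
    refine h2.trans ?_
    rw [hKf, mul_assoc, ← hY]
    have hm0 : (0 : ℝ) ≤ m := Nat.cast_nonneg m
    exact mul_le_mul_of_nonneg_left h9 (by linarith)
  · intro A
    have h1ne : (⟨1, by omega⟩ : Fin (m + 1)) ≠ 0 := by
      intro h
      have := congrArg Fin.val h
      simp at this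
    obtain ⟨r₀, hr₀⟩ := characteristic_div_ge_log (hg ⟨1, by omega⟩) (hg 0) (hgne 0)
      (hper ⟨1, by omega⟩) (hper 0) (by
        intro c
        by_contra hcon
        push Not at hcon
        have h2 := hli
        rw [Fintype.linearIndependent_iff] at h2
        have h3 := h2 (fun a => if a = ⟨1, by omega⟩ then 1 else if a = 0 then -c else 0) (by
          funext z
          rw [Finset.sum_apply, Pi.zero_apply]
          rw [Finset.sum_eq_add (⟨1, by omega⟩ : Fin (m + 1)) 0 h1ne]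
          · simp only [Pi.smul_apply, smul_eq_mul, if_true]
            rw [if_neg h1ne.symm, hcon z]
            ring
          · intro a _ ha
            rw [if_neg ha.1, if_neg ha.2, zero_smul]
            rfl
          · intro h; exact absurd (Finset.mem_univ _) h
          · intro h; exact absurd (Finset.mem_univ _) h) ⟨1, by omega⟩
        simp at h3) A
    refine ⟨max r₀ 1, fun ρ hρ => ?_⟩
    have h1 := hr₀ ρ ((le_max_left _ _).trans hρ)
    refine h1.trans ?_
    exact Finset.single_le_sum (f := fun a => characteristic (G (Sum.inl a)) ⊤ ρ)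
      (fun l _ => characteristic_nonneg ((le_max_right _ _).trans hρ)) (Finset.mem_univ _)


theorem pkg {τ : Type} [Fintype τ] [DecidableEq τ] (hτ : 2 ≤ Fintype.card τ) {N : ℕ}
    (q : Fin N → τ → ℂ) (Y : Set (τ → ℂ)) (L : Fin N → (τ → ℂ) → ℂ)
    (K : Submodule ℂ (Fin N → ℂ))
    (hcard : (Fintype.card τ + 4) * Module.finrank ℂ ((Fin N → ℂ) ⧸ K) < N)
    (h1 : ∀ γ ∈ K, ∀ h h' : τ → ℂ, ∀ y ∈ Y, ∑ i, γ i * (L i y * wdt h h' y (q i)) = 0)
    (h2 : ∀ h : τ → ℂ, h ≠ 0 → ∀ γ ∈ K, (∀ i, dt (q i) h ≠ 0 → γ i = 0) → γ = 0)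
    (F : τ → Ent) (hli : LinearIndependent ℂ F)
    (hper : ∀ a z, (F a).1 (z + 2 * Real.pi * Complex.I) = (F a).1 z) (z₀ : ℂ)
    (h3 : ∀ γ : Fin N → ℂ, (∀ y ∈ Y, ∑ i, γ i *
      (L i y * wdt (fun a => (F a).1 z₀) (fun a => (dE (F a)).1 z₀) y (q i)) = 0) → γ ∈ K)
    (htan : ∀ (i : Fin N) (z : ℂ) (c : ℕ), (∀ a, (c : ℕ∞) ≤ analyticOrderAt (F a).1 z) →
      (∃ a, analyticOrderAt (F a).1 z = c) →
      analyticOrderAt (fun ζ => ∑ a, q i a * (F a).1 ζ) z ≠ ((c + 1 : ℕ) : ℕ∞)) : False := by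
  classical
  obtain ⟨m, hm⟩ : ∃ m, Fintype.card τ = m + 1 := ⟨Fintype.card τ - 1, by omega⟩
  have hm1 : 1 ≤ m := by omega
  let ε : τ ≃ Fin (m + 1) := (Fintype.equivFin τ).trans (finCongr hm)
  -- sums
  have hdt : ∀ a h : τ → ℂ, ∑ b, a (ε.symm b) * h (ε.symm b) = dt a h := by
    intro a h
    exact Equiv.sum_comp ε.symm (fun b => a b * h b)
  have hdt' : ∀ (a : τ → ℂ) (h : Fin (m + 1) → ℂ), ∑ b, a (ε.symm b) * h b =
      dt a (fun x => h (ε x)) := by
    intro a h
    rw [← hdt]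
    exact Finset.sum_congr rfl fun b _ => by rw [Equiv.apply_symm_apply]
  have hwd : ∀ (h h' y : Fin (m + 1) → ℂ) (p : τ → ℂ), wd h h' y (fun b => p (ε.symm b)) =
      wdt (fun x => h (ε x)) (fun x => h' (ε x)) (fun x => y (ε x)) p := by
    intro h h' y p
    have e1 : ∀ h : Fin (m + 1) → ℂ, ∑ b, y b * h b =
        dt (fun x => y (ε x)) (fun x => h (ε x)) := by
      intro h
      exact (Equiv.sum_comp ε (fun b => y b * h b)).symm
    unfold wd wdt
    rw [hdt', hdt', e1, e1]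
  have hq0 : ∀ i, q i ≠ 0 := by
    intro i hi
    have e1 : (Pi.single i (1 : ℂ) : Fin N → ℂ) ∈ K := by
      apply h3
      intro y hy
      apply Finset.sum_eq_zero
      intro l _
      by_cases hl : l = i
      · subst hl
        rw [hi]
        simp [wdt, dt]
      · rw [Pi.single_apply, if_neg hl, zero_mul]
    have hne : (fun _ : τ => (1 : ℂ)) ≠ 0 := by
      intro h
      exact one_ne_zero (congrFun h (ε.symm 0))
    have e2 := h2 (fun _ => 1) hne _ e1 (by
      intro l hl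
      rw [Pi.single_apply, if_neg]
      rintro rfl
      apply hl
      rw [hi]
      simp [dt])
    have e3 := congrFun e2 i
    rw [Pi.single_eq_same] at e3
    exact one_ne_zero e3
  set Y' : Set (Fin (m + 1) → ℂ) := {y | (fun x => y (ε x)) ∈ Y} with hY'
  refine no_tangential' (m := m) hm1 (fun i b => q i (ε.symm b)) ?_ (s := Module.finrank ℂ ((Fin N → ℂ) ⧸ K)) (N := N) ?_ Y' (fun i y => L i (fun x => y (ε x))) K rfl ?_ ?_ (fun b => (F (ε.symm b)).1) (fun b => Ent.diff _) ?_ ?_ z₀ ?_ ?_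
  · intro i hi
    apply hq0 i
    funext x
    have := congrFun hi (ε x)
    simpa using this
  · have : Fintype.card τ + 4 = m + 5 := by omega
    rw [← this]
    exact hcard
  · intro γ hγ h h' y hy
    have e1 := h1 γ hγ (fun x => h (ε x)) (fun x => h' (ε x)) (fun x => y (ε x)) hy
    rw [← e1]
    exact Finset.sum_congr rfl fun i _ => by rw [hwd]
  · intro h hh γ hγ h0
    apply h2 (fun x => h (ε x)) _ γ hγ
    · intro i hi
      apply h0 i
      rw [hdt']
      exact hi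
    · intro h5
      apply hh
      funext b
      have := congrFun h5 (ε.symm b)
      simpa using this
  · have e1 := hli.comp ε.symm ε.symm.injective
    rw [Fintype.linearIndependent_iff] at e1 ⊢
    intro c hc
    apply e1 c
    apply Ent.ext'
    intro z
    have e2 := congrFun hc z
    rw [Finset.sum_apply] at e2
    have e3 : (∑ i, c i • (F ∘ ε.symm) i : Ent).1 z = ∑ i, c i * (F (ε.symm i)).1 z := by
      rw [AddSubmonoidClass.coe_finsetSum, Finset.sum_apply]
      rfl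
    rw [e3]
    exact e2
  · intro b z
    exact hper _ z
  · intro γ hγ
    apply h3 γ
    intro y hy
    have e1 := hγ (fun b => y (ε.symm b)) (by
      show (fun x => y (ε.symm (ε x))) ∈ Y
      simpa using hy)
    rw [← e1]
    apply Finset.sum_congr rfl
    intro i _
    rw [hwd]
    simp only [Equiv.symm_apply_apply]
    rfl
  · intro i z c hc hc' h5
    refine htan i z c ?_ ?_ ?_
    · intro a
      have := hc (ε a)
      simpa using this
    · obtain ⟨b, hb⟩ := hc'
      exact ⟨ε.symm b, hb⟩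
    · rw [← h5]
      congr 1
      funext ζ
      exact (Equiv.sum_comp ε.symm (fun b => q i b * (F b).1 ζ)).symm

end Pool.Agent.SQ
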