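import Pool.Agent.Lib_MP_b9fedf_sq.SelectAll
import Pool.Agent.Lib_MP_b9fedf_sq.AbsLin
import Pool.Agent.Lib_MP_b9fedf_sq.PkgMain

/-! Entire curves tangent to many hyperplanes, abstract form. -/

set_option autoImplicit false

namespace Pool.Agent.SQ
open MvPolynomial

/-- if the coordinates have minimal order `c`, some member of a spanning set has order `c` -/
theorem exists_order_eq {τ : Type} [Fintype τ] (A : Set (τ → ℂ))
    (hA : ∀ h : τ → ℂ, h ≠ 0 → ∃ a ∈ A, dt a h ≠ 0) (G : τ → Ent) (z : ℂ) (c : ℕ)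
    (hc : ∀ a, (c : ℕ∞) ≤ analyticOrderAt (G a).1 z)
    (hc' : ∃ a, analyticOrderAt (G a).1 z = c) :
    ∃ a ∈ A, analyticOrderAt (fun ζ => ∑ x, a x * (G x).1 ζ) z = c := by
  have han : ∀ x, AnalyticAt ℂ (G x).1 z := fun x => (Ent.diff (G x)).analyticAt z
  have h1 : ∀ x, ∃ g : ℂ → ℂ, AnalyticAt ℂ g z ∧
      ∀ᶠ ζ in nhds z, (G x).1 ζ = (ζ - z) ^ c • g ζ := fun x =>
    (natCast_le_analyticOrderAt (han x)).mp (hc x)
  choose g hg hgE using h1
  have h2 : (fun x => g x z) ≠ 0 := by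
    intro h0
    obtain ⟨a, ha⟩ := hc'
    obtain ⟨g', hg', hg'0, hg'E⟩ := (han a).analyticOrderAt_eq_natCast.mp ha
    have h3 : g a =ᶠ[nhds z] g' := by
      have h4 : ∀ᶠ ζ in nhdsWithin z {z}ᶜ, g a ζ = g' ζ := by
        have h5 := (hgE a).filter_mono (nhdsWithin_le_nhds (s := {z}ᶜ))
        have h6 := hg'E.filter_mono (nhdsWithin_le_nhds (s := {z}ᶜ))
        filter_upwards [h5, h6, self_mem_nhdsWithin] with ζ h7 h8 h9
        rw [h7] at h8
        have h10 : (ζ - z) ^ c ≠ 0 := pow_ne_zero _ (sub_ne_zero.mpr h9)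
        exact smul_right_injective _ h10 h8
      exact ((hg a).frequently_eq_iff_eventually_eq hg').mp h4.frequently
    have h5 : g a z = g' z := h3.eq_of_nhds
    rw [← h5] at hg'0
    exact hg'0 (congrFun h0 a)
  obtain ⟨a, haA, ha⟩ := hA _ h2
  refine ⟨a, haA, ?_⟩
  have han2 : AnalyticAt ℂ (fun ζ => ∑ x, a x * (G x).1 ζ) z :=
    Differentiable.analyticAt (Differentiable.fun_sum fun x _ => (Ent.diff (G x)).const_mul _) z
  rw [han2.analyticOrderAt_eq_natCast]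
  refine ⟨fun ζ => ∑ x, a x * g x ζ, ?_, ha, ?_⟩
  · exact Finset.analyticAt_fun_sum _ (fun x _ => analyticAt_const.mul (hg x))
  · have h3 : ∀ᶠ ζ in nhds z, ∀ x, (G x).1 ζ = (ζ - z) ^ c • g x ζ :=
      Filter.eventually_all.mpr hgE
    filter_upwards [h3] with ζ hζ
    rw [Finset.smul_sum]
    apply Finset.sum_congr rfl
    intro x _
    rw [hζ x]
    simp only [smul_eq_mul]
    ring

theorem pw_one {A : Finset (Fin 1 → ℂ)} (hA : PW A) : A.card ≤ 1 := by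
  rw [Finset.card_le_one]
  intro a ha b hb
  by_contra hab
  have h1 := (hA a ha).2 b hb hab
  have h2 := h1.fintype_card_le_finrank
  simp at h2

/-- the statement of `pack` for fixed bounds -/
def PackAt (k j r e₁ Di Dp : ℕ) : Prop := ∀ (I : Ideal (Sp k j))
    (b : Fin r → Sp k j) (db : Fin r → ℕ), CI I r b db →
    ∀ A : Finset (Fin (k + 1) ⊕ Fin j → ℂ), (∀ a ∈ A, ∀ s ∈ I, eval a s = 0) →
    Irr Di (A : Set (Fin (k + 1) ⊕ Fin j → ℂ)) → PDense Dp (A : Set (Fin (k + 1) ⊕ Fin j → ℂ)) →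
    (∀ h : Fin (k + 1) ⊕ Fin j → ℂ, h ≠ 0 → ¬ Van (A : Set (Fin (k + 1) ⊕ Fin j → ℂ)) (lin h)) →
    ∀ s : Sp k j, s.IsHomogeneous e₁ → ¬ Van (A : Set (Fin (k + 1) ⊕ Fin j → ℂ)) s →
    ∃ (V : Ideal (Sp k j)) (N : ℕ) (q : Fin N → Fin (k + 1) ⊕ Fin j → ℂ)
      (L : Fin N → (Fin (k + 1) ⊕ Fin j → ℂ) → ℂ) (K : Submodule ℂ (Fin N → ℂ)) (p : Pp k)
      (α : Sp k j),
      I ≤ annI I V ∧ (∀ ν ∈ annI I V, ∀ d, homogeneousComponent d ν ∈ annI I V) ∧
      p ≠ 0 ∧ inc p - s * α ∈ annI I V ∧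
      (∀ i, q i ∈ A) ∧ (k + j + 5) * Module.finrank ℂ ((Fin N → ℂ) ⧸ K) < N ∧
      (∀ γ ∈ K, ∀ h h' : Fin (k + 1) ⊕ Fin j → ℂ, ∀ y, (∀ s ∈ I, eval y s = 0) →
        ∑ i, γ i * (L i y * wdt h h' y (q i)) = 0) ∧
      (∀ h : Fin (k + 1) ⊕ Fin j → ℂ, h ≠ 0 → ∀ γ ∈ K,
        (∀ i, dt (q i) h ≠ 0 → γ i = 0) → γ = 0) ∧
      (∀ (h h' : Fin (k + 1) ⊕ Fin j → ℂ) (e e' : Fin (k + 1) → ℂ),
        LinearIndependent ℂ ![e, e'] → GenAt (annI I V) e e' h h' →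
        (∀ i, dt (q i) h ≠ 0) → ∀ γ : Fin N → ℂ,
          (∀ y, (∀ s ∈ I, eval y s = 0) → ∑ i, γ i * (L i y * wdt h h' y (q i)) = 0) →
            γ ∈ K)

theorem exists_packAt (e₁ k j r : ℕ) : ∃ Di Dp : ℕ, 1 ≤ k → PackAt k j r e₁ Di Dp := by
  by_cases hk : 1 ≤ k
  · obtain ⟨Di, Dp, h⟩ := pack k j r e₁ hk
    exact ⟨Di, Dp, fun _ => h⟩
  · exact ⟨0, 0, fun h => absurd h hk⟩

/-- parametrization of a hyperplane -/
theorem exists_hyper (m : ℕ) (h : Fin (m + 1 + 1) → ℂ) (hh : h ≠ 0) :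
    ∃ T : (Fin (m + 1) → ℂ) →ₗ[ℂ] (Fin (m + 1 + 1) → ℂ), Function.Injective T ∧
      ∀ a, dt a h = 0 → ∃ v, T v = a := by
  classical
  let φ : (Fin (m + 1 + 1) → ℂ) →ₗ[ℂ] ℂ := 
    { toFun := fun a => dt a h
      map_add' := fun a b => by
        simp only [dt, Pi.add_apply, add_mul, Finset.sum_add_distrib]
      map_smul' := fun c a => by
        simp only [dt, Pi.smul_apply, smul_eq_mul, RingHom.id_apply, Finset.mul_sum, mul_assoc] }
  have hφ : ∀ a, φ a = dt a h := fun a => rfl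
  have hrange : LinearMap.range φ = ⊤ := by
    rw [LinearMap.range_eq_top]
    intro c
    obtain ⟨x, hx⟩ := Function.ne_iff.mp hh
    have hx' : h x ≠ 0 := hx
    refine ⟨Pi.single x (c / h x), ?_⟩
    rw [hφ]
    unfold dt
    rw [Finset.sum_eq_single x]
    · rw [Pi.single_eq_same, div_mul_cancel₀ _ hx']
    · intro y _ hy
      rw [Pi.single_apply, if_neg hy, zero_mul]
    · intro hx
      exact absurd (Finset.mem_univ _) hx
  have h1 := LinearMap.finrank_range_add_finrank_ker φ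
  rw [hrange, finrank_top, Module.finrank_self, Module.finrank_fin_fun] at h1
  have h2 : Module.finrank ℂ (Fin (m + 1) → ℂ) = Module.finrank ℂ (LinearMap.ker φ) := by
    rw [Module.finrank_fin_fun]
    omega
  let ε := LinearEquiv.ofFinrankEq _ _ h2
  refine ⟨(LinearMap.ker φ).subtype.comp ε.toLinearMap, ?_, ?_⟩
  · exact (Submodule.injective_subtype _).comp ε.injective
  · intro a ha
    refine ⟨ε.symm ⟨a, (by rw [LinearMap.mem_ker, hφ]; exact ha)⟩, ?_⟩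
    show ((ε (ε.symm _) : LinearMap.ker φ) : Fin (m + 1 + 1) → ℂ) = a
    rw [ε.apply_symm_apply]

end Pool.Agent.SQ
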