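import Mathlib
import Pool.Agent.Lib_MP_b9fedf_sq.Defs

/-! Linear independence of the monomials `X ^ μ`, `μ i < natDegree (G i)`, over the polynomials in
`u`, as functions on the common zeros of the generically separable monic polynomials `G i`. -/

set_option autoImplicit false

namespace Pool.Agent.SQ
open MvPolynomial

/-- a polynomial over `ℂ` with degree in `X_i` less than `N i` which vanishes on a grid with sides
`N i` is zero, in coefficient form -/
private theorem grid_box_indep {j : ℕ} (N : Fin j → ℕ) (hN : ∀ i, 0 < N i)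
    (R : Fin j → Finset ℂ) (hR : ∀ i, (R i).card = N i) (c : (∀ i : Fin j, Fin (N i)) → ℂ)
    (h : ∀ x : Fin j → ℂ, (∀ i, x i ∈ R i) → ∑ μ, c μ * ∏ i, x i ^ (μ i : ℕ) = 0) : c = 0 := by
  classical
  set e : (∀ i : Fin j, Fin (N i)) → (Fin j →₀ ℕ) := fun μ =>
    Finsupp.equivFunOnFinite.symm (fun i => (μ i : ℕ)) with he
  have hei : Function.Injective e := by
    intro μ ν hμν
    funext i
    have h1 : e μ i = e ν i := by rw [hμν]
    simp only [he, Finsupp.equivFunOnFinite_symm_apply_apply] at h1
    exact Fin.ext h1
  set P : MvPolynomial (Fin j) ℂ := ∑ μ, monomial (e μ) (c μ) with hP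
  have hP0 : P = 0 := by
    apply MvPolynomial.eq_zero_of_eval_zero_at_prod_finset P R
    · intro i
      rw [hR i, degreeOf_eq_sup, Finset.sup_lt_iff (hN i)]
      intro m hm
      have h2 : coeff m P ≠ 0 := by rwa [mem_support_iff] at hm
      rw [hP, coeff_sum] at h2
      obtain ⟨μ, -, h3⟩ := Finset.exists_ne_zero_of_sum_ne_zero h2
      rw [coeff_monomial] at h3
      by_cases h4 : e μ = m
      · rw [← h4]
        simp only [he, Finsupp.equivFunOnFinite_symm_apply_apply]
        exact (μ i).2
      · simp [h4] at h3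
    · intro x hx
      rw [hP, map_sum, ← h x hx]
      refine Finset.sum_congr rfl fun μ _ => ?_
      rw [eval_monomial, Finsupp.prod_fintype _ _ (fun i => pow_zero _)]
      simp only [he, Finsupp.equivFunOnFinite_symm_apply_apply]
  funext μ
  have h5 : coeff (e μ) P = c μ := by
    rw [hP, coeff_sum, Finset.sum_eq_single μ]
    · rw [coeff_monomial, if_pos rfl]
    · intro ν _ hν
      rw [coeff_monomial, if_neg (fun h6 => hν (hei h6))]
    · intro h6
      exact absurd (Finset.mem_univ μ) h6
  rw [← h5, hP0, coeff_zero, Pi.zero_apply]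

/-- PIECE CIIND -/
theorem box_indep {k j : ℕ} (G : Fin j → Polynomial (Pp k)) (hG : ∀ i, (G i).Monic)
    (hs : ∀ i, Sepa (G i)) (p : (∀ i : Fin j, Fin (G i).natDegree) → Pp k)
    (h : ∀ y : Fin (k + 1) ⊕ Fin j → ℂ, (∀ i, Rt (G i) i y) →
      ∑ μ, eval (fun a => y (Sum.inl a)) (p μ) * ∏ i, y (Sum.inr i) ^ (μ i : ℕ) = 0) :
    p = 0 := by
  classical
  choose δ hδ0 hδ using hs
  funext μ0
  have hD : (∏ i, δ i) ≠ 0 := Finset.prod_ne_zero_iff.2 fun i _ => hδ0 i
  have hmul : (∏ i, δ i) * p μ0 = 0 := by
    apply MvPolynomial.funext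
    intro u
    rw [map_mul, map_zero]
    by_cases hu : eval u (∏ i, δ i) = 0
    · rw [hu, zero_mul]
    · have hu' : ∀ i, eval u (δ i) ≠ 0 := by
        intro i hi
        apply hu
        rw [map_prod]
        exact Finset.prod_eq_zero (Finset.mem_univ i) hi
      have hsep : ∀ i, ((G i).map (eval u)).Separable := fun i => hδ i u (hu' i)
      have hdeg : ∀ i, ((G i).map (eval u)).natDegree = (G i).natDegree := fun i =>
        (hG i).natDegree_map (eval u)
      have hcard : ∀ i, ((G i).map (eval u)).roots.toFinset.card = (G i).natDegree := by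
        intro i
        rw [Multiset.toFinset_card_of_nodup (Polynomial.nodup_roots (hsep i)), ← hdeg i]
        exact (IsAlgClosed.splits ((G i).map (eval u))).natDegree_eq_card_roots.symm
      have hgrid := grid_box_indep (fun i => (G i).natDegree)
        (fun i => Nat.lt_of_le_of_lt (Nat.zero_le _) (μ0 i).2)
        (fun i => ((G i).map (eval u)).roots.toFinset) hcard
        (fun μ => eval u (p μ)) (by
          intro x hx
          have hy := h (Sum.elim u x) (by
            intro i
            have h1 := hx i
            rw [Multiset.mem_toFinset, Polynomial.mem_roots'] at h1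
            exact h1.2)
          exact hy)
      have h2 : eval u (p μ0) = 0 := congrFun hgrid μ0
      rw [h2, mul_zero]
  exact (mul_eq_zero.1 hmul).resolve_left hD

end Pool.Agent.SQ
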