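import Mathlib
import Pool.Agent.Lib_MP_b9fedf_sq.Defs

/-! Reduction of the powers of a root of a monic homogeneous polynomial. -/

set_option autoImplicit false

namespace Pool.Agent.SQ
open MvPolynomial

private theorem rt_sum_red {k j : ℕ} (G : Polynomial (Pp k)) (hG : G.Monic) (i : Fin j) (m : ℕ)
    (hm : G.natDegree = m + 1) (y : Fin (k + 1) ⊕ Fin j → ℂ) (hy : Rt G i y) :
    y (Sum.inr i) ^ (m + 1) = - ∑ l ∈ Finset.range (m + 1),
      eval (fun a => y (Sum.inl a)) (G.coeff l) * y (Sum.inr i) ^ l := by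
  unfold Rt at hy
  rw [Polynomial.eval_map, Polynomial.eval₂_eq_sum_range, Finset.sum_range_succ, hm] at hy
  have h1 : G.coeff (m + 1) = 1 := by
    rw [← hm]
    exact hG
  rw [h1, map_one, one_mul] at hy
  rw [eq_neg_iff_add_eq_zero, add_comm]
  exact hy

private theorem red_pow_aux {k j : ℕ} (G : Polynomial (Pp k)) (hG : G.Monic) (hh : HomP G)
    (i : Fin j) (m : ℕ) (hm : G.natDegree = m + 1) (n : ℕ) : ∃ c : ℕ → Pp k,
      (∀ l, (c l).IsHomogeneous (n - l) ∧ (n < l → c l = 0)) ∧
      ∀ y : Fin (k + 1) ⊕ Fin j → ℂ, Rt G i y → y (Sum.inr i) ^ n =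
        ∑ l ∈ Finset.range (m + 1),
          eval (fun a => y (Sum.inl a)) (c l) * y (Sum.inr i) ^ l := by
  induction n with
  | zero =>
    refine ⟨fun l => if l = 0 then 1 else 0, ?_, ?_⟩
    · intro l
      by_cases hl : l = 0
      · subst hl
        simp only [if_true]
        exact ⟨isHomogeneous_one _ _, fun h => absurd h (lt_irrefl _)⟩
      · simp only [if_neg hl]
        exact ⟨isHomogeneous_zero _ _ _, fun _ => trivial⟩
    · intro y _
      rw [Finset.sum_range_succ']
      simp
  | succ n ih =>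
    obtain ⟨c, hc, hy⟩ := ih
    refine ⟨fun l => (if l = 0 then 0 else c (l - 1)) - c m * G.coeff l, ?_, ?_⟩
    · intro l
      have hA : ((if l = 0 then 0 else c (l - 1)) : Pp k).IsHomogeneous (n + 1 - l) := by
        by_cases hl : l = 0
        · rw [if_pos hl]
          exact isHomogeneous_zero _ _ _
        · rw [if_neg hl]
          have h := (hc (l - 1)).1
          have e : n - (l - 1) = n + 1 - l := by omega
          rwa [e] at h
      have hB : (c m * G.coeff l).IsHomogeneous (n + 1 - l) := by
        by_cases hnm : n < m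
        · rw [(hc m).2 hnm, zero_mul]
          exact isHomogeneous_zero _ _ _
        · by_cases hlm : l ≤ m + 1
          · have h := (hc m).1.mul (hh l)
            rw [hm] at h
            have e : n - m + (m + 1 - l) = n + 1 - l := by omega
            rwa [e] at h
          · rw [Polynomial.coeff_eq_zero_of_natDegree_lt (by omega), mul_zero]
            exact isHomogeneous_zero _ _ _
      refine ⟨hA.sub hB, fun hl => ?_⟩
      have hl0 : l ≠ 0 := by omega
      have h1 : c (l - 1) = 0 := (hc (l - 1)).2 (by omega)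
      have h2 : c m * G.coeff l = 0 := by
        by_cases hlm : l ≤ m
        · rw [(hc m).2 (by omega), zero_mul]
        · by_cases hlm' : l = m + 1
          · rw [(hc m).2 (by omega), zero_mul]
          · rw [Polynomial.coeff_eq_zero_of_natDegree_lt (by omega), mul_zero]
      simp only [if_neg hl0, h1, h2, sub_zero]
    · intro y hR
      have h1 := rt_sum_red G hG i m hm y hR
      have h2 := hy y hR
      have h3 : (∑ l ∈ Finset.range (m + 1), eval (fun a => y (Sum.inl a))
          ((if l = 0 then 0 else c (l - 1)) - c m * G.coeff l) * y (Sum.inr i) ^ l) =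
          (∑ l ∈ Finset.range m, eval (fun a => y (Sum.inl a)) (c l) * y (Sum.inr i) ^ (l + 1)) -
          eval (fun a => y (Sum.inl a)) (c m) * ∑ l ∈ Finset.range (m + 1),
            eval (fun a => y (Sum.inl a)) (G.coeff l) * y (Sum.inr i) ^ l := by
        have h4 : (∑ l ∈ Finset.range m, eval (fun a => y (Sum.inl a)) (c l) *
            y (Sum.inr i) ^ (l + 1)) = ∑ l ∈ Finset.range (m + 1),
            eval (fun a => y (Sum.inl a)) (if l = 0 then 0 else c (l - 1)) *
              y (Sum.inr i) ^ l := by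
          rw [Finset.sum_range_succ']
          simp
        rw [h4, Finset.mul_sum, ← Finset.sum_sub_distrib]
        refine Finset.sum_congr rfl fun l _ => ?_
        rw [map_sub, map_mul]
        ring
      rw [h3, pow_succ, h2, Finset.sum_mul, Finset.sum_range_succ]
      have h5 : (∑ x ∈ Finset.range m, eval (fun a => y (Sum.inl a)) (c x) *
          y (Sum.inr i) ^ x * y (Sum.inr i)) = ∑ x ∈ Finset.range m,
          eval (fun a => y (Sum.inl a)) (c x) * y (Sum.inr i) ^ (x + 1) :=
        Finset.sum_congr rfl fun x _ => by rw [pow_succ, mul_assoc]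
      rw [h5, mul_assoc, ← pow_succ, h1]
      ring

/-- reduction of the powers of a root -/
theorem red_pow {k j : ℕ} (G : Polynomial (Pp k)) (hG : G.Monic) (hh : HomP G) (i : Fin j)
    (n : ℕ) : ∃ c : Fin G.natDegree → Pp k,
      (∀ l, (c l).IsHomogeneous (n - l) ∧ (n < (l : ℕ) → c l = 0)) ∧
      ∀ y : Fin (k + 1) ⊕ Fin j → ℂ, Rt G i y → y (Sum.inr i) ^ n =
        ∑ l, eval (fun a => y (Sum.inl a)) (c l) * y (Sum.inr i) ^ (l : ℕ) := by
  rcases Nat.eq_zero_or_pos G.natDegree with h0 | h0
  · have h1 : G = 1 := hG.natDegree_eq_zero.1 h0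
    refine ⟨fun _ => 0, fun l => ⟨isHomogeneous_zero _ _ _, fun _ => rfl⟩, fun y hy => ?_⟩
    exfalso
    unfold Rt at hy
    rw [h1, Polynomial.map_one, Polynomial.eval_one] at hy
    exact one_ne_zero hy
  · obtain ⟨m, hm⟩ : ∃ m, G.natDegree = m + 1 := ⟨G.natDegree - 1, by omega⟩
    obtain ⟨c, hc, hy⟩ := red_pow_aux G hG hh i m hm n
    refine ⟨fun l => c l, fun l => hc l, fun y hR => ?_⟩
    rw [hy y hR, Fin.sum_univ_eq_sum_range
      (fun l => eval (fun a => y (Sum.inl a)) (c l) * y (Sum.inr i) ^ l) G.natDegree, hm]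

end Pool.Agent.SQ
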