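import Mathlib
import Pool.Agent.Lib_MP_b9fedf_sq.Defs
import Pool.Agent.Lib_MP_b9fedf_sq.CiRed
import Pool.Agent.Lib_MP_b9fedf_sq.CiInd

/-! The ideal of the common zeros of generically separable monic homogeneous polynomials `G i` in
the variables `r_i` satisfies `CI`. -/

set_option autoImplicit false

namespace Pool.Agent.SQ
open MvPolynomial

/-- scaling the argument of a homogeneous polynomial -/
private theorem eval_scale_CIOF {σ : Type} {n : ℕ} (p : MvPolynomial σ ℂ)
    (hp : p.IsHomogeneous n) (c : ℂ) (y : σ → ℂ) :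
    eval (fun i => c * y i) p = c ^ n * eval y p := by
  rw [eval_eq, eval_eq, Finset.mul_sum]
  refine Finset.sum_congr rfl fun d hd => ?_
  have h1 : d.degree = n := by
    have h2 := hp (mem_support_iff.1 hd)
    rw [← h2, Finsupp.degree_eq_weight_one]
    rfl
  have h3 : ∏ i ∈ d.support, (c * y i) ^ d i = c ^ n * ∏ i ∈ d.support, y i ^ d i := by
    rw [← h1, Finsupp.degree_apply, ← Finset.prod_pow_eq_pow_sum, ← Finset.prod_mul_distrib]
    exact Finset.prod_congr rfl fun i _ => mul_pow _ _ _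
  rw [h3]
  ring

/-- the condition `Rt` as a sum -/
private theorem rt_iff_CIOF {k j : ℕ} (G : Polynomial (Pp k)) (i : Fin j)
    (y : Fin (k + 1) ⊕ Fin j → ℂ) : Rt G i y ↔
      ∑ l ∈ Finset.range (G.natDegree + 1),
        eval (fun a => y (Sum.inl a)) (G.coeff l) * y (Sum.inr i) ^ l = 0 := by
  unfold Rt
  rw [Polynomial.eval_map, Polynomial.eval₂_eq_sum_range]

/-- the common zeros form a cone -/
private theorem rt_scale_CIOF {k j : ℕ} (G : Polynomial (Pp k)) (hh : HomP G) (i : Fin j)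
    (y : Fin (k + 1) ⊕ Fin j → ℂ) (c : ℂ) (h : Rt G i y) : Rt G i (fun a => c * y a) := by
  rw [rt_iff_CIOF] at h ⊢
  have h1 : ∑ l ∈ Finset.range (G.natDegree + 1),
      eval (fun a => c * y (Sum.inl a)) (G.coeff l) * (c * y (Sum.inr i)) ^ l =
      c ^ G.natDegree * ∑ l ∈ Finset.range (G.natDegree + 1),
        eval (fun a => y (Sum.inl a)) (G.coeff l) * y (Sum.inr i) ^ l := by
    rw [Finset.mul_sum]
    refine Finset.sum_congr rfl fun l hl => ?_
    have h2 : l ≤ G.natDegree := by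
      have := Finset.mem_range.1 hl
      omega
    have h3 : c ^ G.natDegree = c ^ (G.natDegree - l) * c ^ l := by
      rw [← pow_add, Nat.sub_add_cancel h2]
    rw [eval_scale_CIOF _ (hh l) c (fun a => y (Sum.inl a)), h3, mul_pow]
    ring
  rw [h1, h, mul_zero]

private theorem hom_CIOF {k j : ℕ} (G : Fin j → Polynomial (Pp k)) (hh : ∀ i, HomP (G i))
    (s : Sp k j) (hs : s ∈ YI G) (d : ℕ) : homogeneousComponent d s ∈ YI G := by
  intro y hy
  -- the polynomial in the scaling parameter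
  set P : Polynomial ℂ := ∑ n ∈ Finset.range (s.totalDegree + 1),
    Polynomial.monomial n (eval y (homogeneousComponent n s)) with hP
  have hP0 : P = 0 := by
    apply Polynomial.funext
    intro c
    have h1 : eval (fun a => c * y a) s = 0 := hs _ (fun i => rt_scale_CIOF (G i) (hh i) i y c (hy i))
    have h2 : eval (fun a => c * y a) s =
        ∑ n ∈ Finset.range (s.totalDegree + 1), c ^ n * eval y (homogeneousComponent n s) := by
      conv_lhs => rw [← sum_homogeneousComponent s]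
      rw [map_sum]
      exact Finset.sum_congr rfl fun n _ =>
        eval_scale_CIOF _ (homogeneousComponent_isHomogeneous n s) c y
    rw [Polynomial.eval_zero, hP, Polynomial.eval_finsetSum, ← h1, h2]
    refine Finset.sum_congr rfl fun n _ => ?_
    rw [Polynomial.eval_monomial]
    ring
  by_cases hd : d < s.totalDegree + 1
  · have h3 : P.coeff d = eval y (homogeneousComponent d s) := by
      rw [hP, Polynomial.finsetSum_coeff, Finset.sum_eq_single d]
      · rw [Polynomial.coeff_monomial, if_pos rfl]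
      · intro n _ hn
        rw [Polynomial.coeff_monomial, if_neg hn]
      · intro h4
        exact absurd (Finset.mem_range.2 hd) h4
    rw [← h3, hP0, Polynomial.coeff_zero]
  · rw [homogeneousComponent_eq_zero d s (by omega), map_zero]

/-- the monomials of the box -/
private noncomputable def bx_CIOF {k j : ℕ} (G : Fin j → Polynomial (Pp k))
    (μ : ∀ i : Fin j, Fin (G i).natDegree) : Sp k j := ∏ i, X (Sum.inr i) ^ (μ i : ℕ)

/-- `s` agrees on the common zeros with a combination of the monomials of the box -/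
private def Spn_CIOF {k j : ℕ} (G : Fin j → Polynomial (Pp k)) (d : ℕ) (s : Sp k j) : Prop :=
  ∃ p : (∀ i : Fin j, Fin (G i).natDegree) → Pp k,
    (∀ μ, (p μ).IsHomogeneous (d - ∑ i, (μ i : ℕ)) ∧ (d < ∑ i, (μ i : ℕ) → p μ = 0)) ∧
    ∀ y : Fin (k + 1) ⊕ Fin j → ℂ, (∀ i, Rt (G i) i y) → eval y s =
      ∑ μ, eval (fun a => y (Sum.inl a)) (p μ) * ∏ i, y (Sum.inr i) ^ (μ i : ℕ)

private theorem spn_add_CIOF {k j : ℕ} (G : Fin j → Polynomial (Pp k)) (d : ℕ) (s s' : Sp k j)
    (h : Spn_CIOF G d s) (h' : Spn_CIOF G d s') : Spn_CIOF G d (s + s') := by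
  obtain ⟨p, hp, hps⟩ := h
  obtain ⟨p', hp', hps'⟩ := h'
  refine ⟨fun μ => p μ + p' μ, fun μ => ⟨(hp μ).1.add (hp' μ).1, fun hd => ?_⟩, fun y hy => ?_⟩
  · show p μ + p' μ = 0
    rw [(hp μ).2 hd, (hp' μ).2 hd, add_zero]
  · rw [map_add, hps y hy, hps' y hy, ← Finset.sum_add_distrib]
    refine Finset.sum_congr rfl fun μ _ => ?_
    rw [map_add]
    ring

private theorem spn_zero_CIOF {k j : ℕ} (G : Fin j → Polynomial (Pp k)) (d : ℕ) :
    Spn_CIOF G d 0 := by
  refine ⟨fun _ => 0, fun μ => ⟨isHomogeneous_zero _ _ _, fun _ => rfl⟩, fun y _ => ?_⟩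
  rw [map_zero, Finset.sum_eq_zero]
  intro μ _
  rw [map_zero, zero_mul]

private theorem spn_monomial_CIOF {k j : ℕ} (G : Fin j → Polynomial (Pp k))
    (hG : ∀ i, (G i).Monic) (hh : ∀ i, HomP (G i)) (d : ℕ) (m : Fin (k + 1) ⊕ Fin j →₀ ℕ)
    (hm : m.degree = d) (c : ℂ) : Spn_CIOF G d (monomial m c) := by
  classical
  have hex : ∀ i : Fin j, _ := fun i => red_pow (G i) (hG i) (hh i) i (m (Sum.inr i))
  choose q hq hqe using hex
  have hdeg : ∑ a, m (Sum.inl a) + ∑ i, m (Sum.inr i) = d := by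
    rw [← hm, Finsupp.degree_eq_sum, Fintype.sum_sum_type]
  -- a product with a vanishing factor
  have hz : ∀ (μ : ∀ i : Fin j, Fin (G i).natDegree) (i : Fin j), m (Sum.inr i) < (μ i : ℕ) →
      ∏ i, q i (μ i) = 0 := by
    intro μ i hi
    exact Finset.prod_eq_zero (Finset.mem_univ i) ((hq i (μ i)).2 hi)
  refine ⟨fun μ => C c * (∏ a, X a ^ m (Sum.inl a)) * ∏ i, q i (μ i), fun μ => ⟨?_, ?_⟩, ?_⟩
  · by_cases hle : ∀ i, (μ i : ℕ) ≤ m (Sum.inr i)
    · have h1 : (C c * (∏ a, (X a : Pp k) ^ m (Sum.inl a)) * ∏ i, q i (μ i)).IsHomogeneous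
          (0 + ∑ a, m (Sum.inl a) + ∑ i, (m (Sum.inr i) - (μ i : ℕ))) := by
        refine ((isHomogeneous_C _ c).mul ?_).mul ?_
        · exact IsHomogeneous.prod _ _ _ fun a _ => isHomogeneous_X_pow a _
        · exact IsHomogeneous.prod _ _ _ fun i _ => (hq i (μ i)).1
      have h2 : ∑ i, (m (Sum.inr i) - (μ i : ℕ)) + ∑ i, (μ i : ℕ) = ∑ i, m (Sum.inr i) := by
        rw [← Finset.sum_add_distrib]
        exact Finset.sum_congr rfl fun i _ => Nat.sub_add_cancel (hle i)
      have h3 : 0 + ∑ a, m (Sum.inl a) + ∑ i, (m (Sum.inr i) - (μ i : ℕ)) =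
          d - ∑ i, (μ i : ℕ) := by omega
      rw [← h3]
      exact h1
    · push Not at hle
      obtain ⟨i, hi⟩ := hle
      show (C c * (∏ a, (X a : Pp k) ^ m (Sum.inl a)) * ∏ i, q i (μ i)).IsHomogeneous _
      rw [hz μ i hi, mul_zero]
      exact isHomogeneous_zero _ _ _
  · intro hd
    have hlt : ∃ i, m (Sum.inr i) < (μ i : ℕ) := by
      by_contra hcon
      push Not at hcon
      have h4 : ∑ i, (μ i : ℕ) ≤ ∑ i, m (Sum.inr i) := Finset.sum_le_sum fun i _ => hcon i
      omega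
    obtain ⟨i, hi⟩ := hlt
    show C c * (∏ a, X a ^ m (Sum.inl a)) * ∏ i, q i (μ i) = 0
    rw [hz μ i hi, mul_zero]
  · intro y hy
    have h5 : eval y (monomial m c) = c * (∏ a, y (Sum.inl a) ^ m (Sum.inl a)) *
        ∏ i, y (Sum.inr i) ^ m (Sum.inr i) := by
      rw [eval_monomial, Finsupp.prod_fintype _ _ (fun i => pow_zero _), Fintype.prod_sum_type,
        mul_assoc]
    have h6 : ∏ i, y (Sum.inr i) ^ m (Sum.inr i) =
        ∑ μ : (∀ i : Fin j, Fin (G i).natDegree),
          ∏ i, (eval (fun a => y (Sum.inl a)) (q i (μ i)) * y (Sum.inr i) ^ (μ i : ℕ)) := by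
      rw [← Fintype.prod_sum (fun (i : Fin j) (l : Fin (G i).natDegree) =>
        eval (fun a => y (Sum.inl a)) (q i l) * y (Sum.inr i) ^ (l : ℕ))]
      exact Finset.prod_congr rfl fun i _ => hqe i y (hy i)
    rw [h5, h6, Finset.mul_sum]
    refine Finset.sum_congr rfl fun μ _ => ?_
    rw [Finset.prod_mul_distrib, map_mul, map_mul, eval_C, map_prod, map_prod]
    have h7 : ∏ a, eval (fun a => y (Sum.inl a)) ((X a : Pp k) ^ m (Sum.inl a)) =
        ∏ a, y (Sum.inl a) ^ m (Sum.inl a) := by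
      refine Finset.prod_congr rfl fun a _ => ?_
      rw [map_pow, eval_X]
    rw [h7]
    ring

private theorem spn_hom_CIOF {k j : ℕ} (G : Fin j → Polynomial (Pp k))
    (hG : ∀ i, (G i).Monic) (hh : ∀ i, HomP (G i)) (d : ℕ) (s : Sp k j)
    (hs : s.IsHomogeneous d) : Spn_CIOF G d s := by
  rw [← support_sum_monomial_coeff s]
  refine Finset.sum_induction _ (Spn_CIOF G d) (fun a b ha hb => spn_add_CIOF G d a b ha hb)
    (spn_zero_CIOF G d) fun m hm => ?_
  refine spn_monomial_CIOF G hG hh d m ?_ _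
  have h2 := hs (mem_support_iff.1 hm)
  rw [← h2, Finsupp.degree_eq_weight_one]
  rfl

private theorem eval_inc_CIOF {k j : ℕ} (p : Pp k) (y : Fin (k + 1) ⊕ Fin j → ℂ) :
    eval y (inc (j := j) p) = eval (fun a => y (Sum.inl a)) p := by
  unfold inc
  rw [eval_rename]
  rfl

private theorem eval_bx_CIOF {k j : ℕ} (G : Fin j → Polynomial (Pp k))
    (μ : ∀ i : Fin j, Fin (G i).natDegree) (y : Fin (k + 1) ⊕ Fin j → ℂ) :
    eval y (bx_CIOF G μ) = ∏ i, y (Sum.inr i) ^ (μ i : ℕ) := by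
  unfold bx_CIOF
  rw [map_prod]
  refine Finset.prod_congr rfl fun i _ => ?_
  rw [map_pow, eval_X]

/-- PIECE CIOF -/
theorem ci_of {k j E : ℕ} (G : Fin j → Polynomial (Pp k)) (hG : ∀ i, (G i).Monic)
    (hE : ∀ i, (G i).natDegree ≤ E) (hh : ∀ i, HomP (G i)) (hs : ∀ i, Sepa (G i)) :
    ∃ r ≤ E ^ j, ∃ (b : Fin r → Sp k j) (db : Fin r → ℕ), CI (YI G) r b db := by
  classical
  let Box : Type := ∀ i : Fin j, Fin (G i).natDegree
  let e : Box ≃ Fin (Fintype.card Box) := Fintype.equivFin Box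
  have hcard : Fintype.card Box ≤ E ^ j := by
    have h0 : Fintype.card Box = ∏ i, (G i).natDegree := by
      show Fintype.card (∀ i : Fin j, Fin (G i).natDegree) = _
      rw [Fintype.card_pi]
      simp only [Fintype.card_fin]
    rw [h0]
    calc ∏ i, (G i).natDegree ≤ ∏ _i : Fin j, E :=
          Finset.prod_le_prod (fun _ _ => Nat.zero_le _) fun i _ => hE i
      _ = E ^ j := by rw [Finset.prod_const, Finset.card_univ, Fintype.card_fin]
  refine ⟨Fintype.card Box, hcard, fun t => bx_CIOF G (e.symm t),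
    fun t => ∑ i, ((e.symm t) i : ℕ), ?_⟩
  -- evaluation of a combination
  have hev : ∀ (p : Fin (Fintype.card Box) → Pp k) (y : Fin (k + 1) ⊕ Fin j → ℂ),
      eval y (∑ t, inc (p t) * bx_CIOF G (e.symm t)) =
        ∑ μ : Box, eval (fun a => y (Sum.inl a)) (p (e μ)) * ∏ i, y (Sum.inr i) ^ (μ i : ℕ) := by
    intro p y
    rw [map_sum, ← Equiv.sum_comp e]
    refine Finset.sum_congr rfl fun μ _ => ?_
    rw [map_mul, eval_inc_CIOF, eval_bx_CIOF, Equiv.symm_apply_apply]
  refine ⟨fun s hs d => hom_CIOF G hh s hs d, ?_, ?_, ?_, ?_⟩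
  · intro s hs2 y hy
    have h1 := hs2 y hy
    rw [map_pow] at h1
    exact pow_eq_zero_iff (two_ne_zero) |>.1 h1
  · intro t
    exact IsHomogeneous.prod _ _ _ fun i _ => isHomogeneous_X_pow _ _
  · intro d s hsd
    obtain ⟨p, hp, hps⟩ := spn_hom_CIOF G hG hh d s hsd
    refine ⟨fun t => p (e.symm t), fun t => hp (e.symm t), ?_⟩
    intro y hy
    rw [map_sub, hev, hps y hy, sub_eq_zero]
    refine Finset.sum_congr rfl fun μ _ => ?_
    rw [Equiv.symm_apply_apply]
  · intro p hp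
    have h2 := box_indep G hG hs (fun μ => p (e μ)) (by
      intro y hy
      rw [← hev p y]
      exact hp y hy)
    funext t
    have h3 := congrFun h2 (e.symm t)
    simp only [Equiv.apply_symm_apply, Pi.zero_apply] at h3
    rw [h3, Pi.zero_apply]

end Pool.Agent.SQ
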