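import Pool.Agent.Lib_MP_b9fedf_sq.Defs

/-! PIECE ELIM: elimination of a variable from two monic homogeneous equations. -/

set_option autoImplicit false

namespace Pool.Agent.SQ
open MvPolynomial

/-- scaling of a homogeneous form -/
private theorem eval_scale_elim {k n : ℕ} (f : Pp k) (hf : f.IsHomogeneous n)
    (u : Fin (k + 1) → ℂ) (c : ℂ) : eval (fun i => c * u i) f = c ^ n * eval u f := by
  rw [MvPolynomial.eval_eq, MvPolynomial.eval_eq, Finset.mul_sum]
  refine Finset.sum_congr rfl fun m hm => ?_
  have h1 : m.degree = n := by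
    have h0 := hf (MvPolynomial.mem_support_iff.mp hm)
    rw [Finsupp.degree_eq_weight_one]
    exact h0
  have h2 : ∏ i ∈ m.support, (c * u i) ^ m i = c ^ n * ∏ i ∈ m.support, u i ^ m i := by
    simp_rw [mul_pow]
    rw [Finset.prod_mul_distrib, Finset.prod_pow_eq_pow_sum, ← h1]
    rfl
  rw [h2]
  ring

/-- the values of a polynomial along a line through the origin -/
private theorem eval_line_elim {k : ℕ} (f : Pp k) (u : Fin (k + 1) → ℂ) (c : ℂ) (M : ℕ)
    (hM : f.totalDegree < M) : eval (fun i => c * u i) f =
      ∑ j ∈ Finset.range M, c ^ j * eval u (homogeneousComponent j f) := by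
  have h1 : f = ∑ j ∈ Finset.range M, homogeneousComponent j f := by
    have h2 := MvPolynomial.sum_homogeneousComponent f
    conv_lhs => rw [← h2]
    refine Finset.sum_subset (by
      intro i hi
      simp only [Finset.mem_range] at hi ⊢
      omega) ?_
    intro i _ hi
    simp only [Finset.mem_range, not_lt] at hi
    exact homogeneousComponent_eq_zero _ _ (by omega)
  conv_lhs => rw [h1]
  rw [map_sum]
  refine Finset.sum_congr rfl fun j _ => ?_
  exact eval_scale_elim _ (homogeneousComponent_isHomogeneous j f) u c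

/-- A monic polynomial of degree `d * e` vanishing at the common zeros. -/
private theorem exists_monic_elim {k d e : ℕ} (hd : 1 ≤ d)
    (p : Polynomial (Pp k)) (hp : p.Monic) (hpd : p.natDegree = d)
    (G : Polynomial (Polynomial (Pp k))) (hG : G.Monic) (hGd : G.natDegree = e) :
    ∃ G' : Polynomial (Pp k), G'.Monic ∧ G'.natDegree = d * e ∧
      ∀ (u : Fin (k + 1) → ℂ) (y x : ℂ), (p.map (eval u)).eval y = 0 →
        ((G.map (Polynomial.mapRingHom (eval u))).map (Polynomial.evalRingHom y)).eval x = 0 →
        (G'.map (eval u)).eval x = 0 := by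
  classical
  have : Module.Free (Pp k) (AdjoinRoot p) := hp.free_adjoinRoot
  have : Module.Finite (Pp k) (AdjoinRoot p) := hp.finite_adjoinRoot
  have hpn : Module.finrank (Pp k) (AdjoinRoot p) = d := by
    rw [(AdjoinRoot.powerBasis' hp).finrank, ← hpd]
    rfl
  have : Nontrivial (AdjoinRoot p) := by
    apply Module.nontrivial_of_finrank_pos (R := Pp k)
    rw [hpn]; omega
  let GT : Polynomial (AdjoinRoot p) := G.map (AdjoinRoot.mk p)
  have hGT : GT.Monic := hG.map _
  have hGTd : GT.natDegree = e := by
    rw [← hGd]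
    exact hG.natDegree_map _
  have : Module.Free (AdjoinRoot p) (AdjoinRoot GT) := hGT.free_adjoinRoot
  have : Module.Finite (AdjoinRoot p) (AdjoinRoot GT) := hGT.finite_adjoinRoot
  have hGn : Module.finrank (AdjoinRoot p) (AdjoinRoot GT) = e := by
    rw [(AdjoinRoot.powerBasis' hGT).finrank, ← hGTd]
    rfl
  have : Module.Free (Pp k) (AdjoinRoot GT) := Module.Free.trans (S := AdjoinRoot p)
  have : Module.Finite (Pp k) (AdjoinRoot GT) := Module.Finite.trans (AdjoinRoot p) _
  let f : AdjoinRoot GT →ₗ[Pp k] AdjoinRoot GT := Algebra.lmul (Pp k) _ (AdjoinRoot.root GT)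
  refine ⟨f.charpoly, f.charpoly_monic, ?_, ?_⟩
  · rw [LinearMap.charpoly_natDegree, ← Module.finrank_mul_finrank (Pp k) (AdjoinRoot p)
      (AdjoinRoot GT), hpn, hGn]
  · intro u y x hy hx
    have h1 : Polynomial.aeval (AdjoinRoot.root GT) f.charpoly = 0 := by
      have h2 := f.aeval_self_charpoly
      have h3 := congrArg (fun F => F 1) h2
      have h4 : Polynomial.aeval f f.charpoly =
          Algebra.lmul (Pp k) _ (Polynomial.aeval (AdjoinRoot.root GT) f.charpoly) :=
        (Polynomial.aeval_algHom_apply (Algebra.lmul (Pp k) (AdjoinRoot GT)) _ _)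
      rw [h4] at h3
      simpa using h3
    have hy' : p.eval₂ (eval u) y = 0 := by
      rw [Polynomial.eval₂_eq_eval_map]; exact hy
    let ψ : AdjoinRoot p →+* ℂ := AdjoinRoot.lift (eval u) y hy'
    have hψ : ψ.comp (AdjoinRoot.mk p) =
        (Polynomial.evalRingHom y).comp (Polynomial.mapRingHom (eval u)) := by
      apply RingHom.ext
      intro q
      simp only [RingHom.coe_comp, Function.comp_apply, Polynomial.coe_mapRingHom,
        Polynomial.coe_evalRingHom]
      show AdjoinRoot.lift (eval u) y hy' (AdjoinRoot.mk p q) = _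
      rw [AdjoinRoot.lift_mk, Polynomial.eval₂_eq_eval_map]
    have hx' : GT.eval₂ ψ x = 0 := by
      show (G.map (AdjoinRoot.mk p)).eval₂ ψ x = 0
      rw [Polynomial.eval₂_map, hψ, Polynomial.eval₂_eq_eval_map, ← Polynomial.map_map]
      exact hx
    let φ : AdjoinRoot GT →+* ℂ := AdjoinRoot.lift ψ x hx'
    have h5 : φ (AdjoinRoot.root GT) = x := AdjoinRoot.lift_root hx'
    have h6 : φ.comp (algebraMap (Pp k) (AdjoinRoot GT)) = eval u := by
      apply RingHom.ext
      intro q
      rw [RingHom.comp_apply, IsScalarTower.algebraMap_apply (Pp k) (AdjoinRoot p)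
        (AdjoinRoot GT)]
      show AdjoinRoot.lift ψ x hx' (AdjoinRoot.of GT (AdjoinRoot.of p q)) = _
      rw [AdjoinRoot.lift_of]
      show AdjoinRoot.lift (eval u) y hy' (AdjoinRoot.of p q) = _
      rw [AdjoinRoot.lift_of]
    have h7 := congrArg φ h1
    rw [Polynomial.aeval_def, Polynomial.hom_eval₂, h6, h5, map_zero] at h7
    rw [← Polynomial.eval₂_eq_eval_map]
    exact h7

/-- the zero set of a homogeneous polynomial is a cone -/
private theorem cone_elim {k : ℕ} (p : Polynomial (Pp k)) (hph : HomP p)
    (u : Fin (k + 1) → ℂ) (y c : ℂ) (h : (p.map (eval u)).eval y = 0) :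
    (p.map (eval fun i => c * u i)).eval (c * y) = 0 := by
  rw [Polynomial.eval_map, Polynomial.eval₂_eq_sum_range] at h ⊢
  have h2 : ∑ i ∈ Finset.range (p.natDegree + 1), eval (fun i => c * u i) (p.coeff i) *
      (c * y) ^ i = c ^ p.natDegree *
        ∑ i ∈ Finset.range (p.natDegree + 1), eval u (p.coeff i) * y ^ i := by
    rw [Finset.mul_sum]
    refine Finset.sum_congr rfl fun i hi => ?_
    have hi' : i ≤ p.natDegree := by simpa [Nat.lt_succ_iff] using hi
    rw [eval_scale_elim _ (hph i), mul_pow, show c ^ p.natDegree = c ^ (p.natDegree - i) * c ^ i by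
      rw [← pow_add, Nat.sub_add_cancel hi']]
    ring
  rw [h2, h, mul_zero]

/-- PIECE ELIM -/
theorem elim {k d e : ℕ} (p : Polynomial (Pp k)) (hp : p.Monic) (hpd : p.natDegree = d)
    (hph : HomP p) (G : Polynomial (Polynomial (Pp k))) (hG : G.Monic) (hGd : G.natDegree = e)
    (hGh : ∀ l i, ((G.coeff l).coeff i).IsHomogeneous (e - l - i) ∧
      (e - l < i → (G.coeff l).coeff i = 0)) :
    ∃ G' : Polynomial (Pp k), G'.Monic ∧ G'.natDegree ≤ d * e ∧ HomP G' ∧
      ∀ (u : Fin (k + 1) → ℂ) (y x : ℂ), (p.map (eval u)).eval y = 0 →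
        ((G.map (Polynomial.mapRingHom (eval u))).map (Polynomial.evalRingHom y)).eval x = 0 →
        (G'.map (eval u)).eval x = 0 := by
  classical
  have hone : HomP (1 : Polynomial (Pp k)) := by
    intro l
    rw [Polynomial.natDegree_one, Polynomial.coeff_one]
    split_ifs
    · simpa using isHomogeneous_one (Fin (k + 1)) ℂ
    · exact isHomogeneous_zero _ _ _
  rcases Nat.eq_zero_or_pos d with hd | hd
  · refine ⟨1, Polynomial.monic_one, by simp, hone, ?_⟩
    intro u y x hy _
    exfalso
    have : p = 1 := Polynomial.eq_one_of_monic_natDegree_zero hp (by omega)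
    rw [this] at hy
    simp at hy
  rcases Nat.eq_zero_or_pos e with he | he
  · refine ⟨1, Polynomial.monic_one, by simp, hone, ?_⟩
    intro u y x _ hx
    exfalso
    have : G = 1 := Polynomial.eq_one_of_monic_natDegree_zero hG (by omega)
    rw [this] at hx
    simp at hx
  obtain ⟨G₁, h₁m, h₁d, h₁z⟩ := exists_monic_elim hd p hp hpd G hG hGd
  have hGcone : ∀ (u : Fin (k + 1) → ℂ) (y x c : ℂ),
      ((G.map (Polynomial.mapRingHom (eval u))).map (Polynomial.evalRingHom y)).eval x = 0 →
      ((G.map (Polynomial.mapRingHom (eval fun i => c * u i))).map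
        (Polynomial.evalRingHom (c * y))).eval (c * x) = 0 := by
    intro u y x c h
    have key : ∀ (u : Fin (k + 1) → ℂ) (y x : ℂ),
        ((G.map (Polynomial.mapRingHom (eval u))).map (Polynomial.evalRingHom y)).eval x =
        ∑ l ∈ Finset.range (e + 1), (∑ i ∈ Finset.range (e + 1),
          eval u ((G.coeff l).coeff i) * y ^ i) * x ^ l := by
      intro u y x
      rw [Polynomial.map_map, Polynomial.eval_map, Polynomial.eval₂_eq_sum_range, hGd]
      refine Finset.sum_congr rfl fun l _ => ?_
      congr 1
      simp only [RingHom.coe_comp, Function.comp_apply, Polynomial.coe_mapRingHom,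
        Polynomial.coe_evalRingHom]
      rw [Polynomial.eval_map]
      refine Polynomial.eval₂_eq_sum_range' _ ?_ _
      refine Nat.lt_succ_of_le (Polynomial.natDegree_le_iff_coeff_eq_zero.mpr ?_)
      intro N hN
      exact (hGh l N).2 (by omega)
    rw [key] at h ⊢
    have h2 : ∑ l ∈ Finset.range (e + 1), (∑ i ∈ Finset.range (e + 1),
          eval (fun i => c * u i) ((G.coeff l).coeff i) * (c * y) ^ i) * (c * x) ^ l =
        c ^ e * ∑ l ∈ Finset.range (e + 1), (∑ i ∈ Finset.range (e + 1),
          eval u ((G.coeff l).coeff i) * y ^ i) * x ^ l := by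
      rw [Finset.mul_sum]
      refine Finset.sum_congr rfl fun l hl => ?_
      have hl' : l ≤ e := by simpa [Nat.lt_succ_iff] using hl
      rw [mul_pow, show c ^ e = c ^ (e - l) * c ^ l by
        rw [← pow_add, Nat.sub_add_cancel hl']]
      have h3 : ∑ i ∈ Finset.range (e + 1),
          eval (fun i => c * u i) ((G.coeff l).coeff i) * (c * y) ^ i = c ^ (e - l) *
          ∑ i ∈ Finset.range (e + 1), eval u ((G.coeff l).coeff i) * y ^ i := by
        rw [Finset.mul_sum]
        refine Finset.sum_congr rfl fun i _ => ?_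
        rcases Nat.lt_or_ge (e - l) i with hi | hi
        · rw [(hGh l i).2 hi]
          simp
        · rw [eval_scale_elim _ (hGh l i).1, mul_pow, show c ^ (e - l) =
            c ^ (e - l - i) * c ^ i by rw [← pow_add, Nat.sub_add_cancel hi]]
          ring
      rw [h3]
      ring
    rw [h2, h, mul_zero]
  -- the homogeneous part of degree `d * e`
  set D := d * e with hD
  let G' : Polynomial (Pp k) := ∑ l ∈ Finset.range (D + 1),
    Polynomial.monomial l (homogeneousComponent (D - l) (G₁.coeff l))
  have hcoeff : ∀ l, G'.coeff l = if l ≤ D then homogeneousComponent (D - l) (G₁.coeff l)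
      else 0 := by
    intro l
    simp only [G', Polynomial.finsetSum_coeff, Polynomial.coeff_monomial]
    rw [Finset.sum_ite_eq']
    simp
  have hlead : G'.coeff D = 1 := by
    rw [hcoeff, if_pos le_rfl, Nat.sub_self, ← h₁d, h₁m.coeff_natDegree]
    rw [homogeneousComponent_zero]
    simp
  have hle : G'.natDegree ≤ D := by
    refine Polynomial.natDegree_le_iff_coeff_eq_zero.mpr ?_
    intro N hN
    rw [hcoeff, if_neg (by omega)]
  have hnd : G'.natDegree = D :=
    Polynomial.natDegree_eq_of_le_of_coeff_ne_zero hle (by rw [hlead]; exact one_ne_zero)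
  refine ⟨G', Polynomial.monic_of_natDegree_le_of_coeff_eq_one D hle hlead, hle, ?_, ?_⟩
  · intro l
    rw [hnd, hcoeff]
    split_ifs
    · exact homogeneousComponent_isHomogeneous _ _
    · exact isHomogeneous_zero _ _ _
  · intro u y x hy hx
    -- values along the line
    obtain ⟨M, hM⟩ : ∃ M, ∀ l ∈ Finset.range (D + 1), (G₁.coeff l).totalDegree < M ∧ D < M := by
      refine ⟨(Finset.range (D + 1)).sup (fun l => (G₁.coeff l).totalDegree) + D + 1, ?_⟩
      intro l hl
      have := Finset.le_sup (f := fun l => (G₁.coeff l).totalDegree) hl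
      constructor
      · omega
      · omega
    let Q : Polynomial ℂ := ∑ l ∈ Finset.range (D + 1), ∑ j ∈ Finset.range M,
      Polynomial.monomial (j + l) (eval u (homogeneousComponent j (G₁.coeff l)) * x ^ l)
    have hQ : Q = 0 := by
      apply Polynomial.funext
      intro c
      rw [Polynomial.eval_zero]
      have h3 := h₁z (fun i => c * u i) (c * y) (c * x) (cone_elim p hph u y c hy)
        (hGcone u y x c hx)
      rw [Polynomial.eval_map, Polynomial.eval₂_eq_sum_range, h₁d] at h3
      rw [← h3]
      simp only [Q, Polynomial.eval_finsetSum, Polynomial.eval_monomial]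
      refine Finset.sum_congr rfl fun l hl => ?_
      rw [eval_line_elim (G₁.coeff l) u c M (hM l hl).1, Finset.sum_mul]
      refine Finset.sum_congr rfl fun j _ => ?_
      rw [pow_add, mul_pow]
      ring
    have hc := congrArg (fun F => Polynomial.coeff F D) hQ
    simp only [Q, Polynomial.finsetSum_coeff, Polynomial.coeff_monomial,
      Polynomial.coeff_zero] at hc
    rw [Polynomial.eval_map, Polynomial.eval₂_eq_sum_range, hnd, ← hc]
    refine Finset.sum_congr rfl fun l hl => ?_
    have hl' : l ≤ D := by simpa [Nat.lt_succ_iff] using hl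
    rw [hcoeff, if_pos hl', Finset.sum_eq_single (D - l)]
    · rw [if_pos (by omega)]
    · intro j _ hj
      rw [if_neg (by omega)]
    · intro hj
      exfalso
      apply hj
      rw [Finset.mem_range]
      have := (hM l hl).2
      omega

end Pool.Agent.SQ
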