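import Mathlib
import Pool.Agent.Lib_MP_b9fedf_sq.Defs

/-! Piece CPONE: the primes over an irreducible polynomial in `u`. -/

set_option autoImplicit false

namespace Pool.Agent.SQ
open MvPolynomial

private theorem ci_span_fp {k j r : ℕ} {I : Ideal (Sp k j)} {b : Fin r → Sp k j}
    {db : Fin r → ℕ} (hI : CI I r b db) (s : Sp k j) :
    ∃ p : Fin r → Pp k, s - ∑ i, inc (p i) * b i ∈ I := by
  have h : ∀ d, ∃ p : Fin r → Pp k,
      homogeneousComponent d s - ∑ i, inc (p i) * b i ∈ I := by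
    intro d
    obtain ⟨p, _, hp⟩ := hI.span d _ (homogeneousComponent_isHomogeneous d s)
    exact ⟨p, hp⟩
  choose p hp using h
  refine ⟨fun i => ∑ d ∈ Finset.range (s.totalDegree + 1), p d i, ?_⟩
  have h1 : s - ∑ i, inc (∑ d ∈ Finset.range (s.totalDegree + 1), p d i) * b i =
      ∑ d ∈ Finset.range (s.totalDegree + 1),
        (homogeneousComponent d s - ∑ i, inc (p d i) * b i) := by
    rw [Finset.sum_sub_distrib, sum_homogeneousComponent, Finset.sum_comm]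
    congr 1
    refine Finset.sum_congr rfl fun i _ => ?_
    rw [map_sum, Finset.sum_mul]
  rw [h1]
  exact I.sum_mem fun d _ => hp d

/-- every element is integral over the polynomials in `u` modulo `I` -/
private theorem int_fp {k j r : ℕ} {I : Ideal (Sp k j)} {b : Fin r → Sp k j}
    {db : Fin r → ℕ} (hI : CI I r b db) (s : Sp k j) :
    ∃ G : Polynomial (Pp k), G.Monic ∧
      G.eval₂ ((inc : Pp k →ₐ[ℂ] Sp k j) : Pp k →+* Sp k j) s ∈ I := by
  let f : Pp k →+* (Sp k j ⧸ I) :=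
    (Ideal.Quotient.mk I).comp ((inc : Pp k →ₐ[ℂ] Sp k j) : Pp k →+* Sp k j)
  have hfin : f.Finite := by
    let : Algebra (Pp k) (Sp k j ⧸ I) := f.toAlgebra
    show Module.Finite (Pp k) (Sp k j ⧸ I)
    classical
    refine ⟨⟨Finset.univ.image fun i => Ideal.Quotient.mk I (b i), ?_⟩⟩
    rw [eq_top_iff]
    rintro x -
    obtain ⟨s, rfl⟩ := Ideal.Quotient.mk_surjective x
    obtain ⟨p, hp⟩ := ci_span_fp hI s
    have h1 : Ideal.Quotient.mk I s = ∑ i, p i • Ideal.Quotient.mk I (b i) := by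
      rw [← sub_eq_zero]
      have h2 := Ideal.Quotient.eq_zero_iff_mem.2 hp
      rw [map_sub, map_sum] at h2
      rw [← h2]
      congr 1
    rw [h1]
    refine Submodule.sum_mem _ fun i _ => Submodule.smul_mem _ _ (Submodule.subset_span ?_)
    simp
  obtain ⟨G, hG, hG0⟩ := hfin.to_isIntegral (Ideal.Quotient.mk I s)
  refine ⟨G, hG, ?_⟩
  rw [← Ideal.Quotient.eq_zero_iff_mem, Polynomial.hom_eval₂]
  exact hG0

/-- comparable primes with the same contraction are equal -/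
private theorem contr_fp {k j r : ℕ} {I : Ideal (Sp k j)} {b : Fin r → Sp k j}
    {db : Fin r → ℕ} (hI : CI I r b db) {Q Q' : Ideal (Sp k j)} (hQ : Q.IsPrime) (hIQ : I ≤ Q)
    (hQQ : Q ≤ Q') (hc : ∀ g : Pp k, inc g ∈ Q' → inc g ∈ Q) : Q = Q' := by
  by_contra hne
  have hlt : Q < Q' := lt_of_le_of_ne hQQ hne
  obtain ⟨x, hx', hx⟩ := SetLike.exists_of_lt hlt
  obtain ⟨G, hG, hG0⟩ := int_fp hI x
  have hpr : (Q.comap ((inc : Pp k →ₐ[ℂ] Sp k j) : Pp k →+* Sp k j)).IsPrime :=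
    Ideal.comap_isPrime _ _
  have h1 := Ideal.comap_lt_comap_of_root_mem_sdiff
    (f := ((inc : Pp k →ₐ[ℂ] Sp k j) : Pp k →+* Sp k j)) hQQ ⟨hx', hx⟩ (p := G)
    (hG.map _).ne_zero (hIQ hG0)
  exact not_le_of_gt h1 fun g hg => hc g hg

/-- PIECE CPONE -/
theorem fiber_primes {k j r : ℕ} {I : Ideal (Sp k j)} {b : Fin r → Sp k j}
    {db : Fin r → ℕ} (hI : CI I r b db) (N : Ideal (Sp k j)) (hIN : I ≤ N) (π : Pp k)
    (hπ : Irreducible π) :
    ∃ (S : Set (Ideal (Sp k j))) (b₁ : ℕ) (g₁ : Pp k), S.Finite ∧ (∀ 𝔓 ∈ S, 𝔓.IsPrime) ∧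
      (∀ 𝔓 ∈ S, ∀ 𝔓' ∈ S, 𝔓 ≤ 𝔓' → 𝔓 = 𝔓') ∧ ¬ π ∣ g₁ ∧
      (∀ J : Ideal (Sp k j), N ≤ J → inc π ∈ J → (∀ 𝔓 ∈ S, ¬ J ≤ 𝔓) →
        ∃ g : Pp k, ¬ π ∣ g ∧ inc g ∈ J) ∧
      ∀ x ∈ (sInf S) ^ b₁, inc g₁ * x ∈ N ⊔ Ideal.span {inc π} := by
  classical
  have hpr : Prime π := hπ.prime
  set K : Ideal (Sp k j) := N ⊔ Ideal.span {inc π} with hK
  have hNK : N ≤ K := le_sup_left
  have hπK : inc π ∈ K := Ideal.mem_sup_right (Ideal.mem_span_singleton_self _)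
  have hP : (Ideal.span {π} : Ideal (Pp k)).IsPrime :=
    (Ideal.span_singleton_prime hπ.ne_zero).mpr hpr
  let S : Set (Ideal (Sp k j)) := {Q | Q ∈ K.minimalPrimes ∧ ∀ g : Pp k, inc g ∈ Q → π ∣ g}
  have hmem : ∀ Q' : Ideal (Sp k j), Q'.IsPrime → K ≤ Q' → (∀ g : Pp k, inc g ∈ Q' → π ∣ g) →
      Q' ∈ S := by
    intro Q' hQ' hKQ' hcQ'
    obtain ⟨Q, hQ, hQQ'⟩ := Ideal.exists_minimalPrimes_le hKQ'
    have hQp : Q.IsPrime := hQ.1.1
    have hKQ : K ≤ Q := hQ.1.2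
    have he : Q = Q' := by
      refine contr_fp hI hQp (hIN.trans (hNK.trans hKQ)) hQQ' fun g hg => ?_
      obtain ⟨c, rfl⟩ := hcQ' g hg
      rw [map_mul]
      exact Q.mul_mem_right _ (hKQ hπK)
    rw [← he]
    exact ⟨hQ, fun g hg => hcQ' g (hQQ' hg)⟩
  let M : Submonoid (Sp k j) := (Ideal.span {π} : Ideal (Pp k)).primeCompl.map
    ((inc : Pp k →ₐ[ℂ] Sp k j) : Pp k →+* Sp k j)
  have hM : ∀ x, x ∈ M ↔ ∃ g : Pp k, ¬ π ∣ g ∧ inc g = x := by
    intro x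
    constructor
    · rintro ⟨g, hg, rfl⟩
      refine ⟨g, fun h => hg (Ideal.mem_span_singleton.2 h), rfl⟩
    · rintro ⟨g, hg, rfl⟩
      exact ⟨g, fun h => hg (Ideal.mem_span_singleton.1 h), rfl⟩
  have hdisj : ∀ Q : Ideal (Sp k j), Disjoint (Q : Set (Sp k j)) M →
      ∀ g : Pp k, inc g ∈ Q → π ∣ g := by
    intro Q hQ g hg
    by_contra hn
    exact Set.disjoint_left.1 hQ hg ((hM _).2 ⟨g, hn, rfl⟩)
  have hA : ∀ x ∈ sInf S, ∃ (g : Pp k) (m : ℕ), ¬ π ∣ g ∧ inc g * x ^ m ∈ K := by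
    intro x hx
    by_contra hcon
    push Not at hcon
    have hd : Disjoint (K : Set (Sp k j)) (M ⊔ Submonoid.powers x : Submonoid (Sp k j)) := by
      rw [Set.disjoint_left]
      intro y hy hy'
      obtain ⟨y₁, hy₁, y₂, hy₂, rfl⟩ := Submonoid.mem_sup.1 hy'
      obtain ⟨g, hg, rfl⟩ := (hM _).1 hy₁
      obtain ⟨m, rfl⟩ := hy₂
      exact hcon g m hg hy
    obtain ⟨Q, hQ, hKQ, hQd⟩ := Ideal.exists_le_prime_disjoint _ _ hd
    have hQM : Disjoint (Q : Set (Sp k j)) M :=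
      Set.disjoint_of_subset_right (fun y hy => (le_sup_left : M ≤ _) hy) hQd
    have hQS := hmem Q hQ hKQ (hdisj Q hQM)
    have hxQ : x ∈ Q := (sInf_le hQS : sInf S ≤ Q) hx
    exact Set.disjoint_left.1 hQd hxQ
      ((le_sup_right : Submonoid.powers x ≤ _) (Submonoid.mem_powers x))
  choose! g m hg hm using hA
  obtain ⟨T, hT⟩ := (isNoetherian_def.1 (inferInstance : IsNoetherian (Sp k j) (Sp k j))) (sInf S)
  have hTS : ∀ t ∈ T, t ∈ sInf S := by
    intro t ht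
    rw [← hT]
    exact Submodule.subset_span ht
  let g₁ : Pp k := ∏ t ∈ T, g t
  let K' : Ideal (Sp k j) :=
    { carrier := {x | inc g₁ * x ∈ K}
      add_mem' := by
        intro x y hx hy
        show inc g₁ * (x + y) ∈ K
        rw [mul_add]
        exact K.add_mem hx hy
      zero_mem' := by
        show inc g₁ * 0 ∈ K
        rw [mul_zero]
        exact K.zero_mem
      smul_mem' := by
        intro c x hx
        show inc g₁ * (c * x) ∈ K
        rw [mul_left_comm]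
        exact K.mul_mem_left c hx }
  have hrad : sInf S ≤ K'.radical := by
    rw [← hT]
    show Submodule.span (Sp k j) (T : Set (Sp k j)) ≤ K'.radical
    rw [Submodule.span_le]
    intro t ht
    refine ⟨m t, ?_⟩
    show inc g₁ * t ^ m t ∈ K
    have h1 : g t ∣ g₁ := Finset.dvd_prod_of_mem g ht
    obtain ⟨c, hc⟩ := h1
    rw [hc, map_mul, mul_comm (inc (g t)), mul_assoc]
    exact K.mul_mem_left _ (hm t (hTS t ht))
  obtain ⟨b₁, hb₁⟩ := Ideal.exists_pow_le_of_le_radical_of_fg hrad ⟨T, hT⟩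
  refine ⟨S, b₁, g₁, ?_, ?_, ?_, ?_, ?_, ?_⟩
  · exact (K.finite_minimalPrimes_of_isNoetherianRing (Sp k j)).subset fun Q hQ => hQ.1
  · exact fun Q hQ => hQ.1.1.1
  · intro Q hQ Q' hQ' hle
    exact le_antisymm hle (hQ'.1.2 hQ.1.1 hle)
  · intro hd
    obtain ⟨t, ht, htd⟩ := (Prime.dvd_finsetProd_iff hpr g).1 hd
    exact hg t (hTS t ht) htd
  · intro J hNJ hπJ hJS
    by_contra hcon
    push Not at hcon
    have hd : Disjoint (J : Set (Sp k j)) M := by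
      rw [Set.disjoint_left]
      intro y hy hy'
      obtain ⟨g, hg, rfl⟩ := (hM _).1 hy'
      exact hcon g hg hy
    obtain ⟨Q, hQ, hJQ, hQd⟩ := Ideal.exists_le_prime_disjoint _ _ hd
    have hKJ : K ≤ J := sup_le hNJ ((Ideal.span_singleton_le_iff_mem J).2 hπJ)
    exact hJS Q (hmem Q hQ (hKJ.trans hJQ) (hdisj Q hQd)) hJQ
  · intro x hx
    exact hb₁ hx

end Pool.Agent.SQ
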