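import Pool.Agent.Lib_MP_b9fedf_sq.Defs
import Pool.Agent.Lib_MP_b9fedf_sq.Basic
import Pool.Agent.Lib_MP_b9fedf_sq.HomFac
import Pool.Agent.Lib_MP_b9fedf_sq.BinZero
import Pool.Agent.Lib_MP_b9fedf_sq.Nak

/-! Division by the linear form `h` modulo `I` (piece KTHREE). -/

set_option autoImplicit false

namespace Pool.Agent.SQ
open MvPolynomial

private theorem kthree_eval_lin {τ : Type} [Fintype τ] (p h : τ → ℂ) :
    eval p (lin h) = dt p h := by
  unfold lin dt
  rw [map_sum]
  refine Finset.sum_congr rfl fun i _ => ?_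
  rw [map_mul, eval_C, eval_X, mul_comm]

/-- PIECE KTHREE -/
theorem kthree {k j r : ℕ} (hk : 1 ≤ k) {I : Ideal (Sp k j)} {b : Fin r → Sp k j}
    {db : Fin r → ℕ} (hI : CI I r b db) (V : Ideal (Sp k j)) (hIV : I ≤ V)
    (hsat : ∀ (p : Pp k) (τ : Sp k j), p ≠ 0 → inc p * τ ∈ V → τ ∈ V)
    (h h' : Fin (k + 1) ⊕ Fin j → ℂ)
    (hinv : ∃ (p : Pp k) (dp : ℕ) (α : Sp k j), p ≠ 0 ∧ p.IsHomogeneous dp ∧
      inc p - lin h * α ∈ annI I V)
    (e e' : Fin (k + 1) → ℂ) (he : LinearIndependent ℂ ![e, e'])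
    (hgen : GenAt (annI I V) e e' h h') (τ τ' : Sp k j) (hτ : τ ∈ V) (hτ' : τ' ∈ V)
    (heq : lin h * τ' - lin h' * τ ∈ I) : ∃ c ∈ V, τ - lin h * c ∈ I := by
  classical
  obtain ⟨p, dp, α, hp0, hp, hpα⟩ := hinv
  -- the degrees of the nonzero homogeneous elements of the ideal
  have hex : ∃ d : ℕ, ∃ g : Pp k, g ≠ 0 ∧ g.IsHomogeneous d ∧
      ∃ u ∈ V, inc g * τ - lin h * u ∈ I := by
    refine ⟨dp, p, hp0, hp, α * τ, V.mul_mem_left α hτ, ?_⟩
    have h1 : (inc p - lin h * α) * τ ∈ I := hpα τ hτ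
    have h2 : inc p * τ - lin h * (α * τ) = (inc p - lin h * α) * τ := by ring
    rw [h2]
    exact h1
  obtain ⟨g₀, hg0, hgh, u, hu, hgu⟩ := Nat.find_spec hex
  have hmin : ∀ d < Nat.find hex, ∀ g : Pp k, g ≠ 0 → g.IsHomogeneous d →
      ¬ ∃ u ∈ V, inc g * τ - lin h * u ∈ I := by
    intro d hd g h1 h2 h3
    exact Nat.find_min hex hd ⟨g, h1, h2, h3⟩
  by_cases hunit : IsUnit g₀
  · -- a constant
    obtain ⟨w, hw⟩ := hunit
    have h1 : inc (↑(w⁻¹) : Pp k) * inc g₀ = (1 : Sp k j) := by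
      rw [← map_mul, ← hw, Units.inv_mul, map_one]
    refine ⟨inc (↑(w⁻¹) : Pp k) * u, V.mul_mem_left _ hu, ?_⟩
    have h2 : τ - lin h * (inc (↑(w⁻¹) : Pp k) * u) =
        inc (↑(w⁻¹) : Pp k) * (inc g₀ * τ - lin h * u) := by
      have h3 : inc (↑(w⁻¹) : Pp k) * (inc g₀ * τ - lin h * u) =
          (inc (↑(w⁻¹) : Pp k) * inc g₀) * τ - lin h * (inc (↑(w⁻¹) : Pp k) * u) := by ring
      rw [h3, h1, one_mul]
    rw [h2]
    exact I.mul_mem_left _ hgu
  · exfalso
    obtain ⟨π, hπ, g₁, hg1⟩ := WfDvdMonoid.exists_irreducible_factor hunit hg0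
    obtain ⟨dπ, d₁, hdd, hπh, hg1h⟩ := homogeneous_of_mul (hg1 ▸ hgh) (hg1 ▸ hg0)
    have hg10 : g₁ ≠ 0 := by
      rintro rfl
      exact hg0 (by rw [hg1, mul_zero])
    have hdπ : 1 ≤ dπ := by
      rcases Nat.eq_zero_or_pos dπ with h0 | h0
      · exfalso
        subst h0
        have h1 : π = C (coeff 0 π) := totalDegree_eq_zero_iff_eq_C.1 (hπh.totalDegree hπ.ne_zero)
        have h2 : coeff 0 π ≠ 0 := by
          intro h3
          rw [h3, map_zero] at h1
          exact hπ.ne_zero h1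
        apply hπ.not_isUnit
        rw [h1]
        exact (isUnit_iff_ne_zero.2 h2).map C
      · exact h0
    obtain ⟨a, a', hne, hzero⟩ := bin_zero hdπ π hπh e e' he
    set u₀ : Fin (k + 1) → ℂ := fun i => a * e i + a' * e' i with hu0
    -- the ideal `B`
    set B : Ideal (Sp k j) := annI I V ⊔ Ideal.span {lin h, lin h'} with hB
    have hIann : I ≤ annI I V := by
      intro s hs t _
      exact I.mul_mem_right t hs
    obtain ⟨g, hgne, hgB⟩ := nak hI B (le_trans hIann le_sup_left) u₀ (by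
      intro q hq
      by_contra hcon
      push Not at hcon
      have h1 : ∀ g ∈ annI I V, eval q g = 0 := fun g hg => hcon g (Ideal.mem_sup_left hg)
      have h2 : dt q h = 0 := by
        rw [← kthree_eval_lin]
        exact hcon _ (Ideal.mem_sup_right (Ideal.subset_span (Or.inl rfl)))
      have h3 : dt q h' = 0 := by
        rw [← kthree_eval_lin]
        exact hcon _ (Ideal.mem_sup_right (Ideal.subset_span (Or.inr rfl)))
      refine hgen q h1 ⟨a, a', hq⟩ ?_ h2 h3
      rintro rfl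
      apply hne
      funext i
      have := hq i
      exact this.symm)
    have hπg : ¬ π ∣ g := by
      rintro ⟨w, hw⟩
      apply hgne
      rw [hw, map_mul, hzero, zero_mul]
    obtain ⟨ν, hν, y, hy, hνy⟩ := Submodule.mem_sup.1 hgB
    obtain ⟨x, x', hxx⟩ := Ideal.mem_span_pair.1 hy
    -- `g` belongs to the ideal
    set w : Sp k j := x * τ + x' * τ' with hw
    have hwV : w ∈ V := V.add_mem (V.mul_mem_left _ hτ) (V.mul_mem_left _ hτ')
    have hgw : inc g * τ - lin h * w ∈ I := by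
      have h1 : inc g * τ - lin h * w = ν * τ - x' * (lin h * τ' - lin h' * τ) := by
        rw [← hνy, ← hxx, hw]
        ring
      rw [h1]
      exact I.sub_mem (hν τ hτ) (I.mul_mem_left _ heq)
    -- torsion
    have hz : inc g * u - inc g₀ * w ∈ I := by
      have hzV : inc g * u - inc g₀ * w ∈ V :=
        V.sub_mem (V.mul_mem_left _ hu) (V.mul_mem_left _ hwV)
      have h1 : lin h * (inc g * u - inc g₀ * w) ∈ I := by
        have h2 : lin h * (inc g * u - inc g₀ * w) =
            inc g₀ * (inc g * τ - lin h * w) - inc g * (inc g₀ * τ - lin h * u) := by ring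
        rw [h2]
        exact I.sub_mem (I.mul_mem_left _ hgw) (I.mul_mem_left _ hgu)
      have h2 : inc p * (inc g * u - inc g₀ * w) ∈ I := by
        have h3 : inc p * (inc g * u - inc g₀ * w) =
            (inc p - lin h * α) * (inc g * u - inc g₀ * w) +
              α * (lin h * (inc g * u - inc g₀ * w)) := by ring
        rw [h3]
        exact I.add_mem (hpα _ hzV) (I.mul_mem_left _ h1)
      exact ci_torsion hI p hp0 _ h2
    have hz' : inc g * u - inc π * (inc g₁ * w) ∈ I := by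
      have h1 : inc g * u - inc π * (inc g₁ * w) = inc g * u - inc g₀ * w := by
        rw [hg1, map_mul]
        ring
      rw [h1]
      exact hz
    obtain ⟨s', hs'⟩ := ci_prime hI π g hπ hπg u (inc g₁ * w) hz'
    have hs'V : s' ∈ V := by
      refine hsat π s' hπ.ne_zero ?_
      have h1 : inc π * s' = u - (u - inc π * s') := by ring
      rw [h1]
      exact V.sub_mem hu (hIV hs')
    have hfin : inc g₁ * τ - lin h * s' ∈ I := by
      refine ci_torsion hI π hπ.ne_zero _ ?_
      have h1 : inc π * (inc g₁ * τ - lin h * s') =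
          (inc g₀ * τ - lin h * u) + lin h * (u - inc π * s') := by
        rw [hg1, map_mul]
        ring
      rw [h1]
      exact I.add_mem hgu (I.mul_mem_left _ hs')
    exact hmin d₁ (by omega) g₁ hg10 hg1h ⟨s', hs'V, hfin⟩

end Pool.Agent.SQ
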