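import Mathlib
import Pool.Agent.Lib_MP_b9fedf_sq.Defs

/-! Piece MINI: a monic homogeneous relation of minimal degree is generically separable. -/

set_option autoImplicit false

namespace Pool.Agent.SQ
open MvPolynomial

/-- restriction of a polynomial to the line through `u` -/
private noncomputable def lineMini {σ : Type} (u : σ → ℂ) (p : MvPolynomial σ ℂ) :
    Polynomial ℂ := aeval (fun i => Polynomial.C (u i) * Polynomial.X) p

private theorem lineMini_eval {σ : Type} (u : σ → ℂ) (p : MvPolynomial σ ℂ) (z : ℂ) :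
    (lineMini u p).eval z = eval (fun i => z * u i) p := by
  unfold lineMini
  have h : (Polynomial.evalRingHom z).comp
      ((aeval (fun i => Polynomial.C (u i) * Polynomial.X) :
        MvPolynomial σ ℂ →ₐ[ℂ] Polynomial ℂ) : MvPolynomial σ ℂ →+* Polynomial ℂ) =
      eval (fun i => z * u i) := by
    apply MvPolynomial.ringHom_ext
    · intro c
      change Polynomial.eval z (aeval _ (C c)) = eval _ (C c)
      rw [algHom_C, Polynomial.algebraMap_eq, Polynomial.eval_C, eval_C]
    · intro i
      change Polynomial.eval z (aeval _ (X i)) = eval _ (X i)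
      rw [aeval_X, eval_X, Polynomial.eval_mul, Polynomial.eval_C, Polynomial.eval_X, mul_comm]
  exact congrArg (fun g => g p) h

private theorem lineMini_coeff {σ : Type} (u : σ → ℂ) (p : MvPolynomial σ ℂ) (m : ℕ) :
    (lineMini u p).coeff m = eval u (homogeneousComponent m p) := by
  induction p using MvPolynomial.induction_on' with
  | monomial s c =>
    have h1 : lineMini u (monomial s c) =
        Polynomial.C (eval u (monomial s c)) * Polynomial.X ^ s.degree := by
      unfold lineMini
      rw [aeval_monomial, eval_monomial, Finsupp.prod, Finsupp.prod]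
      simp only [mul_pow]
      rw [Finset.prod_mul_distrib, Finset.prod_pow_eq_pow_sum, Polynomial.C_mul, map_prod]
      simp only [Polynomial.C_pow, Polynomial.algebraMap_eq]
      rw [← mul_assoc]
      rfl
    rw [h1, Polynomial.coeff_C_mul, Polynomial.coeff_X_pow]
    have h2 : (monomial s c : MvPolynomial σ ℂ) ∈ homogeneousSubmodule σ ℂ s.degree :=
      isHomogeneous_monomial c rfl
    rw [homogeneousComponent_of_mem h2]
    split_ifs with h
    · rw [mul_one]
    · rw [mul_zero, map_zero]
  | add p q hp hq =>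
    have h1 : lineMini u (p + q) = lineMini u p + lineMini u q := map_add _ _ _
    rw [h1, Polynomial.coeff_add, hp, hq, map_add, map_add]

/-- the homogeneous part of top degree -/
private noncomputable def topMini {k : ℕ} (Q : Polynomial (Pp k)) : Polynomial (Pp k) :=
  ∑ l ∈ Finset.range (Q.natDegree + 1),
    Polynomial.monomial l (homogeneousComponent (Q.natDegree - l) (Q.coeff l))

private theorem topMini_coeff {k : ℕ} (Q : Polynomial (Pp k)) (l : ℕ) :
    (topMini Q).coeff l = if l < Q.natDegree + 1 then
      homogeneousComponent (Q.natDegree - l) (Q.coeff l) else 0 := by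
  unfold topMini
  rw [Polynomial.finsetSum_coeff]
  simp only [Polynomial.coeff_monomial]
  rw [Finset.sum_ite_eq' (Finset.range (Q.natDegree + 1)) l
    (fun l => homogeneousComponent (Q.natDegree - l) (Q.coeff l))]
  simp only [Finset.mem_range]

private theorem topMini_deg {k : ℕ} (Q : Polynomial (Pp k)) :
    (topMini Q).natDegree ≤ Q.natDegree := by
  rw [Polynomial.natDegree_le_iff_coeff_eq_zero]
  intro N hN
  rw [topMini_coeff, if_neg (by omega)]

private theorem topMini_top {k : ℕ} (Q : Polynomial (Pp k)) (hQ : Q.Monic) :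
    (topMini Q).coeff Q.natDegree = 1 := by
  rw [topMini_coeff, if_pos (by omega), Nat.sub_self, homogeneousComponent_zero]
  have : Q.coeff Q.natDegree = 1 := hQ
  rw [this]
  simp

private theorem topMini_natDegree {k : ℕ} (Q : Polynomial (Pp k)) (hQ : Q.Monic) :
    (topMini Q).natDegree = Q.natDegree := by
  apply Polynomial.natDegree_eq_of_le_of_coeff_ne_zero (topMini_deg Q)
  rw [topMini_top Q hQ]
  exact one_ne_zero

private theorem topMini_monic {k : ℕ} (Q : Polynomial (Pp k)) (hQ : Q.Monic) :
    (topMini Q).Monic := by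
  apply Polynomial.monic_of_natDegree_le_of_coeff_eq_one Q.natDegree (topMini_deg Q)
  exact topMini_top Q hQ

private theorem topMini_homP {k : ℕ} (Q : Polynomial (Pp k)) (hQ : Q.Monic) :
    HomP (topMini Q) := by
  intro l
  rw [topMini_natDegree Q hQ, topMini_coeff]
  split_ifs
  · exact homogeneousComponent_isHomogeneous _ _
  · exact isHomogeneous_zero _ _ _

private theorem topMini_eval {k : ℕ} (Q : Polynomial (Pp k)) (u : Fin (k + 1) → ℂ) (r : ℂ)
    (h : ∀ z : ℂ, (Q.map (eval fun i => z * u i)).eval (z * r) = 0) :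
    ((topMini Q).map (eval u)).eval r = 0 := by
  have hR : ∑ l ∈ Finset.range (Q.natDegree + 1),
      lineMini u (Q.coeff l) * (Polynomial.C (r ^ l) * Polynomial.X ^ l) = 0 := by
    apply Polynomial.funext
    intro z
    rw [Polynomial.eval_finsetSum, Polynomial.eval_zero, ← h z]
    rw [Polynomial.eval_map, Polynomial.eval₂_eq_sum_range]
    apply Finset.sum_congr rfl
    intro l _
    rw [Polynomial.eval_mul, lineMini_eval, Polynomial.eval_mul, Polynomial.eval_C,
      Polynomial.eval_pow, Polynomial.eval_X, mul_pow, mul_comm (r ^ l)]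
  have h2 := congrArg (fun g => Polynomial.coeff g Q.natDegree) hR
  simp only [Polynomial.finsetSum_coeff, Polynomial.coeff_zero] at h2
  rw [Polynomial.eval_map, Polynomial.eval₂_eq_sum_range' (eval u)
    (show (topMini Q).natDegree < Q.natDegree + 1 from Nat.lt_succ_of_le (topMini_deg Q)), ← h2]
  apply Finset.sum_congr rfl
  intro l hl
  have hl' : l < Q.natDegree + 1 := Finset.mem_range.mp hl
  rw [topMini_coeff, if_pos hl', ← mul_assoc, mul_comm (lineMini u (Q.coeff l)), mul_assoc,
    Polynomial.coeff_C_mul, Polynomial.coeff_mul_X_pow', if_pos (by omega), lineMini_coeff]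
  ring

private theorem homP_evalMini {k : ℕ} (G : Polynomial (Pp k)) (hh : HomP G)
    (u : Fin (k + 1) → ℂ) (r z : ℂ) (h : (G.map (eval u)).eval r = 0) :
    (G.map (eval fun i => z * u i)).eval (z * r) = 0 := by
  have h1 : (G.map (eval fun i => z * u i)).eval (z * r) =
      z ^ G.natDegree * (G.map (eval u)).eval r := by
    rw [Polynomial.eval_map, Polynomial.eval₂_eq_sum_range, Polynomial.eval_map,
      Polynomial.eval₂_eq_sum_range, Finset.mul_sum]
    apply Finset.sum_congr rfl
    intro l hl
    have hl' : l < G.natDegree + 1 := Finset.mem_range.mp hl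
    have h2 : eval (fun i => z * u i) (G.coeff l) =
        z ^ (G.natDegree - l) * eval u (G.coeff l) := by
      have h3 : homogeneousComponent (G.natDegree - l) (G.coeff l) = G.coeff l :=
        homogeneousComponent_eq_self (hh l)
      rw [← lineMini_eval, Polynomial.eval_eq_sum_range'
        (show (lineMini u (G.coeff l)).natDegree <
          (lineMini u (G.coeff l)).natDegree + (G.natDegree - l) + 1 by omega)]
      rw [Finset.sum_eq_single (G.natDegree - l)]
      · rw [lineMini_coeff, h3, mul_comm]
      · intro m _ hm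
        rw [lineMini_coeff, homogeneousComponent_of_mem (hh l), if_neg hm, map_zero, zero_mul]
      · intro hm
        exact absurd (Finset.mem_range.mpr (by omega)) hm
    rw [h2, mul_pow]
    have h4 : z ^ G.natDegree = z ^ (G.natDegree - l) * z ^ l := by
      rw [← pow_add]
      congr 1
      omega
    rw [h4]
    ring
  rw [h1, h, mul_zero]

private theorem sepa_of_squarefreeMini {k : ℕ} (G : Polynomial (Pp k))
    (hs : Squarefree (G.map (algebraMap (Pp k) (FractionRing (Pp k))))) : Sepa G := by
  have : CharZero (FractionRing (Pp k)) := by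
    have : CharZero (Pp k) := inferInstance
    exact charZero_of_injective_algebraMap (IsFractionRing.injective (Pp k) (FractionRing (Pp k)))
  have hsep : (G.map (algebraMap (Pp k) (FractionRing (Pp k)))).Separable :=
    PerfectField.separable_iff_squarefree.mpr hs
  obtain ⟨a, b, hab⟩ := hsep
  obtain ⟨d1, hd1, ha⟩ := IsLocalization.integerNormalization_spec (nonZeroDivisors (Pp k)) a
  obtain ⟨d2, hd2, hb⟩ := IsLocalization.integerNormalization_spec (nonZeroDivisors (Pp k)) b
  set a' := IsLocalization.integerNormalization (nonZeroDivisors (Pp k)) a with ha'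
  set b' := IsLocalization.integerNormalization (nonZeroDivisors (Pp k)) b with hb'
  refine ⟨d1 * d2, mul_ne_zero (nonZeroDivisors.ne_zero hd1) (nonZeroDivisors.ne_zero hd2), ?_⟩
  have key : Polynomial.C d2 * a' * G + Polynomial.C d1 * b' * Polynomial.derivative G =
      Polynomial.C (d1 * d2) := by
    apply Polynomial.map_injective (algebraMap (Pp k) (FractionRing (Pp k)))
      (IsFractionRing.injective _ _)
    rw [Polynomial.map_add, Polynomial.map_mul, Polynomial.map_mul, Polynomial.map_mul,
      Polynomial.map_mul, ha, hb, ← Polynomial.derivative_map, Polynomial.map_C, Polynomial.map_C,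
      Polynomial.map_C, map_mul, Polynomial.C_mul]
    have e1 : d1 • a = Polynomial.C (algebraMap (Pp k) (FractionRing (Pp k)) d1) * a := by
      rw [← Polynomial.smul_eq_C_mul, algebraMap_smul]
    have e2 : d2 • b = Polynomial.C (algebraMap (Pp k) (FractionRing (Pp k)) d2) * b := by
      rw [← Polynomial.smul_eq_C_mul, algebraMap_smul]
    rw [e1, e2]
    linear_combination (Polynomial.C (algebraMap (Pp k) (FractionRing (Pp k)) d1) *
      Polynomial.C (algebraMap (Pp k) (FractionRing (Pp k)) d2)) * hab
  intro u hu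
  have key2 := congrArg (Polynomial.map (eval u)) key
  rw [Polynomial.map_add, Polynomial.map_mul, Polynomial.map_mul, Polynomial.map_mul,
    Polynomial.map_mul, Polynomial.map_C, Polynomial.map_C, Polynomial.map_C,
    ← Polynomial.derivative_map] at key2
  refine ⟨Polynomial.C ((eval u (d1 * d2))⁻¹) * (Polynomial.C (eval u d2) * a'.map (eval u)),
    Polynomial.C ((eval u (d1 * d2))⁻¹) * (Polynomial.C (eval u d1) * b'.map (eval u)), ?_⟩
  have h3 : Polynomial.C ((eval u (d1 * d2))⁻¹) * Polynomial.C (eval u (d1 * d2)) = 1 := by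
    rw [← Polynomial.C_mul, inv_mul_cancel₀ hu, Polynomial.C_1]
  linear_combination Polynomial.C ((eval u (d1 * d2))⁻¹) * key2 + h3

/-- PIECE MINI -/
theorem exists_sepa {k j : ℕ} (i : Fin j) (A : Finset (Fin (k + 1) ⊕ Fin j → ℂ))
    (G : Polynomial (Pp k)) (hG : G.Monic) (hh : HomP G) (hR : ∀ a ∈ A, Rt G i a) :
    ∃ G' : Polynomial (Pp k), G'.Monic ∧ G'.natDegree ≤ G.natDegree ∧ HomP G' ∧ Sepa G' ∧
      ∀ a ∈ A, Rt G' i a := by
  classical
  have hex : ∃ n, ∃ G' : Polynomial (Pp k), G'.Monic ∧ HomP G' ∧ G'.natDegree = n ∧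
      ∀ a ∈ A, Rt G' i a := ⟨_, G, hG, hh, rfl, hR⟩
  obtain ⟨G', hm, hH, hn, hr⟩ := Nat.find_spec hex
  have hmin : Nat.find hex ≤ G.natDegree := Nat.find_min' hex ⟨G, hG, hh, rfl, hR⟩
  refine ⟨G', hm, hn.trans_le hmin, hH, ?_, hr⟩
  apply sepa_of_squarefreeMini
  intro x hx
  by_contra hu
  obtain ⟨x', hx'⟩ := IsIntegrallyClosed.eq_map_mul_C_of_dvd (FractionRing (Pp k)) hm
    (dvd_of_mul_left_dvd hx)
  have hx0 : x ≠ 0 := by
    intro h0
    rw [h0, mul_zero, zero_dvd_iff] at hx
    exact (hm.map _).ne_zero hx
  have hlc : (x'.map (algebraMap (Pp k) (FractionRing (Pp k)))).Monic := by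
    have h1 := congrArg Polynomial.leadingCoeff hx'
    rw [Polynomial.leadingCoeff_mul, Polynomial.leadingCoeff_C] at h1
    have h2 : x.leadingCoeff ≠ 0 := Polynomial.leadingCoeff_ne_zero.mpr hx0
    exact mul_right_cancel₀ h2 (h1.trans (one_mul _).symm)
  have hinj := IsFractionRing.injective (Pp k) (FractionRing (Pp k))
  have hm' : x'.Monic := Polynomial.monic_of_injective hinj hlc
  have hdeg : x'.natDegree = x.natDegree := by
    rw [← hx', Polynomial.natDegree_mul_C (Polynomial.leadingCoeff_ne_zero.mpr hx0),
      Polynomial.natDegree_map_eq_of_injective hinj]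
  have hdpos : 1 ≤ x'.natDegree := by
    rw [hdeg]
    by_contra h0
    have h1 : x.natDegree = 0 := by omega
    rw [Polynomial.natDegree_eq_zero] at h1
    obtain ⟨c, hc⟩ := h1
    apply hu
    rw [← hc]
    rw [← hc] at hx0
    exact Polynomial.isUnit_C.mpr (isUnit_iff_ne_zero.mpr (fun h => hx0 (by rw [h, Polynomial.C_0])))
  have hdvd : x' * x' ∣ G' := by
    rw [← Polynomial.map_dvd_map _ hinj (hm'.mul hm'), Polynomial.map_mul]
    refine dvd_trans ?_ hx
    refine ⟨Polynomial.C x.leadingCoeff * Polynomial.C x.leadingCoeff, ?_⟩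
    conv_lhs => rw [← hx']
    ring
  obtain ⟨F, hF⟩ := hdvd
  have hFm : F.Monic := Polynomial.Monic.of_mul_monic_left (hm'.mul hm') (hF ▸ hm)
  have hQm : (x' * F).Monic := hm'.mul hFm
  have hQd : (x' * F).natDegree < Nat.find hex := by
    rw [← hn, hF, hm'.natDegree_mul hFm, (hm'.mul hm').natDegree_mul hFm, hm'.natDegree_mul hm']
    omega
  refine Nat.find_min hex hQd ⟨topMini (x' * F), topMini_monic _ hQm, topMini_homP _ hQm,
    topMini_natDegree _ hQm, ?_⟩
  intro a ha
  apply topMini_eval
  intro z
  have h1 := homP_evalMini G' hH _ _ z (hr a ha)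
  rw [hF, Polynomial.map_mul, Polynomial.map_mul, Polynomial.eval_mul, Polynomial.eval_mul] at h1
  rw [Polynomial.map_mul, Polynomial.eval_mul]
  rcases mul_eq_zero.mp h1 with h2 | h2
  · rw [mul_self_eq_zero.mp h2, zero_mul]
  · rw [h2, mul_zero]

end Pool.Agent.SQ
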