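import Mathlib
import Pool.Agent.Lib_MP_b9fedf_sq.Defs2
import Pool.Agent.Lib_MP_b9fedf_sq.EntDom
import Pool.Agent.Lib_MP_b9fedf_sq.Der
import Pool.Agent.Lib_MP_b9fedf_sq.HomFac
import Pool.Agent.Lib_MP_b9fedf_sq.ClaimA

/-! A nondegenerate entire curve which is tangent to a moving hypersurface of a linear system:
the moving hypersurface is not reduced. -/

set_option autoImplicit false

namespace Pool.Agent.SQ
open MvPolynomial

section Cd

variable {K : Type} [Field K] {σ : Type}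

/-- apply a derivation to the coefficients of a polynomial -/
noncomputable def ndf_cd (D : Derivation ℤ K K) (g : MvPolynomial σ K) : MvPolynomial σ K :=
  ∑ s ∈ g.support, monomial s (D (g.coeff s))

theorem ndf_cd_coeff (D : Derivation ℤ K K) (g : MvPolynomial σ K) (s : σ →₀ ℕ) :
    (ndf_cd D g).coeff s = D (g.coeff s) := by
  classical
  rw [ndf_cd, coeff_sum]
  simp only [coeff_monomial]
  rw [Finset.sum_ite_eq']
  split_ifs with h
  · rfl
  · rw [notMem_support_iff.mp h, map_zero]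

theorem ndf_cd_mul (D : Derivation ℤ K K) (g h : MvPolynomial σ K) :
    ndf_cd D (g * h) = ndf_cd D g * h + g * ndf_cd D h := by
  classical
  ext s
  rw [ndf_cd_coeff, coeff_add, coeff_mul, coeff_mul, coeff_mul, map_sum, ← Finset.sum_add_distrib]
  refine Finset.sum_congr rfl (fun x _ => ?_)
  rw [D.leibniz, ndf_cd_coeff, ndf_cd_coeff, smul_eq_mul, smul_eq_mul]
  ring

theorem ndf_cd_add (D : Derivation ℤ K K) (g h : MvPolynomial σ K) :
    ndf_cd D (g + h) = ndf_cd D g + ndf_cd D h := by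
  ext s
  rw [ndf_cd_coeff, coeff_add, coeff_add, ndf_cd_coeff, ndf_cd_coeff, map_add]

theorem ndf_cd_sum (D : Derivation ℤ K K) {ι : Type} (s : Finset ι) (g : ι → MvPolynomial σ K) :
    ndf_cd D (∑ i ∈ s, g i) = ∑ i ∈ s, ndf_cd D (g i) := by
  classical
  ext m
  rw [ndf_cd_coeff, coeff_sum, coeff_sum, map_sum]
  exact Finset.sum_congr rfl (fun i _ => (ndf_cd_coeff D (g i) m).symm)

theorem ndf_cd_C (D : Derivation ℤ K K) (a : K) : ndf_cd D (C a : MvPolynomial σ K) = C (D a) := by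
  classical
  ext m
  rw [ndf_cd_coeff, coeff_C, coeff_C]
  split_ifs
  · rfl
  · rw [map_zero]

theorem ndf_cd_hom (D : Derivation ℤ K K) {g : MvPolynomial σ K} {d : ℕ} (hg : g.IsHomogeneous d) :
    (ndf_cd D g).IsHomogeneous d := by
  intro s hs
  apply hg
  intro h
  rw [ndf_cd_coeff, h, map_zero] at hs
  exact hs rfl

/-- the polynomials with `∂ π = c π` are multiples of polynomials with constant coefficients -/
theorem ndf_const_of_cd [Algebra ℂ K] (D : Derivation ℤ K K)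
    (hDc : ∀ x : K, D x = 0 → ∃ c : ℂ, x = algebraMap ℂ K c) (π : MvPolynomial σ K) (hπ : π ≠ 0)
    (c0 : K) (h : ndf_cd D π = C c0 * π) :
    ∃ (a : K) (π0 : MvPolynomial σ ℂ), a ≠ 0 ∧ C a * MvPolynomial.map (algebraMap ℂ K) π0 = π := by
  classical
  obtain ⟨s0, hs0⟩ := MvPolynomial.exists_coeff_ne_zero hπ
  have hD : ∀ s, D (π.coeff s) = c0 * π.coeff s := by
    intro s
    rw [← ndf_cd_coeff, h, coeff_C_mul]
  have hy : ∀ s, D (π.coeff s * (π.coeff s0)⁻¹) = 0 := by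
    intro s
    have h1 : π.coeff s = π.coeff s0 * (π.coeff s * (π.coeff s0)⁻¹) := by
      field_simp
    have h2 := hD s
    have h3 := congrArg D h1
    rw [D.leibniz, smul_eq_mul, smul_eq_mul, hD s0, h2] at h3
    have h4 : π.coeff s0 * D (π.coeff s * (π.coeff s0)⁻¹) = 0 := by
      have h5 : c0 * π.coeff s = π.coeff s * (π.coeff s0)⁻¹ * (c0 * π.coeff s0) := by
        field_simp
      rw [h5] at h3
      linear_combination -h3
    exact (mul_eq_zero.mp h4).resolve_left hs0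
  choose c hc using fun s => hDc _ (hy s)
  refine ⟨π.coeff s0, ∑ s ∈ π.support, monomial s (c s), hs0, ?_⟩
  ext s
  rw [coeff_C_mul, coeff_map, coeff_sum]
  simp only [coeff_monomial]
  rw [Finset.sum_ite_eq']
  split_ifs with h1
  · rw [← hc s]
    field_simp
  · rw [notMem_support_iff.mp h1, map_zero, mul_zero]

end Cd

/-- the algebraic core of the statement -/
theorem ndf_core {n : ℕ} {E Ω : Type} [Field E] [Field Ω] [Algebra E Ω] [Algebra ℂ E] (t : E)
    (ht : Transcendental ℂ t) (halg : ∀ x : E, IsAlgebraic (Algebra.adjoin ℂ {t}) x)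
    (f : Fin (n + 1) → Ω)
    (hnd : ∀ (d : ℕ) (Q : MvPolynomial (Fin (n + 1)) ℂ), Q.IsHomogeneous d →
      Q.eval₂ ((algebraMap E Ω).comp (algebraMap ℂ E)) f = 0 → Q = 0)
    (D : Derivation ℤ E E) (hDc : ∀ x : E, D x = 0 → ∃ c : ℂ, x = algebraMap ℂ E c)
    (Q : MvPolynomial (Fin (n + 1)) E) (hQ : Q ≠ 0) (e : ℕ) (hQh : Q.IsHomogeneous e)
    (hQf : aeval f Q = 0) (hQf' : aeval f (ndf_cd D Q) = 0) :
    ∃ H : MvPolynomial (Fin (n + 1)) E, ¬ IsUnit H ∧ H * H ∣ Q := by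
  by_contra hno
  push Not at hno
  -- an irreducible factor vanishing at `f`
  obtain ⟨S, hS, hSQ⟩ := WfDvdMonoid.exists_factors Q hQ
  have hmem : ∃ π ∈ S, aeval f π = 0 := by
    obtain ⟨u, hu⟩ := hSQ
    have h1 : aeval f S.prod * aeval f (u : MvPolynomial (Fin (n + 1)) E) = 0 := by
      rw [← map_mul, hu, hQf]
    have h2 : aeval f (u : MvPolynomial (Fin (n + 1)) E) ≠ 0 := by
      have h3 := (u.isUnit.map (aeval f : MvPolynomial (Fin (n + 1)) E →ₐ[E] Ω))
      exact h3.ne_zero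
    have h3 := (mul_eq_zero.mp h1).resolve_right h2
    rw [map_multiset_prod, Multiset.prod_eq_zero_iff, Multiset.mem_map] at h3
    exact h3
  obtain ⟨π, hπS, hπf⟩ := hmem
  have hπ : Irreducible π := hS π hπS
  have hπQ : π ∣ Q := (Multiset.dvd_prod hπS).trans hSQ.dvd
  obtain ⟨v, hv⟩ := hπQ
  have hQ0 : π * v ≠ 0 := hv ▸ hQ
  obtain ⟨dπ, dv, hdd, hπh, hvh⟩ := homogeneous_of_mul (hv ▸ hQh) hQ0
  have hπv : ¬ π ∣ v := by
    rintro ⟨w, hw⟩
    refine hno π hπ.not_isUnit ⟨w, ?_⟩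
    rw [hv, hw, mul_assoc]
  have hcl : π ∣ ndf_cd D Q := claimA t ht halg f hnd π (ndf_cd D Q) hπ dπ e hπh (ndf_cd_hom D hQh) hπf hQf'
  have hπ0 : π ≠ 0 := hπ.ne_zero
  have hπ' : π ∣ ndf_cd D π := by
    rw [hv, ndf_cd_mul] at hcl
    have h1 : π ∣ ndf_cd D π * v := (dvd_add_left (Dvd.intro _ rfl)).mp hcl
    exact (hπ.prime.dvd_or_dvd h1).resolve_right hπv
  obtain ⟨c, hc⟩ := hπ'
  have hcC : ∃ c0 : E, c = C c0 := by
    by_cases h0 : π * c = 0
    · exact ⟨0, by rw [(mul_eq_zero.mp h0).resolve_left hπ0, C_0]⟩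
    · obtain ⟨d1, d2, hd12, hd1, hd2⟩ := homogeneous_of_mul (hc ▸ ndf_cd_hom D hπh) h0
      have h1 : d1 = dπ := hd1.inj_right hπh hπ0
      have h2 : d2 = 0 := by omega
      rw [h2] at hd2
      refine ⟨c.coeff 0, ?_⟩
      have h5 : c.totalDegree = 0 := (MvPolynomial.totalDegree_zero_iff_isHomogeneous (p := c)).2 hd2
      exact totalDegree_eq_zero_iff_eq_C.mp h5
  obtain ⟨c0, rfl⟩ := hcC
  obtain ⟨a, π0, ha, hπa⟩ := ndf_const_of_cd D hDc π hπ0 c0 (by rw [hc, mul_comm])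
  have hπ0h : π0.IsHomogeneous dπ := by
    intro s hs
    apply hπh
    rw [← hπa, coeff_C_mul, coeff_map]
    exact mul_ne_zero ha (fun h => hs ((map_eq_zero _).mp h))
  have h3 : aeval f (MvPolynomial.map (algebraMap ℂ E) π0) = 0 := by
    rw [← hπa, map_mul, aeval_C] at hπf
    exact (mul_eq_zero.mp hπf).resolve_left (fun h => ha ((map_eq_zero _).mp h))
  have h4 : π0 = 0 := by
    apply hnd dπ π0 hπ0h
    rw [aeval_def, eval₂_map] at h3
    exact h3
  apply hπ0
  rw [← hπa, h4, map_zero, mul_zero]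

/-- the algebraic closure of the field generated by `τ` -/
theorem ndf_exists_closure {Ω : Type} [Field Ω] (τ : Polynomial ℂ →+* Ω) :
    ∃ E : Subfield Ω, ∀ x : Ω, x ∈ E ↔
      ∃ R : Polynomial (Polynomial ℂ), R ≠ 0 ∧ R.eval₂ τ x = 0 := by
  let _ : Algebra (Polynomial ℂ) Ω := τ.toAlgebra
  refine ⟨{ carrier := {x | IsAlgebraic (Polynomial ℂ) x}
            mul_mem' := fun ha hb => IsAlgebraic.mul ha hb
            one_mem' := isAlgebraic_one
            add_mem' := fun ha hb => IsAlgebraic.add ha hb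
            zero_mem' := isAlgebraic_zero
            neg_mem' := fun ha => IsAlgebraic.neg ha
            inv_mem' := fun x ha => IsAlgebraic.inv ha }, fun x => ?_⟩
  exact Iff.rfl

/-- a derivation maps the algebraic closure to itself -/
theorem ndf_der_mem {Ω : Type} [Field Ω] [CharZero Ω] (τ : Polynomial ℂ →+* Ω)
    (hτ : Function.Injective τ) (E : Subfield Ω) (hE : ∀ x : Ω, x ∈ E ↔
      ∃ R : Polynomial (Polynomial ℂ), R ≠ 0 ∧ R.eval₂ τ x = 0)
    (D : Derivation ℤ Ω Ω) (hD : ∀ r : Polynomial ℂ, D (τ r) ∈ E) (x : Ω) (hx : x ∈ E) :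
    D x ∈ E := by
  have hτE : ∀ r, τ r ∈ E := by
    intro r
    rw [hE]
    refine ⟨Polynomial.X - Polynomial.C r, Polynomial.X_sub_C_ne_zero r, ?_⟩
    rw [Polynomial.eval₂_sub, Polynomial.eval₂_X, Polynomial.eval₂_C, sub_self]
  have key : ∀ R : Polynomial (Polynomial ℂ), ∃ e ∈ E,
      D (R.eval₂ τ x) = e + (Polynomial.derivative R).eval₂ τ x * D x := by
    intro R
    induction R using Polynomial.induction_on' with
    | add p q hp hq =>
      obtain ⟨e1, he1, h1⟩ := hp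
      obtain ⟨e2, he2, h2⟩ := hq
      refine ⟨e1 + e2, E.add_mem he1 he2, ?_⟩
      rw [Polynomial.eval₂_add, map_add, h1, h2, Polynomial.derivative_add, Polynomial.eval₂_add]
      ring
    | monomial m r =>
      refine ⟨x ^ m * D (τ r), E.mul_mem (E.pow_mem hx m) (hD r), ?_⟩
      rw [Polynomial.eval₂_monomial, Polynomial.derivative_monomial, Polynomial.eval₂_monomial,
        D.leibniz, D.leibniz_pow, smul_eq_mul, smul_eq_mul, map_mul, map_natCast]
      simp only [smul_eq_mul, nsmul_eq_mul]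
      ring
  -- a polynomial of minimal degree
  obtain ⟨R0, hR0, hR0x⟩ := (hE x).mp hx
  have hex : ∃ m : ℕ, ∃ R : Polynomial (Polynomial ℂ), R ≠ 0 ∧ R.eval₂ τ x = 0 ∧
      R.natDegree = m := ⟨_, R0, hR0, hR0x, rfl⟩
  classical
  obtain ⟨R, hR, hRx, hRd⟩ := Nat.find_spec hex
  have hmin : ∀ R' : Polynomial (Polynomial ℂ), R' ≠ 0 → R'.eval₂ τ x = 0 →
      R.natDegree ≤ R'.natDegree := by
    intro R' h1 h2
    rw [hRd]
    exact Nat.find_min' hex ⟨R', h1, h2, rfl⟩
  have hpos : 0 < R.natDegree := by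
    rw [Nat.pos_iff_ne_zero]
    intro h0
    have h1 := Polynomial.eq_C_of_natDegree_eq_zero h0
    rw [h1, Polynomial.eval₂_C] at hRx
    have h2 : R.coeff 0 = 0 := hτ (by rw [hRx, map_zero])
    apply hR
    rw [h1, h2, Polynomial.C_0]
  have hR' : (Polynomial.derivative R).eval₂ τ x ≠ 0 := by
    intro h
    have h1 : Polynomial.derivative R ≠ 0 := by
      intro h2
      have h3 := Polynomial.derivative_eq_zero.mp h2
      omega
    have h2 := hmin _ h1 h
    have h3 := Polynomial.natDegree_derivative_lt (p := R) (by omega)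
    omega
  obtain ⟨e, he, hke⟩ := key R
  rw [hRx, map_zero] at hke
  have h1 : D x = -e / (Polynomial.derivative R).eval₂ τ x := by
    rw [eq_div_iff hR']
    linear_combination -hke
  rw [h1]
  refine E.div_mem (E.neg_mem he) ?_
  rw [Polynomial.eval₂_eq_sum, Polynomial.sum]
  exact E.sum_mem (fun i _ => E.mul_mem (hτE _) (E.pow_mem hx i))

theorem nd_forms {n m e : ℕ} (P : Fin (m + 1) → MvPolynomial (Fin (n + 1)) ℂ)
    (hP : ∀ i, (P i).IsHomogeneous e) (f : Fin (n + 1) → Ent)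
    (hnd : ∀ (d : ℕ) (Q : MvPolynomial (Fin (n + 1)) ℂ), Q.IsHomogeneous d → aeval f Q = 0 → Q = 0)
    (Ω : Type) [Field Ω] (ψ : Ent →+* Ω) (hψ : Function.Injective ψ)
    (halg : ∀ x : Ω, ∃ P : Polynomial Ent, P ≠ 0 ∧ P.eval₂ ψ x = 0) (t : Ω) (p : Fin (m + 1) → Ω)
    (ht : ∀ P : Polynomial ℂ, P ≠ 0 → P.eval₂ (ψ.comp (algebraMap ℂ Ent)) t ≠ 0)
    (hp : ∀ i, ∃ R : Polynomial (Polynomial ℂ), R ≠ 0 ∧ R.eval₂ (Polynomial.eval₂RingHom (ψ.comp (algebraMap ℂ Ent)) t) (p i) = 0)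
    (h1 : ∑ i, p i * ψ (aeval f (P i)) = 0) (h2 : ∑ i, p i * ψ (dE (aeval f (P i))) = 0)
    (hQ : ∑ i, C (p i) * MvPolynomial.map (ψ.comp (algebraMap ℂ Ent)) (P i) ≠ 0) :
    ∃ H : MvPolynomial (Fin (n + 1)) Ω, ¬ IsUnit H ∧ H * H ∣ ∑ i, C (p i) * MvPolynomial.map (ψ.comp (algebraMap ℂ Ent)) (P i) := by
  classical
  have : CharZero Ω := charZero_of_injective_ringHom hψ
  obtain ⟨D, hDψ, hDc⟩ := der_ext Ω ψ hψ halg
  have hκψ : ∀ c : ℂ, (ψ.comp (algebraMap ℂ Ent)) c = ψ (algebraMap ℂ Ent c) := fun c => rfl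
  generalize hκ : ψ.comp (algebraMap ℂ Ent) = κ at *
  have hDκ : ∀ c : ℂ, D (κ c) = 0 := by
    intro c
    rw [hκψ, hDψ, dE_algebraMap, map_zero]
  have hDt : D t ≠ 0 := by
    intro h
    obtain ⟨c, hc⟩ := hDc t h
    refine ht (Polynomial.X - Polynomial.C c) (Polynomial.X_sub_C_ne_zero c) ?_
    rw [Polynomial.eval₂_sub, Polynomial.eval₂_X, Polynomial.eval₂_C, hc, hκψ, sub_self]
  obtain ⟨D1, hD1⟩ : ∃ D1 : Derivation ℤ Ω Ω, ∀ x, D1 x = (D t)⁻¹ * D x :=
    ⟨(D t)⁻¹ • D, fun x => rfl⟩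
  have hD1κ : ∀ c : ℂ, D1 (κ c) = 0 := by
    intro c
    rw [hD1, hDκ, mul_zero]
  have hD1t : D1 t = 1 := by
    rw [hD1, inv_mul_cancel₀ hDt]
  have hD1c : ∀ x : Ω, D1 x = 0 → ∃ c : ℂ, x = κ c := by
    intro x hx
    rw [hD1] at hx
    obtain ⟨c, hc⟩ := hDc x ((mul_eq_zero.mp hx).resolve_left (inv_ne_zero hDt))
    exact ⟨c, by rw [hc, hκψ]⟩
  obtain ⟨τ, hτd⟩ : ∃ τ : Polynomial ℂ →+* Ω, τ = Polynomial.eval₂RingHom κ t := ⟨_, rfl⟩
  have hτ0 : ∀ P : Polynomial ℂ, τ P = P.eval₂ κ t := by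
    intro P
    rw [hτd]
    rfl
  have hτ : Function.Injective τ := by
    rw [injective_iff_map_eq_zero]
    intro P hP0
    by_contra h
    rw [hτ0] at hP0
    exact ht P h hP0
  rw [← hτd] at hp
  obtain ⟨E, hE⟩ := ndf_exists_closure τ
  have hτE : ∀ r, τ r ∈ E := by
    intro r
    rw [hE]
    refine ⟨Polynomial.X - Polynomial.C r, Polynomial.X_sub_C_ne_zero r, ?_⟩
    rw [Polynomial.eval₂_sub, Polynomial.eval₂_X, Polynomial.eval₂_C, sub_self]
  have hκE : ∀ c : ℂ, κ c ∈ E := by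
    intro c
    have h3 := hτE (Polynomial.C c)
    rwa [hτ0, Polynomial.eval₂_C] at h3
  have htE : t ∈ E := by
    have h3 := hτE Polynomial.X
    rwa [hτ0, Polynomial.eval₂_X] at h3
  have hD1τ : ∀ r : Polynomial ℂ, D1 (τ r) = τ (Polynomial.derivative r) := by
    intro r
    induction r using Polynomial.induction_on' with
    | add p q hp hq => rw [map_add, map_add, hp, hq, Polynomial.derivative_add, map_add]
    | monomial m r =>
      rw [hτ0, hτ0, Polynomial.eval₂_monomial, Polynomial.derivative_monomial,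
        Polynomial.eval₂_monomial, D1.leibniz, D1.leibniz_pow, hD1t, hD1κ, map_mul, map_natCast]
      simp only [smul_eq_mul, nsmul_eq_mul]
      ring
  have hD1E : ∀ x ∈ E, D1 x ∈ E := fun x hx =>
    ndf_der_mem τ hτ E hE D1 (fun r => by rw [hD1τ]; exact hτE _) x hx
  obtain ⟨DE, hDE⟩ : ∃ DE : Derivation ℤ E E, ∀ x : E, ((DE x : E) : Ω) = D1 x :=
    ⟨Derivation.mk' (AddMonoidHom.toIntLinearMap
      { toFun := fun x => (⟨D1 x, hD1E x x.2⟩ : E)
        map_zero' := Subtype.ext (map_zero D1)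
        map_add' := fun a b => Subtype.ext (map_add D1 (a : Ω) (b : Ω)) })
      (fun a b => Subtype.ext (D1.leibniz (a : Ω) (b : Ω))), fun x => rfl⟩
  let _ : Algebra ℂ E := (κ.codRestrict E hκE).toAlgebra
  have hac : ∀ c : ℂ, ((algebraMap ℂ E c : E) : Ω) = κ c := fun c => rfl
  have hcomp : (algebraMap E Ω).comp (algebraMap ℂ E) = κ := RingHom.ext hac
  obtain ⟨pE, hpE⟩ : ∃ pE : Fin (m + 1) → E, ∀ i, ((pE i : E) : Ω) = p i :=
    ⟨fun i => ⟨p i, (hE _).mpr (hp i)⟩, fun i => rfl⟩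
  obtain ⟨tE, htE'⟩ : ∃ tE : E, (tE : Ω) = t := ⟨⟨t, htE⟩, rfl⟩
  have haeval : ∀ P : Polynomial ℂ, ((Polynomial.aeval tE P : E) : Ω) = τ P := by
    intro P
    have h3 : algebraMap E Ω (Polynomial.aeval tE P) = P.eval₂ κ t := by
      rw [Polynomial.aeval_def, Polynomial.hom_eval₂, hcomp]
      rw [← htE']
      rfl
    rw [hτ0, ← h3]
    rfl
  have htr : Transcendental ℂ tE := by
    rw [transcendental_iff]
    intro P hP0
    by_contra h
    apply h
    apply hτ
    rw [← haeval, hP0, map_zero]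
    rfl
  have halgE : ∀ x : E, IsAlgebraic (Algebra.adjoin ℂ {tE}) x := by
    intro x
    obtain ⟨R, hR, hRx⟩ := (hE x).mp x.2
    obtain ⟨φ, hφ⟩ : ∃ φ : Polynomial ℂ →ₐ[ℂ] Algebra.adjoin ℂ {tE},
        φ = Polynomial.aeval ⟨tE, Algebra.subset_adjoin (Set.mem_singleton tE)⟩ := ⟨_, rfl⟩
    have hφ1 : ∀ P : Polynomial ℂ, algebraMap (Algebra.adjoin ℂ {tE}) E (φ P) =
        Polynomial.aeval tE P := by
      intro P
      rw [hφ, ← Polynomial.aeval_algebraMap_apply]
      rfl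
    have hφi : Function.Injective φ := by
      rw [injective_iff_map_eq_zero]
      intro P hP0
      have h3 := hφ1 P
      rw [hP0, map_zero] at h3
      by_contra h
      exact h ((transcendental_iff.mp htr) P h3.symm)
    refine ⟨R.map φ.toRingHom, (Polynomial.map_ne_zero_iff hφi).mpr hR, ?_⟩
    rw [Polynomial.aeval_def, Polynomial.eval₂_map]
    apply (algebraMap E Ω).injective
    rw [Polynomial.hom_eval₂, map_zero, ← hRx]
    have h3 : (algebraMap E Ω).comp ((algebraMap (Algebra.adjoin ℂ {tE}) E).comp φ.toRingHom) = τ := by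
      apply RingHom.ext
      intro P
      rw [← haeval, ← hφ1]
      rfl
    rw [h3]
    rfl
  have hmap : MvPolynomial.map (algebraMap E Ω)
      (∑ i, C (pE i) * MvPolynomial.map (algebraMap ℂ E) (P i)) =
      ∑ i, C (p i) * MvPolynomial.map κ (P i) := by
    rw [map_sum]
    refine Finset.sum_congr rfl (fun i _ => ?_)
    rw [map_mul, map_C, MvPolynomial.map_map, hcomp, ← hpE i]
    rfl
  have hev : ∀ i, aeval (fun i => ψ (f i)) (MvPolynomial.map (algebraMap ℂ E) (P i)) =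
      ψ (aeval f (P i)) := by
    intro i
    rw [aeval_def, eval₂_map, hcomp, aeval_def, hom_eval₂, hκ]
  have hcdm : ∀ i, ndf_cd DE (MvPolynomial.map (algebraMap ℂ E) (P i)) = 0 := by
    intro i
    ext s
    rw [ndf_cd_coeff, coeff_map, coeff_zero, ZeroMemClass.coe_zero, hDE, hac, hD1κ]
  have hd0 : ∑ i, D (p i) * ψ (aeval f (P i)) = 0 := by
    have h3 := congrArg D h1
    rw [map_sum, map_zero] at h3
    have h4 : ∀ i, D (p i * ψ (aeval f (P i))) =
        D (p i) * ψ (aeval f (P i)) + p i * ψ (dE (aeval f (P i))) := by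
      intro i
      rw [D.leibniz, hDψ, smul_eq_mul, smul_eq_mul]
      ring
    simp only [h4] at h3
    rw [Finset.sum_add_distrib, h2, add_zero] at h3
    exact h3
  obtain ⟨H, hH, hHQ⟩ := ndf_core (Ω := Ω) tE htr halgE (fun i => ψ (f i)) (by
      intro d Q hQ hQ0
      apply hnd d Q hQ
      apply hψ
      rw [hcomp] at hQ0
      rw [map_zero, ← hQ0, aeval_def, hom_eval₂, hκ]) DE (by
      intro x hx
      obtain ⟨c, hc⟩ := hD1c x (by rw [← hDE, hx]; rfl)
      exact ⟨c, Subtype.ext hc⟩)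
    (∑ i, C (pE i) * MvPolynomial.map (algebraMap ℂ E) (P i)) (by
      intro h
      rw [h, map_zero] at hmap
      exact hQ hmap.symm) e (by
      apply IsHomogeneous.sum
      intro i _
      have h3 := (isHomogeneous_C (Fin (n + 1)) (pE i)).mul ((hP i).map (algebraMap ℂ E))
      rwa [zero_add] at h3) (by
      rw [map_sum, ← h1]
      refine Finset.sum_congr rfl (fun i _ => ?_)
      rw [map_mul, hev, aeval_C, ← hpE i]
      rfl) (by
      rw [ndf_cd_sum, map_sum, ← mul_zero ((D t)⁻¹), ← hd0, Finset.mul_sum]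
      refine Finset.sum_congr rfl (fun i _ => ?_)
      rw [ndf_cd_mul, hcdm, mul_zero, add_zero, ndf_cd_C, map_mul, hev, aeval_C, ← mul_assoc, ← hD1,
        ← hpE i, ← hDE]
      rfl)
  refine ⟨MvPolynomial.map (algebraMap E Ω) H, fun hu => hH ?_, ?_⟩
  · obtain ⟨r, hr, hHr⟩ := isUnit_iff_eq_C_of_isReduced.mp hu
    have h3 : H = C (H.coeff 0) := by
      ext s
      rw [coeff_C]
      split_ifs with hs
      · rw [hs]
      · have h4 : algebraMap E Ω (H.coeff s) = 0 := by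
          rw [← coeff_map, hHr, coeff_C, if_neg hs]
        rw [(map_eq_zero _).mp h4]
    have h4 : H.coeff 0 ≠ 0 := by
      intro h5
      rw [h3, h5, C_0, map_zero] at hHr
      have h6 : r = 0 := (C_eq_zero.mp hHr.symm)
      exact hr.ne_zero h6
    rw [h3]
    exact (isUnit_iff_ne_zero.mpr h4).map C
  · rw [← hmap, ← map_mul]
    exact map_dvd _ hHQ

end Pool.Agent.SQ
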