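import Pool.Agent.Lib_MP_b9fedf_ag.TanKey

/-! The auxiliary function `Φ` for a general interpolation package. -/

set_option autoImplicit false

namespace Pool.Agent.SQ
open Filter Metric Real Set Function MeromorphicOn ValueDistribution
open Pool.Agent.GGL

theorem exists_phi' {m s N : ℕ} (q : Fin N → Fin (m + 1) → ℂ)
    (Y : Set (Fin (m + 1) → ℂ)) (L : Fin N → (Fin (m + 1) → ℂ) → ℂ)
    (K : Submodule ℂ (Fin N → ℂ)) (hfin : Module.finrank ℂ ((Fin N → ℂ) ⧸ K) = s)
    (hK1 : ∀ γ ∈ K, ∀ h h' : Fin (m + 1) → ℂ, ∀ y ∈ Y,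
      ∑ i, γ i * (L i y * wd h h' y (q i)) = 0)
    (hK2 : ∀ h : Fin (m + 1) → ℂ, h ≠ 0 → ∀ γ ∈ K,
      (∀ i, ∑ a, q i a * h a ≠ 0 → γ i = 0) → γ = 0)
    (g : Fin (m + 1) → ℂ → ℂ) (hg : ∀ k, Differentiable ℂ (g k)) (z0 : ℂ)
    (hK3 : ∀ γ : Fin N → ℂ, (∀ y ∈ Y, ∑ i, γ i *
      (L i y * wd (fun a => g a z0) (fun a => deriv (g a) z0) y (q i)) = 0) → γ ∈ K) :
    ∃ (Φ : ℂ → ℂ) (C : ℝ), 0 < C ∧ Differentiable ℂ Φ ∧ (∃ z, Φ z ≠ 0) ∧
      (∀ z, ‖Φ z‖ ≤ C * (‖fun ab : Fin (m + 1) × Fin (m + 1) =>
        g ab.1 z * deriv (g ab.2) z - g ab.2 z * deriv (g ab.1) z‖) ^ s) ∧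
      ∀ (z : ℂ) (c : ℕ), (∀ a, (c : ℕ∞) ≤ analyticOrderAt (g a) z) →
        (∃ a, analyticOrderAt (g a) z = c) →
        ∀ o : Fin N → ℕ, (∀ i, analyticOrderAt (fun ζ => ∑ a, q i a * g a ζ) z = o i) →
          ((2 * s * c + ∑ i, (o i - c - 1) : ℕ) : ℕ∞) ≤
            analyticOrderAt Φ z := by
  classical
  let b : Module.Basis (Fin s) ℂ ((Fin N → ℂ) ⧸ K) := Module.finBasisOfFinrankEq ℂ _ hfin
  choose γ hγ using fun l => Submodule.mkQ_surjective K (b l)
  have hgd : ∀ a, Differentiable ℂ (deriv (g a)) := fun a => (hg a).deriv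
  -- the wedge as a function of `z`
  set w : (Fin (m + 1) → ℂ) → (Fin (m + 1) → ℂ) → ℂ → ℂ := fun y p ζ =>
    wd (fun a => g a ζ) (fun a => deriv (g a) ζ) y p with hw
  have hwd : ∀ y p, Differentiable ℂ (w y p) := by
    intro y p
    simp only [hw, wd]
    exact ((Differentiable.fun_sum fun a _ => (hgd a).const_mul (p a)).mul
      (Differentiable.fun_sum fun a _ => (hg a).const_mul (y a))).sub
      ((Differentiable.fun_sum fun a _ => (hg a).const_mul (p a)).mul
      (Differentiable.fun_sum fun a _ => (hgd a).const_mul (y a)))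
  -- the points `y k`
  obtain ⟨y, hy⟩ := exists_points (X := Y) (fun (y : Y) (l : Fin s) =>
      ∑ i, γ l i * (L i y * w y (q i) z0)) (by
    intro c hc
    have h1 : (∑ l, c l • γ l) ∈ K := by
      apply hK3
      intro y hy
      rw [← hc ⟨y, hy⟩]
      simp only [Finset.sum_apply, Pi.smul_apply, smul_eq_mul, Finset.sum_mul, Finset.mul_sum]
      rw [Finset.sum_comm]
      apply Finset.sum_congr rfl
      intro l _
      apply Finset.sum_congr rfl
      intro i _
      simp only [hw]
      ring
    have h2 : ∑ l, c l • b l = 0 := by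
      rw [← (Submodule.Quotient.mk_eq_zero K).mpr h1]
      rw [← Submodule.mkQ_apply, map_sum]
      apply Finset.sum_congr rfl
      intro l _
      rw [map_smul, hγ]
    have h3 := (Fintype.linearIndependent_iff.mp b.linearIndependent) c h2
    exact funext h3)
  set A : Fin s → Fin s → ℂ → ℂ := fun k l ζ =>
    ∑ i, γ l i * (L i (y k) * w (y k) (q i) ζ) with hA
  have hAd : ∀ k l, Differentiable ℂ (A k l) := fun k l =>
    Differentiable.fun_sum fun i _ => ((hwd (y k) (q i)).const_mul _).const_mul _
  set Φ : ℂ → ℂ := fun ζ => (Matrix.of fun k l => A k l ζ).det with hΦ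
  have hΦd : Differentiable ℂ Φ := by
    have h1 : Φ = fun ζ => ∑ σ : Equiv.Perm (Fin s), Equiv.Perm.sign σ •
        ∏ i, A (σ i) i ζ := by
      ext ζ
      simp only [hΦ]
      rw [Matrix.det_apply]
      simp only [Matrix.of_apply]
    rw [h1]
    apply Differentiable.fun_sum
    intro σ _
    apply Differentiable.const_smul
    exact Differentiable.fun_finsetProd fun i _ => hAd _ _
  -- the bound
  obtain ⟨C, hC0, hC⟩ := det_bound A (fun z => ‖fun ab : Fin (m + 1) × Fin (m + 1) =>
        g ab.1 z * deriv (g ab.2) z - g ab.2 z * deriv (g ab.1) z‖) (fun z => norm_nonneg _) (by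
    intro k l
    obtain ⟨M, hM0, hM⟩ := entry_bound g (y k) q (fun i => γ l i * L i (y k))
    refine ⟨M, hM0, fun z => ?_⟩
    refine le_trans (le_of_eq ?_) (hM z)
    congr 1
    apply Finset.sum_congr rfl
    intro i _
    rw [mul_assoc])
  refine ⟨Φ, C, hC0, hΦd, ⟨z0, hy⟩, hC, ?_⟩
  · intro z c hc hc' o ho
    obtain ⟨h, hh0, hh⟩ := reduced_value g z (fun a => (hg a).analyticAt z) c hc hc'
    set I : Type := {i : Fin N // c < o i} with hI
    let u : I → Fin s → ℂ := fun i l => b.repr (K.mkQ (Pi.single i.1 1)) l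
    have hu : LinearIndependent ℂ u := by
      rw [Fintype.linearIndependent_iff]
      intro lam hlam
      set γ' : Fin N → ℂ := ∑ i : I, lam i • (Pi.single i.1 (1 : ℂ)) with hγ'
      have h1 : K.mkQ γ' = 0 := by
        apply b.repr.injective
        rw [map_zero, hγ', map_sum, map_sum]
        ext l
        rw [Finsupp.finsetSum_apply]
        have h2 := congrFun hlam l
        rw [Finset.sum_apply] at h2
        rw [Finsupp.zero_apply, ← show (∑ i : I, (lam i • u i) l) = 0 from h2]
        apply Finset.sum_congr rfl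
        intro i _
        rw [map_smul, map_smul]
        rfl
      have h2 : γ' ∈ K := by
        rw [Submodule.mkQ_apply] at h1
        exact (Submodule.Quotient.mk_eq_zero K).mp h1
      have h3 : γ' = 0 := by
        apply hK2 h hh0 γ' h2
        intro i hi
        have h4 := hh (q i) hi
        rw [ho i] at h4
        have h5 : o i = c := by exact_mod_cast h4
        rw [hγ', Finset.sum_apply]
        apply Finset.sum_eq_zero
        intro j _
        rw [Pi.smul_apply, Pi.single_apply, if_neg, smul_zero]
        intro h6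
        have := j.2
        rw [← h6, h5] at this
        omega
      intro i
      have h4 := congrFun h3 i.1
      rw [hγ', Finset.sum_apply, Finset.sum_eq_single i] at h4
      · simpa using h4
      · intro j _ hj
        rw [Pi.smul_apply, Pi.single_apply, if_neg, smul_zero]
        intro h6
        exact hj (Subtype.ext h6.symm)
      · intro h6
        exact absurd (Finset.mem_univ _) h6
    have hworder : ∀ (y p : Fin (m + 1) → ℂ) (o' : ℕ),
        (o' : ℕ∞) ≤ analyticOrderAt (fun ζ => ∑ a, p a * g a ζ) z →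
        ((2 * c + (o' - c - 1) : ℕ) : ℕ∞) ≤ analyticOrderAt (w y p) z := fun y p o' ho' =>
      order_wd g z (fun a => (hg a).analyticAt z) c hc p y o' ho'
    have h1 := order_det (s := s) (ι := I) A z (fun k l => (hAd k l).analyticAt z) (2 * c) (by
      intro k l
      simp only [hA]
      have h2 := order_linear (fun i => γ l i * L i (y k)) (fun i ζ => w (y k) (q i) ζ) z
        (fun i => (hwd _ _).analyticAt z) (2 * c) (fun i => by
          have h3 := hworder (y k) (q i) 0 (by simp)
          have h4 : 2 * c + (0 - c - 1) = 2 * c := by omega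
          rw [h4] at h3
          exact h3)
      refine h2.trans (le_of_eq ?_)
      congr 1
      funext ζ
      apply Finset.sum_congr rfl
      intro i _
      ring) u hu (fun i => o i.1 - c - 1) (by
      intro i k
      have h2 : (∑ l, u i l • γ l) - Pi.single i.1 (1 : ℂ) ∈ K := by
        rw [← Submodule.Quotient.mk_eq_zero K, ← Submodule.mkQ_apply, map_sub, map_sum, sub_eq_zero]
        have h3 := b.sum_repr (K.mkQ (Pi.single i.1 1))
        rw [← h3]
        apply Finset.sum_congr rfl
        intro l _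
        rw [map_smul, hγ]
      have h3 : (fun ζ => ∑ l, u i l * A k l ζ) =
          fun ζ => (L i.1 (y k)) * w (y k) (q i.1) ζ := by
        funext ζ
        have h4 := hK1 _ h2 (fun a => g a ζ) (fun a => deriv (g a) ζ) (y k) (y k).2
        simp only [Pi.sub_apply, sub_mul, Finset.sum_sub_distrib] at h4
        rw [sub_eq_zero] at h4
        have h5 : ∑ x, (Pi.single i.1 (1 : ℂ) : Fin N → ℂ) x *
            (L x (y k) * wd (fun a => g a ζ) (fun a => deriv (g a) ζ) (y k) (q x)) =
            L i.1 (y k) * w (y k) (q i.1) ζ := by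
          rw [Finset.sum_eq_single i.1]
          · rw [Pi.single_eq_same, one_mul]
          · intro j _ hj
            rw [Pi.single_apply, if_neg hj, zero_mul]
          · intro h6
            exact absurd (Finset.mem_univ _) h6
        rw [h5] at h4
        rw [← h4]
        simp only [hA, Finset.sum_apply, Pi.smul_apply, smul_eq_mul, Finset.mul_sum,
          Finset.sum_mul]
        rw [Finset.sum_comm]
        apply Finset.sum_congr rfl
        intro l _
        apply Finset.sum_congr rfl
        intro j _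
        simp only [hw]
        ring
      rw [h3]
      have h4 := hworder (y k) (q i.1) (o i.1) (ho i.1).ge
      have h5 := order_linear (fun _ : Fin 1 => L i.1 (y k)) (fun _ => w (y k) (q i.1)) z
          (fun _ => (hwd _ _).analyticAt z) (2 * c + (o i.1 - c - 1)) (fun _ => h4)
      simpa using h5)
    refine le_trans ?_ h1
    have h2 : ∑ i, (o i - c - 1) = ∑ i : I, (o i.1 - c - 1) := by
      have e1 : ∑ i : I, (o i.1 - c - 1) = ∑ i with c < o i, (o i - c - 1) :=
        (Finset.sum_subtype (Finset.univ.filter fun i => c < o i) (by simp)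
          (fun i => o i - c - 1)).symm
      rw [e1, Finset.sum_filter]
      apply Finset.sum_congr rfl
      intro i _
      split_ifs with h
      · rfl
      · omega
    rw [h2]
    have h3 : 2 * s * c = s * (2 * c) := by ring
    rw [h3]

end Pool.Agent.SQ
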