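import Mathlib
import Pool.Agent.Lib_MP_b9fedf_sq.Defs

/-! Piece REFINE: a large subset which is irreducible up to degree `D`. -/

set_option autoImplicit false

namespace Pool.Agent.SQ
open MvPolynomial

/-- the forms of degree `d` vanishing on `A` -/
private noncomputable def vanSub {τ : Type} (d : ℕ) (A : Set (τ → ℂ)) :
    Submodule ℂ (MvPolynomial τ ℂ) where
  carrier := {g | g.IsHomogeneous d ∧ Van A g}
  add_mem' := by
    rintro a b ⟨ha, ha'⟩ ⟨hb, hb'⟩
    refine ⟨ha.add hb, fun x hx => ?_⟩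
    rw [map_add, ha' x hx, hb' x hx, add_zero]
  zero_mem' := ⟨isHomogeneous_zero _ _ _, fun x _ => map_zero _⟩
  smul_mem' := by
    rintro c g ⟨hg, hg'⟩
    refine ⟨(homogeneousSubmodule τ ℂ d).smul_mem c hg, fun x hx => ?_⟩
    rw [smul_eval, hg' x hx, mul_zero]

private theorem vanSub_le {τ : Type} (d : ℕ) (A : Set (τ → ℂ)) :
    vanSub d A ≤ homogeneousSubmodule τ ℂ d := fun _ hg => hg.1

private theorem vanSub_anti {τ : Type} (d : ℕ) {A A' : Set (τ → ℂ)} (h : A' ⊆ A) :
    vanSub d A ≤ vanSub d A' := fun _ hg => ⟨hg.1, fun x hx => hg.2 x (h hx)⟩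

private theorem homFin {τ : Type} [Fintype τ] (d : ℕ) :
    FiniteDimensional ℂ (homogeneousSubmodule τ ℂ d) :=
  Module.Finite.iff_fg.2 (homogeneousSubmodule_fg τ ℂ d)

private theorem vanFin {τ : Type} [Fintype τ] (d : ℕ) (A : Set (τ → ℂ)) :
    FiniteDimensional ℂ (vanSub d A) := by
  have := homFin (τ := τ) d
  exact Submodule.finiteDimensional_of_le (vanSub_le d A)

/-- the number of vanishing conditions -/
private noncomputable def cnt {τ : Type} [Fintype τ] (D : ℕ) (A : Set (τ → ℂ)) : ℕ :=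
  ∑ d ∈ Finset.range (D + 1), Module.finrank ℂ (vanSub d A)

private theorem cnt_le {τ : Type} [Fintype τ] (D : ℕ) (A : Set (τ → ℂ)) :
    cnt D A ≤ ∑ d ∈ Finset.range (D + 1), Module.finrank ℂ (homogeneousSubmodule τ ℂ d) := by
  refine Finset.sum_le_sum fun d _ => ?_
  have := homFin (τ := τ) d
  exact Submodule.finrank_mono (vanSub_le d A)

private theorem cnt_lt {τ : Type} [Fintype τ] {D d : ℕ} (hd : d ≤ D) {A A' : Set (τ → ℂ)}
    (h : A' ⊆ A) {g : MvPolynomial τ ℂ} (hg : g.IsHomogeneous d) (h1 : ¬ Van A g)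
    (h2 : Van A' g) : cnt D A < cnt D A' := by
  refine Finset.sum_lt_sum (fun d' _ => ?_) ⟨d, Finset.mem_range.2 (by omega), ?_⟩
  · have := vanFin d' A'
    exact Submodule.finrank_mono (vanSub_anti d' h)
  · have := vanFin d A'
    refine Submodule.finrank_lt_finrank_of_lt (lt_of_le_of_ne (vanSub_anti d h) fun he => ?_)
    have h3 : g ∈ vanSub d A' := ⟨hg, h2⟩
    rw [← he] at h3
    exact h1 h3.2

private theorem refine_step {τ : Type} [Fintype τ] (D : ℕ) (A : Finset (τ → ℂ))
    (hA : ¬ Irr D (A : Set (τ → ℂ))) :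
    ∃ A' ⊆ A, A.card ≤ 2 * A'.card ∧ cnt D (A : Set (τ → ℂ)) < cnt D (A' : Set (τ → ℂ)) := by
  classical
  unfold Irr at hA
  push Not at hA
  obtain ⟨d, d', g, g', hg, hg', hD, hv, h1, h2⟩ := hA
  have hun : A.card ≤ (A.filter fun a => eval a g = 0).card +
      (A.filter fun a => eval a g' = 0).card := by
    rw [← Finset.card_union_add_card_inter]
    refine le_trans (Finset.card_le_card fun a ha => ?_) (Nat.le_add_right _ _)
    have h3 := hv a ha
    rw [map_mul, mul_eq_zero] at h3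
    rcases h3 with h3 | h3
    · exact Finset.mem_union_left _ (Finset.mem_filter.2 ⟨ha, h3⟩)
    · exact Finset.mem_union_right _ (Finset.mem_filter.2 ⟨ha, h3⟩)
  rcases le_total (A.filter fun a => eval a g = 0).card
    (A.filter fun a => eval a g' = 0).card with hle | hle
  · refine ⟨A.filter fun a => eval a g' = 0, Finset.filter_subset _ _, by omega, ?_⟩
    refine cnt_lt (by omega) (Finset.coe_subset.2 (Finset.filter_subset _ _)) hg' h2 ?_
    intro a ha
    exact (Finset.mem_filter.1 (Finset.mem_coe.1 ha)).2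
  · refine ⟨A.filter fun a => eval a g = 0, Finset.filter_subset _ _, by omega, ?_⟩
    refine cnt_lt (by omega) (Finset.coe_subset.2 (Finset.filter_subset _ _)) hg h1 ?_
    intro a ha
    exact (Finset.mem_filter.1 (Finset.mem_coe.1 ha)).2

/-- PIECE REFINE -/
theorem refine_irr {τ : Type} [Fintype τ] (D : ℕ) : ∃ B : ℕ, ∀ A : Finset (τ → ℂ),
    ∃ A' ⊆ A, A.card ≤ B * A'.card ∧ Irr D (A' : Set (τ → ℂ)) := by
  have key : ∀ n : ℕ, ∀ A : Finset (τ → ℂ),
      ∑ d ∈ Finset.range (D + 1), Module.finrank ℂ (homogeneousSubmodule τ ℂ d) ≤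
        n + cnt D (A : Set (τ → ℂ)) →
      ∃ A' ⊆ A, A.card ≤ 2 ^ n * A'.card ∧ Irr D (A' : Set (τ → ℂ)) := by
    intro n
    induction n with
    | zero =>
      intro A hA
      by_cases hI : Irr D (A : Set (τ → ℂ))
      · exact ⟨A, subset_rfl, by simp, hI⟩
      · obtain ⟨A', _, _, h3⟩ := refine_step D A hI
        have h4 := cnt_le D (A' : Set (τ → ℂ))
        omega
    | succ n ih =>
      intro A hA
      by_cases hI : Irr D (A : Set (τ → ℂ))
      · refine ⟨A, subset_rfl, ?_, hI⟩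
        exact Nat.le_mul_of_pos_left _ (by positivity)
      · obtain ⟨A₁, h1, h2, h3⟩ := refine_step D A hI
        obtain ⟨A', h4, h5, h6⟩ := ih A₁ (by omega)
        refine ⟨A', h4.trans h1, ?_, h6⟩
        calc A.card ≤ 2 * A₁.card := h2
          _ ≤ 2 * (2 ^ n * A'.card) := Nat.mul_le_mul_left _ h5
          _ = 2 ^ (n + 1) * A'.card := by ring
  refine ⟨2 ^ ∑ d ∈ Finset.range (D + 1), Module.finrank ℂ (homogeneousSubmodule τ ℂ d),
    fun A => key _ A (Nat.le_add_right _ _)⟩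

end Pool.Agent.SQ
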