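import Pool.Agent.Lib_MP_b9fedf_sq.Elim

/-! Elimination of one variable: a form vanishing on the point set lowers the dimension. -/

set_option autoImplicit false

namespace Pool.Agent.SQ
open MvPolynomial

/-- coefficients of a form of degree `n` -/
private def BHst (k n : ℕ) (P : Polynomial (Pp k)) : Prop :=
  ∀ i, (P.coeff i).IsHomogeneous (n - i) ∧ (n < i → P.coeff i = 0)

private theorem bhst_add {k n : ℕ} {P Q : Polynomial (Pp k)} (hP : BHst k n P) (hQ : BHst k n Q) :
    BHst k n (P + Q) := by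
  intro i
  rw [Polynomial.coeff_add]
  refine ⟨(hP i).1.add (hQ i).1, fun h => ?_⟩
  rw [(hP i).2 h, (hQ i).2 h, add_zero]

private theorem bhst_zero {k n : ℕ} : BHst k n 0 := by
  intro i
  rw [Polynomial.coeff_zero]
  exact ⟨isHomogeneous_zero _ _ _, fun _ => rfl⟩

private theorem bhst_sum {k n : ℕ} {ι : Type} (S : Finset ι) (f : ι → Polynomial (Pp k))
    (h : ∀ i ∈ S, BHst k n (f i)) : BHst k n (∑ i ∈ S, f i) := by
  classical
  induction S using Finset.induction_on with
  | empty => rw [Finset.sum_empty]; exact bhst_zero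
  | insert a S ha ih =>
    rw [Finset.sum_insert ha]
    exact bhst_add (h a (Finset.mem_insert_self _ _))
      (ih fun i hi => h i (Finset.mem_insert_of_mem hi))

private theorem bhst_mul {k n m : ℕ} {P Q : Polynomial (Pp k)} (hP : BHst k n P)
    (hQ : BHst k m Q) : BHst k (n + m) (P * Q) := by
  intro i
  rw [Polynomial.coeff_mul]
  constructor
  · refine IsHomogeneous.sum _ _ _ fun x hx => ?_
    have hx' := Finset.HasAntidiagonal.mem_antidiagonal.mp hx
    by_cases h1 : n < x.1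
    · rw [(hP x.1).2 h1, zero_mul]; exact isHomogeneous_zero _ _ _
    by_cases h2 : m < x.2
    · rw [(hQ x.2).2 h2, mul_zero]; exact isHomogeneous_zero _ _ _
    have h3 := (hP x.1).1.mul (hQ x.2).1
    rwa [show n - x.1 + (m - x.2) = n + m - i by omega] at h3
  · intro hi
    refine Finset.sum_eq_zero fun x hx => ?_
    have hx' := Finset.HasAntidiagonal.mem_antidiagonal.mp hx
    by_cases h1 : n < x.1
    · rw [(hP x.1).2 h1, zero_mul]
    · rw [(hQ x.2).2 (by omega), mul_zero]

private theorem bhst_C {k : ℕ} (c : ℂ) : BHst k 0 (Polynomial.C (C c)) := by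
  intro i
  rw [Polynomial.coeff_C]
  split_ifs with h
  · rw [h]
    exact ⟨isHomogeneous_C _ _, fun h' => absurd h' (lt_irrefl _)⟩
  · exact ⟨isHomogeneous_zero _ _ _, fun _ => rfl⟩

private theorem bhst_pow {k : ℕ} {P : Polynomial (Pp k)} (hP : BHst k 1 P) (n : ℕ) :
    BHst k n (P ^ n) := by
  induction n with
  | zero =>
    rw [pow_zero]
    have := bhst_C (k := k) 1
    rwa [map_one, map_one] at this
  | succ n ih => rw [pow_succ]; exact bhst_mul ih hP

private theorem bhst_prod {k : ℕ} {ι : Type} (S : Finset ι) (f : ι → Polynomial (Pp k))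
    (h : ∀ i, BHst k 1 (f i)) (s : ι → ℕ) : BHst k (∑ i ∈ S, s i) (∏ i ∈ S, f i ^ s i) := by
  classical
  induction S using Finset.induction_on with
  | empty =>
    rw [Finset.sum_empty, Finset.prod_empty]
    have := bhst_C (k := k) 1
    rwa [map_one, map_one] at this
  | insert a S ha ih =>
    rw [Finset.sum_insert ha, Finset.prod_insert ha]
    exact bhst_mul (bhst_pow (h a) _) ih

private theorem bhst_aeval {k n d : ℕ} (f : Fin n → Polynomial (Pp k)) (h : ∀ i, BHst k 1 (f i))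
    {p : MvPolynomial (Fin n) ℂ} (hp : p.IsHomogeneous d) : BHst k d (aeval f p) := by
  rw [aeval_def, eval₂_eq']
  refine bhst_sum _ _ fun s hs => ?_
  have h1 : ∑ i, s i = d := by
    have h2 := hp (mem_support_iff.mp hs)
    rw [← h2, Finsupp.weight_apply, Finsupp.sum_fintype]
    · simp
    · simp
  have h3 := bhst_mul (bhst_C (k := k) (coeff s p)) (bhst_prod Finset.univ f h s)
  rw [zero_add, h1] at h3
  exact h3

/-- the new coordinates: `u = (w, 0) + y v` -/
private noncomputable def fst1 (k : ℕ) (v : Fin (k + 1 + 1) → ℂ) (i : Fin (k + 1 + 1)) :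
    Polynomial (Pp k) :=
  Fin.lastCases (motive := fun _ => Polynomial (Pp k)) 0 (fun l => Polynomial.C (X l)) i +
    Polynomial.C (C (v i)) * Polynomial.X

private theorem bhst_fst1 (k : ℕ) (v : Fin (k + 1 + 1) → ℂ) (i : Fin (k + 1 + 1)) :
    BHst k 1 (fst1 k v i) := by
  unfold fst1
  refine bhst_add ?_ ?_
  · refine Fin.lastCases ?_ (fun l => ?_) i
    · rw [Fin.lastCases_last]; exact bhst_zero
    · rw [Fin.lastCases_castSucc]
      intro q
      rw [Polynomial.coeff_C]
      split_ifs with h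
      · rw [h]
        exact ⟨isHomogeneous_X _ _, fun h' => absurd h' (by omega)⟩
      · exact ⟨isHomogeneous_zero _ _ _, fun _ => rfl⟩
  · intro q
    rw [Polynomial.coeff_C_mul, Polynomial.coeff_X]
    split_ifs with h
    · rw [← h, mul_one]
      exact ⟨isHomogeneous_C _ _, fun h' => absurd h' (lt_irrefl _)⟩
    · rw [mul_zero]
      exact ⟨isHomogeneous_zero _ _ _, fun _ => rfl⟩

private theorem eval_fst1 {k : ℕ} (v : Fin (k + 1 + 1) → ℂ) (w : Fin (k + 1) → ℂ) (y : ℂ)
    (u : Fin (k + 1 + 1) → ℂ) (hl : ∀ l, u (Fin.castSucc l) = w l + v (Fin.castSucc l) * y)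
    (hy : u (Fin.last _) = v (Fin.last _) * y) :
    ((Polynomial.evalRingHom y).comp (Polynomial.mapRingHom (eval w))).comp
      (aeval (R := ℂ) (fst1 k v)).toRingHom = eval u := by
  refine MvPolynomial.ringHom_ext (fun c => ?_) (fun i => ?_)
  · simp
  · refine Fin.lastCases ?_ (fun l => ?_) i
    · simp [fst1, hy]
    · simp [fst1, hl]

/-- moving the last variable -/
private def eqst (k j : ℕ) : Fin (k + 1) ⊕ Fin (j + 1) ≃ Fin (k + 1 + 1) ⊕ Fin j where
  toFun := Sum.elim (fun l => Sum.inl (Fin.castSucc l))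
    (fun i => Fin.lastCases (motive := fun _ => Fin (k + 1 + 1) ⊕ Fin j) (Sum.inl (Fin.last _))
      (fun i => Sum.inr i) i)
  invFun := Sum.elim
    (fun l => Fin.lastCases (motive := fun _ => Fin (k + 1) ⊕ Fin (j + 1)) (Sum.inr (Fin.last _))
      (fun l => Sum.inl l) l) (fun i => Sum.inr (Fin.castSucc i))
  left_inv := by
    rintro (l | i)
    · simp
    · refine Fin.lastCases ?_ (fun i => ?_) i <;> simp
  right_inv := by
    rintro (l | i)
    · refine Fin.lastCases ?_ (fun i => ?_) l <;> simp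
    · simp

/-- the change of the coordinates `u` -/
private noncomputable def tst (k : ℕ) (v : Fin (k + 1 + 1) → ℂ) (hv : v (Fin.last _) ≠ 0) :
    (Fin (k + 1 + 1) → ℂ) ≃ₗ[ℂ] (Fin (k + 1 + 1) → ℂ) where
  toFun u := Fin.lastCases (motive := fun _ => ℂ) (u (Fin.last _) / v (Fin.last _))
    (fun l => u (Fin.castSucc l) - v (Fin.castSucc l) * (u (Fin.last _) / v (Fin.last _)))
  map_add' a b := by
    funext i
    refine Fin.lastCases ?_ (fun l => ?_) i
    · simp [add_div]
    · simp [add_div]; ring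
  map_smul' c a := by
    funext i
    refine Fin.lastCases ?_ (fun l => ?_) i
    · simp [mul_div_assoc]
    · simp [mul_div_assoc]; ring
  invFun z := Fin.lastCases (motive := fun _ => ℂ) (v (Fin.last _) * z (Fin.last _))
    (fun l => z (Fin.castSucc l) + v (Fin.castSucc l) * z (Fin.last _))
  left_inv u := by
    funext i
    refine Fin.lastCases ?_ (fun l => ?_) i
    · simp; field_simp
    · simp
  right_inv z := by
    funext i
    refine Fin.lastCases ?_ (fun l => ?_) i
    · simp; field_simp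
    · simp; field_simp; ring

private theorem tst_symm_cast (k : ℕ) (v : Fin (k + 1 + 1) → ℂ) (hv : v (Fin.last _) ≠ 0)
    (z : Fin (k + 1 + 1) → ℂ) (l : Fin (k + 1)) : (tst k v hv).symm z (Fin.castSucc l) =
      z (Fin.castSucc l) + v (Fin.castSucc l) * z (Fin.last _) := by
  show Fin.lastCases (motive := fun _ => ℂ) (v (Fin.last _) * z (Fin.last _))
    (fun l => z (Fin.castSucc l) + v (Fin.castSucc l) * z (Fin.last _)) (Fin.castSucc l) = _
  rw [Fin.lastCases_castSucc]

private theorem tst_symm_last (k : ℕ) (v : Fin (k + 1 + 1) → ℂ) (hv : v (Fin.last _) ≠ 0)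
    (z : Fin (k + 1 + 1) → ℂ) : (tst k v hv).symm z (Fin.last _) =
      v (Fin.last _) * z (Fin.last _) := by
  show Fin.lastCases (motive := fun _ => ℂ) (v (Fin.last _) * z (Fin.last _))
    (fun l => z (Fin.castSucc l) + v (Fin.castSucc l) * z (Fin.last _)) (Fin.last _) = _
  rw [Fin.lastCases_last]

private theorem theta_st {m k j : ℕ} (v : Fin (k + 1 + 1) → ℂ) (hvl : v (Fin.last _) ≠ 0)
    (Ψ : (Fin (m + 1) → ℂ) ≃ₗ[ℂ] (Fin (k + 1 + 1) ⊕ Fin j → ℂ)) :
    ∃ Θ : (Fin (m + 1) → ℂ) ≃ₗ[ℂ] (Fin (k + 1) ⊕ Fin (j + 1) → ℂ), ∀ a,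
      (∀ l, Θ a (Sum.inl l) = tst k v hvl (fun i => Ψ a (Sum.inl i)) (Fin.castSucc l)) ∧
      Θ a (Sum.inr (Fin.last _)) = tst k v hvl (fun i => Ψ a (Sum.inl i)) (Fin.last _) ∧
      ∀ i, Θ a (Sum.inr (Fin.castSucc i)) = Ψ a (Sum.inr i) := by
  refine ⟨(Ψ.trans (((LinearEquiv.sumArrowLequivProdArrow (Fin (k + 1 + 1)) (Fin j) ℂ ℂ).trans
    ((tst k v hvl).prodCongr (LinearEquiv.refl ℂ (Fin j → ℂ)))).trans
    (LinearEquiv.sumArrowLequivProdArrow (Fin (k + 1 + 1)) (Fin j) ℂ ℂ).symm)).trans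
    (LinearEquiv.funCongrLeft ℂ ℂ (eqst k j)), fun a => ⟨fun l => ?_, ?_, fun i => ?_⟩⟩
  · rfl
  · have h1 : eqst k j (Sum.inr (Fin.last _)) = Sum.inl (Fin.last _) := by simp [eqst]
    simp only [LinearEquiv.trans_apply, LinearEquiv.funCongrLeft_apply, LinearMap.funLeft_apply, h1]
    rfl
  · have h1 : eqst k j (Sum.inr (Fin.castSucc i)) = Sum.inr i := by simp [eqst]
    simp only [LinearEquiv.trans_apply, LinearEquiv.funCongrLeft_apply, LinearMap.funLeft_apply, h1]
    rfl

/-- PIECE STSTEP -/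
theorem st_step {m k j E d : ℕ} {A : Finset (Fin (m + 1) → ℂ)}
    (Ψ : (Fin (m + 1) → ℂ) ≃ₗ[ℂ] (Fin (k + 1 + 1) ⊕ Fin j → ℂ))
    (h : ∀ i : Fin j, ∃ G : Polynomial (Pp (k + 1)), G.Monic ∧ G.natDegree ≤ E ∧ HomP G ∧
      ∀ a ∈ A, Rt G i (Ψ a))
    (p : Pp (k + 1)) (hp0 : p ≠ 0) (hp : p.IsHomogeneous d)
    (hv : ∀ a ∈ A, eval (Ψ a) (inc (j := j) p) = 0) :
    St m k (j + 1) (max d (E * d)) A := by
  classical
  -- the direction of the new last coordinate
  obtain ⟨v, hvp⟩ : ∃ v : Fin (k + 1 + 1) → ℂ, eval v (p * X (Fin.last _)) ≠ 0 := by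
    by_contra hcon
    push Not at hcon
    have h1 : p * X (Fin.last _) = 0 := MvPolynomial.funext fun v => by
      rw [hcon v, map_zero]
    exact (mul_ne_zero hp0 (X_ne_zero _)) h1
  rw [map_mul, eval_X] at hvp
  have hvp1 := left_ne_zero_of_mul hvp
  have hvl := right_ne_zero_of_mul hvp
  obtain ⟨P, hP⟩ : ∃ P, P = aeval (fst1 k v) p := ⟨_, rfl⟩
  have hB : BHst k d P := by rw [hP]; exact bhst_aeval _ (bhst_fst1 k v) hp
  have hPd : P.natDegree ≤ d :=
    Polynomial.natDegree_le_iff_coeff_eq_zero.mpr fun i hi => (hB i).2 hi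
  have hcd : P.coeff d = C (eval v p) := by
    have h1 := (hB d).1
    rw [Nat.sub_self] at h1
    have h2 : P.coeff d = C (coeff 0 (P.coeff d)) := by
      rw [← homogeneousComponent_zero, homogeneousComponent_eq_self h1]
    have h3 := congrArg (fun f => f p) (eval_fst1 v 0 1 v (fun l => by simp) (by simp))
    have h4 : eval v p = Polynomial.eval 1 (P.map (eval 0)) := by
      rw [hP]
      exact h3.symm
    have h5 : (P.map (eval 0)).natDegree < d + 1 :=
      lt_of_le_of_lt (Polynomial.natDegree_map_le) (Nat.lt_succ_of_le hPd)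
    rw [Polynomial.eval_eq_sum_range' h5, Finset.sum_range_succ, Finset.sum_eq_zero, zero_add,
      one_pow, mul_one, Polynomial.coeff_map, h2, eval_C] at h4
    · rw [h2, h4]
    · intro i hi
      rw [Polynomial.coeff_map, MvPolynomial.eval_zero, constantCoeff_eq,
        (hB i).1.coeff_eq_zero, zero_mul]
      have := Finset.mem_range.mp hi
      rw [map_zero]
      omega
  obtain ⟨c, hc⟩ : ∃ c, c = eval v p := ⟨_, rfl⟩
  rw [← hc] at hvp1 hcd
  obtain ⟨p1, hp1⟩ : ∃ p1, p1 = Polynomial.C (C c⁻¹) * P := ⟨_, rfl⟩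
  have hB1 : BHst k d p1 := by
    have := bhst_mul (bhst_C (k := k) c⁻¹) hB
    rwa [zero_add, ← hp1] at this
  have h1d : p1.coeff d = 1 := by
    rw [hp1, Polynomial.coeff_C_mul, hcd, ← map_mul, inv_mul_cancel₀ hvp1, map_one]
  have h1n : p1.natDegree ≤ d :=
    Polynomial.natDegree_le_iff_coeff_eq_zero.mpr fun i hi => (hB1 i).2 hi
  have hm1 : p1.Monic := Polynomial.monic_of_natDegree_le_of_coeff_eq_one d h1n h1d
  have hd1 : p1.natDegree = d :=
    Polynomial.natDegree_eq_of_le_of_coeff_ne_zero h1n (by rw [h1d]; exact one_ne_zero)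
  have hh1 : HomP p1 := fun l => by rw [hd1]; exact (hB1 l).1
  -- the new coordinates
  obtain ⟨Θ, hΘ⟩ := theta_st v hvl Ψ
  refine ⟨Θ, ?_⟩
  have hz : ∀ x : Fin (k + 1 + 1) ⊕ Fin j → ℂ, ∀ (w : Fin (k + 1) → ℂ) (y : ℂ),
      (∀ l, w l = tst k v hvl (fun i => x (Sum.inl i)) (Fin.castSucc l)) →
      (y = tst k v hvl (fun i => x (Sum.inl i)) (Fin.last _)) →
      ((Polynomial.evalRingHom y).comp (Polynomial.mapRingHom (eval w))).comp
      (aeval (R := ℂ) (fst1 k v)).toRingHom = eval fun i => x (Sum.inl i) := by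
    intro x w y hw hy
    have h1 := (tst k v hvl).symm_apply_apply (fun i => x (Sum.inl i))
    refine eval_fst1 v w y _ (fun l => ?_) ?_
    · rw [hw, hy, ← tst_symm_cast k v hvl]
      exact (congrFun h1 (Fin.castSucc l)).symm
    · rw [hy, ← tst_symm_last k v hvl]
      exact (congrFun h1 (Fin.last _)).symm
  intro i
  have hroot : ∀ a ∈ A, (p1.map (eval fun l => tst k v hvl (fun i => Ψ a (Sum.inl i))
      (Fin.castSucc l))).eval (tst k v hvl (fun i => Ψ a (Sum.inl i)) (Fin.last _)) = 0 := by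
    intro a ha
    have h1 := congrArg (fun f => f p) (hz (Ψ a) _ _ (fun _ => rfl) rfl)
    have h2 : eval (fun i => Ψ a (Sum.inl i)) p = 0 := by
      have h3 := hv a ha
      unfold inc at h3
      rw [eval_rename] at h3
      exact h3
    have h4 : (P.map (eval fun l => tst k v hvl (fun i => Ψ a (Sum.inl i))
      (Fin.castSucc l))).eval (tst k v hvl (fun i => Ψ a (Sum.inl i)) (Fin.last _)) = 0 := by
      rw [hP, ← h2]
      exact h1
    rw [hp1, Polynomial.map_mul, Polynomial.eval_mul, h4, mul_zero]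
  refine Fin.lastCases ?_ (fun i => ?_) i
  · refine ⟨p1, hm1, by rw [hd1]; exact le_max_left _ _, hh1, fun a ha => ?_⟩
    unfold Rt
    rw [(hΘ a).2.1, show (fun l => Θ a (Sum.inl l)) = fun l => tst k v hvl
      (fun i => Ψ a (Sum.inl i)) (Fin.castSucc l) from funext (hΘ a).1]
    exact hroot a ha
  · obtain ⟨G, hG, hGE, hGh, hGr⟩ := h i
    obtain ⟨G', h1, h2, h3, h4⟩ := elim (e := G.natDegree) p1 hm1 hd1 hh1
      (G.map (aeval (R := ℂ) (fst1 k v)).toRingHom) (hG.map _) (hG.natDegree_map _) (by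
        intro l i
        rw [Polynomial.coeff_map]
        exact bhst_aeval _ (bhst_fst1 k v) (hGh l) i)
    refine ⟨G', h1, h2.trans ?_, h3, fun a ha => ?_⟩
    · refine le_trans ?_ (le_max_right _ _)
      rw [mul_comm]
      exact Nat.mul_le_mul_right _ hGE
    · unfold Rt
      rw [(hΘ a).2.2, show (fun l => Θ a (Sum.inl l)) = fun l => tst k v hvl
        (fun i => Ψ a (Sum.inl i)) (Fin.castSucc l) from funext (hΘ a).1]
      refine h4 _ _ _ (hroot a ha) ?_
      have h5 := hGr a ha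
      unfold Rt at h5
      rw [Polynomial.map_map, Polynomial.map_map]
      have h6 := hz (Ψ a) _ _ (fun _ => rfl) rfl
      rw [RingHom.comp_assoc] at h6
      rw [RingHom.comp_assoc, h6]
      exact h5

end Pool.Agent.SQ
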