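import Mathlib
import Pool.Agent.Lib_MP_b9fedf_sq.Defs

/-! Piece STZERO: points all of whose coordinates are algebraic over one coordinate. -/

set_option autoImplicit false

namespace Pool.Agent.SQ
open MvPolynomial

private lemma fin_stzero (l : Fin (0 + 1)) : l = 0 := Fin.ext (by
  have := l.2
  simp only [Fin.val_zero]
  omega)

/-- scaling in one variable -/
private lemma eval_const_stzero {d : ℕ} {g : Pp 0} (hg : g.IsHomogeneous d) (c : ℂ) :
    eval (fun _ => c) g = c ^ d * eval (fun _ => 1) g := by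
  rw [eval_eq', eval_eq', Finset.mul_sum]
  refine Finset.sum_congr rfl fun s hs => ?_
  have h1 := hg (mem_support_iff.mp hs)
  have h2 : s 0 = d := by
    rw [← h1, Finsupp.weight_apply, Finsupp.sum_fintype]
    · simp
    · simp
  simp only [Finset.prod_pow_eq_pow_sum]
  simp [h2]
  ring

/-- the value of the polynomial `G` at a point with a single coordinate `u` -/
private lemma root_stzero {j : ℕ} {G : Polynomial (Pp 0)} (hG : G.Monic) (hh : HomP G)
    {i : Fin j} {y : Fin (0 + 1) ⊕ Fin j → ℂ} (hy : Rt G i y) :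
    (y (Sum.inl 0) = 0 → y (Sum.inr i) = 0) ∧
    (y (Sum.inl 0) ≠ 0 → y (Sum.inr i) / y (Sum.inl 0) ∈
      (G.map (eval (fun _ => (1 : ℂ)))).roots.toFinset) := by
  have hu : (fun l : Fin (0 + 1) => y (Sum.inl l)) = fun _ => y (Sum.inl 0) := by
    funext l
    rw [fin_stzero l]
  have hm1 : (G.map (eval (fun _ => (1 : ℂ)))).Monic := hG.map _
  unfold Rt at hy
  rw [hu, Polynomial.eval_map, Polynomial.eval₂_eq_sum_range] at hy
  have hy2 : ∑ l ∈ Finset.range (G.natDegree + 1),
      y (Sum.inl 0) ^ (G.natDegree - l) * eval (fun _ => (1 : ℂ)) (G.coeff l) *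
        y (Sum.inr i) ^ l = 0 := by
    rw [← hy]
    refine Finset.sum_congr rfl fun l _ => ?_
    rw [eval_const_stzero (hh l) (y (Sum.inl 0))]
  constructor
  · intro h0
    rw [h0, Finset.sum_range_succ] at hy2
    have hz : ∑ l ∈ Finset.range G.natDegree,
      (0 : ℂ) ^ (G.natDegree - l) * eval (fun _ => (1 : ℂ)) (G.coeff l) *
        y (Sum.inr i) ^ l = 0 := by
      refine Finset.sum_eq_zero fun l hl => ?_
      have : G.natDegree - l ≠ 0 := by
        have := Finset.mem_range.mp hl
        omega
      rw [zero_pow this]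
      ring
    rw [hz, zero_add, Nat.sub_self, pow_zero, one_mul] at hy2
    have h1 : G.coeff G.natDegree = 1 := hG
    rw [h1, map_one, one_mul] at hy2
    rcases Nat.eq_zero_or_pos G.natDegree with h | h
    · rw [h, pow_zero] at hy2
      exact absurd hy2 one_ne_zero
    · exact (pow_eq_zero_iff h.ne').mp hy2
  · intro h0
    rw [Multiset.mem_toFinset, Polynomial.mem_roots hm1.ne_zero, Polynomial.IsRoot.def,
      Polynomial.eval_map, Polynomial.eval₂_eq_sum_range]
    have h3 : y (Sum.inl 0) ^ G.natDegree * ∑ l ∈ Finset.range (G.natDegree + 1),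
        eval (fun _ => (1 : ℂ)) (G.coeff l) * (y (Sum.inr i) / y (Sum.inl 0)) ^ l = 0 := by
      rw [← hy2, Finset.mul_sum]
      refine Finset.sum_congr rfl fun l hl => ?_
      have hl' : l ≤ G.natDegree := by
        have := Finset.mem_range.mp hl
        omega
      have : y (Sum.inl 0) ^ G.natDegree = y (Sum.inl 0) ^ (G.natDegree - l) *
          y (Sum.inl 0) ^ l := by
        rw [← pow_add, Nat.sub_add_cancel hl']
      rw [this, div_pow]
      have h4 : y (Sum.inl 0) ^ l ≠ 0 := pow_ne_zero _ h0
      field_simp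
    rcases mul_eq_zero.mp h3 with h | h
    · exact absurd h (pow_ne_zero _ h0)
    · exact h

/-- PIECE STZERO -/
theorem st_zero {m j E : ℕ} {A : Finset (Fin (m + 1) → ℂ)} (hA : PW A) (h : St m 0 j E A) :
    A.card ≤ E ^ j := by
  classical
  obtain ⟨Ψ, hΨ⟩ := h
  choose G hG hE hh hR using hΨ
  have hne : ∀ a ∈ A, Ψ a (Sum.inl 0) ≠ 0 := by
    intro a ha h0
    apply (hA a ha).1
    have : Ψ a = 0 := by
      funext s
      rcases s with s | i
      · rw [fin_stzero s]
        exact h0
      · exact (root_stzero (hG i) (hh i) (hR i a ha)).1 h0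
    exact (LinearEquiv.map_eq_zero_iff Ψ).mp this
  set φ : (Fin (m + 1) → ℂ) → (Fin j → ℂ) := fun a i => Ψ a (Sum.inr i) / Ψ a (Sum.inl 0) with hφ
  set R : Fin j → Finset ℂ := fun i => ((G i).map (eval (fun _ => (1 : ℂ)))).roots.toFinset
    with hRdef
  have hmaps : Set.MapsTo φ (A : Set (Fin (m + 1) → ℂ)) (Fintype.piFinset R) := by
    intro a ha
    rw [Finset.mem_coe, Fintype.mem_piFinset]
    intro i
    exact (root_stzero (hG i) (hh i) (hR i a ha)).2 (hne a ha)
  have hinj : (A : Set (Fin (m + 1) → ℂ)).InjOn φ := by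
    intro a ha b hb hab
    by_contra hne'
    have hli := (hA a ha).2 b hb hne'
    have h1 : Ψ a = (Ψ a (Sum.inl 0) / Ψ b (Sum.inl 0)) • Ψ b := by
      funext s
      rcases s with s | i
      · rw [fin_stzero s, Pi.smul_apply, smul_eq_mul, div_mul_cancel₀ _ (hne b hb)]
      · have h2 : Ψ a (Sum.inr i) / Ψ a (Sum.inl 0) = Ψ b (Sum.inr i) / Ψ b (Sum.inl 0) :=
          congrFun hab i
        have ha0 := hne a ha
        have hb0 := hne b hb
        rw [Pi.smul_apply, smul_eq_mul]
        rw [div_eq_div_iff ha0 hb0] at h2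
        field_simp
        linear_combination h2
    have h2 : a = (Ψ a (Sum.inl 0) / Ψ b (Sum.inl 0)) • b := by
      apply Ψ.injective
      rw [map_smul]
      exact h1
    rw [LinearIndependent.pair_iff] at hli
    have h3 := hli 1 (-(Ψ a (Sum.inl 0) / Ψ b (Sum.inl 0))) (by
      rw [one_smul, neg_smul, ← h2, add_neg_cancel])
    exact one_ne_zero h3.1
  have hcard := Finset.card_le_card_of_injOn φ hmaps hinj
  refine hcard.trans ?_
  rw [Fintype.card_piFinset]
  calc ∏ i, (R i).card ≤ ∏ _i : Fin j, E := by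
        refine Finset.prod_le_prod' fun i _ => ?_
        refine (Multiset.toFinset_card_le _).trans ((Polynomial.card_roots' _).trans ?_)
        exact (Polynomial.natDegree_map_le).trans (hE i)
    _ = E ^ j := by
        rw [Finset.prod_const, Finset.card_univ, Fintype.card_fin]

end Pool.Agent.SQ
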