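import Pool.Agent.Lib_MP_b9fedf_sq.PackAll
import Pool.Agent.Lib_MP_b9fedf_sq.Refine
import Pool.Agent.Lib_MP_b9fedf_sq.StZero
import Pool.Agent.Lib_MP_b9fedf_sq.StStep
import Pool.Agent.Lib_MP_b9fedf_sq.Mini
import Pool.Agent.Lib_MP_b9fedf_sq.CiOf

/-! Selection of a large good subset. -/

set_option autoImplicit false

namespace Pool.Agent.SQ
open MvPolynomial

theorem st_mono {m k j E E' : ℕ} (h : E ≤ E') {A : Finset (Fin (m + 1) → ℂ)}
    (hA : St m k j E A) : St m k j E' A := by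
  obtain ⟨Ψ, hΨ⟩ := hA
  refine ⟨Ψ, fun i => ?_⟩
  obtain ⟨G, h1, h2, h3, h4⟩ := hΨ i
  exact ⟨G, h1, h2.trans h, h3, h4⟩

theorem pw_subset {τ : Type} {A A' : Finset (τ → ℂ)} (h : A' ⊆ A) (hA : PW A) : PW A' :=
  fun a ha => ⟨(hA a (h ha)).1, fun b hb => (hA a (h ha)).2 b (h hb)⟩

theorem select_aux (m M₀ : ℕ) (Di Dp : ℕ → ℕ → ℕ → ℕ) (k : ℕ) : ∀ (j E : ℕ), k + j = m →
    ∃ N : ℕ, ∀ A : Finset (Fin (m + 1) → ℂ),
    PW A → St m k j E A → N < A.card → ∃ k j : ℕ, 1 ≤ k ∧ k + j = m ∧ ∃ A' ⊆ A, M₀ < A'.card ∧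
    ∃ (Ψ : (Fin (m + 1) → ℂ) ≃ₗ[ℂ] (Fin (k + 1) ⊕ Fin j → ℂ)) (I : Ideal (Sp k j)) (r : ℕ)
      (b : Fin r → Sp k j) (db : Fin r → ℕ), CI I r b db ∧
      (∀ a ∈ A', ∀ s ∈ I, eval (Ψ a) s = 0) ∧
      Irr (Di k j r) (Ψ '' (A' : Set (Fin (m + 1) → ℂ))) ∧
      PDense (Dp k j r) (Ψ '' (A' : Set (Fin (m + 1) → ℂ))) := by
  classical
  induction k with
  | zero =>
    intro j E _
    refine ⟨E ^ j, fun A hA hst hcard => ?_⟩
    exact absurd (st_zero hA hst) (by omega)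
  | succ k ih =>
    intro j E hkj
    set D₁ := (Finset.range (E ^ j + 1)).sup (fun r => Di (k + 1) j r) with hD₁
    set D₂ := (Finset.range (E ^ j + 1)).sup (fun r => Dp (k + 1) j r) with hD₂
    obtain ⟨B, hB⟩ := refine_irr (τ := Fin (k + 1 + 1) ⊕ Fin j) D₁
    set E' := max D₂ (E * D₂) with hE'
    obtain ⟨N', hN'⟩ := ih (j + 1) E' (by omega)
    refine ⟨B * max N' M₀, fun A hA hst hcard => ?_⟩
    obtain ⟨Ψ, hΨ⟩ := hst
    obtain ⟨A'', hA''sub, hA''card, hA''irr⟩ := hB (A.image Ψ)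
    rw [Finset.card_image_of_injective _ Ψ.injective] at hA''card
    have hcard2 : max N' M₀ < A''.card := by
      by_contra hcon
      push Not at hcon
      have := Nat.mul_le_mul_left B hcon
      omega
    set A' := A.filter (fun a => Ψ a ∈ A'') with hA'
    have hA'sub : A' ⊆ A := Finset.filter_subset _ _
    have himg : A'.image Ψ = A'' := by
      ext y
      rw [Finset.mem_image]
      constructor
      · rintro ⟨a, ha, rfl⟩
        exact (Finset.mem_filter.mp ha).2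
      · intro hy
        obtain ⟨a, ha, rfl⟩ := Finset.mem_image.mp (hA''sub hy)
        exact ⟨a, Finset.mem_filter.mpr ⟨ha, hy⟩, rfl⟩
    have hcard3 : A'.card = A''.card := by
      rw [← himg, Finset.card_image_of_injective _ Ψ.injective]
    have himg' : Ψ '' (A' : Set (Fin (m + 1) → ℂ)) =
        (A'' : Set (Fin (k + 1 + 1) ⊕ Fin j → ℂ)) := by
      rw [← himg, Finset.coe_image]
    choose G hGm hGE hGh hGR using hΨ
    by_cases hpd : PDense D₂ (A'' : Set (Fin (k + 1 + 1) ⊕ Fin j → ℂ))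
    · have hs : ∀ i : Fin j, ∃ G' : Polynomial (Pp (k + 1)), G'.Monic ∧
          G'.natDegree ≤ (G i).natDegree ∧ HomP G' ∧ Sepa G' ∧ ∀ a ∈ A'', Rt G' i a := by
        intro i
        apply exists_sepa i A'' (G i) (hGm i) (hGh i)
        intro a ha
        rw [← himg] at ha
        obtain ⟨a', ha', rfl⟩ := Finset.mem_image.mp ha
        exact hGR i a' (hA'sub ha')
      choose G' hG'm hG'd hG'h hG's hG'R using hs
      obtain ⟨r, hr, b, db, hCI⟩ := ci_of G' hG'm (fun i => (hG'd i).trans (hGE i)) hG'h hG's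
      refine ⟨k + 1, j, by omega, hkj, A', hA'sub, ?_, Ψ, YI G', r, b, db, hCI, ?_, ?_, ?_⟩
      · have := le_max_right N' M₀
        omega
      · intro a ha s hs
        apply hs
        intro i
        apply hG'R i
        rw [← himg]
        exact Finset.mem_image_of_mem Ψ ha
      · rw [himg']
        exact irr_mono (Finset.le_sup (f := fun r => Di (k + 1) j r)
          (Finset.mem_range.mpr (by omega))) hA''irr
      · rw [himg']
        exact pdense_mono (Finset.le_sup (f := fun r => Dp (k + 1) j r)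
          (Finset.mem_range.mpr (by omega))) hpd
    · unfold PDense at hpd
      push Not at hpd
      obtain ⟨d, hd, p, hp, hv, hp0⟩ := hpd
      have h1 : St m k (j + 1) (max d (E * d)) A' := by
        apply st_step Ψ (fun i => ⟨G i, hGm i, hGE i, hGh i, fun a ha => hGR i a (hA'sub ha)⟩)
          p hp0 hp
        intro a ha
        apply hv
        rw [← himg]
        exact Finset.mem_coe.mpr (Finset.mem_image_of_mem Ψ ha)
      have h2 : St m k (j + 1) E' A' :=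
        st_mono (max_le_max hd (Nat.mul_le_mul_left E hd)) h1
      obtain ⟨k', j', hk', hkj', A₁, hA₁, hrest⟩ := hN' A' (pw_subset hA'sub hA) h2 (by
        have := le_max_left N' M₀
        omega)
      exact ⟨k', j', hk', hkj', A₁, hA₁.trans hA'sub, hrest⟩

theorem st_start (m E : ℕ) (A : Finset (Fin (m + 1) → ℂ)) : St m m 0 E A := by
  refine ⟨LinearEquiv.funCongrLeft ℂ ℂ (Equiv.sumEmpty (Fin (m + 1)) (Fin 0)), fun i => ?_⟩
  exact i.elim0

theorem select (m M₀ : ℕ) (Di Dp : ℕ → ℕ → ℕ → ℕ) : ∃ N : ℕ, ∀ A : Finset (Fin (m + 1) → ℂ),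
    PW A → N < A.card → ∃ k j : ℕ, 1 ≤ k ∧ k + j = m ∧ ∃ A' ⊆ A, M₀ < A'.card ∧
    ∃ (Ψ : (Fin (m + 1) → ℂ) ≃ₗ[ℂ] (Fin (k + 1) ⊕ Fin j → ℂ)) (I : Ideal (Sp k j)) (r : ℕ)
      (b : Fin r → Sp k j) (db : Fin r → ℕ), CI I r b db ∧
      (∀ a ∈ A', ∀ s ∈ I, eval (Ψ a) s = 0) ∧
      Irr (Di k j r) (Ψ '' (A' : Set (Fin (m + 1) → ℂ))) ∧
      PDense (Dp k j r) (Ψ '' (A' : Set (Fin (m + 1) → ℂ))) := by
  obtain ⟨N, hN⟩ := select_aux m M₀ Di Dp m 0 0 (by omega)
  exact ⟨N, fun A hA hcard => hN A hA (st_start m 0 A) hcard⟩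

end Pool.Agent.SQ
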