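import Mathlib

/-! Definitions used in the statement on varieties over projective space which are multiple along
many hypersurfaces. -/

set_option autoImplicit false

namespace Pool.Agent.SQ

/-- Let `X = V(S)`, let `φ = [φ_0 : … : φ_n]` be a rational map from `X` to `ℙⁿ` and `D` a finite
set of forms on `ℙⁿ`.  Along every holomorphic arc `γ` of `X`: if two members of `D` vanish to the
orders `a` and `a + 1`, then at most `M` members of `D` vanish to order at least `a`.  (So for
`M ≤ 1` the orders of two members of `D` never differ by exactly one.) -/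
def Multiple {m n : ℕ} (M : ℕ) (S : Set (MvPolynomial (Fin (m + 1)) ℂ))
    (φ : Fin (n + 1) → MvPolynomial (Fin (m + 1)) ℂ)
    (D : Finset (MvPolynomial (Fin (n + 1)) ℂ)) : Prop :=
  ∀ γ : ℂ → (Fin (m + 1) → ℂ), AnalyticAt ℂ γ 0 → γ 0 ≠ 0 →
    (∀ᶠ z in nhds 0, ∀ p ∈ S, MvPolynomial.eval (γ z) p = 0) →
    ∀ P ∈ D, ∀ P' ∈ D, ∀ a : ℕ,
      analyticOrderAt (fun z => MvPolynomial.eval (γ z) (MvPolynomial.aeval φ P')) 0 = a →
      analyticOrderAt (fun z => MvPolynomial.eval (γ z) (MvPolynomial.aeval φ P)) 0 =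
        ((a + 1 : ℕ) : ℕ∞) →
      ∀ A ⊆ D, (∀ Q ∈ A, (a : ℕ∞) ≤
        analyticOrderAt (fun z => MvPolynomial.eval (γ z) (MvPolynomial.aeval φ Q)) 0) →
        A.card ≤ M

end Pool.Agent.SQ
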